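import Pool.Agent.H2.TG.Bot

/-!
# The action function (module Act)

`XF v Θ 1 x = (- sin (Θ x) • v, cos (Θ x))`, `g x = x.2 * sin (Θ x)` (smooth, bounded: it vanishes for
`|x.2| ≥ M`, so `|g| ≤ M`; invariant under the lattice).

PROOF. Extended field on `V = (E n × ℝ) × ℝ`: `Y (x, a) = (XF v Θ 1 x, g x)`, smooth and bounded; flow `Ψ̂`
(`exists_isFlow`). By uniqueness `(Ψ̂ t (x, a)).1 = Ψ t x` and `(Ψ̂ t (x, a)).2 = a + G t x`,
`G t x = (Ψ̂ t (x, 0)).2`, with `G (s + t) x = G t x + G s (Ψ t x)` (flow property and translation invariance in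
`a`), `G t` smooth, `d/dt G t x = g (Ψ t x)`. For `b.2 ≤ -M` and `t ≤ 0`: `G t b = 0` (the orbit is in the region
`r ≤ -M` where `g = 0`: `x_down`).
`F R x = - G (-τ₁) x` with `τ₁ = τ₁(R)` from `low` (a chosen function of `R`). Two such times agree at `x`: if
`t ≤ t'` are large, `G (-t') x = G (-t) x + G (-(t' - t)) (Ψ (-t) x) = G (-t) x`, the point `Ψ (-t) x` being at the
bottom. `exists_patch` gives `A` smooth with `A x = - G (-t) x` for all large `t` (`t ≥ τ₁(x.2 + 1)`).
`bot`: for `x.2 ≤ -M`: `G (-t) x = 0`. `inv`: `Ψ̂` commutes with the translation by `((g, 0), 0)`.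
Derivative along the field: for small `h` and a large fixed `t`,
`A (Ψ h x) = - G (-t) (Ψ h x)`; and `G (h - t) x = G h x + G (-t) (Ψ h x)`, while
`G (h - t) x = G (-t) x + G h (Ψ (-t) x)`, where `G h (Ψ (-t) x) = 0` for small `h` if `(Ψ (-t) x).2 < -M` (take `t`
larger by `1`: the orbit stays at the bottom, `g = 0`). So `A (Ψ h x) = G h x - G (-t) x = A x + G h x`, whose
derivative at `h = 0` is `g x`; the left side has derivative `DA(x)(XF v Θ 1 x)`.
-/

set_option autoImplicit false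

open scoped ContDiff Topology RealInnerProductSpace
open Set

namespace Pool.Agent.H2.TG

open Pool.Agent.H57.NL

variable {n : ℕ} {v : E n} {Θ : E n × ℝ → ℝ} {U : Set (E n)} {M T : ℝ}
  {τ : ℝ} {Ψ : ℝ → E n × ℝ → E n × ℝ}

private lemma theta_zero (hP : Phase v Θ U M T) {x : E n × ℝ} (hx : x.2 ≤ -M) : Θ x = 0 := by
  apply hP.supp
  have := hP.hM
  rw [abs_of_nonpos (by linarith)]
  linarith

/-- The extended field. -/
private noncomputable def YF (v : E n) (Θ : E n × ℝ → ℝ) (p : (E n × ℝ) × ℝ) : (E n × ℝ) × ℝ :=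
  (XF v Θ 1 p.1, p.1.2 * Real.sin (Θ p.1))

private lemma YF_smooth (hP : Phase v Θ U M T) : ContDiff ℝ ∞ (YF v Θ) := by
  unfold YF
  refine ((XF_contDiff hP 1).comp contDiff_fst).prodMk ?_
  exact (contDiff_snd.comp contDiff_fst).mul
    (Real.contDiff_sin.comp (hP.smooth.comp contDiff_fst))

private lemma YF_bdd (hP : Phase v Θ U M T) (p : (E n × ℝ) × ℝ) : ‖YF v Θ p‖ ≤ max 1 M := by
  unfold YF XF
  rw [Prod.norm_def, Prod.norm_def]
  refine max_le (max_le ?_ ?_) ?_
  · rw [norm_smul, hP.hv, mul_one, norm_neg]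
    exact le_max_of_le_left (Real.abs_sin_le_one _)
  · exact le_max_of_le_left (Real.abs_cos_le_one _)
  · simp only
    rw [norm_mul, Real.norm_eq_abs, Real.norm_eq_abs]
    rcases le_or_gt M |p.1.2| with h | h
    · rw [hP.supp p.1 h]
      simp [hP.hM.le]
    · refine le_max_of_le_right ?_
      calc |p.1.2| * |Real.sin (Θ p.1)| ≤ |p.1.2| * 1 := by
            gcongr
            exact Real.abs_sin_le_one _
        _ ≤ M := by linarith

theorem exists_action (hP : Phase v Θ U M T) (hF : IsFlow (XF v Θ 1) Ψ) (hτ : 0 < τ)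
    (hG : GoodT M τ Ψ) : ∃ A : E n × ℝ → ℝ, ContDiff ℝ ∞ A ∧
      (∀ x : E n × ℝ, x.2 ≤ -M → A x = 0) ∧
      (∀ g ∈ lat n, ∀ x : E n × ℝ, A (x.1 + g, x.2) = A x) ∧
      ∀ x, fderiv ℝ A x (XF v Θ 1 x) = x.2 * Real.sin (Θ x) := by
  have hX : ContDiff ℝ ∞ (XF v Θ 1) := XF_contDiff hP 1
  have hY : ContDiff ℝ ∞ (YF v Θ) := YF_smooth hP
  obtain ⟨Ψh, hΨh⟩ := exists_isFlow hY (YF_bdd hP)
  have h1 : ∀ t p, (Ψh t p).1 = Ψ t p.1 := by
    intro t p
    have := hF.unique hX (γ := fun t => (Ψh t p).1) (fun t => (hΨh.deriv p t).fst) t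
    simp only [hΨh.zero] at this
    exact this
  set G : ℝ → E n × ℝ → ℝ := fun t x => (Ψh t (x, 0)).2 with hGdef
  have h2 : ∀ t x a, Ψh t (x, a) = (Ψ t x, a + G t x) := by
    intro t x a
    have := hΨh.trans hY (w := ((0 : E n × ℝ), a)) (fun p => by simp [YF]) t (x, 0)
    have e : ((x, 0) + ((0 : E n × ℝ), a) : (E n × ℝ) × ℝ) = (x, a) := by simp
    rw [e] at this
    rw [this]
    ext1
    · simp [h1]
    · simp [hGdef, add_comm]
  have h3 : ∀ s t x, G (s + t) x = G t x + G s (Ψ t x) := by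
    intro s t x
    have := hΨh.add hY s t (x, 0)
    rw [h2 t x 0, h2 s, h2 (s + t)] at this
    have := congrArg Prod.snd this
    simp only at this
    linarith
  have h4 : ∀ t, ContDiff ℝ ∞ (G t) := fun t =>
    contDiff_snd.comp ((hΨh.contDiff_t t).comp (contDiff_id.prodMk contDiff_const))
  have h5 : ∀ x t, HasDerivAt (fun t => G t x) ((Ψ t x).2 * Real.sin (Θ (Ψ t x))) t := by
    intro x t
    have := (hΨh.deriv (x, 0) t).snd
    simp only [YF, h1] at this
    exact this
  have h0 : ∀ x, G 0 x = 0 := fun x => by simp [hGdef, hΨh.zero]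
  have h6 : ∀ b : E n × ℝ, b.2 ≤ -M → ∀ t ≤ 0, G t b = 0 := by
    intro b hb t ht
    have hc : ∀ s ∈ Icc t 0, G s b = G t b := by
      refine constant_of_has_deriv_right_zero
        (fun s _ => (h5 b s).continuousAt.continuousWithinAt) fun s hs => ?_
      have h7 := h5 b s
      have h8 := x_down hP hF hb hs.2.le
      have h9 : Θ (Ψ s b) = 0 := by
        rw [h8]
        exact theta_zero hP (by simpa using by linarith [hs.2])
      rw [h9, Real.sin_zero, mul_zero] at h7
      exact h7.hasDerivWithinAt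
    rw [← hc 0 ⟨ht, le_rfl⟩, h0]
  have h7 : ∀ x t t', t ≤ t' → (Ψ (-t) x).2 ≤ -M → G (-t') x = G (-t) x := by
    intro x t t' htt hx
    have := h3 (-(t' - t)) (-t) x
    rw [h6 _ hx _ (by linarith)] at this
    have e : -(t' - t) + -t = -t' := by ring
    rw [e] at this
    linarith
  choose τ₁ hτ₁ hlow using fun R => low hP hF hτ hG R
  obtain ⟨A, hA, hAF⟩ := exists_patch (fun R x => -G (-τ₁ R) x) (fun R => (h4 _).neg) (by
    intro R R' x hR hR'
    have a := h7 x (τ₁ R) (max (τ₁ R) (τ₁ R')) (le_max_left _ _)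
      (hlow R x hR.le _ le_rfl)
    have b := h7 x (τ₁ R') (max (τ₁ R) (τ₁ R')) (le_max_right _ _)
      (hlow R' x hR'.le _ le_rfl)
    rw [← a, ← b])
  have h8 : ∀ x t, (Ψ (-t) x).2 ≤ -M → A x = -G (-t) x := by
    intro x t ht
    have hx : x.2 < x.2 + 1 := by linarith
    rw [hAF (x.2 + 1) x hx]
    have a := h7 x t (max t (τ₁ (x.2 + 1))) (le_max_left _ _) ht
    have b := h7 x (τ₁ (x.2 + 1)) (max t (τ₁ (x.2 + 1))) (le_max_right _ _)
      (hlow _ x hx.le _ le_rfl)
    rw [← a, ← b]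
  refine ⟨A, hA, ?_, ?_, ?_⟩
  · intro x hx
    rw [h8 x 0 (by rw [neg_zero, hF.zero]; exact hx), neg_zero, h0, neg_zero]
  · intro g hg x
    have ht := hlow x.2 x le_rfl _ le_rfl
    rw [h8 x _ ht]
    have hi : ∀ t, G t (x.1 + g, x.2) = G t x := by
      intro t
      have := hΨh.trans hY (w := (((g, 0) : E n × ℝ), (0 : ℝ))) (fun p => by
        have e := hP.inv g hg p.1
        have e1 : (p + (((g, 0) : E n × ℝ), (0 : ℝ))).1 = (p.1.1 + g, p.1.2) := by
          ext1 <;> simp
        simp only [YF, XF]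
        rw [e1, e]) t (x, 0)
      have e : ((x, 0) + (((g, 0) : E n × ℝ), (0 : ℝ)) : (E n × ℝ) × ℝ)
          = ((x.1 + g, x.2), 0) := by
        ext1
        · ext1 <;> simp
        · simp
      rw [e] at this
      simp only [hGdef]
      rw [this]
      simp
    rw [h8 (x.1 + g, x.2) (τ₁ x.2) (by
      rw [x_trans hP hF hg x]
      exact ht), hi]
  · intro x
    have key : ∀ h, A (Ψ h x) = A x + G h x := by
      intro h
      have ht := hlow x.2 x le_rfl _ le_rfl
      set t := τ₁ x.2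
      have e1 : Ψ (-(t + h)) (Ψ h x) = Ψ (-t) x := by
        rw [hF.add hX]
        congr 1
        ring
      rw [h8 x t ht, h8 (Ψ h x) (t + h) (by rw [e1]; exact ht)]
      have := h3 (-(t + h)) h x
      have e2 : -(t + h) + h = -t := by ring
      rw [e2] at this
      linarith
    have hd1 : HasDerivAt (fun h => A (Ψ h x)) (fderiv ℝ A x (XF v Θ 1 x)) 0 := by
      have hd := hF.deriv x 0
      rw [hF.zero] at hd
      have hdA : DifferentiableAt ℝ A (Ψ 0 x) := (hA.differentiable (by simp)) _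
      have := hdA.hasFDerivAt.comp_hasDerivAt (0 : ℝ) hd
      rw [hF.zero] at this
      exact this
    have hd2 : HasDerivAt (fun h => A x + G h x) (x.2 * Real.sin (Θ x)) 0 := by
      have := (h5 x 0).const_add (A x)
      rw [hF.zero] at this
      exact this
    have hfun : (fun h => A (Ψ h x)) = fun h => A x + G h x := funext key
    rw [hfun] at hd1
    exact hd1.unique hd2

end Pool.Agent.H2.TG
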