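import Pool.Agent.H2.TG.Defs

/-!
# Angles (module Angle)

PROOFS.
* `angle_unique`: `(a, b) ≠ 0` is orthogonal to `(cos φ, sin φ)` and to `(cos ψ, sin ψ)`, so
  `sin (φ - ψ) = sin φ cos ψ - cos φ sin ψ = 0` (multiply by `a` resp. `b`: e.g.
  `a (sin φ cos ψ - cos φ sin ψ) = sin φ (a cos ψ) - (a cos φ) sin ψ = - b sin φ sin ψ + b sin φ sin ψ = 0`, same for
  `b`), so `φ - ψ = k π` (`Real.sin_eq_zero_iff`).
* `angle_exists`: `(b, -a)` normalised is `(cos φ, sin φ)`: e.g. `φ = Complex.arg (b - a I)`, or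
  `φ = π / 2` if `b = 0`, `φ = Real.arctan (-a / b)` otherwise.
* `smooth_angle`: put `α y = a y cos φ0 + b y sin φ0`, `β y = - a y sin φ0 + b y cos φ0`. `α x0 = 0`, so
  `β x0 ≠ 0` (`a² + b² = α² + β²`). Let `W' = {y ∈ W | β y ≠ 0}` (open, `β` is continuous on the open `W`),
  `ϑ y = φ0 - arctan (α y / β y)`. With `ψ = -arctan (α / β)`: `a cos (φ0 + ψ) + b sin (φ0 + ψ) =
  α cos ψ + β sin ψ = cos ψ (α + β tan ψ) = 0`.
-/

set_option autoImplicit false

open scoped ContDiff Topology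
open Set Real

namespace Pool.Agent.H2.TG

theorem angle_unique {a b φ ψ : ℝ} (hab : ¬ (a = 0 ∧ b = 0)) (h1 : a * cos φ + b * sin φ = 0)
    (h2 : a * cos ψ + b * sin ψ = 0) : ∃ k : ℤ, φ = ψ + k * π := by
  have hs : sin (φ - ψ) = 0 := by
    rw [sin_sub]
    by_contra hne
    apply hab
    constructor
    · have : a * (sin φ * cos ψ - cos φ * sin ψ) = 0 := by
        linear_combination sin φ * h2 - sin ψ * h1
      rcases mul_eq_zero.mp this with h | h
      · exact h
      · exact absurd h hne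
    · have : b * (sin φ * cos ψ - cos φ * sin ψ) = 0 := by
        linear_combination cos ψ * h1 - cos φ * h2
      rcases mul_eq_zero.mp this with h | h
      · exact h
      · exact absurd h hne
  obtain ⟨k, hk⟩ := Real.sin_eq_zero_iff.mp hs
  exact ⟨k, by linarith⟩

theorem angle_exists (a b : ℝ) : ∃ φ : ℝ, a * cos φ + b * sin φ = 0 := by
  by_cases hb : b = 0
  · exact ⟨π / 2, by simp [hb]⟩
  · refine ⟨arctan (-a / b), ?_⟩
    have hc : cos (arctan (-a / b)) ≠ 0 := (cos_arctan_pos _).ne'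
    have ht : sin (arctan (-a / b)) = (-a / b) * cos (arctan (-a / b)) := by
      have := tan_arctan (-a / b)
      rw [tan_eq_sin_div_cos, div_eq_iff hc] at this
      exact this
    rw [ht]
    field_simp
    ring

theorem smooth_angle {V : Type*} [NormedAddCommGroup V] [NormedSpace ℝ V] {W : Set V}
    (hW : IsOpen W) {a b : V → ℝ} (ha : ContDiffOn ℝ ∞ a W) (hb : ContDiffOn ℝ ∞ b W) {x0 : V}
    (hx0 : x0 ∈ W) (h0 : ¬ (a x0 = 0 ∧ b x0 = 0)) {φ0 : ℝ}
    (hφ : a x0 * cos φ0 + b x0 * sin φ0 = 0) :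
    ∃ (W' : Set V) (ϑ : V → ℝ), IsOpen W' ∧ W' ⊆ W ∧ x0 ∈ W' ∧ ContDiffOn ℝ ∞ ϑ W' ∧ ϑ x0 = φ0 ∧
      ∀ y ∈ W', a y * cos (ϑ y) + b y * sin (ϑ y) = 0 := by
  set α : V → ℝ := fun y => a y * cos φ0 + b y * sin φ0 with hα
  set β : V → ℝ := fun y => -(a y * sin φ0) + b y * cos φ0 with hβ
  have hαs : ContDiffOn ℝ ∞ α W := (ha.mul contDiffOn_const).add (hb.mul contDiffOn_const)
  have hβs : ContDiffOn ℝ ∞ β W := (ha.mul contDiffOn_const).neg.add (hb.mul contDiffOn_const)
  have hβ0 : β x0 ≠ 0 := by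
    intro h
    apply h0
    have h1 : -(a x0 * sin φ0) + b x0 * cos φ0 = 0 := h
    have hsc := sin_sq_add_cos_sq φ0
    constructor
    · linear_combination cos φ0 * hφ - sin φ0 * h1 - a x0 * hsc
    · linear_combination sin φ0 * hφ + cos φ0 * h1 - b x0 * hsc
  have hW' : IsOpen (W ∩ β ⁻¹' {0}ᶜ) :=
    hβs.continuousOn.isOpen_inter_preimage hW isOpen_compl_singleton
  refine ⟨W ∩ β ⁻¹' {0}ᶜ, fun y => φ0 - arctan (α y / β y), hW', inter_subset_left,
    ⟨hx0, hβ0⟩, ?_, ?_, ?_⟩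
  · refine contDiffOn_const.sub ?_
    exact Real.contDiff_arctan.comp_contDiffOn
      ((hαs.mono inter_subset_left).div (hβs.mono inter_subset_left) fun y hy => hy.2)
  · have : α x0 = 0 := hφ
    simp [this]
  · rintro y ⟨_, hy⟩
    have hy0 : β y ≠ 0 := hy
    have hc : cos (arctan (α y / β y)) ≠ 0 := (cos_arctan_pos _).ne'
    have ht : sin (arctan (α y / β y)) * β y = α y * cos (arctan (α y / β y)) := by
      have := tan_arctan (α y / β y)
      rw [tan_eq_sin_div_cos, div_eq_iff hc] at this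
      rw [this]
      field_simp
    simp only
    rw [cos_sub, sin_sub]
    have ht' : sin (arctan (α y / β y)) * (-(a y * sin φ0) + b y * cos φ0)
        = (a y * cos φ0 + b y * sin φ0) * cos (arctan (α y / β y)) := ht
    linear_combination (-1 : ℝ) * ht'

end Pool.Agent.H2.TG
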