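import Pool.Agent.H2.TG.Tor

/-!
# Averaging over the lattice (module Avg)

PROOF of `exists_avg`. Let `R` be as in `lat_cocpt`. Take a smooth bump function
`ρ : ℝ^n → [0,1]` (`ContDiffBump` with center `0`, `rIn = R + 1` or `max R 1`), `ρ = 1` on the ball of
radius `R`, support in the ball of radius `R'`. Put `D q = ∑ᶠ g : lat n, ρ (q + g)` (`finsum` over the
subtype, or over the elements of the type `lat n`). The family is locally finite: for `‖q‖ < r` only the
`g` with `‖g‖ ≤ r + R'` contribute (finitely many by `lat_finite`), so on each ball `D` is a finite sum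
over a fixed finset, hence smooth; `D q ≥ 1` because `‖q + g‖ ≤ R` for some `g`; `D` is invariant (shift
of the index, `finsum_comp_equiv` with `Equiv.addRight`). Put `w g q = ρ (q + g) / D q`; then
`w g ≥ 0`, `∑ᶠ w g q = 1`. Define `F' (q, p) = ∑ᶠ g, w g q * F (q + g, p)`; locally a finite sum of
smooth functions; invariant: `w g (q + h) = w (g + h) q`; if all values `F (q + g, p)` are `k` then
`F' (q, p) = k · ∑ w = k`; if `|F| ≤ K` then `|F'| ≤ K ∑ w = K`.
Recommended: first a lemma that a function which on every ball coincides with a finite sum over a fixed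
finset of smooth functions is smooth (`contDiff_iff_contDiffAt`, `ContDiffAt.congr_of_eventuallyEq`).
-/

set_option autoImplicit false

open scoped ContDiff Topology RealInnerProductSpace
open Set

namespace Pool.Agent.H2.TG

open Pool.Agent.H57.NL

variable {n : ℕ}

/-- the weighted sum over the lattice -/
private noncomputable def Avg_S {P : Type*} (ρ : E n → ℝ) (H : E n × P → ℝ) (x : E n × P) : ℝ :=
  ∑ᶠ g : lat n, ρ (x.1 + g) * H (x.1 + g, x.2)

private theorem Avg_fin (r : ℝ) : {g : lat n | ‖(g : E n)‖ ≤ r}.Finite := by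
  have h := (lat_finite (n := n) r).preimage (f := ((↑) : lat n → E n)) Subtype.val_injective.injOn
  refine h.subset fun g hg => ?_
  exact ⟨g.2, hg⟩

private theorem Avg_loc {P : Type*} {ρ : E n → ℝ} {c : ℝ} (hρ : ∀ q, c ≤ ‖q‖ → ρ q = 0)
    (H : E n × P → ℝ) {r : ℝ} {x : E n × P} (hx : ‖x.1‖ ≤ r) :
    Avg_S ρ H x = ∑ g ∈ (Avg_fin (n := n) (r + c)).toFinset, ρ (x.1 + g) * H (x.1 + g, x.2) := by
  unfold Avg_S
  apply finsum_eq_sum_of_support_subset
  intro g hg
  rw [Set.Finite.coe_toFinset]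
  show ‖(g : E n)‖ ≤ r + c
  by_contra hcon
  push Not at hcon
  apply hg
  have h1 : c ≤ ‖x.1 + (g : E n)‖ := by
    have h2 : ‖(g : E n)‖ ≤ ‖x.1 + (g : E n)‖ + ‖x.1‖ := by
      calc ‖(g : E n)‖ = ‖(x.1 + (g : E n)) - x.1‖ := by rw [add_sub_cancel_left]
        _ ≤ ‖x.1 + (g : E n)‖ + ‖x.1‖ := norm_sub_le _ _
    linarith
  show ρ (x.1 + g) * H (x.1 + g, x.2) = 0
  rw [hρ _ h1, zero_mul]

private theorem Avg_smooth {P : Type*} [NormedAddCommGroup P] [NormedSpace ℝ P] {ρ : E n → ℝ}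
    {c : ℝ} (hρ : ∀ q, c ≤ ‖q‖ → ρ q = 0) (hρs : ContDiff ℝ ∞ ρ) {H : E n × P → ℝ}
    (hH : ContDiff ℝ ∞ H) : ContDiff ℝ ∞ (Avg_S ρ H) := by
  rw [contDiff_iff_contDiffAt]
  intro x
  have h1 : ∀ᶠ y : E n × P in 𝓝 x, ‖y.1‖ ≤ ‖x.1‖ + 1 := by
    have : ∀ᶠ y : E n × P in 𝓝 x, ‖y.1‖ < ‖x.1‖ + 1 := by
      apply (continuous_fst.norm.continuousAt).eventually_lt continuousAt_const
      linarith
    exact this.mono fun y hy => hy.le
  have h2 : Avg_S ρ H =ᶠ[𝓝 x] fun y => ∑ g ∈ (Avg_fin (n := n) (‖x.1‖ + 1 + c)).toFinset,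
      ρ (y.1 + g) * H (y.1 + g, y.2) := by
    filter_upwards [h1] with y hy
    exact Avg_loc hρ H hy
  refine ContDiffAt.congr_of_eventuallyEq ?_ h2
  apply ContDiffAt.sum
  intro g _
  apply ContDiff.contDiffAt
  have h3 : ContDiff ℝ ∞ (fun y : E n × P => y.1 + (g : E n)) := contDiff_fst.add contDiff_const
  exact (hρs.comp h3).mul (hH.comp (h3.prodMk contDiff_snd))

private theorem Avg_inv {P : Type*} (ρ : E n → ℝ) (H : E n × P → ℝ) (h : E n) (hh : h ∈ lat n)
    (q : E n) (p : P) : Avg_S ρ H (q + h, p) = Avg_S ρ H (q, p) := by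
  unfold Avg_S
  refine Eq.trans ?_ (finsum_comp_equiv (Equiv.addRight (⟨h, hh⟩ : lat n))
    (f := fun g : lat n => ρ (q + g) * H (q + g, p)))
  apply finsum_congr
  intro g
  have e : q + h + (g : E n) = q + (((Equiv.addRight (⟨h, hh⟩ : lat n)) g : lat n) : E n) := by
    simp only [Equiv.coe_addRight, AddSubgroup.coe_add]
    abel
  simp only [e]

theorem exists_avg {P : Type*} [NormedAddCommGroup P] [NormedSpace ℝ P] (F : E n × P → ℝ)
    (hF : ContDiff ℝ ∞ F) : ∃ F' : E n × P → ℝ, ContDiff ℝ ∞ F' ∧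
      (∀ g ∈ lat n, ∀ q p, F' (q + g, p) = F' (q, p)) ∧
      (∀ q p (k : ℝ), (∀ g ∈ lat n, F (q + g, p) = k) → F' (q, p) = k) ∧
      (∀ q p (k : ℝ), (∀ g ∈ lat n, |F (q + g, p)| ≤ k) → |F' (q, p)| ≤ k) := by
  obtain ⟨R, hR⟩ := lat_cocpt (n := n)
  let b : ContDiffBump (0 : E n) := ⟨max R 0 + 1, max R 0 + 2, by positivity, by linarith⟩
  set ρ : E n → ℝ := fun q => b q with hρdef
  have hρs : ContDiff ℝ ∞ ρ := b.contDiff
  have hρ0 : ∀ q, max R 0 + 2 ≤ ‖q‖ → ρ q = 0 := by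
    intro q hq
    apply b.zero_of_le_dist
    rw [dist_zero_right]
    exact hq
  have hρ1 : ∀ q, ‖q‖ ≤ R → ρ q = 1 := by
    intro q hq
    apply b.one_of_mem_closedBall
    rw [mem_closedBall_zero_iff]
    show ‖q‖ ≤ max R 0 + 1
    have := le_max_left R 0
    linarith
  have hρn : ∀ q, 0 ≤ ρ q := fun q => b.nonneg
  have hD : ∀ (q : E n) (p : P), 1 ≤ Avg_S ρ (fun _ => (1 : ℝ)) (q, p) := by
    intro q p
    rw [Avg_loc (x := (q, p)) hρ0 _ (le_refl ‖q‖)]
    obtain ⟨g, hg, hgR⟩ := hR q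
    have hmem : (⟨g, hg⟩ : lat n) ∈ (Avg_fin (n := n) (‖q‖ + (max R 0 + 2))).toFinset := by
      rw [Set.Finite.mem_toFinset]
      show ‖g‖ ≤ _
      have h2 : ‖g‖ ≤ ‖q + g‖ + ‖q‖ := by
        calc ‖g‖ = ‖(q + g) - q‖ := by rw [add_sub_cancel_left]
          _ ≤ ‖q + g‖ + ‖q‖ := norm_sub_le _ _
      have := le_max_left R 0
      linarith
    have h3 := Finset.single_le_sum
      (f := fun g : lat n => ρ (((q, p) : E n × P).1 + g) * (1 : ℝ))
      (fun i _ => mul_nonneg (hρn _) zero_le_one) hmem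
    refine le_trans ?_ h3
    show 1 ≤ ρ (q + g) * 1
    rw [hρ1 _ hgR, mul_one]
  have hDpos : ∀ (q : E n) (p : P), 0 < Avg_S ρ (fun _ => (1 : ℝ)) (q, p) := fun q p =>
    lt_of_lt_of_le one_pos (hD q p)
  refine ⟨fun x => Avg_S ρ F x / Avg_S ρ (fun _ => (1 : ℝ)) x, ?_, ?_, ?_, ?_⟩
  · exact (Avg_smooth hρ0 hρs hF).div (Avg_smooth hρ0 hρs contDiff_const)
      fun x => (hDpos x.1 x.2).ne'
  · intro g hg q p
    simp only
    rw [Avg_inv ρ F g hg q p, Avg_inv ρ _ g hg q p]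
  · intro q p k hk
    simp only
    rw [div_eq_iff (hDpos q p).ne', Avg_loc (x := (q, p)) hρ0 F (le_refl ‖q‖),
      Avg_loc (x := (q, p)) hρ0 _ (le_refl ‖q‖), Finset.mul_sum]
    refine Finset.sum_congr rfl fun g _ => ?_
    have h4 : F (((q, p) : E n × P).1 + (g : E n), ((q, p) : E n × P).2) = k := hk g g.2
    rw [h4]
    ring
  · intro q p k hk
    simp only
    rw [abs_div, abs_of_pos (hDpos q p), div_le_iff₀ (hDpos q p),
      Avg_loc (x := (q, p)) hρ0 F (le_refl ‖q‖), Avg_loc (x := (q, p)) hρ0 _ (le_refl ‖q‖),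
      Finset.mul_sum]
    refine (Finset.abs_sum_le_sum_abs _ _).trans (Finset.sum_le_sum fun g _ => ?_)
    have h4 : |F (((q, p) : E n × P).1 + (g : E n), ((q, p) : E n × P).2)| ≤ k := hk g g.2
    rw [abs_mul, abs_of_nonneg (hρn _)]
    have h5 := mul_le_mul_of_nonneg_left h4 (hρn (((q, p) : E n × P).1 + (g : E n)))
    linarith

end Pool.Agent.H2.TG
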