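import Pool.Agent.H2.TG.BotDefs

/-!
# The bottom map (module Bot)

PROOFS.
* `exists_patch`: `G x = F (x.2 + 1) x`; near `x₀` it is equal to `F (x₀.2 + 2) x` (for `x.2 < x₀.2 + 1`).
* `low`: let `R` be given and `τ₁ = τ + |R| + M + 1 + |M|` (any large number). If `x.2 ≤ R` then
  `(Ψ (-t) x).2 ≤ -M` for all `t ≥ τ₁`. Proof: first, if `y.2 ≤ -M` then `(Ψ (-t) y).2 = y.2 - t ≤ -M` for `t ≥ 0`
  (`x_down`). If `|y.2| ≤ M`: `(Ψ (-τ) y).2 ≤ - M - 1`, then again down. If `M < x.2 ≤ R`: the backward orbit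
  must reach `r ≤ M` within time `x.2 - M ≤ R - M`: otherwise `y = Ψ (-(x.2 - M)) x` has `y.2 > M` and `x_up` gives
  `x.2 = y.2 + (x.2 - M) > x.2`, contradiction; so at time `t₀ = x.2 - M`, `y.2 ≤ M`, and continue with the
  previous cases.
* `same_q`: if `b.2 ≤ -M` and `(Ψ t b).2 ≤ -M` then `(Ψ t b).1 = b.1`: for `t ≤ 0` `x_down`; for `t > 0` apply
  `x_down` to `Ψ t b` with time `-t`: `b = Ψ (-t) (Ψ t b) = ((Ψ t b).1, …)`.
* `exists_bot`: `F R x = (Ψ (-τ₁ R) x).1` with `τ₁ R` from `low` (chosen; all larger times are fine). Two such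
  choices agree at `x` by `same_q` (`IsFlow.add`). `exists_patch` gives `B` with `B x = (Ψ (-t) x).1` whenever
  `(Ψ (-t) x).2 ≤ -M` (again by `same_q`). `smooth`: `IsFlow.contDiff_t`. `inv`: for `t` and large `t'` both
  `Ψ (-t') x` and `Ψ (-t') (Ψ t x) = Ψ t (Ψ (-t') x)` are at the bottom, `same_q`. `bot`: time `0`. `equiv`: `x_trans`.
  `line`: `x_line`. `orb`: at a large time `-t'` the point is `(B x, r)` with `r ≤ -M`; flow it up:
  `Ψ s (B x, r) = (B x, r + s)` as long as `r + s ≤ -M`: by `x_down` at `(B x, -M)`: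
  `Ψ (r + M) (B x, -M) = (B x, r)`, so `Ψ (-(r + M)) (B x, r) = (B x, -M)`; time `t = -t' - (r + M)`.
  `ker`: near `x`, `B = fst ∘ Ψ (-t')` with a constant `t'`. If `DB(x) w = 0`, put `z = D(Ψ (-t'))(x) w`; then
  `z.1 = 0`, `z = (0, c) = c • XF v Θ s (Ψ (-t') x)` (the point is at the bottom, `Θ = 0`, the field is `(0, 1)`), and
  applying `D(Ψ t')` (`IsFlow.fderiv_inv`, `IsFlow.fderiv_X`): `w = c • XF v Θ s x`.
-/

set_option autoImplicit false

open scoped ContDiff Topology RealInnerProductSpace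
open Set

namespace Pool.Agent.H2.TG

open Pool.Agent.H57.NL

variable {n : ℕ} {v : E n} {Θ : E n × ℝ → ℝ} {U : Set (E n)} {M T : ℝ}
  {s τ : ℝ} {Ψ : ℝ → E n × ℝ → E n × ℝ}

theorem exists_patch {Z : Type*} [NormedAddCommGroup Z] [NormedSpace ℝ Z]
    (F : ℝ → E n × ℝ → Z) (hF : ∀ R, ContDiff ℝ ∞ (F R))
    (h : ∀ (R R' : ℝ) (x : E n × ℝ), x.2 < R → x.2 < R' → F R x = F R' x) :
    ∃ G : E n × ℝ → Z, ContDiff ℝ ∞ G ∧ ∀ (R : ℝ) (x : E n × ℝ), x.2 < R → G x = F R x := by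
  refine ⟨fun x => F (x.2 + 1) x, ?_, fun R x hx => h _ _ x (by linarith) hx⟩
  rw [contDiff_iff_contDiffAt]
  intro x₀
  have hev : (fun x : E n × ℝ => F (x.2 + 1) x) =ᶠ[𝓝 x₀] F (x₀.2 + 1) := by
    have ho : IsOpen {x : E n × ℝ | x.2 < x₀.2 + 1} := isOpen_lt continuous_snd continuous_const
    filter_upwards [ho.mem_nhds (show x₀.2 < x₀.2 + 1 by linarith)] with x hx
    exact h _ _ x (by linarith) hx
  exact ((hF _).contDiffAt).congr_of_eventuallyEq hev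

private theorem Bot_down (hP : Phase v Θ U M T) (hF : IsFlow (XF v Θ s) Ψ) {y : E n × ℝ}
    (hy : y.2 ≤ -M) {t : ℝ} (ht : 0 ≤ t) : (Ψ (-t) y).2 ≤ -M := by
  rw [x_down hP hF hy (by linarith : -t ≤ 0)]
  show y.2 + -t ≤ -M
  linarith

private theorem Bot_up (hP : Phase v Θ U M T) (hF : IsFlow (XF v Θ s) Ψ) {y : E n × ℝ}
    (hy : M ≤ y.2) {t : ℝ} (ht : 0 ≤ t) : M ≤ (Ψ t y).2 := by
  rw [x_up hP hF hy ht]
  show M ≤ y.2 + t
  linarith

private theorem Bot_mid (hP : Phase v Θ U M T) (hF : IsFlow (XF v Θ s) Ψ)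
    (hG : GoodT M τ Ψ) {y : E n × ℝ} (hy : y.2 ≤ M) {t : ℝ} (ht0 : 0 ≤ t) (ht : τ ≤ t) :
    (Ψ (-t) y).2 ≤ -M := by
  have hX := XF_contDiff hP s
  by_cases h1 : y.2 ≤ -M
  · exact Bot_down hP hF h1 ht0
  · have h2 := (hG y (abs_le.2 ⟨by linarith, hy⟩)).2
    have h3 : Ψ (-t) y = Ψ (-(t - τ)) (Ψ (-τ) y) := by
      rw [hF.add hX]; congr 1; ring
    rw [h3]
    exact Bot_down hP hF (by linarith) (by linarith)

private theorem Bot_mid' (hP : Phase v Θ U M T) (hF : IsFlow (XF v Θ s) Ψ)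
    (hG : GoodT M τ Ψ) {y : E n × ℝ} (hy : -M ≤ y.2) {t : ℝ} (ht0 : 0 ≤ t) (ht : τ ≤ t) :
    M ≤ (Ψ t y).2 := by
  have hX := XF_contDiff hP s
  by_cases h1 : M ≤ y.2
  · exact Bot_up hP hF h1 ht0
  · have h2 := (hG y (abs_le.2 ⟨hy, by linarith⟩)).1
    have h3 : Ψ t y = Ψ (t - τ) (Ψ τ y) := by
      rw [hF.add hX]; congr 1; ring
    rw [h3]
    exact Bot_up hP hF (by linarith) (by linarith)

theorem low (hP : Phase v Θ U M T) (hF : IsFlow (XF v Θ s) Ψ) (hτ : 0 < τ) (hG : GoodT M τ Ψ)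
    (R : ℝ) : ∃ τ₁ : ℝ, 0 < τ₁ ∧ ∀ x : E n × ℝ, x.2 ≤ R → ∀ t, τ₁ ≤ t → (Ψ (-t) x).2 ≤ -M := by
  have hX := XF_contDiff hP s
  have hM := hP.hM
  have hR0 := abs_nonneg R
  have hR1 := le_abs_self R
  refine ⟨τ + |R| + M + 1, by linarith, fun x hx t ht => ?_⟩
  by_cases h1 : x.2 ≤ M
  · exact Bot_mid hP hF hG h1 (by linarith) (by linarith)
  · push Not at h1
    have h2 : (Ψ (-(x.2 - M)) x).2 ≤ M := by
      by_contra h3
      push Not at h3
      have h4 := x_up hP hF h3.le (t := x.2 - M) (by linarith)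
      rw [hF.add hX] at h4
      have h5 : x.2 - M + -(x.2 - M) = 0 := by ring
      rw [h5, hF.zero] at h4
      have h6 := congrArg Prod.snd h4
      simp only at h6
      linarith
    have h3 : Ψ (-t) x = Ψ (-(t - (x.2 - M))) (Ψ (-(x.2 - M)) x) := by
      rw [hF.add hX]; congr 1; ring
    rw [h3]
    exact Bot_mid hP hF hG h2 (by linarith) (by linarith)

/-- The same at the top: every orbit is above `M` after some time. -/
theorem high (hP : Phase v Θ U M T) (hF : IsFlow (XF v Θ s) Ψ) (hτ : 0 < τ) (hG : GoodT M τ Ψ)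
    (x : E n × ℝ) : ∃ t₀ : ℝ, ∀ t, t₀ ≤ t → M ≤ (Ψ t x).2 := by
  have hX := XF_contDiff hP s
  have hM := hP.hM
  have hR0 := abs_nonneg x.2
  have hR1 := neg_abs_le x.2
  refine ⟨τ + |x.2| + M + 1, fun t ht => ?_⟩
  by_cases h1 : -M ≤ x.2
  · exact Bot_mid' hP hF hG h1 (by linarith) (by linarith)
  · push Not at h1
    have h2 : -M ≤ (Ψ (-M - x.2) x).2 := by
      by_contra h3
      push Not at h3
      have h4 := x_down hP hF h3.le (t := -(-M - x.2)) (by linarith)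
      rw [hF.add hX] at h4
      have h5 : -(-M - x.2) + (-M - x.2) = 0 := by ring
      rw [h5, hF.zero] at h4
      have h6 := congrArg Prod.snd h4
      simp only at h6
      linarith
    have h3 : Ψ t x = Ψ (t - (-M - x.2)) (Ψ (-M - x.2) x) := by
      rw [hF.add hX]; congr 1; ring
    rw [h3]
    exact Bot_mid' hP hF hG h2 (by linarith) (by linarith)

theorem same_q (hP : Phase v Θ U M T) (hF : IsFlow (XF v Θ s) Ψ) {b : E n × ℝ} (hb : b.2 ≤ -M)
    {t : ℝ} (ht : (Ψ t b).2 ≤ -M) : (Ψ t b).1 = b.1 := by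
  have hX := XF_contDiff hP s
  rcases le_total t 0 with h | h
  · rw [x_down hP hF hb h]
  · have h1 := x_down hP hF ht (t := -t) (by linarith)
    rw [hF.add hX] at h1
    have h5 : -t + t = 0 := by ring
    rw [h5, hF.zero] at h1
    have h6 := congrArg Prod.fst h1
    exact h6.symm

theorem exists_bot (hP : Phase v Θ U M T) (hF : IsFlow (XF v Θ s) Ψ) (hτ : 0 < τ)
    (hG : GoodT M τ Ψ) : ∃ B, BotMap v (XF v Θ s) M Ψ B := by
  have hX := XF_contDiff hP s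
  have hM := hP.hM
  choose τ₁ hτ₁ hlow using low hP hF hτ hG
  obtain ⟨B, hBs, hBF⟩ := exists_patch (fun R x => (Ψ (-(τ₁ R)) x).1)
    (fun R => contDiff_fst.comp (hF.contDiff_t (-(τ₁ R))))
    (by
      intro R R' x hR hR'
      have h1 := hlow R x hR.le (τ₁ R) le_rfl
      have h2 := hlow R' x hR'.le (τ₁ R') le_rfl
      have h3 : Ψ (τ₁ R - τ₁ R') (Ψ (-(τ₁ R)) x) = Ψ (-(τ₁ R')) x := by
        rw [hF.add hX]; congr 1; ring
      have h4 := same_q hP hF h1 (t := τ₁ R - τ₁ R') (by rw [h3]; exact h2)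
      rw [h3] at h4
      exact h4.symm)
  -- the main property
  have hB : ∀ x t, (Ψ t x).2 ≤ -M → B x = (Ψ t x).1 := by
    intro x t ht
    rw [hBF (x.2 + 1) x (by linarith)]
    have h1 := hlow (x.2 + 1) x (by linarith) (τ₁ (x.2 + 1)) le_rfl
    have h3 : Ψ (-(τ₁ (x.2 + 1)) - t) (Ψ t x) = Ψ (-(τ₁ (x.2 + 1))) x := by
      rw [hF.add hX]; congr 1; ring
    have h4 := same_q hP hF ht (t := -(τ₁ (x.2 + 1)) - t) (by rw [h3]; exact h1)
    rw [h3] at h4
    exact h4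
  refine ⟨B, hBs, ?_, ?_, ?_, ?_, ?_, ?_⟩
  · -- inv
    intro t x
    have h1 := hlow x.2 x le_rfl (τ₁ x.2) le_rfl
    have h3 : Ψ (-(τ₁ x.2) - t) (Ψ t x) = Ψ (-(τ₁ x.2)) x := by
      rw [hF.add hX]; congr 1; ring
    rw [hB x _ h1, hB (Ψ t x) (-(τ₁ x.2) - t) (by rw [h3]; exact h1), h3]
  · -- bot
    intro x hx
    rw [hB x 0 (by rw [hF.zero]; exact hx), hF.zero]
  · -- equiv
    intro g hg x
    have h1 := hlow x.2 x le_rfl (τ₁ x.2) le_rfl
    have h2 := x_trans hP hF hg x (-(τ₁ x.2))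
    rw [hB (x.1 + g, x.2) (-(τ₁ x.2)) (by rw [h2]; exact h1), h2, hB x _ h1]
  · -- line
    intro x
    have h1 := hlow x.2 x le_rfl (τ₁ x.2) le_rfl
    rw [hB x _ h1]
    exact x_line hP hF x _
  · -- ker
    intro x w hw
    set t' := τ₁ (x.2 + 1) with ht'
    have hev : B =ᶠ[𝓝 x] fun y => (Ψ (-t') y).1 := by
      have ho : IsOpen {y : E n × ℝ | y.2 < x.2 + 1} := isOpen_lt continuous_snd continuous_const
      filter_upwards [ho.mem_nhds (show x.2 < x.2 + 1 by linarith)] with y hy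
      exact hBF _ _ hy
    have h0 := hlow (x.2 + 1) x (by linarith) t' le_rfl
    have hd : HasFDerivAt (Ψ (-t')) (fderiv ℝ (Ψ (-t')) x) x :=
      (hF.differentiable (-t') x).hasFDerivAt
    have h1 : fderiv ℝ B x = (ContinuousLinearMap.fst ℝ (E n) ℝ).comp (fderiv ℝ (Ψ (-t')) x) := by
      rw [hev.fderiv_eq]
      exact (hd.fst).fderiv
    have h2 : (fderiv ℝ (Ψ (-t')) x w).1 = 0 := by
      rw [h1] at hw
      exact hw
    set c := (fderiv ℝ (Ψ (-t')) x w).2 with hc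
    have h3 : XF v Θ s (Ψ (-t') x) = (0, 1) := by
      have h4 : Θ (Ψ (-t') x) = 0 := hP.supp _ (by
        rw [le_abs]; right; linarith)
      simp [XF, h4]
    have h4 : fderiv ℝ (Ψ (-t')) x w = c • XF v Θ s (Ψ (-t') x) := by
      rw [h3]
      refine Prod.ext ?_ ?_
      · rw [h2]; simp
      · simp [hc]
    have h5 : fderiv ℝ (Ψ (-t')) x (w - c • XF v Θ s x) = 0 := by
      rw [map_sub, map_smul, hF.fderiv_X hX, h4, sub_self]
    have h6 := hF.fderiv_inv hX (-t') x (w - c • XF v Θ s x)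
    rw [h5, map_zero] at h6
    exact ⟨c, (sub_eq_zero.1 h6.symm)⟩
  · -- orb
    intro x
    have h1 := hlow x.2 x le_rfl (τ₁ x.2) le_rfl
    set p := Ψ (-(τ₁ x.2)) x with hp
    have h2 : B x = p.1 := hB x _ h1
    have h3 := x_down hP hF (x := (B x, -M)) (le_refl (-M)) (t := p.2 + M) (by linarith)
    have h4 : ((B x, -M).1, (B x, -M).2 + (p.2 + M)) = p := by
      refine Prod.ext ?_ ?_
      · exact h2
      · show -M + (p.2 + M) = p.2
        ring
    refine ⟨-(p.2 + M) + -(τ₁ x.2), ?_⟩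
    have h5 : -(p.2 + M) + (p.2 + M) = 0 := by ring
    have h6 : Ψ (p.2 + M) (B x, -M) = p := h3.trans h4
    have h7 : Ψ (-(p.2 + M)) (Ψ (p.2 + M) (B x, -M)) = (B x, -M) := by
      rw [hF.add hX, h5, hF.zero]
    rw [h6] at h7
    rw [← hF.add hX, ← hp]
    exact h7

end Pool.Agent.H2.TG
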