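import Pool.Agent.H2.TG.XFlow

/-!
# Good flows and the bottom map: definitions
-/

set_option autoImplicit false

open scoped ContDiff Topology RealInnerProductSpace
open Set

namespace Pool.Agent.H2.TG

open Pool.Agent.H57.NL

variable {n : ℕ}

/-- Every orbit passes from the bottom through the strip `|r| ≤ M` to the top, in time `τ`. -/
def GoodT (M τ : ℝ) (Ψ : ℝ → E n × ℝ → E n × ℝ) : Prop :=
  ∀ x : E n × ℝ, |x.2| ≤ M → M + 1 ≤ (Ψ τ x).2 ∧ (Ψ (-τ) x).2 ≤ -M - 1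

/-- `B` maps a point to the base point of its orbit at the bottom. -/
structure BotMap (v : E n) (X : E n × ℝ → E n × ℝ) (M : ℝ) (Ψ : ℝ → E n × ℝ → E n × ℝ)
    (B : E n × ℝ → E n) : Prop where
  smooth : ContDiff ℝ ∞ B
  inv : ∀ t x, B (Ψ t x) = B x
  bot : ∀ x : E n × ℝ, x.2 ≤ -M → B x = x.1
  equiv : ∀ g ∈ lat n, ∀ x : E n × ℝ, B (x.1 + g, x.2) = B x + g
  line : ∀ x, B x = x.1 + tc v x.1 (B x) • v
  ker : ∀ x w, fderiv ℝ B x w = 0 → ∃ c : ℝ, w = c • X x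
  orb : ∀ x, ∃ t, Ψ t x = (B x, -M)

end Pool.Agent.H2.TG
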