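import Pool.Agent.H2.TG.Tor

/-!
# Composition of symplectic diffeomorphisms (module Comp)

PROOF. All points are in `TN univ = univ` (`TN_univ`), all vectors in `Tan univ z = univ` (`Tan_univ`).
`smooth`: at `x`, `ψ₁ = G₁` on an open `O₁ ∋ x` with `G₁` smooth on `O₁`, `ψ₂ = G₂` on `O₂ ∋ ψ₁ x`; take
`O = O₁ ∩ G₁ ⁻¹' O₂` (open: `ContinuousOn.isOpen_inter_preimage`), `G = G₂ ∘ G₁`
(`ContDiffOn.comp`). `symp`: from `PresOm` of `ψ₁` at `z` get `v', w'` with `om v' w' = om v w`, from `PresOm` of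
`ψ₂` at `ψ₁ z` and `v', w'` get `v'', w''`; `Push` for the composition: if `γ` is a curve with velocity `v` at `z`,
then `ψ₁ ∘ γ` is a curve with velocity `v'` at `ψ₁ z`, then apply the second `Push`.
-/

set_option autoImplicit false

open scoped ContDiff Topology RealInnerProductSpace
open Set

namespace Pool.Agent.H2.TG

open Pool.Agent.H57.NL

variable {n : ℕ}

private lemma smoothOn_comp {V : Type*} [NormedAddCommGroup V] [NormedSpace ℝ V] {ψ₁ ψ₂ : V → V}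
    (h1 : SmoothOn univ ψ₁) (h2 : SmoothOn univ ψ₂) : SmoothOn univ (ψ₂ ∘ ψ₁) := by
  intro x _
  obtain ⟨G₁, O₁, hO₁, hx₁, hG₁, he₁⟩ := h1 x (mem_univ _)
  obtain ⟨G₂, O₂, hO₂, hx₂, hG₂, he₂⟩ := h2 (ψ₁ x) (mem_univ _)
  have hopen : IsOpen (O₁ ∩ G₁ ⁻¹' O₂) := hG₁.continuousOn.isOpen_inter_preimage hO₁ hO₂
  refine ⟨G₂ ∘ G₁, O₁ ∩ G₁ ⁻¹' O₂, hopen, ⟨hx₁, ?_⟩, ?_, ?_⟩
  · rw [mem_preimage, ← he₁ x ⟨hx₁, mem_univ _⟩]
    exact hx₂
  · exact hG₂.comp (hG₁.mono inter_subset_left) fun y hy => hy.2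
  · rintro y ⟨⟨hy1, hy2⟩, _⟩
    have e1 := he₁ y ⟨hy1, mem_univ _⟩
    simp only [Function.comp_apply]
    rw [e1]
    exact he₂ _ ⟨hy2, mem_univ _⟩

theorem sympDiffeo_comp {ψ₁ ψ₁' ψ₂ ψ₂' : E n × E n → E n × E n}
    (h1 : SympDiffeo univ (lat n) ψ₁ ψ₁') (h2 : SympDiffeo univ (lat n) ψ₂ ψ₂') :
    SympDiffeo univ (lat n) (ψ₂ ∘ ψ₁) (ψ₁' ∘ ψ₂') := by
  have hT : ∀ z : E n × E n, z ∈ TN (univ : Set (E n)) := fun z => by rw [TN_univ]; trivial
  refine ⟨fun z _ => hT _, fun z _ => hT _, fun z _ => ?_, fun z _ => ?_, ?_, ?_, ?_, ?_⟩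
  · simp only [Function.comp_apply]
    rw [h2.left _ (hT _), h1.left _ (hT _)]
  · simp only [Function.comp_apply]
    rw [h1.right _ (hT _), h2.right _ (hT _)]
  · have a := h1.smooth
    have b := h2.smooth
    rw [TN_univ] at a b ⊢
    exact smoothOn_comp a b
  · have a := h1.smooth'
    have b := h2.smooth'
    rw [TN_univ] at a b ⊢
    exact smoothOn_comp b a
  · intro g hg z _
    simp only [Function.comp_apply]
    rw [h1.equiv g hg z (hT _), h2.equiv g hg _ (hT _)]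
  · intro z _ v _ w _
    have hv : ∀ (y u : E n × E n), u ∈ Tan (TN (univ : Set (E n))) y := fun y u => by
      rw [TN_univ, Tan_univ]; trivial
    obtain ⟨v', w', pv, pw, hom⟩ := h1.symp z (hT _) v (hv _ _) w (hv _ _)
    obtain ⟨v'', w'', pv', pw', hom'⟩ := h2.symp (ψ₁ z) (hT _) v' (hv _ _) w' (hv _ _)
    refine ⟨v'', w'', ?_, ?_, hom'.trans hom⟩
    · intro γ h0 _ hd
      have := pv γ h0 (Filter.Eventually.of_forall fun s => hT _) hd
      exact pv' (ψ₁ ∘ γ) (by simp [h0]) (Filter.Eventually.of_forall fun s => hT _) this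
    · intro γ h0 _ hd
      have := pw γ h0 (Filter.Eventually.of_forall fun s => hT _) hd
      exact pw' (ψ₁ ∘ γ) (by simp [h0]) (Filter.Eventually.of_forall fun s => hT _) this

end Pool.Agent.H2.TG
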