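import Pool.Agent.H2.TG.Reach

/-!
# Every point of `C` is on a leaf from `U` (module Cover)

`good = {y ∈ C | ∃ φ, (y, φ) ∈ RR}`.

PROOFS.
* `open_RR`: let `(y, ϑ y) ∈ RR`, so `Λ s (y, ϑ y) ∈ OO U`. For `y' ∈ C` near `y`: `(y', ϑ y') ∈ PS`
  (`mem_PS`, `PhaseOf.tang`), and `Λ s (y', ϑ y')` is close to `Λ s (y, ϑ y)` (`ϑ` is continuous at `y`, `Λ s` is
  continuous), so its base point is in the open `U` and its phase has absolute value `< π`: it is in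
  `OO U` by `near_overU` (`leaf_mem`).
* `closed_good`: let `y_k ∈ good`, `y_k → y`; `y ∈ C`. Let `x_k = (y_k, φ_k) ∈ RR`; by `reach` there is
  `|s_k| ≤ T1` with `Λ s_k x_k ∈ OO U`, over `U₂`. `|φ_k| ≤ K T1` by `leaf_phi` (the phase of `Λ s_k x_k` is `0`).
  Pass to a subsequence: `s_k → s`, `φ_k → φ`, `x_k → x = (y, φ) ∈ PS` (`PS_closed`). `Λ s_k x_k → Λ s x`
  (joint continuity, `hΛ.smooth.continuous`); the limit has base point in `closure U₂ ⊆ U`, second coordinate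
  `0` and phase `0`. So `Λ s x ∈ OO U` and `x ∈ RR`.
* `closed_bad`: `C \ good` is closed: let `y_k ∈ C \ good`, `y_k → y`, and suppose `y ∈ good`,
  `(y, φ) ∈ RR`. Take a local equation and a phase with `ϑ y = φ` (`exists_phase`); `open_RR` says that
  `(y_k, ϑ y_k) ∈ RR` for large `k`, contradiction. (`C` is closed, so the limit is in `C`.)
* `good_inv`: `good` is invariant under the lattice (`PS_inv`, `leaf_trans`, `Inv U`).
* `cover`: `hL.red.conn` with `A = (C \ good)ᶜ`, `B = goodᶜ` (both open, `C ⊆ A ∪ B`, `C ∩ A ∩ B = ∅`, invariant: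
  `good` and `C` are invariant under `g` and `-g`). `C ∩ A = good` is not empty: `U₂` is not empty
  (`hL.rays`), for `q ∈ U₂ ⊆ U`: `(q, 0) ∈ C`, `((q, 0), 0) ∈ OO U ⊆ RR` (with `s = 0`). So `C ⊆ A`, i.e.
  every `y ∈ C` is good.
-/

set_option autoImplicit false

open scoped ContDiff Topology RealInnerProductSpace
open Set

namespace Pool.Agent.H2.TG

open Pool.Agent.H57.NL

variable {n : ℕ} {v : E n} {C W : Set (E n × ℝ)} {U U₂ : Set (E n)} {T : ℝ}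
  {κ : (E n × ℝ) × ℝ → ℝ} {Λ : ℝ → (E n × ℝ) × ℝ → (E n × ℝ) × ℝ} {u ϑ : E n × ℝ → ℝ}

theorem RR_trans (hL : Leaf v C U U₂ T κ Λ) {g : E n} (hg : g ∈ lat n) {x : (E n × ℝ) × ℝ}
    (hx : x ∈ RR v C U Λ) : ((x.1.1 + g, x.1.2), x.2) ∈ RR v C U Λ := by
  obtain ⟨hx1, s, hs1, hs2, hs3⟩ := hx
  refine ⟨PS_inv hL.red hg hx1, s, ?_⟩
  rw [leaf_trans hL.curv hL.flow hg]
  exact ⟨hL.red.inv_U g hg _ hs1, hs2, hs3⟩

theorem open_RR (hL : Leaf v C U U₂ T κ Λ) (hC : LocEq v C W u) (hϑ : PhaseOf v W u ϑ)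
    {y : E n × ℝ} (hyW : y ∈ W) (hy : (y, ϑ y) ∈ RR v C U Λ) :
    ∀ᶠ y' in 𝓝 y, y' ∈ C → (y', ϑ y') ∈ RR v C U Λ := by
  obtain ⟨hx1, s, hs1, hs2, hs3⟩ := hy
  have hϑc : ContinuousAt ϑ y := hϑ.smooth.continuousOn.continuousAt (hC.isOpen.mem_nhds hyW)
  have hΛc : Continuous (Λ s) := (hL.flow.differentiable s).continuous
  have hf : ContinuousAt (fun y' => Λ s (y', ϑ y')) y :=
    hΛc.continuousAt.comp (f := fun y' => (y', ϑ y')) (continuousAt_id.prodMk hϑc)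
  have h1 : ∀ᶠ y' in 𝓝 y, (Λ s (y', ϑ y')).1.1 ∈ U :=
    (hf.fst.fst).eventually_mem (hL.red.open_U.mem_nhds hs1)
  have h2 : ∀ᶠ y' in 𝓝 y, |(Λ s (y', ϑ y')).2| < Real.pi := by
    have : |(Λ s (y, ϑ y)).2| < Real.pi := by rw [hs3, abs_zero]; exact Real.pi_pos
    exact (hf.snd.abs).eventually_lt continuousAt_const this
  have h3 : ∀ᶠ y' in 𝓝 y, y' ∈ W := hC.isOpen.mem_nhds hyW
  filter_upwards [h1, h2, h3] with y' h1 h2 h3 hC'
  have hPS : (y', ϑ y') ∈ PS v C := (mem_PS hC (x := (y', ϑ y')) hC' h3).2 (hϑ.tang y' h3)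
  exact ⟨hPS, s, near_overU hL.red (leaf_mem hL.red hL.curv hL.flow hPS s) h1 h2⟩

theorem closed_good (hL : Leaf v C U U₂ T κ Λ) :
    IsClosed {y : E n × ℝ | ∃ φ : ℝ, (y, φ) ∈ RR v C U Λ} := by
  obtain ⟨T1, hT1, hreach⟩ := reach hL
  obtain ⟨K, hK, hphi⟩ := leaf_phi hL.curv hL.flow
  refine IsSeqClosed.isClosed ?_
  intro y y₀ hy hlim
  have hy' : ∀ k, ∃ p : ℝ × ℝ, (y k, p.1) ∈ RR v C U Λ ∧ |p.2| ≤ T1 ∧
      (Λ p.2 (y k, p.1)).1.1 ∈ U₂ ∧ Λ p.2 (y k, p.1) ∈ OO U := by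
    intro k
    obtain ⟨φ, hφ⟩ := hy k
    obtain ⟨s, hs⟩ := hreach _ hφ
    exact ⟨(φ, s), hφ, hs⟩
  choose p hp1 hp2 hp3 hp4 using hy'
  have hbd : ∀ k, p k ∈ Icc (-(K * T1)) (K * T1) ×ˢ Icc (-T1) T1 := by
    intro k
    refine ⟨abs_le.1 ?_, abs_le.1 (hp2 k)⟩
    have h := hphi (y k, (p k).1) (p k).2
    rw [(hp4 k).2.2] at h
    rw [zero_sub, abs_neg] at h
    exact h.trans (mul_le_mul_of_nonneg_left (hp2 k) hK.le)
  obtain ⟨⟨φ, s⟩, -, σ, hσ, hps⟩ :=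
    (isCompact_Icc.prod isCompact_Icc).tendsto_subseq hbd
  have hyσ : Filter.Tendsto (y ∘ σ) Filter.atTop (𝓝 y₀) := hlim.comp hσ.tendsto_atTop
  have hφ : Filter.Tendsto (fun k => (p (σ k)).1) Filter.atTop (𝓝 φ) :=
    (continuous_fst.tendsto _).comp hps
  have hs : Filter.Tendsto (fun k => (p (σ k)).2) Filter.atTop (𝓝 s) :=
    (continuous_snd.tendsto _).comp hps
  have hx : Filter.Tendsto (fun k => (y (σ k), (p (σ k)).1)) Filter.atTop (𝓝 (y₀, φ)) :=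
    hyσ.prodMk_nhds hφ
  have hPS : (y₀, φ) ∈ PS v C := (PS_closed hL.red).mem_of_tendsto hx
    (Filter.Eventually.of_forall fun k => (hp1 (σ k)).1)
  have hjc : Continuous fun z : ℝ × ((E n × ℝ) × ℝ) => Λ z.1 z.2 := hL.flow.smooth.continuous
  have hΛ : Filter.Tendsto (fun k => Λ (p (σ k)).2 (y (σ k), (p (σ k)).1)) Filter.atTop
      (𝓝 (Λ s (y₀, φ))) := (hjc.tendsto (s, (y₀, φ))).comp (hs.prodMk_nhds hx)
  have hcl : IsClosed {z : (E n × ℝ) × ℝ | z.1.1 ∈ closure U₂ ∧ z.1.2 = 0 ∧ z.2 = 0} := by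
    refine (isClosed_closure.preimage (continuous_fst.comp continuous_fst)).inter
      ((isClosed_singleton.preimage (continuous_snd.comp continuous_fst)).inter
        (isClosed_singleton.preimage continuous_snd))
  have hmem := hcl.mem_of_tendsto hΛ (Filter.Eventually.of_forall fun k =>
    ⟨subset_closure (hp3 (σ k)), (hp4 (σ k)).2.1, (hp4 (σ k)).2.2⟩)
  exact ⟨φ, hPS, s, hL.cl₂ hmem.1, hmem.2.1, hmem.2.2⟩

theorem closed_bad (hL : Leaf v C U U₂ T κ Λ) :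
    IsClosed {y : E n × ℝ | y ∈ C ∧ ¬ ∃ φ : ℝ, (y, φ) ∈ RR v C U Λ} := by
  refine IsSeqClosed.isClosed ?_
  intro y y₀ hy hlim
  have hC0 : y₀ ∈ C := hL.red.closed.mem_of_tendsto hlim
    (Filter.Eventually.of_forall fun k => (hy k).1)
  refine ⟨hC0, ?_⟩
  rintro ⟨φ, hφ⟩
  obtain ⟨W, u, hW, hC⟩ := hL.red.loc y₀ hC0
  have h0 := (mem_PS hC (x := (y₀, φ)) hC0 hW).1 hφ.1
  obtain ⟨W₁, ϑ, h1, h2, h3, h4, h5⟩ := exists_phase hC hW h0
  have h6 := open_RR hL h3 h4 h2 (by rw [h5]; exact hφ)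
  obtain ⟨k, hk⟩ := (hlim.eventually h6).exists
  exact (hy k).2 ⟨_, hk (hy k).1⟩

theorem cover (hL : Leaf v C U U₂ T κ Λ) {y : E n × ℝ} (hy : y ∈ C) :
    ∃ φ : ℝ, (y, φ) ∈ RR v C U Λ := by
  have hneg : ∀ g ∈ lat n, -g ∈ lat n := fun g hg => neg_mem hg
  have hg1 : ∀ g ∈ lat n, ∀ x : E n × ℝ, (∃ φ : ℝ, (x, φ) ∈ RR v C U Λ) ↔
      ∃ φ : ℝ, ((x.1 + g, x.2), φ) ∈ RR v C U Λ := by
    intro g hg x
    constructor
    · rintro ⟨φ, hφ⟩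
      exact ⟨φ, RR_trans hL hg hφ⟩
    · rintro ⟨φ, hφ⟩
      refine ⟨φ, ?_⟩
      have h := RR_trans hL (hneg g hg) hφ
      simpa using h
  have hC1 : ∀ g ∈ lat n, ∀ x : E n × ℝ, x ∈ C ↔ (x.1 + g, x.2) ∈ C := by
    intro g hg x
    constructor
    · intro h
      exact hL.red.inv g hg x h
    · intro h
      have h' := hL.red.inv (-g) (hneg g hg) _ h
      simpa using h'
  have hmain := hL.red.conn {y : E n × ℝ | y ∈ C ∧ ¬ ∃ φ : ℝ, (y, φ) ∈ RR v C U Λ}ᶜ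
    {y : E n × ℝ | ∃ φ : ℝ, (y, φ) ∈ RR v C U Λ}ᶜ (closed_bad hL).isOpen_compl
    (closed_good hL).isOpen_compl ?_ ?_ ?_ ?_ ?_
  · by_contra h
    exact hmain hy ⟨hy, h⟩
  · intro x hx
    by_cases h : ∃ φ : ℝ, (x, φ) ∈ RR v C U Λ
    · exact Or.inl fun h' => h'.2 h
    · exact Or.inr h
  · ext x
    constructor
    · rintro ⟨⟨hx, h1⟩, h2⟩
      exact h1 ⟨hx, h2⟩
    · exact False.elim
  · intro g hg x
    exact not_congr (and_congr (hC1 g hg x) (not_congr (hg1 g hg x)))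
  · intro g hg x
    exact not_congr (hg1 g hg x)
  · obtain ⟨⟨t, -, -, ht⟩, -⟩ := hL.rays 0
    have hq : (0 : E n) + t • v ∈ U := hL.cl₂ (subset_closure ht)
    have hC0 : ((0 : E n) + t • v, (0 : ℝ)) ∈ C := (hL.red.overU _ hq 0).2 rfl
    refine ⟨((0 : E n) + t • v, (0 : ℝ)), hC0, ?_⟩
    intro h
    refine h.2 ⟨0, PS_zero hL.red hq, 0, ?_⟩
    rw [hL.flow.zero]
    exact ⟨hq, rfl, rfl⟩

end Pool.Agent.H2.TG
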