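import Pool.Agent.H2.TG.PSb

/-!
# Comparison of two local phases (module Curv1)

`cval v C x k`: `k` is the derivative of every local phase at `x.1` in the direction of the leaf.

PROOFS.
* `phase_compare`: take the curve `y` of `exists_curve hC hϑ`. It lies in `C`, and in `W ∩ W'` for small `t`.
  For these `t` both `(y t, ϑ (y t))` and `(y t, ϑ' (y t))` are in `PS` (`mem_PS`, `PhaseOf.tang`), so
  (`PS_unique`, or directly `angle_unique`) `(ϑ (y t) - ϑ' (y t)) / π` is an integer; it is continuous in `t`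
  on a small interval, so constant near `0` (a continuous function with integer values; equals `j`). So the
  derivatives at `0` agree: `Dϑ(x) (y' 0) = Dϑ'(x) (y' 0)`, `y' 0 = (cos (ϑ x) • v, sin (ϑ x))`.
  (`hasFDerivAt.comp_hasDerivAt`; `EventuallyEq` near `0`.)
* `cval_of`: for another `W', u', ϑ'` with `x.2 = ϑ' x.1 + j' π`: `ϑ x.1 = ϑ' x.1 + (j' - j) π`, apply
  `phase_compare` and multiply by the sign `(-1)^j`: `(cos x.2 • v, sin x.2) = ± (cos (ϑ x.1) • v, sin (ϑ x.1))`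
  (`Real.cos_add_int_mul_pi`, `Real.sin_add_int_mul_pi`).
* `exists_cval`: from a local equation and `exists_phase` (`x.2` is an admissible phase at `x.1`).
* `cval_unique`: two values are both equal to the derivative of one phase.
* `cval_pi`: phase `ϑ` with `ϑ x.1 = x.2`; `(cos (x.2 + k π) • v, sin (x.2 + k π)) = (-1)^k • (…)`; `cval_of`.
* `cval_trans`: pull back `W', u', ϑ'` at `x + g` by the translation (`locEq_trans` with `-g`): the phase
  `y ↦ ϑ' (y.1 + g, y.2)` is a `PhaseOf` the translated equation; derivatives agree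
  (`fderiv_comp_add_right` or `HasFDerivAt.comp`).
-/

set_option autoImplicit false

open scoped ContDiff Topology RealInnerProductSpace
open Set

namespace Pool.Agent.H2.TG

open Pool.Agent.H57.NL

variable {n : ℕ} {v : E n} {C W W' : Set (E n × ℝ)} {u u' ϑ ϑ' : E n × ℝ → ℝ} {U : Set (E n)}

/-- The value `k` is the curvature of the leaf at `x`. -/
def cval (v : E n) (C : Set (E n × ℝ)) (x : (E n × ℝ) × ℝ) (k : ℝ) : Prop :=
  ∀ W u ϑ, x.1 ∈ W → LocEq v C W u → PhaseOf v W u ϑ → ∀ j : ℤ, x.2 = ϑ x.1 + j * Real.pi →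
    k = fderiv ℝ ϑ x.1 (Real.cos x.2 • v, Real.sin x.2)

private theorem curv1_tangent (hC : LocEq v C W u) (hC' : LocEq v C W' u')
    (hϑ : PhaseOf v W u ϑ) (hϑ' : PhaseOf v W' u' ϑ') {y : E n × ℝ} (hy : y ∈ C) (hyW : y ∈ W)
    (hyW' : y ∈ W') : ∃ k : ℤ, ϑ y = ϑ' y + k * Real.pi := by
  have h1 : dplane v u y (Real.cos (ϑ y)) (Real.sin (ϑ y)) = 0 := hϑ.tang y hyW
  have h2 : dplane v u y (Real.cos (ϑ' y)) (Real.sin (ϑ' y)) = 0 :=
    dplane_zero hC' hC hy hyW' hyW (hϑ'.tang y hyW')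
  rw [dplane_lin] at h1 h2
  refine angle_unique (hC.reg y hyW) ?_ ?_
  · linarith
  · linarith

theorem phase_compare (hC : LocEq v C W u) (hϑ : PhaseOf v W u ϑ) (hC' : LocEq v C W' u')
    (hϑ' : PhaseOf v W' u' ϑ') {x : E n × ℝ} (hx : x ∈ C) (hxW : x ∈ W) (hxW' : x ∈ W') {j : ℤ}
    (h : ϑ x = ϑ' x + j * Real.pi) :
    fderiv ℝ ϑ x (Real.cos (ϑ x) • v, Real.sin (ϑ x)) =
      fderiv ℝ ϑ' x (Real.cos (ϑ x) • v, Real.sin (ϑ x)) := by
  obtain ⟨ε, y, hε, hy0, hy⟩ := exists_curve hC hϑ hx hxW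
  have hy00 := (hy 0 (by simpa using hε)).2.2
  rw [hy0] at hy00
  have hd : DifferentiableAt ℝ ϑ x :=
    (hϑ.smooth.contDiffAt (hC.isOpen.mem_nhds hxW)).differentiableAt (by simp)
  have hd' : DifferentiableAt ℝ ϑ' x :=
    (hϑ'.smooth.contDiffAt (hC'.isOpen.mem_nhds hxW')).differentiableAt (by simp)
  have e1 : HasDerivAt (ϑ ∘ y) (fderiv ℝ ϑ x (Real.cos (ϑ x) • v, Real.sin (ϑ x))) 0 := by
    have e2 : HasFDerivAt ϑ (fderiv ℝ ϑ x) (y 0) := by
      rw [hy0]; exact hd.hasFDerivAt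
    exact e2.comp_hasDerivAt 0 hy00
  have e1' : HasDerivAt (ϑ' ∘ y) (fderiv ℝ ϑ' x (Real.cos (ϑ x) • v, Real.sin (ϑ x))) 0 := by
    have e2 : HasFDerivAt ϑ' (fderiv ℝ ϑ' x) (y 0) := by
      rw [hy0]; exact hd'.hasFDerivAt
    exact e2.comp_hasDerivAt 0 hy00
  have hev : ∀ᶠ t in 𝓝 (0 : ℝ), y t ∈ W' :=
    hy00.continuousAt.eventually_mem (by rw [hy0]; exact hC'.isOpen.mem_nhds hxW')
  have hev2 : ∀ᶠ t in 𝓝 (0 : ℝ), |t| < ε := by
    refine Metric.eventually_nhds_iff.mpr ⟨ε, hε, fun t ht => ?_⟩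
    simpa [Real.dist_eq] using ht
  have hcont : ContinuousAt (fun t => ϑ (y t) - ϑ' (y t) - j * Real.pi) 0 :=
    (e1.continuousAt.sub e1'.continuousAt).sub continuousAt_const
  have hval : ϑ (y 0) - ϑ' (y 0) - j * Real.pi = 0 := by
    rw [hy0]
    linarith
  have hev3 : ∀ᶠ t in 𝓝 (0 : ℝ), |ϑ (y t) - ϑ' (y t) - j * Real.pi| < Real.pi := by
    have h1 : (fun t => ϑ (y t) - ϑ' (y t) - j * Real.pi) 0 ∈ Metric.ball (0 : ℝ) Real.pi := by
      change ϑ (y 0) - ϑ' (y 0) - j * Real.pi ∈ Metric.ball (0 : ℝ) Real.pi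
      rw [hval]
      exact Metric.mem_ball_self Real.pi_pos
    filter_upwards [hcont.eventually_mem (Metric.isOpen_ball.mem_nhds h1)] with t ht
    rwa [Metric.mem_ball, Real.dist_eq, sub_zero] at ht
  have hev4 : (ϑ ∘ y) =ᶠ[𝓝 0] fun t => (ϑ' ∘ y) t + j * Real.pi := by
    filter_upwards [hev, hev2, hev3] with t h1 h2 h3
    obtain ⟨k, hk⟩ := curv1_tangent hC hC' hϑ hϑ' (hy t h2).1 (hy t h2).2.1 h1
    rw [hk] at h3
    have h4 : ϑ' (y t) + k * Real.pi - ϑ' (y t) - j * Real.pi = ((k - j : ℤ) : ℝ) * Real.pi := by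
      push_cast
      ring
    rw [h4, abs_mul, abs_of_pos Real.pi_pos] at h3
    have h5 : |((k - j : ℤ) : ℝ)| < 1 := by
      by_contra hcon
      push Not at hcon
      nlinarith [Real.pi_pos]
    have h6 : k - j = 0 := by
      have : |k - j| < 1 := by exact_mod_cast h5
      exact Int.abs_lt_one_iff.1 this
    have h7 : k = j := by linarith
    change ϑ (y t) = ϑ' (y t) + j * Real.pi
    rw [hk, h7]
  have e3 : HasDerivAt (ϑ ∘ y) (fderiv ℝ ϑ' x (Real.cos (ϑ x) • v, Real.sin (ϑ x))) 0 :=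
    (e1'.add_const (j * Real.pi)).congr_of_eventuallyEq hev4
  exact e1.unique e3

private theorem curv1_vec (φ : ℝ) (j : ℤ) :
    ((Real.cos (φ + j * Real.pi) • v, Real.sin (φ + j * Real.pi)) : E n × ℝ) =
      ((-1 : ℝ) ^ j) • ((Real.cos φ • v, Real.sin φ) : E n × ℝ) := by
  rw [Real.cos_add_int_mul_pi, Real.sin_add_int_mul_pi, Prod.smul_mk, smul_smul, smul_eq_mul]

theorem cval_of (hC : LocEq v C W u) (hϑ : PhaseOf v W u ϑ) {x : (E n × ℝ) × ℝ} (hx : x.1 ∈ C)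
    (hxW : x.1 ∈ W) {j : ℤ} (h : x.2 = ϑ x.1 + j * Real.pi) :
    cval v C x (fderiv ℝ ϑ x.1 (Real.cos x.2 • v, Real.sin x.2)) := by
  intro W' u' ϑ' hxW' hC' hϑ' j' h'
  have h1 : ϑ x.1 = ϑ' x.1 + ((j' - j : ℤ) : ℝ) * Real.pi := by
    push_cast
    linarith
  have h2 := phase_compare hC hϑ hC' hϑ' hx hxW hxW' h1
  rw [h, curv1_vec, map_smul, map_smul, h2]

private theorem curv1_phase (hR : Red v C U) {x : (E n × ℝ) × ℝ} (hx : x ∈ PS v C) :
    ∃ (W : Set (E n × ℝ)) (u ϑ : E n × ℝ → ℝ), x.1 ∈ W ∧ LocEq v C W u ∧ PhaseOf v W u ϑ ∧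
      ϑ x.1 = x.2 := by
  obtain ⟨W, u, hxW, hC⟩ := hR.loc x.1 hx.1
  obtain ⟨W₁, ϑ, _, hxm, hC1, hP, he⟩ := exists_phase hC hxW ((mem_PS hC hx.1 hxW).1 hx)
  exact ⟨W₁, u, ϑ, hxm, hC1, hP, he⟩

theorem exists_cval (hR : Red v C U) {x : (E n × ℝ) × ℝ} (hx : x ∈ PS v C) :
    ∃ k, cval v C x k := by
  obtain ⟨W, u, ϑ, hxW, hC, hP, he⟩ := curv1_phase hR hx
  exact ⟨_, cval_of hC hP hx.1 hxW (j := 0) (by rw [he]; simp)⟩

theorem cval_unique (hR : Red v C U) {x : (E n × ℝ) × ℝ} (hx : x ∈ PS v C) {k k' : ℝ}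
    (h : cval v C x k) (h' : cval v C x k') : k = k' := by
  obtain ⟨W, u, ϑ, hxW, hC, hP, he⟩ := curv1_phase hR hx
  rw [h W u ϑ hxW hC hP 0 (by rw [he]; simp), h' W u ϑ hxW hC hP 0 (by rw [he]; simp)]

theorem cval_pi (hR : Red v C U) {x : (E n × ℝ) × ℝ} (hx : x ∈ PS v C) {k : ℝ}
    (h : cval v C x k) (j : ℤ) : cval v C (x.1, x.2 + j * Real.pi) ((-1) ^ j * k) := by
  obtain ⟨W, u, ϑ, hxW, hC, hP, he⟩ := curv1_phase hR hx
  have h1 := h W u ϑ hxW hC hP 0 (by rw [he]; simp)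
  have h2 := cval_of hC hP (x := (x.1, x.2 + j * Real.pi)) hx.1 hxW (j := j) (by
    change x.2 + j * Real.pi = ϑ x.1 + j * Real.pi
    rw [he])
  have h3 : fderiv ℝ ϑ (x.1, x.2 + j * Real.pi).1
      (Real.cos (x.1, x.2 + j * Real.pi).2 • v, Real.sin (x.1, x.2 + j * Real.pi).2) =
      (-1 : ℝ) ^ j * k := by
    change fderiv ℝ ϑ x.1 (Real.cos (x.2 + j * Real.pi) • v, Real.sin (x.2 + j * Real.pi)) = _
    rw [curv1_vec, map_smul, smul_eq_mul, h1]
  rw [h3] at h2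
  exact h2

private theorem curv1_fderiv (w : E n × ℝ → ℝ) (g : E n) (y : E n × ℝ) :
    fderiv ℝ (fun y => w (y.1 - g, y.2)) y = fderiv ℝ w (y.1 - g, y.2) := by
  have h1 : (fun y : E n × ℝ => w (y.1 - g, y.2)) = fun y => w (y - (g, (0 : ℝ))) := by
    funext y
    congr 1
    ext1
    · simp
    · simp
  have h2 : (y.1 - g, y.2) = y - (g, (0 : ℝ)) := by
    ext1
    · simp
    · simp
  rw [h1, h2, fderiv_comp_sub]

theorem cval_trans (hR : Red v C U) {g : E n} (hg : g ∈ lat n) {x : (E n × ℝ) × ℝ} {k : ℝ}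
    (h : cval v C x k) : cval v C ((x.1.1 + g, x.1.2), x.2) k := by
  intro W' u' ϑ' hxW' hC' hϑ' j h'
  have hL := locEq_trans hR hC' ((lat n).neg_mem hg)
  have hP : PhaseOf v {y : E n × ℝ | (y.1 - -g, y.2) ∈ W'} (fun y => u' (y.1 - -g, y.2))
      (fun y => ϑ' (y.1 - -g, y.2)) := by
    constructor
    · exact hϑ'.smooth.comp (ContDiff.contDiffOn (by fun_prop)) fun y hy => hy
    · intro y hy
      have h1 := hϑ'.tang _ hy
      unfold dplane at h1 ⊢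
      rw [curv1_fderiv]
      exact h1
  have h1 : (x.1.1 - -g, x.1.2) = (x.1.1 + g, x.1.2) := by rw [sub_neg_eq_add]
  have h2 := h _ _ _ (by
    change (x.1.1 - -g, x.1.2) ∈ W'
    rw [h1]
    exact hxW') hL hP j (by
    change x.2 = ϑ' (x.1.1 - -g, x.1.2) + j * Real.pi
    rw [h1]
    exact h')
  rw [curv1_fderiv, h1] at h2
  exact h2

end Pool.Agent.H2.TG
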