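import Pool.Agent.H2.TG.Defs

/-!
# Gluing smooth functions with convex conditions (module Glue)

PROOF. This is `exists_contMDiffOn_forall_mem_convex_of_local` (file
Mathlib/Geometry/Manifold/PartitionOfUnity.lean; name of the version for functions into a real vector
space: `exists_contMDiffOn_forall_mem_convex_of_local` or `exists_smooth_forall_mem_convex_of_local`),
applied to the manifold `V` with the model `𝓘(ℝ, V)`, target `ℝ`; `ContMDiff` between vector spaces is
`ContDiff` (`contMDiff_iff_contDiff`, `contMDiffOn_iff_contDiffOn`). `V` is sigma-compact and `T2`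
because it is a finite dimensional real normed space (`FiniteDimensional.proper_real`).
`exists_cut`: `exists_contMDiff_zero_iff_one_iff_of_isClosed` or
`exists_contMDiff_one_of_isClosed_isClosed` style: a smooth function with values in `[0,1]`, zero on the
closed set `s`, one on the closed set `t`.
-/

set_option autoImplicit false

open scoped ContDiff Topology RealInnerProductSpace
open Set

namespace Pool.Agent.H2.TG

theorem exists_glue {V : Type} [NormedAddCommGroup V] [NormedSpace ℝ V] [FiniteDimensional ℝ V]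
    (t : V → Set ℝ) (ht : ∀ x, Convex ℝ (t x))
    (hloc : ∀ x, ∃ W : Set V, IsOpen W ∧ x ∈ W ∧ ∃ g : V → ℝ, ContDiffOn ℝ ∞ g W ∧
      ∀ y ∈ W, g y ∈ t y) :
    ∃ g : V → ℝ, ContDiff ℝ ∞ g ∧ ∀ x, g x ∈ t x := by
  have : ProperSpace V := FiniteDimensional.proper_real V
  obtain ⟨g, hg⟩ := exists_contMDiffMap_forall_mem_convex_of_local (n := (⊤ : ℕ∞))
    (modelWithCornersSelf ℝ V) (F := ℝ) (M := V) (t := t) ht (fun x => by
      obtain ⟨W, hW, hx, g, hg, hgt⟩ := hloc x
      exact ⟨W, hW.mem_nhds hx, g, contMDiffOn_iff_contDiffOn.2 hg, hgt⟩)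
  exact ⟨g, contMDiff_iff_contDiff.1 g.contMDiff, hg⟩

theorem exists_cut {V : Type} [NormedAddCommGroup V] [NormedSpace ℝ V] [FiniteDimensional ℝ V]
    {s t : Set V} (hs : IsClosed s) (ht : IsClosed t) (hst : Disjoint s t) :
    ∃ g : V → ℝ, ContDiff ℝ ∞ g ∧ (∀ x ∈ s, g x = 0) ∧ (∀ x ∈ t, g x = 1) ∧
      ∀ x, 0 ≤ g x ∧ g x ≤ 1 := by
  have : ProperSpace V := FiniteDimensional.proper_real V
  obtain ⟨f, h1, h2, h3⟩ := exists_contMDiffMap_zero_one_of_isClosed (n := (⊤ : ℕ∞))
    (modelWithCornersSelf ℝ V) (M := V) hs ht hst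
  exact ⟨f, contMDiff_iff_contDiff.1 f.contMDiff, fun x hx => h1 hx, fun x hx => h2 hx,
    fun x => h3 x⟩

end Pool.Agent.H2.TG
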