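import Pool.Agent.H2.TG.Curv1
import Pool.Agent.H2.TG.Glue
import Pool.Agent.H2.TG.Avg

/-!
# The curvature as a global smooth bounded periodic function (module Curv2)

PROOF. (a) Local: at `x ∈ PS` take `W, u` (`hR.loc`), `ϑ` with `ϑ x.1 = x.2` (`exists_phase`, smaller `W`),
`N = {y | y.1 ∈ W}`, `g y = fderiv ℝ ϑ y.1 (cos y.2 • v, sin y.2)`, smooth on `N`
(`ContDiffOn.fderiv_of_isOpen`). For `y ∈ N ∩ PS` there is `j` with `y.2 = ϑ y.1 + j π` (`mem_PS`,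
`PhaseOf.tang`, `PS_unique`), so `cval v C y (g y)` by `cval_of`.
(b) `exists_glue` on `V = (E n × ℝ) × ℝ` with `t x = {k | x ∈ PS v C → cval v C x k}`: convex (if `k, k'` are
both admissible they are equal, `cval_unique`; or: the condition is a system of linear equations); at
`x ∉ PS` use the open complement of `PS` (`PS_closed`) and `g = 0`. This gives `κ₀` smooth with
`cval v C x (κ₀ x)` for all `x ∈ PS`.
(c) Average `F (q, (r, φ)) = κ₀ ((q, r), φ)` with `exists_avg` (`P = ℝ × ℝ`): for `x ∈ PS` all the values at the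
translates are equal to `κ₀ x` (`cval_trans`, `cval_unique`, `PS_inv`), so the average is `κ₀ x`. Get `κ₁`
smooth, invariant, with `cval v C x (κ₁ x)` on `PS`.
(d) `κ₁` is bounded on `PS` by some `K`: the set `{x ∈ PS | ‖x.1.1‖ ≤ R, |x.2| ≤ 2 π}` is compact (`R` from
`lat_cocpt`, `x.1.2` is bounded by `hR.bdd`); for general `x ∈ PS` translate `x.1.1` by the lattice and
`x.2` by an even multiple of `π` (`cval_pi`, `PS_pi`): the value does not change.
(e) `κ = h ∘ κ₁` with `h : ℝ → ℝ` smooth, bounded, `h x = x` for `|x| ≤ K` (`h x = x * χ x`, `χ` a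
`ContDiffBump` around `0` with `rIn = K + 1`).
`LF_contDiff`, `LF_bdd`: direct; `exists_leafFlow`: `exists_isFlow` (module Flow).
-/

set_option autoImplicit false

open scoped ContDiff Topology RealInnerProductSpace
open Set

namespace Pool.Agent.H2.TG

open Pool.Agent.H57.NL

variable {n : ℕ} {v : E n} {C : Set (E n × ℝ)} {U : Set (E n)}

theorem curv_local (hR : Red v C U) (x : (E n × ℝ) × ℝ) :
    ∃ W : Set ((E n × ℝ) × ℝ), IsOpen W ∧ x ∈ W ∧ ∃ g : (E n × ℝ) × ℝ → ℝ, ContDiffOn ℝ ∞ g W ∧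
      ∀ y ∈ W, y ∈ PS v C → cval v C y (g y) := by
  by_cases hx : x ∈ PS v C
  · obtain ⟨W, u, hxW, hC⟩ := hR.loc x.1 hx.1
    obtain ⟨W₁, ϑ, hW₁, hxW₁, hC₁, hϑ, hϑx⟩ := exists_phase hC hxW (hx.2 W u hxW hC)
    have hopen : IsOpen {y : (E n × ℝ) × ℝ | y.1 ∈ W₁} := hC₁.isOpen.preimage continuous_fst
    refine ⟨{y | y.1 ∈ W₁}, hopen, hxW₁,
      fun y => fderiv ℝ ϑ y.1 (Real.cos y.2 • v, Real.sin y.2), ?_, ?_⟩
    · have h1 : ContDiffOn ℝ ∞ (fun y : E n × ℝ => fderiv ℝ ϑ y) W₁ :=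
        hϑ.smooth.fderiv_of_isOpen hC₁.isOpen (by simp)
      have h2 : ContDiffOn ℝ ∞ (fun y : (E n × ℝ) × ℝ => fderiv ℝ ϑ y.1) {y | y.1 ∈ W₁} :=
        h1.comp contDiff_fst.contDiffOn fun y hy => hy
      have h3 : ContDiffOn ℝ ∞ (fun y : (E n × ℝ) × ℝ => (Real.cos y.2 • v, Real.sin y.2))
          {y | y.1 ∈ W₁} := by
        refine ContDiff.contDiffOn ?_
        exact (((Real.contDiff_cos.comp contDiff_snd).smul contDiff_const)).prodMk
          (Real.contDiff_sin.comp contDiff_snd)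
      exact h2.clm_apply h3
    · intro y hyW hyPS
      have hyW' : y.1 ∈ W₁ := hyW
      have h1 : (y.1, ϑ y.1) ∈ PS v C :=
        (mem_PS hC₁ (x := (y.1, ϑ y.1)) hyPS.1 hyW').2 (hϑ.tang y.1 hyW')
      obtain ⟨j, hj⟩ := PS_unique hR (y := y.1) (φ := y.2) (ψ := ϑ y.1) hyPS h1
      exact cval_of hC₁ hϑ hyPS.1 hyW' hj
  · exact ⟨(PS v C)ᶜ, (PS_closed hR).isOpen_compl, hx, fun _ => 0, contDiffOn_const,
      fun y hy hy' => absurd hy' hy⟩

theorem curv_global (hR : Red v C U) : ∃ κ : (E n × ℝ) × ℝ → ℝ, ContDiff ℝ ∞ κ ∧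
    (∀ g ∈ lat n, ∀ x : (E n × ℝ) × ℝ, κ ((x.1.1 + g, x.1.2), x.2) = κ x) ∧
    ∀ x ∈ PS v C, cval v C x (κ x) := by
  obtain ⟨κ₀, hκ₀, hκ₀'⟩ := exists_glue (V := (E n × ℝ) × ℝ)
    (fun x => {k | x ∈ PS v C → cval v C x k})
    (by
      intro x k hk k' hk' a b ha hb hab hx
      have h1 : k = k' := cval_unique hR hx (hk hx) (hk' hx)
      have h2 : a • k + b • k' = k := by
        rw [← h1, smul_eq_mul, smul_eq_mul, ← add_mul, hab, one_mul]
      rw [h2]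
      exact hk hx)
    (by
      intro x
      obtain ⟨W, hW, hxW, g, hg, hg'⟩ := curv_local hR x
      exact ⟨W, hW, hxW, g, hg, fun y hy => hg' y hy⟩)
  obtain ⟨F', hF', hinv, hav, -⟩ := exists_avg (n := n) (P := ℝ × ℝ)
    (fun z => κ₀ ((z.1, z.2.1), z.2.2))
    (hκ₀.comp ((contDiff_fst.prodMk (contDiff_fst.comp contDiff_snd)).prodMk
      (contDiff_snd.comp contDiff_snd)))
  refine ⟨fun x => F' (x.1.1, (x.1.2, x.2)), ?_, ?_, ?_⟩
  · exact hF'.comp ((contDiff_fst.comp contDiff_fst).prodMk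
      ((contDiff_snd.comp contDiff_fst).prodMk contDiff_snd))
  · intro g hg x
    exact hinv g hg x.1.1 (x.1.2, x.2)
  · intro x hx
    have h1 : F' (x.1.1, (x.1.2, x.2)) = κ₀ x := by
      refine hav x.1.1 (x.1.2, x.2) (κ₀ x) fun g hg => ?_
      have hx' := PS_inv hR hg hx
      exact cval_unique hR hx' (hκ₀' _ hx') (cval_trans hR hg (hκ₀' _ hx))
    show cval v C x (F' (x.1.1, (x.1.2, x.2)))
    rw [h1]
    exact hκ₀' x hx

theorem curv_bound (hR : Red v C U) {κ : (E n × ℝ) × ℝ → ℝ} (hκ : ContDiff ℝ ∞ κ)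
    (hinv : ∀ g ∈ lat n, ∀ x : (E n × ℝ) × ℝ, κ ((x.1.1 + g, x.1.2), x.2) = κ x)
    (hc : ∀ x ∈ PS v C, cval v C x (κ x)) : ∃ K : ℝ, ∀ x ∈ PS v C, |κ x| ≤ K := by
  obtain ⟨R, hRc⟩ := lat_cocpt (n := n)
  obtain ⟨M, hM⟩ := hR.bdd
  have hcl : IsClosed (PS v C ∩ {x : (E n × ℝ) × ℝ | ‖x.1.1‖ ≤ R ∧ |x.2| ≤ 2 * Real.pi}) := by
    refine (PS_closed hR).inter ?_
    exact (isClosed_le (continuous_norm.comp (continuous_fst.comp continuous_fst))
      continuous_const).inter (isClosed_le (continuous_abs.comp continuous_snd) continuous_const)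
  have hbd : Bornology.IsBounded
      (PS v C ∩ {x : (E n × ℝ) × ℝ | ‖x.1.1‖ ≤ R ∧ |x.2| ≤ 2 * Real.pi}) := by
    rw [isBounded_iff_forall_norm_le]
    refine ⟨max (max R M) (2 * Real.pi), fun x hx => ?_⟩
    rw [Prod.norm_def, Prod.norm_def]
    refine max_le_max (max_le_max hx.2.1 ?_) ?_
    · rw [Real.norm_eq_abs]
      exact hM x.1 hx.1.1
    · rw [Real.norm_eq_abs]
      exact hx.2.2
  have hcomp := Metric.isCompact_of_isClosed_isBounded hcl hbd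
  obtain ⟨K, hK⟩ := hcomp.exists_bound_of_continuousOn (f := κ) hκ.continuous.continuousOn
  refine ⟨K, fun x hx => ?_⟩
  obtain ⟨g, hg, hgR⟩ := hRc x.1.1
  have hx' := PS_inv hR hg hx
  have e1 := hinv g hg x
  obtain ⟨j, hj⟩ : ∃ j : ℤ, |x.2 + ((2 * j : ℤ) : ℝ) * Real.pi| ≤ 2 * Real.pi := by
    refine ⟨-⌊x.2 / (2 * Real.pi)⌋, ?_⟩
    have hp : 0 < 2 * Real.pi := by positivity
    have h1 := Int.floor_le (x.2 / (2 * Real.pi))
    have h2 := (Int.lt_floor_add_one (x.2 / (2 * Real.pi))).le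
    rw [le_div_iff₀ hp] at h1
    rw [div_le_iff₀ hp] at h2
    push_cast
    rw [abs_le]
    constructor <;> linarith
  have hx'' := PS_pi hR hx' (2 * j)
  have h3 := cval_pi hR hx' (hc _ hx') (2 * j)
  have h4 : ((-1 : ℝ)) ^ (2 * j) = 1 := Even.neg_one_zpow ⟨j, by ring⟩
  rw [h4, one_mul] at h3
  have h5 := cval_unique hR hx'' (hc _ hx'') h3
  have h6 := hK _ ⟨hx'', hgR, hj⟩
  rw [Real.norm_eq_abs] at h6
  rw [← e1, ← h5]
  exact h6

theorem exists_curv (hR : Red v C U) : ∃ κ, Curv v C κ := by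
  obtain ⟨κ₁, hs, hinv, hc⟩ := curv_global hR
  obtain ⟨K, hK⟩ := curv_bound hR hs hinv hc
  have hK0 : 0 ≤ |K| := abs_nonneg K
  let χ : ContDiffBump (0 : ℝ) := ⟨|K| + 1, |K| + 2, by positivity, by linarith⟩
  have hχs : ContDiff ℝ ∞ (χ : ℝ → ℝ) := χ.contDiff
  refine ⟨fun x => χ (κ₁ x) * κ₁ x, ⟨?_, ?_, ⟨|K| + 2, ?_⟩, ?_⟩⟩
  · exact (hχs.comp hs).mul hs
  · intro g hg x
    show χ (κ₁ ((x.1.1 + g, x.1.2), x.2)) * κ₁ ((x.1.1 + g, x.1.2), x.2) = χ (κ₁ x) * κ₁ x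
    rw [hinv g hg x]
  · intro x
    rcases le_total (|K| + 2) |κ₁ x| with h | h
    · have h0 : χ (κ₁ x) = 0 := χ.zero_of_le_dist (by
        rw [dist_zero_right, Real.norm_eq_abs]
        exact h)
      rw [h0, zero_mul, abs_zero]
      linarith
    · rw [abs_mul, abs_of_nonneg χ.nonneg]
      calc χ (κ₁ x) * |κ₁ x| ≤ 1 * |κ₁ x| := mul_le_mul_of_nonneg_right χ.le_one (abs_nonneg _)
        _ ≤ |K| + 2 := by linarith
  · intro x hx W u ϑ hxW hC hϑ k hk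
    have h1 : χ (κ₁ x) = 1 := χ.one_of_mem_closedBall (by
      rw [mem_closedBall_zero_iff, Real.norm_eq_abs]
      have h2 := hK x hx
      have h3 := le_abs_self K
      show |κ₁ x| ≤ |K| + 1
      linarith)
    show χ (κ₁ x) * κ₁ x = _
    rw [h1, one_mul]
    exact hc x hx W u ϑ hxW hC hϑ k hk

end Pool.Agent.H2.TG
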