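import Pool.Agent.H57.NL.Defs

/-!
# Exact Lagrangians in the cotangent bundle of the torus: definitions (helper2, MP_3dbb84)

`E n = ℝ^n`, the torus is `ℝ^n / ℤ^n`. A closed exact Lagrangian submanifold of `T*T^n` is given by
its preimage `S` in `ℝ^n × ℝ^n` (framework of helper57, `Pool/Agent/H57/NL/Defs.lean`, with
`N = univ`, `Γ = lat n`).

The reduced space is `ℝ^n × ℝ`; the map `sig v (q, p) = (q, ⟨p, v⟩)`.
-/

set_option autoImplicit false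

open scoped ContDiff Topology RealInnerProductSpace
open Set

namespace Pool.Agent.H2.TG

open Pool.Agent.H57.NL

/-- The integer lattice in `ℝ^n`. -/
def lat (n : ℕ) : AddSubgroup (E n) where
  carrier := {g | ∀ i, ∃ k : ℤ, g i = k}
  zero_mem' := fun i => ⟨0, by simp⟩
  add_mem' := by
    intro a b ha hb i
    obtain ⟨k, hk⟩ := ha i
    obtain ⟨l, hl⟩ := hb i
    exact ⟨k + l, by simp [hk, hl]⟩
  neg_mem' := by
    intro a ha i
    obtain ⟨k, hk⟩ := ha i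
    exact ⟨-k, by simp [hk]⟩

variable {n : ℕ}

/-- The reduction map `(q, p) ↦ (q, ⟨p, v⟩)`. -/
noncomputable def sig (v : E n) (z : E n × E n) : E n × ℝ := (z.1, ⟪z.2, v⟫)

/-- A set is invariant under the lattice. -/
def Inv (U : Set (E n)) : Prop := ∀ g ∈ lat n, ∀ q ∈ U, q + g ∈ U

/-- A set in the reduced space is invariant under the lattice. -/
def InvR (C : Set (E n × ℝ)) : Prop := ∀ g ∈ lat n, ∀ x ∈ C, (x.1 + g, x.2) ∈ C

/-- Every ray in the directions `v` and `-v` meets `U`, within time `T`. -/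
def Rays (v : E n) (U : Set (E n)) (T : ℝ) : Prop :=
  ∀ q, (∃ t, 0 ≤ t ∧ t ≤ T ∧ q + t • v ∈ U) ∧ ∃ t, 0 ≤ t ∧ t ≤ T ∧ q - t • v ∈ U

/-- `S / ℤ^n` is connected. -/
def ConnMod (S : Set (E n × E n)) : Prop :=
  ∀ C D : Set (E n × E n), IsOpen C → IsOpen D → S ⊆ C ∪ D → S ∩ C ∩ D = ∅ →
    (∀ g ∈ lat n, ∀ z, z ∈ C ↔ tr g z ∈ C) → (∀ g ∈ lat n, ∀ z, z ∈ D ↔ tr g z ∈ D) →
    (S ∩ C).Nonempty → S ⊆ C

/-- `sig v` is an embedding of `S / ℤ^n` into `T^n × ℝ`: it is injective on `S` and an immersion. -/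
structure Embeds (v : E n) (S : Set (E n × E n)) : Prop where
  inj : ∀ z ∈ S, ∀ z' ∈ S, z.1 = z'.1 → ⟪z.2, v⟫ = ⟪z'.2, v⟫ → z = z'
  imm : ∀ z ∈ S, ∀ b : E n, (0, b) ∈ Tan S z → ⟪b, v⟫ = 0 → b = 0

/-- The derivative of `u` at `y` in the directions of the plane spanned by `v` and the last
coordinate. -/
noncomputable def dplane (v : E n) (u : E n × ℝ → ℝ) (y : E n × ℝ) (a b : ℝ) : ℝ :=
  fderiv ℝ u y (a • v, b)

/-- `u` is a local equation of `C` on the open set `W`, regular in the planes. -/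
structure LocEq (v : E n) (C W : Set (E n × ℝ)) (u : E n × ℝ → ℝ) : Prop where
  isOpen : IsOpen W
  smooth : ContDiffOn ℝ ∞ u W
  eqn : ∀ y ∈ W, (y ∈ C ↔ u y = 0)
  reg : ∀ y ∈ W, ¬ (dplane v u y 1 0 = 0 ∧ dplane v u y 0 1 = 0)

/-- The reduced hypersurface: closed, invariant, bounded in the last coordinate, with regular local
equations, equal to `{r = 0}` over `U`, connected modulo the lattice. -/
structure Red (v : E n) (C : Set (E n × ℝ)) (U : Set (E n)) : Prop where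
  ne : C.Nonempty
  closed : IsClosed C
  inv : InvR C
  bdd : ∃ M : ℝ, ∀ x ∈ C, |x.2| ≤ M
  loc : ∀ x ∈ C, ∃ W u, x ∈ W ∧ LocEq v C W u
  open_U : IsOpen U
  inv_U : Inv U
  overU : ∀ q ∈ U, ∀ r : ℝ, (q, r) ∈ C ↔ r = 0
  conn : ∀ A B : Set (E n × ℝ), IsOpen A → IsOpen B → C ⊆ A ∪ B → C ∩ A ∩ B = ∅ →
    (∀ g ∈ lat n, ∀ x : E n × ℝ, x ∈ A ↔ (x.1 + g, x.2) ∈ A) →
    (∀ g ∈ lat n, ∀ x : E n × ℝ, x ∈ B ↔ (x.1 + g, x.2) ∈ B) → (C ∩ A).Nonempty → C ⊆ A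

/-- The smooth phase functions on `T^n × ℝ`: smooth, invariant, zero for `|r| ≥ M` and over `U`. -/
structure Phase (v : E n) (Θ : E n × ℝ → ℝ) (U : Set (E n)) (M T : ℝ) : Prop where
  smooth : ContDiff ℝ ∞ Θ
  inv : ∀ g ∈ lat n, ∀ x : E n × ℝ, Θ (x.1 + g, x.2) = Θ x
  supp : ∀ x : E n × ℝ, M ≤ |x.2| → Θ x = 0
  open_U : IsOpen U
  overU : ∀ q ∈ U, ∀ r : ℝ, Θ (q, r) = 0
  rays : Rays v U T
  hM : 0 < M
  hT : 0 < T
  hv : ‖v‖ = 1

/-- The phase set: `(q, r, φ)` with `(q, r)` in `C` and the direction `(cos φ, sin φ)` tangent to `C`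
in the plane. -/
def PS (v : E n) (C : Set (E n × ℝ)) : Set ((E n × ℝ) × ℝ) :=
  {x | x.1 ∈ C ∧ ∀ W u, x.1 ∈ W → LocEq v C W u →
    dplane v u x.1 (Real.cos x.2) (Real.sin x.2) = 0}

/-- `ϑ` is a smooth phase of `u` on `W`: the direction `(cos ϑ, sin ϑ)` is tangent to the level curves
of `u` in the planes. -/
structure PhaseOf (v : E n) (W : Set (E n × ℝ)) (u ϑ : E n × ℝ → ℝ) : Prop where
  smooth : ContDiffOn ℝ ∞ ϑ W
  tang : ∀ y ∈ W, dplane v u y (Real.cos (ϑ y)) (Real.sin (ϑ y)) = 0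

/-- The function `κ` is the curvature of the leaves on the phase set. -/
structure Curv (v : E n) (C : Set (E n × ℝ)) (κ : (E n × ℝ) × ℝ → ℝ) : Prop where
  smooth : ContDiff ℝ ∞ κ
  inv : ∀ g ∈ lat n, ∀ x : (E n × ℝ) × ℝ, κ ((x.1.1 + g, x.1.2), x.2) = κ x
  bdd : ∃ K : ℝ, ∀ x, |κ x| ≤ K
  curv : ∀ x ∈ PS v C, ∀ W u ϑ, x.1 ∈ W → LocEq v C W u → PhaseOf v W u ϑ →
    ∀ k : ℤ, x.2 = ϑ x.1 + k * Real.pi →
      κ x = fderiv ℝ ϑ x.1 (Real.cos x.2 • v, Real.sin x.2)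

/-- The vector field of the leaves on `(ℝ^n × ℝ) × ℝ`. -/
noncomputable def LF (v : E n) (κ : (E n × ℝ) × ℝ → ℝ) (x : (E n × ℝ) × ℝ) : (E n × ℝ) × ℝ :=
  ((Real.cos x.2 • v, Real.sin x.2), κ x)

/-- The vector field with phase `s Θ + π / 2` in the planes. -/
noncomputable def XF (v : E n) (Θ : E n × ℝ → ℝ) (s : ℝ) (x : E n × ℝ) : E n × ℝ :=
  ((-Real.sin (s * Θ x)) • v, Real.cos (s * Θ x))

/-- `Ψ` is the flow of the vector field `X`. -/
structure IsFlow {V : Type} [NormedAddCommGroup V] [NormedSpace ℝ V] (X : V → V)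
    (Ψ : ℝ → V → V) : Prop where
  zero : ∀ x, Ψ 0 x = x
  deriv : ∀ x t, HasDerivAt (fun t => Ψ t x) (X (Ψ t x)) t
  smooth : ContDiff ℝ ∞ fun y : ℝ × V => Ψ y.1 y.2

/-- The data of the leaf analysis: reduced hypersurface, curvature, flow of the leaves, a smaller
open set `U₂` met by all rays. -/
structure Leaf (v : E n) (C : Set (E n × ℝ)) (U U₂ : Set (E n)) (T : ℝ)
    (κ : (E n × ℝ) × ℝ → ℝ) (Λ : ℝ → (E n × ℝ) × ℝ → (E n × ℝ) × ℝ) : Prop where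
  red : Red v C U
  hv : ‖v‖ = 1
  hT : 0 < T
  open₂ : IsOpen U₂
  inv₂ : Inv U₂
  cl₂ : closure U₂ ⊆ U
  rays : Rays v U₂ T
  curv : Curv v C κ
  flow : IsFlow (LF v κ) Λ

/-- The points over `U` with `r = 0` and phase `0`. -/
def OO (U : Set (E n)) : Set ((E n × ℝ) × ℝ) := {x | x.1.1 ∈ U ∧ x.1.2 = 0 ∧ x.2 = 0}

/-- The points of the phase set whose leaf meets `OO U`. -/
def RR (v : E n) (C : Set (E n × ℝ)) (U : Set (E n))
    (Λ : ℝ → (E n × ℝ) × ℝ → (E n × ℝ) × ℝ) : Set ((E n × ℝ) × ℝ) :=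
  {x | x ∈ PS v C ∧ ∃ s, Λ s x ∈ OO U}

/-- The coordinate along `v` of a point of the plane of `q`. -/
noncomputable def tc (v q q' : E n) : ℝ := ⟪q' - q, v⟫

/-- A symplectic straightening: `F` is a diffeomorphism of the cotangent bundle of the torus with
inverse `F'` and `F*λ = λ + d(A ∘ sig v)`; the kernel of the differential of its first component is
mapped by `sig v` to multiples of the vector field `XF v Θ 1`. -/
structure Straight (v : E n) (Θ : E n × ℝ → ℝ) (F F' : E n × E n → E n × E n)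
    (A : E n × ℝ → ℝ) : Prop where
  smooth : ContDiff ℝ ∞ F
  smooth' : ContDiff ℝ ∞ F'
  smoothA : ContDiff ℝ ∞ A
  left : ∀ z, F' (F z) = z
  right : ∀ z, F (F' z) = z
  equiv : ∀ g ∈ lat n, ∀ z, F (tr g z) = tr g (F z)
  invA : ∀ g ∈ lat n, ∀ x : E n × ℝ, A (x.1 + g, x.2) = A x
  exact : ∀ z ζ : E n × E n, ⟪(F z).2, (fderiv ℝ F z ζ).1⟫
    = ⟪z.2, ζ.1⟫ + fderiv ℝ A (sig v z) (ζ.1, ⟪ζ.2, v⟫)
  vert : ∀ z ζ : E n × E n, (fderiv ℝ F z ζ).1 = 0 →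
    ∃ c : ℝ, (ζ.1, ⟪ζ.2, v⟫) = c • XF v Θ 1 (sig v z)

end Pool.Agent.H2.TG
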