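import Pool.Agent.H2.TG.Tor
import Pool.Agent.H57.NL.MaxPair
import Pool.Agent.H57.NL.Slice

/-!
# The embedding condition is open in `v` (module EmbOpen)

PROOF. Key lemma `secant_tangent`: let `z_k, z'_k ∈ S`, `z_k ≠ z'_k`, `z_k → z ∈ S`, `z'_k → z` and
`(z_k - z'_k) / ‖z_k - z'_k‖ → w`. Then `w ∈ Tan S z`. Proof: take the chart `e` of `S` at `z`
(`IsSubmfd`, or `IsSubmfd.slice` in `H57/NL/Slice.lean`) with `A` the linear subspace. `e` is strictly
differentiable at `z`, so `(e z_k - e z'_k) / ‖z_k - z'_k‖ → De(z) w`, which is in `A` (closed subspace);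
then `w` is the velocity of `s ↦ e.symm (e z + s • De(z) w)`, a curve in `S` (see the lemmas on `Tan` in
`Slice.lean`: `Tan S z` is the preimage of `A` under the derivative of the chart).

Suppose the statement is false: there are `v_k → v` such that `Embeds v_k S` fails. Either for infinitely
many `k` injectivity fails: `z_k ≠ z'_k ∈ S`, same first coordinate, `⟪z_k.2, v_k⟫ = ⟪z'_k.2, v_k⟫`; move
both by the same lattice element (`lat_cocpt`) so that the first coordinate is bounded; the set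
`{z ∈ S | ‖z.1‖ ≤ R}` is compact (`ExactLag.compact_part`); pass to subsequences `z_k → z`,
`z'_k → z'`. In the limit `z.1 = z'.1`, `⟪z.2, v⟫ = ⟪z'.2, v⟫`, so `z = z'` by `h.inj`. Pass to a
subsequence such that the normalised difference `(0, b_k)` converges to `(0, b)`, norm one; by
`secant_tangent` it is in `Tan S z`, and `⟪b, v⟫ = lim ⟪b_k, v_k⟫ = 0`, contradiction with `h.imm`.
Or for infinitely many `k` the immersion property fails: `(0, b_k) ∈ Tan S z_k`, `⟪b_k, v_k⟫ = 0`,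
`b_k ≠ 0`; for each `k` the velocity curve provides two points `z_k, z'_k` of `S` with
`(z'_k - z_k)/‖z'_k - z_k‖` within `1/k` of `(0, b_k/‖b_k‖)` and `‖z'_k - z_k‖ ≤ 1/k`, so the same
limit argument applies (move by the lattice, `Tan` is invariant). (Sequences can be avoided by working
with filters, but sequences are simplest.)
-/

set_option autoImplicit false

open scoped ContDiff Topology RealInnerProductSpace
open Set

namespace Pool.Agent.H2.TG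

open Pool.Agent.H57.NL

variable {n : ℕ} {S : Set (E n × E n)} {f : E n × E n → ℝ} {v : E n}

/-- Limits of secants are tangent vectors. -/
theorem secant_tangent (hS : IsSubmfd n S) {z w : E n × E n} (hz : z ∈ S)
    {a b : ℕ → E n × E n} (ha : ∀ k, a k ∈ S) (hb : ∀ k, b k ∈ S) (hab : ∀ k, a k ≠ b k)
    (hal : Filter.Tendsto a Filter.atTop (𝓝 z)) (hbl : Filter.Tendsto b Filter.atTop (𝓝 z))
    (hw : Filter.Tendsto (fun k => ‖a k - b k‖⁻¹ • (a k - b k)) Filter.atTop (𝓝 w)) :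
    w ∈ Tan S z := by
  obtain ⟨e, A, hxe, hs⟩ := hS.slice hz
  rw [hs.mem_tan hxe hz]
  have hAc : IsClosed (A : Set (E n × E n)) := A.closed_of_finiteDimensional
  have hstr : HasStrictFDerivAt e (fderiv ℝ e z) z :=
    (hs.cd hxe).hasStrictFDerivAt (by simp)
  have hpair : Filter.Tendsto (fun k => (a k, b k)) Filter.atTop (𝓝 (z, z)) := hal.prodMk_nhds hbl
  have h1 := hstr.isLittleO.comp_tendsto hpair
  have h2 : (fun k => e (a k) - e (b k) - fderiv ℝ e z (a k - b k)) =o[Filter.atTop]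
      (fun k => ‖a k - b k‖) := h1.norm_right
  have h3 := h2.tendsto_inv_smul_nhds_zero
  have h4 : Filter.Tendsto (fun k => fderiv ℝ e z (‖a k - b k‖⁻¹ • (a k - b k))) Filter.atTop
      (𝓝 (fderiv ℝ e z w)) := ((fderiv ℝ e z).continuous.tendsto w).comp hw
  have h5 := h3.add h4
  rw [zero_add] at h5
  refine hAc.mem_of_tendsto h5 ?_
  filter_upwards [hal.eventually (e.open_source.mem_nhds hxe),
    hbl.eventually (e.open_source.mem_nhds hxe)] with k h6 h7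
  have h8 : ‖a k - b k‖⁻¹ • (e (a k) - e (b k) - fderiv ℝ e z (a k - b k)) +
      fderiv ℝ e z (‖a k - b k‖⁻¹ • (a k - b k)) = ‖a k - b k‖⁻¹ • (e (a k) - e (b k)) := by
    rw [map_smul, smul_sub, sub_add_cancel]
  rw [h8]
  exact A.smul_mem _ (A.sub_mem ((hs.iff _ h6).1 (ha k)) ((hs.iff _ h7).1 (hb k)))

private theorem tan_tr (hL : ExactLag n univ (lat n) S f) {g : E n} (hg : g ∈ lat n)
    {z w : E n × E n} (hw : w ∈ Tan S z) : w ∈ Tan S (tr g z) := by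
  obtain ⟨γ, h0, hS, hd⟩ := hw
  refine ⟨fun s => tr g (γ s), congrArg (tr g) h0, ?_, ?_⟩
  · filter_upwards [hS] with s hs
    exact hL.inv g hg _ hs
  · have h1 : HasDerivAt (fun s => γ s + (g, 0)) w 0 := hd.add_const (g, (0 : E n))
    have h2 : (fun s => tr g (γ s)) = fun s => γ s + (g, 0) := by
      funext s
      simp [tr, Prod.ext_iff]
    rw [h2]
    exact h1

private theorem imm_open (hL : ExactLag n univ (lat n) S f) (h : Embeds v S) :
    ∃ ε : ℝ, 0 < ε ∧ ∀ v' : E n, ‖v' - v‖ < ε → ∀ z ∈ S, ∀ b : E n, (0, b) ∈ Tan S z →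
      ⟪b, v'⟫ = 0 → b = 0 := by
  obtain ⟨R, hR⟩ := lat_cocpt (n := n)
  have hKc : IsCompact {z | z ∈ S ∧ ‖z.1‖ ≤ R} := hL.compact_part R
  have hsp : IsCompact (Metric.sphere (0 : E n) 1) := isCompact_sphere _ _
  have hcl := hL.sub.isClosed_tan hL.closed
  have hcl' : IsClosed {q : (E n × E n) × E n | q.1 ∈ S ∧ ((0 : E n), q.2) ∈ Tan S q.1} := by
    have hcont : Continuous (fun q : (E n × E n) × E n => (q.1, ((0 : E n), q.2))) := by fun_prop
    exact hcl.preimage hcont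
  have hK : IsCompact (({z | z ∈ S ∧ ‖z.1‖ ≤ R} ×ˢ Metric.sphere (0 : E n) 1) ∩
      {q : (E n × E n) × E n | q.1 ∈ S ∧ ((0 : E n), q.2) ∈ Tan S q.1}) :=
    (hKc.prod hsp).inter_right hcl'
  have hc : ∃ c : ℝ, 0 < c ∧ ∀ q ∈ (({z | z ∈ S ∧ ‖z.1‖ ≤ R} ×ˢ Metric.sphere (0 : E n) 1) ∩
      {q : (E n × E n) × E n | q.1 ∈ S ∧ ((0 : E n), q.2) ∈ Tan S q.1}), c ≤ |⟪q.2, v⟫| := by
    by_cases hne : (({z | z ∈ S ∧ ‖z.1‖ ≤ R} ×ˢ Metric.sphere (0 : E n) 1) ∩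
      {q : (E n × E n) × E n | q.1 ∈ S ∧ ((0 : E n), q.2) ∈ Tan S q.1}).Nonempty
    · have hcont : ContinuousOn (fun q : (E n × E n) × E n => |⟪q.2, v⟫|)
          (({z | z ∈ S ∧ ‖z.1‖ ≤ R} ×ˢ Metric.sphere (0 : E n) 1) ∩
          {q : (E n × E n) × E n | q.1 ∈ S ∧ ((0 : E n), q.2) ∈ Tan S q.1}) := by
        apply Continuous.continuousOn
        fun_prop
      obtain ⟨q, hq, hmin⟩ := hK.exists_isMinOn hne hcont
      refine ⟨|⟪q.2, v⟫|, ?_, fun q' hq' => hmin hq'⟩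
      rw [abs_pos]
      intro h0
      have h1 := h.imm q.1 hq.2.1 q.2 hq.2.2 h0
      have h2 : ‖q.2‖ = 1 := by simpa using hq.1.2
      rw [h1, norm_zero] at h2
      exact zero_ne_one h2
    · refine ⟨1, one_pos, fun q hq => absurd ⟨q, hq⟩ hne⟩
  obtain ⟨c, hc0, hc⟩ := hc
  refine ⟨c, hc0, fun v' hv' z hz b hb hbv => ?_⟩
  by_contra hb0
  obtain ⟨g, hg, hgR⟩ := hR z.1
  have hbn : 0 < ‖b‖ := norm_pos_iff.2 hb0
  have h1 : ((0 : E n), ‖b‖⁻¹ • b) ∈ Tan S (tr g z) := by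
    have := Tan.smul (tan_tr hL hg hb) (‖b‖⁻¹)
    simpa using this
  have h2 : ‖‖b‖⁻¹ • b‖ = 1 := by
    rw [norm_smul, norm_inv, norm_norm, inv_mul_cancel₀ hbn.ne']
  have h3 := hc (tr g z, ‖b‖⁻¹ • b) ⟨⟨⟨hL.inv g hg z hz, hgR⟩, by simpa using h2⟩,
    hL.inv g hg z hz, h1⟩
  have h4 : ⟪‖b‖⁻¹ • b, v'⟫ = 0 := by rw [real_inner_smul_left, hbv, mul_zero]
  have h5 : ⟪‖b‖⁻¹ • b, v⟫ = - ⟪‖b‖⁻¹ • b, v' - v⟫ := by
    rw [inner_sub_right, h4, zero_sub, neg_neg]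
  have h6 : |⟪‖b‖⁻¹ • b, v⟫| ≤ ‖v' - v‖ := by
    rw [h5, abs_neg]
    have := abs_real_inner_le_norm (‖b‖⁻¹ • b) (v' - v)
    rwa [h2, one_mul] at this
  have h7 : c ≤ |⟪‖b‖⁻¹ • b, v⟫| := h3
  linarith

private theorem inj_open (hL : ExactLag n univ (lat n) S f) (h : Embeds v S) :
    ∃ ε : ℝ, 0 < ε ∧ ∀ v' : E n, ‖v' - v‖ < ε → ∀ z ∈ S, ∀ z' ∈ S, z.1 = z'.1 →
      ⟪z.2, v'⟫ = ⟪z'.2, v'⟫ → z = z' := by
  by_contra hcon
  push Not at hcon
  obtain ⟨R, hR⟩ := lat_cocpt (n := n)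
  have hKc : IsCompact {z | z ∈ S ∧ ‖z.1‖ ≤ R} := hL.compact_part R
  have hsp : IsCompact (Metric.sphere (0 : E n) 1) := isCompact_sphere _ _
  have step : ∀ k : ℕ, ∃ q : ((E n × E n) × (E n × E n)) × E n,
      ‖q.2 - v‖ < 1 / ((k : ℝ) + 1) ∧ q.1.1 ∈ {z | z ∈ S ∧ ‖z.1‖ ≤ R} ∧
      q.1.2 ∈ {z | z ∈ S ∧ ‖z.1‖ ≤ R} ∧ q.1.1.1 = q.1.2.1 ∧ ⟪q.1.1.2, q.2⟫ = ⟪q.1.2.2, q.2⟫ ∧
      q.1.1 ≠ q.1.2 := by
    intro k
    obtain ⟨v', hv', z, hz, z', hz', h1, h2, h3⟩ := hcon (1 / ((k : ℝ) + 1)) (by positivity)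
    obtain ⟨g, hg, hgR⟩ := hR z.1
    refine ⟨((tr g z, tr g z'), v'), hv', ⟨hL.inv g hg z hz, hgR⟩, ⟨hL.inv g hg z' hz', ?_⟩, ?_,
      h2, ?_⟩
    · change ‖z'.1 + g‖ ≤ R
      rw [← h1]
      exact hgR
    · change z.1 + g = z'.1 + g
      rw [h1]
    · intro h4
      apply h3
      have h4' : tr g z = tr g z' := h4
      have h5 : z.2 = z'.2 := by
        have h6 := congrArg Prod.snd h4'
        exact h6
      exact Prod.ext h1 h5
  choose q hq1 hq2 hq3 hq4 hq5 hq6 using step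
  have hne2 : ∀ k, (q k).1.1.2 - (q k).1.2.2 ≠ 0 := by
    intro k h0
    exact hq6 k (Prod.ext (hq4 k) (sub_eq_zero.1 h0))
  have hdiff : ∀ k, (q k).1.1 - (q k).1.2 = ((0 : E n), (q k).1.1.2 - (q k).1.2.2) := by
    intro k
    refine Prod.ext ?_ rfl
    change (q k).1.1.1 - (q k).1.2.1 = 0
    rw [hq4 k, sub_self]
  have hnrm : ∀ k, ‖(q k).1.1 - (q k).1.2‖ = ‖(q k).1.1.2 - (q k).1.2.2‖ := by
    intro k
    rw [hdiff k, Prod.norm_def]
    simp
  set y : ℕ → ((E n × E n) × (E n × E n)) × E n := fun k =>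
    ((q k).1, ‖(q k).1.1.2 - (q k).1.2.2‖⁻¹ • ((q k).1.1.2 - (q k).1.2.2)) with hy
  have hyK : ∀ k, y k ∈ ({z | z ∈ S ∧ ‖z.1‖ ≤ R} ×ˢ {z | z ∈ S ∧ ‖z.1‖ ≤ R}) ×ˢ
      Metric.sphere (0 : E n) 1 := by
    intro k
    refine ⟨⟨hq2 k, hq3 k⟩, ?_⟩
    have h1 : 0 < ‖(q k).1.1.2 - (q k).1.2.2‖ := norm_pos_iff.2 (hne2 k)
    simp only [mem_sphere_iff_norm, sub_zero, hy]
    rw [norm_smul, norm_inv, norm_norm, inv_mul_cancel₀ h1.ne']
  obtain ⟨a, haK, φ, hφ, hlim⟩ := ((hKc.prod hKc).prod hsp).tendsto_subseq hyK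
  have hl1 : Filter.Tendsto (fun k => (q (φ k)).1.1) Filter.atTop (𝓝 a.1.1) :=
    (((continuous_fst.comp continuous_fst).tendsto a).comp hlim :
      Filter.Tendsto (fun k => (y (φ k)).1.1) Filter.atTop (𝓝 a.1.1))
  have hl2 : Filter.Tendsto (fun k => (q (φ k)).1.2) Filter.atTop (𝓝 a.1.2) :=
    (((continuous_snd.comp continuous_fst).tendsto a).comp hlim :
      Filter.Tendsto (fun k => (y (φ k)).1.2) Filter.atTop (𝓝 a.1.2))
  have hl3 : Filter.Tendsto (fun k => ‖(q (φ k)).1.1.2 - (q (φ k)).1.2.2‖⁻¹ •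
      ((q (φ k)).1.1.2 - (q (φ k)).1.2.2)) Filter.atTop (𝓝 a.2) :=
    (continuous_snd.tendsto a).comp hlim
  have hlv : Filter.Tendsto (fun k => (q (φ k)).2) Filter.atTop (𝓝 v) := by
    have h0 : Filter.Tendsto (fun k => (q k).2) Filter.atTop (𝓝 v) := by
      rw [tendsto_iff_norm_sub_tendsto_zero]
      refine squeeze_zero (fun k => norm_nonneg _) (fun k => (hq1 k).le) ?_
      exact tendsto_one_div_add_atTop_nhds_zero_nat
    exact h0.comp hφ.tendsto_atTop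
  have e1 : a.1.1.1 = a.1.2.1 := by
    have h1 := (continuous_fst.tendsto _).comp hl1
    have h2 := (continuous_fst.tendsto _).comp hl2
    refine tendsto_nhds_unique (h1.congr fun k => ?_) h2
    exact hq4 (φ k)
  have e2 : ⟪a.1.1.2, v⟫ = ⟪a.1.2.2, v⟫ := by
    have h1 := ((continuous_snd.tendsto _).comp hl1).inner (𝕜 := ℝ) hlv
    have h2 := ((continuous_snd.tendsto _).comp hl2).inner (𝕜 := ℝ) hlv
    refine tendsto_nhds_unique (h1.congr fun k => ?_) h2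
    exact hq5 (φ k)
  have e3 : a.1.1 = a.1.2 := h.inj _ haK.1.1.1 _ haK.1.2.1 e1 e2
  have e4 : ((0 : E n), a.2) ∈ Tan S a.1.1 := by
    refine secant_tangent hL.sub haK.1.1.1 (a := fun k => (q (φ k)).1.1)
      (b := fun k => (q (φ k)).1.2) (fun k => (hq2 _).1) (fun k => (hq3 _).1)
      (fun k => hq6 _) hl1 (by rw [e3]; exact hl2) ?_
    have h1 : Filter.Tendsto (fun k => ((0 : E n), ‖(q (φ k)).1.1.2 - (q (φ k)).1.2.2‖⁻¹ •
      ((q (φ k)).1.1.2 - (q (φ k)).1.2.2))) Filter.atTop (𝓝 ((0 : E n), a.2)) :=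
      tendsto_const_nhds.prodMk_nhds hl3
    refine h1.congr fun k => ?_
    rw [hnrm, hdiff]
    simp
  have e5 : ⟪a.2, v⟫ = 0 := by
    have h1 := hl3.inner (𝕜 := ℝ) hlv
    have h2 : Filter.Tendsto (fun _ : ℕ => (0 : ℝ)) Filter.atTop (𝓝 0) := tendsto_const_nhds
    refine tendsto_nhds_unique (h1.congr fun k => ?_) h2
    rw [real_inner_smul_left, inner_sub_left, hq5 (φ k), sub_self, mul_zero]
  have e6 := h.imm _ haK.1.1.1 _ e4 e5
  have e7 : ‖a.2‖ = 1 := by simpa using haK.2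
  rw [e6, norm_zero] at e7
  exact zero_ne_one e7

theorem embeds_open (hL : ExactLag n univ (lat n) S f) (h : Embeds v S) :
    ∃ ε : ℝ, 0 < ε ∧ ∀ v' : E n, ‖v' - v‖ < ε → Embeds v' S := by
  obtain ⟨ε₁, h1, h2⟩ := inj_open hL h
  obtain ⟨ε₂, h3, h4⟩ := imm_open hL h
  refine ⟨min ε₁ ε₂, lt_min h1 h3, fun v' hv' => ⟨?_, ?_⟩⟩
  · exact h2 v' (hv'.trans_le (min_le_left _ _))
  · exact h4 v' (hv'.trans_le (min_le_right _ _))

/-- The embedding condition only depends on the line spanned by `v`. -/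
theorem Embeds.smul (h : Embeds v S) {c : ℝ} (hc : c ≠ 0) : Embeds (c • v) S := by
  refine ⟨fun z hz z' hz' h1 h2 => ?_, fun z hz b hb h1 => ?_⟩
  · rw [real_inner_smul_right, real_inner_smul_right] at h2
    exact h.inj z hz z' hz' h1 (mul_left_cancel₀ hc h2)
  · rw [real_inner_smul_right] at h1
    exact h.imm z hz b hb ((mul_eq_zero.1 h1).resolve_left hc)

end Pool.Agent.H2.TG
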