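import Pool.Agent.H2.TG.Defs

/-!
# The lattice and the torus (module Tor)

PROOFS.
* `lat_cocpt`: take `g i = -⌊q i⌋` (as a real number); the coordinates of `q + g` are in `[0,1]`, so the
  norm is at most `√n` (any bound is fine, `R := √n` or `n`). Build `g` with `WithLp.toLp 2` /
  `EuclideanSpace` constructors (`(EuclideanSpace.equiv ..).symm`).
* `lat_finite`: `‖g‖ ≤ R` gives `|g i| ≤ R` for all `i` (`EuclideanSpace.norm_eq`,
  `PiLp.norm_apply_le`), so `g i = k i` with `k i ∈ [-⌈R⌉, ⌈R⌉]`; the set is contained in the image of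
  the finite set of integer vectors `Fintype.piFinset` under the injection `k ↦ (k i : ℝ)`.
* `Tan_univ`: `Tan univ x = univ`: the curve `s ↦ x + s • v`.
* `TN_univ`: immediate from `Tan_univ`.
* `submfd_univ`: `IsSubmfd n (univ : Set (E n))`: the identity `OpenPartialHomeomorph.refl` and the
  subspace `⊤` of dimension `n` (`finrank_euclideanSpace_fin`).
* `closedMfd`: assemble (`isConnected_univ`).
-/

set_option autoImplicit false

open scoped ContDiff Topology RealInnerProductSpace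
open Set

namespace Pool.Agent.H2.TG

open Pool.Agent.H57.NL

variable {n : ℕ}

theorem lat_cocpt : ∃ R : ℝ, ∀ q : E n, ∃ g ∈ lat n, ‖q + g‖ ≤ R := by
  refine ⟨Real.sqrt n, fun q => ⟨WithLp.toLp 2 fun i => -((⌊q i⌋ : ℤ) : ℝ), ?_, ?_⟩⟩
  · intro i
    exact ⟨-⌊q i⌋, by simp⟩
  · rw [EuclideanSpace.norm_eq]
    apply Real.sqrt_le_sqrt
    have h1 : ∀ i ∈ (Finset.univ : Finset (Fin n)),
        ‖(q + WithLp.toLp 2 fun i => -((⌊q i⌋ : ℤ) : ℝ) : E n) i‖ ^ 2 ≤ 1 := by
      intro i _
      have e1 : (q + WithLp.toLp 2 fun i => -((⌊q i⌋ : ℤ) : ℝ) : E n) i = Int.fract (q i) := by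
        simp [Int.fract, sub_eq_add_neg]
      rw [e1, Real.norm_eq_abs, abs_of_nonneg (Int.fract_nonneg _)]
      exact pow_le_one₀ (Int.fract_nonneg _) (Int.fract_lt_one _).le
    calc _ ≤ ∑ i : Fin n, (1 : ℝ) := Finset.sum_le_sum h1
      _ = n := by simp

theorem lat_finite (R : ℝ) : {g : E n | g ∈ lat n ∧ ‖g‖ ≤ R}.Finite := by
  set A : Finset (Fin n → ℤ) := Fintype.piFinset fun _ => Finset.Icc (-⌈R⌉) ⌈R⌉ with hA
  refine Set.Finite.subset (A.finite_toSet.image
    (fun k : Fin n → ℤ => (WithLp.toLp 2 fun i => ((k i : ℤ) : ℝ) : E n))) ?_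
  rintro g ⟨hg, hn⟩
  choose k hk using hg
  refine ⟨k, ?_, ?_⟩
  · rw [Finset.mem_coe, hA, Fintype.mem_piFinset]
    intro i
    have h1 : |((k i : ℤ) : ℝ)| ≤ R := by
      rw [← hk i, ← Real.norm_eq_abs]
      exact (PiLp.norm_apply_le g i).trans hn
    have h2 : R ≤ (⌈R⌉ : ℝ) := Int.le_ceil R
    have h3 := abs_le.1 (h1.trans h2)
    rw [Finset.mem_Icc]
    constructor
    · exact_mod_cast h3.1
    · exact_mod_cast h3.2
  · ext i
    exact (hk i).symm

theorem Tan_univ {V : Type*} [NormedAddCommGroup V] [NormedSpace ℝ V] (x : V) :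
    Tan (univ : Set V) x = univ := by
  rw [Set.eq_univ_iff_forall]
  intro v
  refine ⟨fun s => x + s • v, by simp, Filter.Eventually.of_forall fun _ => mem_univ _, ?_⟩
  have h := ((hasDerivAt_id (0 : ℝ)).smul_const v).const_add x
  simpa using h

theorem TN_univ : TN (univ : Set (E n)) = univ := by
  rw [Set.eq_univ_iff_forall]
  intro z
  exact ⟨mem_univ _, by rw [Tan_univ]; exact mem_univ _⟩

theorem submfd_univ : IsSubmfd n (univ : Set (E n)) := by
  intro x _
  refine ⟨OpenPartialHomeomorph.refl _, ⊤, mem_univ _, contDiffOn_id, contDiffOn_id, ?_, ?_⟩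
  · rw [finrank_top, finrank_euclideanSpace_fin]
  · intro y _
    simp

theorem closedMfd : ClosedMfd n (univ : Set (E n)) (lat n) where
  sub := submfd_univ
  closed := isClosed_univ
  conn := isConnected_univ
  inv := fun _ _ _ _ => mem_univ _
  cocpt := by
    obtain ⟨R, hR⟩ := lat_cocpt (n := n)
    exact ⟨R, fun q _ => hR q⟩

/-- An open set `W` of `ℝ^n × P` which contains `K × {p}` etc.: compactness modulo the lattice. If
`F : ℝ^n → ℝ` is continuous, invariant under the lattice and positive, it has a positive lower bound. -/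
theorem exists_lower {F : E n → ℝ} (hF : Continuous F) (hinv : ∀ g ∈ lat n, ∀ q, F (q + g) = F q)
    (hpos : ∀ q, 0 < F q) : ∃ c : ℝ, 0 < c ∧ ∀ q, c ≤ F q := by
  obtain ⟨R, hR⟩ := lat_cocpt (n := n)
  obtain ⟨g0, -, hg0⟩ := hR 0
  have hne : (Metric.closedBall (0 : E n) R).Nonempty :=
    ⟨0 + g0, by rw [mem_closedBall_zero_iff]; exact hg0⟩
  obtain ⟨x, -, hx⟩ := (isCompact_closedBall (0 : E n) R).exists_isMinOn hne hF.continuousOn
  refine ⟨F x, hpos x, fun q => ?_⟩
  obtain ⟨g, hg, hgR⟩ := hR q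
  rw [← hinv g hg q]
  exact hx (mem_closedBall_zero_iff.2 hgR)

end Pool.Agent.H2.TG
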