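import Pool.Agent.H2.TG.Defs

/-!
# Separated points in a rectangle (module Pigeon)

`pigeon`: in the rectangle `|a| ≤ A`, `|b| ≤ B` of the plane there are only boundedly many points with
mutual distance at least `δ` (sup norm).
PROOF. Partition the rectangle into at most `(⌈2 A / (δ/2)⌉ + 1) (⌈2 B / (δ/2)⌉ + 1)` half open squares of side `δ / 2`
(`i = ⌊(a + A) / (δ/2)⌋`, `j = ⌊(b + B) / (δ/2)⌋`): the map `k ↦ (i k, j k)` from `Fin (N + 1)` or
`Finset.range (N + 1)` to a finset of size `≤ N` is not injective (`Finset.exists_ne_map_eq_of_card_lt_of_maps_to`);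
two points in the same square are at distance `< δ`. (Or by total boundedness of the compact rectangle.)
-/

set_option autoImplicit false

namespace Pool.Agent.H2.TG

theorem pigeon (A B : ℝ) {δ : ℝ} (hδ : 0 < δ) : ∃ N : ℕ, 0 < N ∧ ∀ p : ℕ → ℝ × ℝ,
    (∀ k ≤ N, |(p k).1| ≤ A ∧ |(p k).2| ≤ B) → ∃ j k, j < k ∧ k ≤ N ∧
      |(p k).1 - (p j).1| < δ ∧ |(p k).2 - (p j).2| < δ := by
  have key : ∀ x y : ℝ, ⌊x / δ⌋ = ⌊y / δ⌋ → |y - x| < δ := by
    intro x y h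
    have h1 := Int.abs_sub_lt_one_of_floor_eq_floor h
    rw [← sub_div, abs_div, abs_of_pos hδ, div_lt_one hδ, abs_sub_comm] at h1
    exact h1
  have hm : ∀ x D : ℝ, |x| ≤ D → ⌊x / δ⌋ ∈ Finset.Icc ⌊-D / δ⌋ ⌊D / δ⌋ := by
    intro x D h
    obtain ⟨h1, h2⟩ := abs_le.1 h
    rw [Finset.mem_Icc]
    exact ⟨Int.floor_le_floor (div_le_div_of_nonneg_right h1 hδ.le),
      Int.floor_le_floor (div_le_div_of_nonneg_right h2 hδ.le)⟩
  let S : Finset (ℤ × ℤ) := Finset.Icc ⌊-A / δ⌋ ⌊A / δ⌋ ×ˢ Finset.Icc ⌊-B / δ⌋ ⌊B / δ⌋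
  refine ⟨S.card + 1, Nat.succ_pos _, fun p hp => ?_⟩
  obtain ⟨j, hj, k, hk, hjk, he⟩ := Finset.exists_ne_map_eq_of_card_lt_of_maps_to
    (s := Finset.range (S.card + 2)) (t := S) (by simp)
    (f := fun k => (⌊(p k).1 / δ⌋, ⌊(p k).2 / δ⌋)) (by
      intro k hk
      have hk' : k ≤ S.card + 1 := by
        have := Finset.mem_range.1 (Finset.mem_coe.1 hk)
        omega
      exact Finset.mem_coe.2 (Finset.mem_product.2 ⟨hm _ _ (hp k hk').1, hm _ _ (hp k hk').2⟩))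
  have hj' := Finset.mem_range.1 hj
  have hk' := Finset.mem_range.1 hk
  have e1 : ⌊(p j).1 / δ⌋ = ⌊(p k).1 / δ⌋ := congrArg Prod.fst he
  have e2 : ⌊(p j).2 / δ⌋ = ⌊(p k).2 / δ⌋ := congrArg Prod.snd he
  rcases lt_or_gt_of_ne hjk with h | h
  · exact ⟨j, k, h, by omega, key _ _ e1, key _ _ e2⟩
  · exact ⟨k, j, h, by omega, key _ _ e1.symm, key _ _ e2.symm⟩

end Pool.Agent.H2.TG
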