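import Pool.Agent.H2.TG.BotDefs
import Pool.Agent.H2.TG.Pigeon

/-!
# Uniform passage time (module UTime)

PROOF. Let `N` be from `pigeon` with `A = T`, `B = M` and `δ = ε`. Put `τ = N + 2 M + 2`.
Let `|x.2| ≤ M`. Claim: `|(Ψ k x).2| ≤ M` fails for some integer `0 ≤ k ≤ N`. Otherwise the points
`p k = (tc v x.1 (Ψ k x).1, (Ψ k x).2)` are in the rectangle (`x_conf`), so there are `j < k ≤ N` with
`‖Ψ k x - Ψ j x‖ < ε` (sup norm and `x_line`, `‖v‖ = 1`), i.e. `‖Ψ (k - j) y - y‖ < ε` with `y = Ψ j x`, `k - j ≥ 1`: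
contradiction. At such a `k`, `(Ψ k x).2 > M` or `< -M`. The latter is impossible: by `x_down` at `Ψ k x` with time
`-k` we would get `x.2 = (Ψ k x).2 - k < -M`. So `(Ψ k x).2 > M` and by `x_up`:
`(Ψ τ x).2 = (Ψ k x).2 + τ - k ≥ M + 1`. Backwards: the same with `Ψ (-k)` (`|t| ≥ 1` covers both signs):
there is `k ≤ N` with `|(Ψ (-k) x).2| > M`; `> M` is impossible by `x_up` at `Ψ (-k) x` with time `k`; so
`< -M` and `x_down` gives `(Ψ (-τ) x).2 ≤ -M - 1`.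
(`tc` and `x_line` are relative to `x.1`; `Ψ k x - Ψ j x = ((a k - a j) • v, r k - r j)`.)
-/

set_option autoImplicit false

open scoped ContDiff Topology RealInnerProductSpace
open Set

namespace Pool.Agent.H2.TG

open Pool.Agent.H57.NL

variable {n : ℕ} {v : E n} {Θ : E n × ℝ → ℝ} {U : Set (E n)} {M T : ℝ}

private theorem UTime_leave (hP : Phase v Θ U M T) {ε : ℝ} {N : ℕ}
    (hN : ∀ p : ℕ → ℝ × ℝ,
      (∀ k ≤ N, |(p k).1| ≤ T ∧ |(p k).2| ≤ M) → ∃ j k, j < k ∧ k ≤ N ∧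
        |(p k).1 - (p j).1| < ε ∧ |(p k).2 - (p j).2| < ε)
    {s : ℝ} {Ψ : ℝ → E n × ℝ → E n × ℝ} (hF : IsFlow (XF v Θ s) Ψ)
    (hret : ∀ x t, 1 ≤ |t| → ε ≤ ‖Ψ t x - x‖) (x : E n × ℝ) {σ : ℝ} (hσ : |σ| = 1) :
    ∃ k : ℕ, k ≤ N ∧ M < |(Ψ (σ * k) x).2| := by
  by_contra hcon
  push Not at hcon
  obtain ⟨j, k, hjk, hkN, h1, h2⟩ := hN
    (fun k => (tc v x.1 (Ψ (σ * k) x).1, (Ψ (σ * k) x).2))
    (fun k hk => ⟨x_conf hP hF x _, hcon k hk⟩)
  simp only at h1 h2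
  have hadd : Ψ (σ * ((k : ℝ) - j)) (Ψ (σ * j) x) = Ψ (σ * k) x := by
    rw [hF.add (XF_contDiff hP s)]
    congr 1
    ring
  have habs : 1 ≤ |σ * ((k : ℝ) - j)| := by
    rw [abs_mul, hσ, one_mul]
    have h3 : (j : ℝ) + 1 ≤ k := by exact_mod_cast hjk
    rw [abs_of_nonneg (by linarith)]
    linarith
  have h4 := hret (Ψ (σ * j) x) _ habs
  rw [hadd, Prod.norm_def] at h4
  have h5 : ‖(Ψ (σ * k) x - Ψ (σ * j) x).1‖ < ε := by
    have h6 : (Ψ (σ * k) x - Ψ (σ * j) x).1 =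
        (tc v x.1 (Ψ (σ * k) x).1 - tc v x.1 (Ψ (σ * j) x).1) • v := by
      rw [Prod.fst_sub, sub_smul]
      have ha := x_line hP hF x (σ * k)
      have hb := x_line hP hF x (σ * j)
      nth_rewrite 1 [ha]
      nth_rewrite 1 [hb]
      abel
    rw [h6, norm_smul, hP.hv, mul_one, Real.norm_eq_abs]
    exact h1
  have h7 : ‖(Ψ (σ * k) x - Ψ (σ * j) x).2‖ < ε := by
    rw [Prod.snd_sub, Real.norm_eq_abs]
    exact h2
  exact absurd h4 (not_le.2 (max_lt h5 h7))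

theorem uniform_time (hP : Phase v Θ U M T) {ε : ℝ} (hε : 0 < ε) : ∃ τ : ℝ, 2 * M + 1 ≤ τ ∧
    ∀ (s : ℝ) (Ψ : ℝ → E n × ℝ → E n × ℝ), IsFlow (XF v Θ s) Ψ →
      (∀ x t, 1 ≤ |t| → ε ≤ ‖Ψ t x - x‖) → GoodT M τ Ψ := by
  obtain ⟨N, -, hN⟩ := pigeon T M hε
  have hM := hP.hM
  have hN0 : (0 : ℝ) ≤ N := Nat.cast_nonneg N
  refine ⟨N + 2 * M + 2, by linarith, fun s Ψ hF hret x hx => ?_⟩
  have hX := XF_contDiff hP s
  rw [abs_le] at hx
  constructor
  · obtain ⟨k, hk, h1⟩ := UTime_leave hP hN hF hret x (σ := 1) (by simp)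
    rw [one_mul] at h1
    have hkN : (k : ℝ) ≤ N := by exact_mod_cast hk
    have hk0 : (0 : ℝ) ≤ k := Nat.cast_nonneg k
    rcases lt_abs.1 h1 with h2 | h2
    · have h3 := x_up hP hF h2.le (t := N + 2 * M + 2 - k) (by linarith)
      rw [hF.add hX] at h3
      have h4 : (N : ℝ) + 2 * M + 2 - k + k = N + 2 * M + 2 := by ring
      rw [h4] at h3
      rw [h3]
      show M + 1 ≤ (Ψ k x).2 + (N + 2 * M + 2 - k)
      linarith
    · exfalso
      have h3 := x_down hP hF (x := Ψ k x) (by linarith) (t := -k) (by linarith)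
      rw [hF.add hX] at h3
      have h4 : -(k : ℝ) + k = 0 := by ring
      rw [h4, hF.zero] at h3
      have h5 : x.2 = (Ψ k x).2 + -k := by
        have := congrArg Prod.snd h3
        exact this
      linarith [hx.1]
  · obtain ⟨k, hk, h1⟩ := UTime_leave hP hN hF hret x (σ := -1) (by simp)
    have hm : (-1 : ℝ) * k = -k := by ring
    rw [hm] at h1
    have hkN : (k : ℝ) ≤ N := by exact_mod_cast hk
    have hk0 : (0 : ℝ) ≤ k := Nat.cast_nonneg k
    rcases lt_abs.1 h1 with h2 | h2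
    · exfalso
      have h3 := x_up hP hF h2.le (t := k) hk0
      rw [hF.add hX] at h3
      have h4 : (k : ℝ) + -k = 0 := by ring
      rw [h4, hF.zero] at h3
      have h5 : x.2 = (Ψ (-k) x).2 + k := by
        have := congrArg Prod.snd h3
        exact this
      linarith [hx.2]
    · have h3 := x_down hP hF (x := Ψ (-k) x) (by linarith) (t := -(N + 2 * M + 2 - k))
        (by linarith)
      rw [hF.add hX] at h3
      have h4 : -((N : ℝ) + 2 * M + 2 - k) + -k = -(N + 2 * M + 2) := by ring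
      rw [h4] at h3
      rw [h3]
      show (Ψ (-k) x).2 + -(N + 2 * M + 2 - k) ≤ -M - 1
      linarith

end Pool.Agent.H2.TG
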