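import Pool.Agent.H2.TG.NoRet
import Pool.Agent.H2.TG.UTime
import Pool.Agent.H2.TG.Tor

/-!
# The flow of `XF v Θ 1` has no trapped orbits (module GoodOne)

PROOF. Let `Ψ` be the joint flow (`exists_XFlow`), `ε` from `noret`, `τ` from `uniform_time` for this `ε`. Let
`A = {s ∈ [0, 1] | GoodT M τ (Ψ s)}`.
* `0 ∈ A`: `XF v Θ 0 = (0, 1)`, `Ψ 0 t x = (x.1, x.2 + t)` (uniqueness), `τ ≥ 2 M + 1`.
* `A` is closed: the conditions `M + 1 ≤ (Ψ s τ x).2` and `(Ψ s (-τ) x).2 ≤ -M - 1` are closed in `s`, for each `x`.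
* `A` is open in `[0, 1]`: let `s₀ ∈ A`. The set `K = {x | ‖x.1‖ ≤ R, |x.2| ≤ M}` is compact; by continuity of
  `(s, x) ↦ Ψ s (± τ) x` on `ℝ × K` (tube lemma, or uniform continuity on a compact) for `s` near `s₀`:
  `(Ψ s τ x).2 > M` and `(Ψ s (-τ) x).2 < -M` for all `x ∈ K`, hence for all `|x.2| ≤ M` by `x_trans` and
  `lat_cocpt`. Then `GoodT M (τ + 1) (Ψ s)` by `x_up` and `x_down` (the points gain `1`). So `noret` applies to `s`:
  `ε ≤ ‖Ψ s t x - x‖` for `|t| ≥ 1`, and `uniform_time` gives `GoodT M τ (Ψ s)`: `s ∈ A`.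
So `A = [0, 1]` (`isPreconnected_Icc`, e.g. `IsClosed.Icc_subset_of_forall_exists_gt` or the clopen subset of the
connected `Icc`), `1 ∈ A`. Any flow of `XF v Θ 1` is equal to `Ψ 1` (`IsFlow.unique`).
-/

set_option autoImplicit false

open scoped ContDiff Topology RealInnerProductSpace
open Set

namespace Pool.Agent.H2.TG

open Pool.Agent.H57.NL

variable {n : ℕ} {v : E n} {Θ : E n × ℝ → ℝ} {U : Set (E n)} {M T : ℝ}

theorem flow_zero {Ψ : ℝ → E n × ℝ → E n × ℝ} (hP : Phase v Θ U M T)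
    (hF : IsFlow (XF v Θ 0) Ψ) (x : E n × ℝ) (t : ℝ) : Ψ t x = (x.1, x.2 + t) := by
  have h1 : ∀ t : ℝ, HasDerivAt (fun t : ℝ => ((x.1, x.2 + t) : E n × ℝ))
      (XF v Θ 0 (x.1, x.2 + t)) t := by
    intro t
    have e : XF v Θ 0 (x.1, x.2 + t) = ((0 : E n), (1 : ℝ)) := by
      unfold XF
      simp
    rw [e]
    exact (hasDerivAt_const t x.1).prodMk ((hasDerivAt_id t).const_add x.2)
  have h2 := hF.unique (XF_contDiff hP 0) h1 t
  simp only [add_zero] at h2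
  exact h2.symm

/-- it is enough to pass `M` -/
theorem good_succ {Ψ : ℝ → E n × ℝ → E n × ℝ} {s τ : ℝ} (hP : Phase v Θ U M T)
    (hF : IsFlow (XF v Θ s) Ψ)
    (h : ∀ x : E n × ℝ, |x.2| ≤ M → M < (Ψ τ x).2 ∧ (Ψ (-τ) x).2 < -M) :
    GoodT M (τ + 1) Ψ := by
  intro x hx
  obtain ⟨h1, h2⟩ := h x hx
  constructor
  · rw [add_comm τ 1, ← hF.add (XF_contDiff hP s), x_up hP hF h1.le zero_le_one]
    simp only
    linarith
  · have e : -(τ + 1) = -1 + -τ := by ring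
    rw [e, ← hF.add (XF_contDiff hP s), x_down hP hF h2.le (by norm_num)]
    simp only
    linarith

theorem good_one (hP : Phase v Θ U M T) : ∃ (Ψ : ℝ → E n × ℝ → E n × ℝ) (τ : ℝ),
    IsFlow (XF v Θ 1) Ψ ∧ 0 < τ ∧ GoodT M τ Ψ := by
  obtain ⟨Ψ, hF, hcont⟩ := exists_XFlow hP
  obtain ⟨ε, hε, hret⟩ := noret hP
  obtain ⟨τ, hτ, hut⟩ := uniform_time hP hε
  have hM := hP.hM
  have hτ0 : 0 < τ := by linarith
  refine ⟨Ψ 1, τ, hF 1, hτ0, ?_⟩
  set A : Set ℝ := {s | GoodT M τ (Ψ s)} with hA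
  have hc : ∀ (t : ℝ), Continuous fun y : ℝ × (E n × ℝ) => (Ψ y.1 t y.2).2 := fun t =>
    continuous_snd.comp (hcont.comp (continuous_fst.prodMk (continuous_const.prodMk continuous_snd)))
  have hc' : ∀ (t : ℝ) (x : E n × ℝ), Continuous fun s : ℝ => (Ψ s t x).2 := fun t x =>
    (hc t).comp (continuous_id.prodMk continuous_const)
  have hclosed : IsClosed A := by
    have e : A = ⋂ (x : E n × ℝ) (_ : |x.2| ≤ M),
        ({s | M + 1 ≤ (Ψ s τ x).2} ∩ {s | (Ψ s (-τ) x).2 ≤ -M - 1}) := by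
      ext s
      simp only [hA, GoodT, mem_ofPred_eq, mem_iInter, mem_inter_iff]
    rw [e]
    refine isClosed_iInter fun x => isClosed_iInter fun _ => IsClosed.inter ?_ ?_
    · exact isClosed_le continuous_const (hc' τ x)
    · exact isClosed_le (hc' (-τ) x) continuous_const
  have h0 : (0 : ℝ) ∈ A := by
    intro x hx
    rw [abs_le] at hx
    rw [flow_zero hP (hF 0), flow_zero hP (hF 0)]
    constructor
    · simp only
      linarith [hx.1]
    · simp only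
      linarith [hx.2]
  have hopen : ∀ s₀ ∈ A, ∀ᶠ s in 𝓝 s₀, s ∈ Icc (0 : ℝ) 1 → s ∈ A := by
    intro s₀ hs₀
    obtain ⟨R, hR⟩ := lat_cocpt (n := n)
    set K : Set (E n × ℝ) := Metric.closedBall 0 R ×ˢ Icc (-M) M with hK
    have hKc : IsCompact K := (isCompact_closedBall _ _).prod isCompact_Icc
    have hK2 : ∀ x ∈ K, |x.2| ≤ M := fun x hx => abs_le.2 hx.2
    have h1 : ∀ᶠ s in 𝓝 s₀, ∀ x ∈ K, M < (Ψ s τ x).2 := by
      refine hKc.eventually_forall_of_forall_eventually fun x hx => ?_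
      have h2 : M < (Ψ s₀ τ x).2 := by linarith [(hs₀ x (hK2 x hx)).1]
      exact (hc τ).continuousAt.eventually (Ioi_mem_nhds h2)
    have h2 : ∀ᶠ s in 𝓝 s₀, ∀ x ∈ K, (Ψ s (-τ) x).2 < -M := by
      refine hKc.eventually_forall_of_forall_eventually fun x hx => ?_
      have h2 : (Ψ s₀ (-τ) x).2 < -M := by linarith [(hs₀ x (hK2 x hx)).2]
      exact (hc (-τ)).continuousAt.eventually (Iio_mem_nhds h2)
    filter_upwards [h1, h2] with s h1 h2 hs
    have h3 : GoodT M (τ + 1) (Ψ s) := by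
      refine good_succ hP (hF s) fun x hx => ?_
      obtain ⟨g, hg, hgR⟩ := hR x.1
      have hy : ((x.1 + g, x.2) : E n × ℝ) ∈ K :=
        ⟨by rw [mem_closedBall_zero_iff]; exact hgR, abs_le.1 hx⟩
      have h4 := h1 _ hy
      have h5 := h2 _ hy
      rw [x_trans hP (hF s) hg] at h4 h5
      exact ⟨h4, h5⟩
    exact hut s (Ψ s) (hF s) (hret s hs.1 hs.2 (Ψ s) (hF s) ⟨τ + 1, by linarith, h3⟩)
  have hall : Icc (0 : ℝ) 1 ⊆ A := by
    refine IsClosed.Icc_subset_of_forall_exists_gt (hclosed.inter isClosed_Icc) h0 ?_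
    intro s hs y hy
    have h1 := hopen s hs.1
    have h2 : ∀ᶠ z in 𝓝[>] s, z ∈ Ioc s (min y 1) :=
      Ioc_mem_nhdsGT (lt_min hy hs.2.2)
    obtain ⟨z, hz1, hz2⟩ := ((h1.filter_mono nhdsWithin_le_nhds).and h2).exists
    refine ⟨z, hz1 ⟨hs.2.1.trans hz2.1.le, hz2.2.trans (min_le_right _ _)⟩, hz2.1,
      hz2.2.trans (min_le_left _ _)⟩
  exact hall ⟨zero_le_one, le_rfl⟩

end Pool.Agent.H2.TG
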