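import Pool.Agent.H2.TG.Str
import Pool.Agent.H2.TG.GoodOne

/-!
# Existence of the straightening
-/

set_option autoImplicit false

open scoped ContDiff Topology RealInnerProductSpace
open Set

namespace Pool.Agent.H2.TG

open Pool.Agent.H57.NL

variable {n : ℕ} {v : E n} {Θ : E n × ℝ → ℝ} {U : Set (E n)} {M T : ℝ}

theorem exists_straight (hP : Phase v Θ U M T) : ∃ F F' A, Straight v Θ F F' A := by
  obtain ⟨Ψ, τ, hF, hτ, hG⟩ := good_one hP
  obtain ⟨B, A, ρ, hR⟩ := exists_rho hP hF hτ hG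
  obtain ⟨F, F', h⟩ := straight_of hP hF hR
  exact ⟨F, F', A, h⟩

end Pool.Agent.H2.TG
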