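import Pool.Agent.H2.TG.Defs
import Pool.Agent.H65.Flat.ODE

/-!
# Flows of bounded smooth vector fields (module Flow)

PROOFS. Everything is in `Pool/Agent/H65/Flat/ODE.lean` (sorry-free): `H65.Flat.ODE.exists_flow`,
`contDiff_flow`, `sol_unique`, `Tame`.
* `exists_isFlow`: a bounded vector field is `Tame`: if `γ' = a(t) • X(γ)`, `0 ≤ a ≤ 1`, then
  `‖γ t - γ 0‖ ≤ K |t|` (mean value inequality on the segment from `0` to `t`), so `R = r + |K| |T|`
  works. Then `exists_flow` and `contDiff_flow` (`(⊤ : ℕ∞)` is `∞`).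
* `unique`: `sol_unique` on `[-|t|-1, |t|+1]` with `t₀ = 0`.
* `add`: both sides solve the same equation in `s` (uniqueness).
* `trans`: if `X` is invariant under the translation by `w`, then `t ↦ Ψ t x + w` solves the equation.
* `fderiv_X`: differentiate `s ↦ Ψ t (Ψ s x) = Ψ s (Ψ t x)` at `s = 0`.
* `fderiv_inv`: chain rule in `Ψ (-t) (Ψ t x) = x`.
-/

set_option autoImplicit false

open scoped ContDiff Topology
open Set

namespace Pool.Agent.H2.TG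

variable {V : Type} [NormedAddCommGroup V] [NormedSpace ℝ V] [FiniteDimensional ℝ V] {X : V → V}
  {Ψ : ℝ → V → V}

theorem exists_isFlow (hX : ContDiff ℝ ∞ X) {K : ℝ} (hb : ∀ x, ‖X x‖ ≤ K) : ∃ Ψ, IsFlow X Ψ := by
  have hK : 0 ≤ K := (norm_nonneg _).trans (hb 0)
  have ht : H65.Flat.ODE.Tame X := by
    intro r T
    refine ⟨r + K * |T|, fun a γ ha h0 hd t htT => ?_⟩
    have h := Convex.norm_image_sub_le_of_norm_hasDerivWithin_le (f := γ)
      (f' := fun s => a s • X (γ s)) (C := K) (s := Set.Icc (-T) T) (x := 0) (y := t)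
      (fun s hs => (hd s (abs_le.2 hs)).hasDerivWithinAt)
      (fun s _ => by
        rw [norm_smul, Real.norm_eq_abs, abs_of_nonneg (ha s).1]
        calc a s * ‖X (γ s)‖ ≤ 1 * K :=
              mul_le_mul (ha s).2 (hb _) (norm_nonneg _) zero_le_one
          _ = K := one_mul K)
      (convex_Icc _ _)
      (by
        have : 0 ≤ T := (abs_nonneg t).trans htT
        exact ⟨by linarith, this⟩)
      (abs_le.1 htT)
    have h1 : ‖γ t‖ ≤ ‖γ t - γ 0‖ + ‖γ 0‖ := by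
      have := norm_add_le (γ t - γ 0) (γ 0)
      rwa [sub_add_cancel] at this
    have h2 : K * ‖t - 0‖ ≤ K * |T| := by
      refine mul_le_mul_of_nonneg_left ?_ hK
      rw [sub_zero, Real.norm_eq_abs]
      exact htT.trans (le_abs_self T)
    linarith
  obtain ⟨Ψ, h0, h1⟩ := H65.Flat.ODE.exists_flow (hX.of_le (by simp)) ht
  exact ⟨Ψ, h0, h1, H65.Flat.ODE.contDiff_flow hX ht h0 h1⟩

theorem IsFlow.unique (hΨ : IsFlow X Ψ) (hX : ContDiff ℝ ∞ X) {γ : ℝ → V}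
    (hγ : ∀ t, HasDerivAt γ (X (γ t)) t) (t : ℝ) : γ t = Ψ t (γ 0) := by
  refine H65.Flat.ODE.sol_unique (v := X) (hX.of_le (by simp)) (γ₁ := γ)
    (γ₂ := fun t => Ψ t (γ 0)) (a := -|t|) (b := |t|) (t₀ := 0) (by simp)
    (fun s _ => hγ s) (fun s _ => hΨ.deriv _ s) (by simp [hΨ.zero]) t ?_
  exact ⟨neg_abs_le t, le_abs_self t⟩

theorem IsFlow.unique_on (hΨ : IsFlow X Ψ) (hX : ContDiff ℝ ∞ X) {γ : ℝ → V} {ε : ℝ}
    (hγ : ∀ t, |t| ≤ ε → HasDerivAt γ (X (γ t)) t) (t : ℝ) (ht : |t| ≤ ε) : γ t = Ψ t (γ 0) := by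
  have hε : 0 ≤ ε := (abs_nonneg t).trans ht
  refine H65.Flat.ODE.sol_unique (v := X) (hX.of_le (by simp)) (γ₁ := γ)
    (γ₂ := fun t => Ψ t (γ 0)) (a := -ε) (b := ε) (t₀ := 0) ⟨by linarith, hε⟩
    (fun s hs => hγ s (abs_le.2 hs)) (fun s _ => hΨ.deriv _ s) (by simp [hΨ.zero]) t ?_
  exact abs_le.1 ht

theorem IsFlow.add (hΨ : IsFlow X Ψ) (hX : ContDiff ℝ ∞ X) (s t : ℝ) (x : V) :
    Ψ s (Ψ t x) = Ψ (s + t) x := by
  have h := hΨ.unique hX (γ := fun s => Ψ (s + t) x)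
    (fun s => by
      have h1 := (hΨ.deriv x (s + t)).scomp s ((hasDerivAt_id s).add_const t)
      rw [one_smul] at h1
      exact h1) s
  simp only [zero_add] at h
  exact h.symm

theorem IsFlow.trans (hΨ : IsFlow X Ψ) (hX : ContDiff ℝ ∞ X) {w : V} (hw : ∀ x, X (x + w) = X x)
    (t : ℝ) (x : V) : Ψ t (x + w) = Ψ t x + w := by
  have h := hΨ.unique hX (γ := fun t => Ψ t x + w)
    (fun t => by
      have h1 := (hΨ.deriv x t).add_const w
      rw [hw]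
      exact h1) t
  simp only [hΨ.zero] at h
  exact h.symm

theorem IsFlow.contDiff_t (hΨ : IsFlow X Ψ) (t : ℝ) : ContDiff ℝ ∞ (Ψ t) :=
  hΨ.smooth.comp (contDiff_const.prodMk contDiff_id)

theorem IsFlow.differentiable (hΨ : IsFlow X Ψ) (t : ℝ) : Differentiable ℝ (Ψ t) :=
  (hΨ.contDiff_t t).differentiable (by simp)

theorem IsFlow.fderiv_X (hΨ : IsFlow X Ψ) (hX : ContDiff ℝ ∞ X) (t : ℝ) (x : V) :
    fderiv ℝ (Ψ t) x (X x) = X (Ψ t x) := by
  have h1 : HasDerivAt (fun s => Ψ s x) (X x) 0 := by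
    have := hΨ.deriv x 0
    rwa [hΨ.zero] at this
  have h2 : HasFDerivAt (Ψ t) (fderiv ℝ (Ψ t) x) (Ψ 0 x) := by
    rw [hΨ.zero]
    exact (hΨ.differentiable t x).hasFDerivAt
  have h3 : HasDerivAt (fun s => Ψ t (Ψ s x)) (fderiv ℝ (Ψ t) x (X x)) 0 :=
    h2.comp_hasDerivAt (0 : ℝ) h1
  have h4 : HasDerivAt (fun s => Ψ s (Ψ t x)) (X (Ψ t x)) 0 := by
    have := hΨ.deriv (Ψ t x) 0
    rwa [hΨ.zero] at this
  have h5 : (fun s => Ψ t (Ψ s x)) = fun s => Ψ s (Ψ t x) := by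
    funext s
    rw [hΨ.add hX, hΨ.add hX, add_comm]
  rw [h5] at h3
  exact h3.unique h4

theorem IsFlow.fderiv_inv (hΨ : IsFlow X Ψ) (hX : ContDiff ℝ ∞ X) (t : ℝ) (x w : V) :
    fderiv ℝ (Ψ (-t)) (Ψ t x) (fderiv ℝ (Ψ t) x w) = w := by
  have h1 : (Ψ (-t)) ∘ (Ψ t) = id := by
    funext y
    change Ψ (-t) (Ψ t y) = y
    rw [hΨ.add hX, neg_add_cancel, hΨ.zero]
  have h2 := fderiv_comp x (hΨ.differentiable (-t) (Ψ t x)) (hΨ.differentiable t x)
  rw [h1, fderiv_id] at h2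
  have h3 := congrArg (fun L : V →L[ℝ] V => L w) h2
  simpa using h3.symm

end Pool.Agent.H2.TG
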