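import Pool.Agent.H2.TG.Tor
import Pool.Agent.H57.NL.MaxPair
import Pool.Agent.H57.NL.Slice
import Pool.Agent.H57.NL.Loc

/-!
# The reduced set is locally a hypersurface (module Hyp)

PROOF of `local_hyper`. `DS : (ζ.1, ⟪ζ.2, v⟫)` is the differential of `sig v`, call it `Dσ ζ` (it is linear:
`sig v` itself is linear, make it a continuous linear map first). `Dσ` is injective on
`Tan S z0` (a linear subspace: `Slice.mem_tan`): if `ζ.1 = 0` and `⟪ζ.2, v⟫ = 0`, then `ζ = (0, ζ.2)` and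
`hE.imm` gives `ζ.2 = 0`. `Tan S z0` has dimension `n` (it is the preimage of `A` under the invertible
derivative of the chart `e`; in fact only the following is needed). Let `e`, `A` be the slice chart
(`IsSubmfd.slice`), `a0 = e z0 ∈ A`, `c : A → E n × E n`, `c a = e.symm (a0 + a)` for `a ∈ A` (as a point of
`A` also `a0 + a ∈ A`), smooth near `0`. The linear map `a ↦ Dσ (Dc(0) a)`, `A → E n × ℝ` is injective
(`Dc(0) a ∈ Tan S z0`), its range has dimension `n`, `E n × ℝ` has dimension `n + 1`, so there is `w` outside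
the range. Consider `Φ : A × ℝ → E n × ℝ`, `Φ (a, s) = sig v (c a) + s • w`; its derivative at `(0, 0)` is
injective and the dimensions agree, so `smooth_inverse` (in `H57/NL/Loc.lean`) gives an
`OpenPartialHomeomorph` with inverse smooth near `sig v z0`. Choose `r > 0` such that the box
`ball 0 r × (-r, r)` is inside the source and `e.symm` is fine there (`a0 + a ∈ e.target` for `‖a‖ < r`), and
let `W` be the image of the box under `Φ` intersected with the open set where the inverse is smooth,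
`u =` second component of the inverse, `O = e.source ∩ {z | ‖e z - a0‖ < r}`.
For `y ∈ W`, `y = Φ (a, s)`: if `s = 0` then `y = sig v (c a)`, `c a ∈ S ∩ O`. Conversely if
`y = sig v z`, `z ∈ S ∩ O`, then `a' = e z - a0 ∈ A`, `‖a'‖ < r`, `z = c a'`, so `y = Φ (a', 0)` and by
injectivity of `Φ` on the box `s = 0`.
Derivative: `u (Φ (a, s)) = s`, so `Du(sig v z0)(Dσ (Dc(0) a) + s • w) = s`: not zero, and if
`Du(sig v z0) y = 0` then `y = Dσ (Dc(0) a)` (every `y` is of the form `Dσ (Dc(0) a) + s • w`).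
-/

set_option autoImplicit false

open scoped ContDiff Topology RealInnerProductSpace
open Set

namespace Pool.Agent.H2.TG

open Pool.Agent.H57.NL

variable {n : ℕ} {S : Set (E n × E n)} {f : E n × E n → ℝ} {v : E n}

/-- the reduction map as a continuous linear map -/
private noncomputable def sigL (v : E n) : (E n × E n) →L[ℝ] (E n × ℝ) :=
  (ContinuousLinearMap.fst ℝ (E n) (E n)).prod ((innerSL ℝ v).comp (ContinuousLinearMap.snd ℝ (E n) (E n)))

private theorem sigL_apply (v : E n) (z : E n × E n) : sigL v z = sig v z := by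
  unfold sig
  rw [real_inner_comm]
  rfl

theorem local_hyper (hL : ExactLag n univ (lat n) S f) (hE : Embeds v S) {z0 : E n × E n}
    (hz : z0 ∈ S) : ∃ (O : Set (E n × E n)) (W : Set (E n × ℝ)) (u : E n × ℝ → ℝ),
      IsOpen O ∧ IsOpen W ∧ z0 ∈ O ∧ sig v z0 ∈ W ∧ ContDiffOn ℝ ∞ u W ∧
      (∀ y ∈ W, (u y = 0 ↔ y ∈ sig v '' (S ∩ O))) ∧ fderiv ℝ u (sig v z0) ≠ 0 ∧
      ∀ w : E n × ℝ, fderiv ℝ u (sig v z0) w = 0 → ∃ ζ ∈ Tan S z0, w = (ζ.1, ⟪ζ.2, v⟫) := by
  obtain ⟨e, A, hze, hs⟩ := hL.sub.slice hz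
  have ha0m : e z0 ∈ A := (hs.iff _ hze).1 hz
  set a0 : A := ⟨e z0, ha0m⟩ with ha0
  have hsymm0 : e.symm (a0 : E n × E n) = z0 := e.left_inv hze
  -- the derivative of the reduced chart
  let D : A →L[ℝ] (E n × ℝ) := (sigL v).comp ((fderiv ℝ e.symm (e z0)).comp A.subtypeL)
  have hDtan : ∀ a : A, fderiv ℝ e.symm (e z0) (a : E n × E n) ∈ Tan S z0 := by
    intro a
    rw [hs.mem_tan hze hz, hs.right hze]
    exact a.2
  have hDval : ∀ a : A, D a = ((fderiv ℝ e.symm (e z0) (a : E n × E n)).1,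
      ⟪(fderiv ℝ e.symm (e z0) (a : E n × E n)).2, v⟫) := by
    intro a
    exact sigL_apply v _
  have hDinj : Function.Injective D := by
    rw [injective_iff_map_eq_zero]
    intro a ha
    rw [hDval a] at ha
    set ζ : E n × E n := fderiv ℝ e.symm (e z0) (a : E n × E n) with hζ
    have h1 : ζ.1 = 0 := congrArg Prod.fst ha
    have h2 : ⟪ζ.2, v⟫ = 0 := congrArg Prod.snd ha
    have h3 : ζ ∈ Tan S z0 := hDtan a
    have h4 : ζ = (0, ζ.2) := Prod.ext h1 rfl
    have h5 : ζ.2 = 0 := hE.imm z0 hz ζ.2 (h4 ▸ h3) h2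
    have h6 : ζ = 0 := Prod.ext h1 h5
    have h7 := hs.right hze (a : E n × E n)
    rw [← hζ, h6, map_zero] at h7
    exact Subtype.ext h7.symm
  -- a transversal direction
  have hfrA : Module.finrank ℝ A = n := hs.fr
  have hfrY : Module.finrank ℝ (E n × ℝ) = n + 1 := by
    rw [Module.finrank_prod, finrank_euclideanSpace_fin, Module.finrank_self]
  have hfrX : Module.finrank ℝ (A × ℝ) = n + 1 := by
    rw [Module.finrank_prod, hfrA, Module.finrank_self]
  obtain ⟨w, hw⟩ : ∃ w : E n × ℝ, w ∉ LinearMap.range (D : A →ₗ[ℝ] (E n × ℝ)) := by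
    by_contra hcon
    push Not at hcon
    have h1 : LinearMap.range (D : A →ₗ[ℝ] (E n × ℝ)) = ⊤ := by
      ext x
      exact ⟨fun _ => trivial, fun _ => hcon x⟩
    have h2 := LinearMap.finrank_range_of_inj (f := (D : A →ₗ[ℝ] (E n × ℝ))) hDinj
    rw [h1, finrank_top, hfrY, hfrA] at h2
    omega
  let φ : A × ℝ → E n × ℝ := fun x => sigL v (e.symm (x.1 : E n × E n)) + x.2 • w
  let L : (A × ℝ) →L[ℝ] (E n × ℝ) :=
    D.comp (ContinuousLinearMap.fst ℝ A ℝ) + (ContinuousLinearMap.snd ℝ A ℝ).smulRight w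
  have hLval : ∀ x : A × ℝ, L x = D x.1 + x.2 • w := fun x => rfl
  have hLinj : Function.Injective L := by
    rw [injective_iff_map_eq_zero]
    rintro ⟨a, s⟩ hx
    rw [hLval] at hx
    simp only at hx
    have hs0 : s = 0 := by
      by_contra hne
      refine hw ⟨-s⁻¹ • a, ?_⟩
      have h1 : D a = -(s • w) := eq_neg_of_add_eq_zero_left hx
      change D (-s⁻¹ • a) = w
      rw [map_smul, h1, smul_neg, neg_smul, neg_neg, smul_smul, inv_mul_cancel₀ hne, one_smul]
    rw [hs0, zero_smul, add_zero] at hx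
    have h2 : a = 0 := hDinj (by rw [hx, map_zero])
    rw [h2, hs0]
    rfl
  have hLsurj : Function.Surjective L :=
    (LinearMap.injective_iff_surjective_of_finrank_eq_finrank
      (f := (L : (A × ℝ) →ₗ[ℝ] (E n × ℝ))) (hfrX.trans hfrY.symm)).1 hLinj
  have hφ0 : φ (a0, 0) = sig v z0 := by
    change sigL v (e.symm (a0 : E n × E n)) + (0 : ℝ) • w = sig v z0
    rw [hsymm0, zero_smul, add_zero, sigL_apply]
  have hder : HasFDerivAt φ L (a0, 0) := by
    have h1 : HasFDerivAt (fun a : A => (a : E n × E n)) A.subtypeL a0 := A.subtypeL.hasFDerivAt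
    have h2 : HasFDerivAt e.symm (fderiv ℝ e.symm (e z0)) ((a0 : A) : E n × E n) :=
      hs.hd' (e.map_source hze)
    have h3 : HasFDerivAt (fun a : A => sigL v (e.symm (a : E n × E n))) D a0 :=
      (sigL v).hasFDerivAt.comp a0 (h2.comp a0 h1)
    have h4 : HasFDerivAt (fun x : A × ℝ => sigL v (e.symm (x.1 : E n × E n)))
        (D.comp (ContinuousLinearMap.fst ℝ A ℝ)) (a0, 0) :=
      HasFDerivAt.comp (a0, (0 : ℝ)) (f := Prod.fst) h3 (ContinuousLinearMap.fst ℝ A ℝ).hasFDerivAt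
    have h5 : HasFDerivAt (fun x : A × ℝ => x.2 • w)
        ((ContinuousLinearMap.snd ℝ A ℝ).smulRight w) (a0, 0) :=
      ((ContinuousLinearMap.snd ℝ A ℝ).smulRight w).hasFDerivAt
    exact h4.add h5
  have hsub : Continuous (fun x : A × ℝ => (x.1 : E n × E n)) := continuous_subtype_val.comp continuous_fst
  have htgt : ∀ᶠ x : A × ℝ in 𝓝 (a0, 0), (x.1 : E n × E n) ∈ e.target :=
    (hsub.tendsto (a0, 0)).eventually (e.open_target.mem_nhds (e.map_source hze))
  have hsm : ∀ᶠ x : A × ℝ in 𝓝 (a0, 0), ContDiffAt ℝ ∞ φ x := by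
    filter_upwards [htgt] with x hx
    have h3 : ContDiffAt ℝ ∞ (fun x : A × ℝ => (x.1 : E n × E n)) x :=
      (A.subtypeL.comp (ContinuousLinearMap.fst ℝ A ℝ)).contDiff.contDiffAt
    have h4 : ContDiffAt ℝ ∞ (fun x : A × ℝ => e.symm (x.1 : E n × E n)) x := (hs.cd' hx).comp x h3
    have h5 : ContDiffAt ℝ ∞ (fun x : A × ℝ => sigL v (e.symm (x.1 : E n × E n))) x :=
      (sigL v).contDiff.contDiffAt.comp x h4
    have h6 : ContDiffAt ℝ ∞ (fun x : A × ℝ => x.2 • w) x :=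
      ((ContinuousLinearMap.snd ℝ A ℝ).smulRight w).contDiff.contDiffAt
    exact h5.add h6
  obtain ⟨Φ, hΦ, hsrc, hinvsm⟩ := smooth_inverse (hfrX.trans hfrY.symm) hsm
    (by rw [hder.fderiv]; exact hLinj)
  -- the neighbourhoods
  obtain ⟨N0, hN0, hN0o, hN0m⟩ := eventually_nhds_iff.1 hinvsm
  have hGo : IsOpen (Φ.source ∩ (fun x : A × ℝ => (x.1 : E n × E n)) ⁻¹' e.target) :=
    Φ.open_source.inter (e.open_target.preimage hsub)
  obtain ⟨r, hr, hball⟩ := Metric.isOpen_iff.1 hGo (a0, 0)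
    ⟨hsrc, e.map_source hze⟩
  have hbsrc : ∀ x ∈ Metric.ball (a0, (0 : ℝ)) r, x ∈ Φ.source := fun x hx => (hball hx).1
  have hbtgt : ∀ x ∈ Metric.ball (a0, (0 : ℝ)) r, (x.1 : E n × E n) ∈ e.target :=
    fun x hx => (hball hx).2
  have hΦval : ∀ x : A × ℝ, Φ x = sigL v (e.symm (x.1 : E n × E n)) + x.2 • w := by
    intro x
    rw [hΦ]
  have hu0 : Φ.symm (sig v z0) = (a0, 0) := by
    rw [← hφ0, ← hΦ]
    exact Φ.left_inv hsrc
  have hWo : IsOpen (Φ.target ∩ Φ.symm ⁻¹' Metric.ball (a0, (0 : ℝ)) r) :=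
    Φ.isOpen_inter_preimage_symm Metric.isOpen_ball
  have hy0W : sig v z0 ∈ Φ.target ∩ Φ.symm ⁻¹' Metric.ball (a0, (0 : ℝ)) r := by
    refine ⟨?_, ?_⟩
    · rw [← hφ0, ← hΦ]
      exact Φ.map_source hsrc
    · rw [Set.mem_preimage, hu0]
      exact Metric.mem_ball_self hr
  have hOo : IsOpen (e.source ∩ e ⁻¹' Metric.ball (e z0) r) :=
    e.isOpen_inter_preimage Metric.isOpen_ball
  have hzb : e z0 ∈ Metric.ball (e z0) r := Metric.mem_ball_self hr
  have hzO : z0 ∈ e.source ∩ e ⁻¹' Metric.ball (e z0) r := Set.mem_inter hze (Set.mem_preimage.2 hzb)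
  have hWo' : IsOpen ((Φ.target ∩ Φ.symm ⁻¹' Metric.ball (a0, (0 : ℝ)) r) ∩ N0) := hWo.inter hN0o
  have hyN : sig v z0 ∈ N0 := by rw [← hφ0]; exact hN0m
  have hyW : sig v z0 ∈ (Φ.target ∩ Φ.symm ⁻¹' Metric.ball (a0, (0 : ℝ)) r) ∩ N0 := ⟨hy0W, hyN⟩
  have husm : ContDiffOn ℝ ∞ (fun y => (Φ.symm y).2)
      ((Φ.target ∩ Φ.symm ⁻¹' Metric.ball (a0, (0 : ℝ)) r) ∩ N0) := by
    intro y hy
    exact ((hN0 y hy.2).snd).contDiffWithinAt
  refine ⟨_, _, _, hOo, hWo', hzO, hyW, husm, ?_, ?_⟩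
  · rintro y ⟨⟨hyt, hyb⟩, -⟩
    have hyb' : Φ.symm y ∈ Metric.ball (a0, (0 : ℝ)) r := hyb
    constructor
    · intro hu
      have hu' : (Φ.symm y).2 = 0 := hu
      have h1 : Φ (Φ.symm y) = y := Φ.right_inv hyt
      rw [hΦval, hu', zero_smul, add_zero, sigL_apply] at h1
      have ht := hbtgt _ hyb'
      refine ⟨e.symm ((Φ.symm y).1 : E n × E n), ⟨?_, ⟨e.map_target ht, ?_⟩⟩, h1⟩
      · rw [hs.iff _ (e.map_target ht), e.right_inv ht]
        exact (Φ.symm y).1.2
      · rw [Set.mem_preimage, e.right_inv ht, Metric.mem_ball]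
        rw [Metric.mem_ball, Prod.dist_eq, max_lt_iff] at hyb'
        exact hyb'.1
    · rintro ⟨z, ⟨hzS, hzsrc, hzb⟩, hzy⟩
      have hzA : e z ∈ A := (hs.iff _ hzsrc).1 hzS
      have hxb : ((⟨e z, hzA⟩ : A), (0 : ℝ)) ∈ Metric.ball (a0, (0 : ℝ)) r := by
        rw [Metric.mem_ball, Prod.dist_eq, max_lt_iff]
        exact ⟨hzb, by simpa using hr⟩
      have h1 : Φ ((⟨e z, hzA⟩ : A), (0 : ℝ)) = y := by
        rw [hΦval]
        simp only [zero_smul, add_zero]
        rw [e.left_inv hzsrc, sigL_apply]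
        exact hzy
      change (Φ.symm y).2 = 0
      rw [← h1, Φ.left_inv (hbsrc _ hxb)]
  · -- the derivative is not zero
    have hsd : DifferentiableAt ℝ (fun y => (Φ.symm y).2) (sig v z0) := by
      have := hN0 (sig v z0) hyN
      exact (this.snd).differentiableAt (by simp)
    have hcomp : HasFDerivAt ((fun y => (Φ.symm y).2) ∘ φ)
        ((fderiv ℝ (fun y => (Φ.symm y).2) (sig v z0)).comp L) (a0, 0) := by
      refine HasFDerivAt.comp (a0, (0 : ℝ)) ?_ hder
      rw [hφ0]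
      exact hsd.hasFDerivAt
    have hsnd : HasFDerivAt ((fun y => (Φ.symm y).2) ∘ φ) (ContinuousLinearMap.snd ℝ A ℝ) (a0, 0) := by
      refine (ContinuousLinearMap.snd ℝ A ℝ).hasFDerivAt.congr_of_eventuallyEq ?_
      filter_upwards [Φ.open_source.mem_nhds hsrc] with x hx
      have : Φ.symm (φ x) = x := by rw [← hΦ]; exact Φ.left_inv hx
      simp only [Function.comp_apply, this]
      rfl
    have hkey : ∀ x : A × ℝ, fderiv ℝ (fun y => (Φ.symm y).2) (sig v z0) (L x) = x.2 := by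
      intro x
      have := congrArg (fun M : (A × ℝ) →L[ℝ] ℝ => M x) (hcomp.unique hsnd)
      simpa using this
    refine ⟨?_, ?_⟩
    · intro h0
      have := hkey (0, 1)
      rw [h0] at this
      simp at this
    · intro y hy
      obtain ⟨x, rfl⟩ := hLsurj y
      rw [hkey x] at hy
      refine ⟨fderiv ℝ e.symm (e z0) (x.1 : E n × E n), hDtan x.1, ?_⟩
      rw [hLval, hy, zero_smul, add_zero]
      exact hDval x.1

end Pool.Agent.H2.TG
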