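import Pool.Agent.H2.TG.Tor

/-!
# Directions whose lines meet a small ball modulo the lattice (module Kron)

PROOF (elementary, no Kronecker theorem needed). If `n = 0` there is nothing (`v' = v`: but then
`v' ≠ 0` is impossible; so `hn : 0 < n`). Choose `v₁` within `ε/2` of `v` with `v₁ 0 ≠ 0` (change the
coordinate number `0` a little). Let `a = v₁ 0`. Let `K` be a large prime (`Nat.exists_infinite_primes`),
so large that `n / K < δ / 4` (or so) and `|a| n / K < ε / 4`. For `1 ≤ i < n` choose an integer `p_i`, not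
divisible by `K`, with `|p_i / K^i - v₁ i / a| ≤ 2 / K^i` (one of the two nearest integers of
`K^i v₁ i / a` or its neighbour). Put `v' 0 = a`, `v' i = a p_i / K^i`. Then `‖v' - v₁‖ < ε/2`.
The points `(j / a) • v'` for integers `j` are `(j, j p_1 / K, j p_2 / K², …)`.
CLAIM: for every target `(y_1, …, y_{n-1})` and every starting values `x_i` there is `j`,
`0 ≤ j < K^(n-1)`, such that `x_i + j p_i / K^i` is within `1 / K` of `y_i` modulo `1` for all
`i = 1, …, n-1`. Proof by induction on the number of coordinates: given `j' < K^(i-1)` good for the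
coordinates `< i`, all `j' + m K^(i-1)`, `0 ≤ m < K`, are good for these coordinates (the numbers
`m K^(i-1) p_l / K^l` are integers for `l ≤ i - 1`), and `(j' + m K^(i-1)) p_i / K^i` runs modulo `1`
through `c + m p_i / K`, i.e. through all of `c + {0, 1/K, …, (K-1)/K}` because `p_i` is invertible
modulo `K`; one of them is within `1/K` of the target modulo 1.
So for `q` given: first move along `v'` by time `t₀ ∈ [0, 1/|a|]` so that coordinate `0` becomes
congruent to `q0 0` modulo 1, then by `j/|a|`, `0 ≤ j < K^(n-1)` (in the direction of `v'` or `-v'`: for the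
opposite sign use the claim with `-p_i`); every coordinate is within `1/K` of `q0 i` modulo 1; the norm
distance is at most `√n / K < δ`. The time is at most `T = (K^(n-1) + 1) / |a|`.
Finally normalise: `‖v'‖ = 1` is obtained in the caller by scaling; here no normalisation.
-/

set_option autoImplicit false

open scoped ContDiff Topology RealInnerProductSpace
open Set

namespace Pool.Agent.H2.TG

open Pool.Agent.H57.NL

variable {n : ℕ}

private theorem norm_le_coord (hn : 0 < n) {x : E n} {c : ℝ} (hc : 0 ≤ c)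
    (h : ∀ i, |x i| ≤ c) : ‖x‖ ≤ n * c := by
  rw [EuclideanSpace.norm_eq]
  apply Real.sqrt_le_iff.2
  constructor
  · positivity
  · calc ∑ i, ‖x i‖ ^ 2 ≤ ∑ _i : Fin n, c ^ 2 := by
          apply Finset.sum_le_sum
          intro i _
          rw [Real.norm_eq_abs]
          exact pow_le_pow_left₀ (abs_nonneg _) (h i) 2
      _ = n * c ^ 2 := by simp
      _ ≤ (n * c) ^ 2 := by
          rw [mul_pow]
          apply mul_le_mul_of_nonneg_right _ (sq_nonneg c)
          have : (1 : ℝ) ≤ n := by exact_mod_cast hn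
          nlinarith

private theorem hit_all {K : ℕ} (hK : 0 < K) {p : ℕ → ℤ} (hp : ∀ i, IsCoprime (p i) (K : ℤ))
    (z : ℕ → ℝ) (l : ℕ) : ∃ j : ℕ, j < K ^ l ∧
      ∀ i < l, ∃ m : ℤ, |z i + j * (p i / (K : ℝ) ^ (i + 1)) - m| ≤ 1 / K := by
  induction l with
  | zero => exact ⟨0, by simp, fun i hi => absurd hi (Nat.not_lt_zero i)⟩
  | succ l ih =>
    obtain ⟨j', hj', h⟩ := ih
    obtain ⟨a, b, hab⟩ := hp l
    have hKR : (0 : ℝ) < K := by exact_mod_cast hK
    have hKZ : (0 : ℤ) < K := by exact_mod_cast hK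
    let w : ℝ := z l + j' * (p l / (K : ℝ) ^ (l + 1))
    let r : ℤ := ⌊K * w⌋
    obtain ⟨m, hm⟩ := Int.eq_ofNat_of_zero_le (Int.emod_nonneg (-r * a) hKZ.ne')
    have hmK : m < K := by
      have h1 := Int.emod_lt_of_pos (-r * a) hKZ
      rw [hm] at h1
      exact_mod_cast h1
    have hdiv := Int.mul_ediv_add_emod (-r * a) K
    rw [hm] at hdiv
    refine ⟨j' + m * K ^ l, ?_, ?_⟩
    · calc j' + m * K ^ l < K ^ l + m * K ^ l := by omega
        _ = (m + 1) * K ^ l := by ring
        _ ≤ K * K ^ l := Nat.mul_le_mul_right _ hmK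
        _ = K ^ (l + 1) := by ring
    · intro i hi
      rcases Nat.lt_succ_iff_lt_or_eq.1 hi with hi' | rfl
      · obtain ⟨m0, h0⟩ := h i hi'
        refine ⟨m0 + m * p i * K ^ (l - (i + 1)), ?_⟩
        have e : z i + ((j' + m * K ^ l : ℕ) : ℝ) * (p i / (K : ℝ) ^ (i + 1)) -
            ((m0 + m * p i * K ^ (l - (i + 1)) : ℤ) : ℝ) =
            z i + j' * (p i / (K : ℝ) ^ (i + 1)) - m0 := by
          have e1 : (K : ℝ) ^ l = (K : ℝ) ^ (i + 1) * (K : ℝ) ^ (l - (i + 1)) := by
            rw [← pow_add]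
            congr 1
            omega
          push_cast
          rw [e1]
          field_simp
          ring
        rw [e]
        exact h0
      · refine ⟨r * b - (-r * a / K) * p i, ?_⟩
        have hr1 : (r : ℝ) ≤ K * w := Int.floor_le _
        have hr2 : (K : ℝ) * w < r + 1 := Int.lt_floor_add_one _
        have hZ : (m : ℤ) * p i = -r + K * (r * b - (-r * a / K) * p i) := by
          have h1 : (m : ℤ) = -r * a - K * (-r * a / K) := by
            linarith
          rw [h1]
          linear_combination (-r) * hab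
        have hR : (m : ℝ) * p i = -r + K * ((r * b - (-r * a / K : ℤ) * p i : ℤ) : ℝ) := by
          exact_mod_cast hZ
        have e : z i + ((j' + m * K ^ i : ℕ) : ℝ) * (p i / (K : ℝ) ^ (i + 1)) -
            ((r * b - (-r * a / K) * p i : ℤ) : ℝ) = (K * w - r) / K := by
          have e2 : ((r * b - (-r * a / K) * p i : ℤ) : ℝ) = (m * p i + r) / K := by
            rw [hR]
            field_simp
            ring
          rw [e2]
          change _ = (K * (z i + j' * (p i / (K : ℝ) ^ (i + 1))) - r) / K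
          push_cast
          rw [pow_succ]
          field_simp
          ring
        rw [e, abs_le]
        constructor
        · have h1 : 0 ≤ (K * w - r) / K := div_nonneg (by linarith) hKR.le
          have h2 : (0 : ℝ) ≤ 1 / K := by positivity
          linarith
        · exact div_le_div_of_nonneg_right (by linarith) hKR.le

private theorem exists_odd (x : ℝ) : ∃ p : ℤ, Odd p ∧ |(p : ℝ) - x| ≤ 1 := by
  refine ⟨2 * ⌊x / 2⌋ + 1, ⟨_, rfl⟩, ?_⟩
  have h1 := Int.floor_le (x / 2)
  have h2 := Int.lt_floor_add_one (x / 2)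
  push_cast
  rw [abs_le]
  constructor <;> linarith

theorem exists_direction (hn : 0 < n) (v q0 : E n) {ε δ : ℝ} (hε : 0 < ε) (hδ : 0 < δ) :
    ∃ (v' : E n) (T : ℝ), ‖v' - v‖ < ε ∧ v' ≠ 0 ∧ 0 < T ∧
      Rays v' {q | ∃ g ∈ lat n, q + g ∈ Metric.ball q0 δ} T := by
  have hnR : (0 : ℝ) < n := by exact_mod_cast hn
  obtain ⟨s, hs⟩ := exists_pow_lt_of_lt_one (div_pos (lt_min hε hδ) hnR)
    (by norm_num : (1 / 2 : ℝ) < 1)
  obtain ⟨K, hKdef⟩ : ∃ K : ℕ, K = 2 ^ s := ⟨_, rfl⟩
  have hK : 0 < K := by rw [hKdef]; positivity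
  have hKR : (0 : ℝ) < K := by exact_mod_cast hK
  have hK1 : (1 : ℝ) ≤ K := by exact_mod_cast hK
  have hsmall : n * (1 / (K : ℝ)) < min ε δ := by
    have e : (1 / (K : ℝ)) = (1 / 2 : ℝ) ^ s := by
      rw [hKdef]
      push_cast
      rw [one_div_pow]
    rw [e]
    rw [lt_div_iff₀ hnR] at hs
    linarith
  choose f hfodd hf using exists_odd
  let z0 : ℕ → ℝ := fun i => if h : i < n then v ⟨i, h⟩ else 0
  let p : ℕ → ℤ := fun i => f ((K : ℝ) ^ (i + 1) * z0 i)
  have hp : ∀ i, IsCoprime (p i) (K : ℤ) := by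
    intro i
    rw [hKdef]
    push_cast
    apply IsCoprime.pow_right
    obtain ⟨c, hc⟩ := hfodd ((K : ℝ) ^ (i + 1) * z0 i)
    exact ⟨1, -c, by change 1 * f ((K : ℝ) ^ (i + 1) * z0 i) + -c * 2 = 1; rw [hc]; ring⟩
  let v' : E n := WithLp.toLp 2 (fun i : Fin n => (p i : ℝ) / (K : ℝ) ^ ((i : ℕ) + 1))
  have hv' : ∀ i : Fin n, v' i = (p i : ℝ) / (K : ℝ) ^ ((i : ℕ) + 1) := fun i => rfl
  have hit : ∀ y : E n, ∃ j : ℕ, j < K ^ n ∧ ∃ g ∈ lat n, ‖y + (j : ℝ) • v' + g‖ < δ := by
    intro y
    obtain ⟨j, hj, h⟩ := hit_all hK hp (fun i => if h : i < n then y ⟨i, h⟩ else 0) n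
    choose m hm using fun i : Fin n => h i i.2
    refine ⟨j, hj, WithLp.toLp 2 (fun i => -(m i : ℝ)), ?_, ?_⟩
    · intro i
      exact ⟨-m i, by simp⟩
    · refine lt_of_le_of_lt (norm_le_coord hn (by positivity : (0 : ℝ) ≤ 1 / K) ?_)
        (lt_of_lt_of_le hsmall (min_le_right _ _))
      intro i
      have h1 := hm i
      simp only [i.2, dif_pos] at h1
      rw [PiLp.add_apply, PiLp.add_apply, PiLp.smul_apply, smul_eq_mul, hv']
      exact h1
  refine ⟨v', (K : ℝ) ^ n, ?_, ?_, by positivity, ?_⟩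
  · refine lt_of_le_of_lt (norm_le_coord hn (by positivity : (0 : ℝ) ≤ 1 / K) ?_)
      (lt_of_lt_of_le hsmall (min_le_left _ _))
    intro i
    rw [PiLp.sub_apply, hv']
    have h1 := hf ((K : ℝ) ^ ((i : ℕ) + 1) * z0 i)
    have h2 : z0 i = v i := by simp [z0]
    have hKp : (0 : ℝ) < (K : ℝ) ^ ((i : ℕ) + 1) := by positivity
    have e : (p i : ℝ) / (K : ℝ) ^ ((i : ℕ) + 1) - v i =
        (f ((K : ℝ) ^ ((i : ℕ) + 1) * z0 i) - (K : ℝ) ^ ((i : ℕ) + 1) * z0 i) /
          (K : ℝ) ^ ((i : ℕ) + 1) := by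
      rw [← h2]
      field_simp
      rfl
    rw [e, abs_div, abs_of_pos hKp]
    apply div_le_div₀ zero_le_one h1 hKR
    calc (K : ℝ) = (K : ℝ) ^ 1 := (pow_one _).symm
      _ ≤ (K : ℝ) ^ ((i : ℕ) + 1) := pow_le_pow_right₀ hK1 (by omega)
  · intro h0
    have h1 : v' ⟨0, hn⟩ = 0 := by rw [h0]; rfl
    rw [hv'] at h1
    have hKp : (K : ℝ) ^ (0 + 1) ≠ 0 := by positivity
    have h2 : (p 0 : ℝ) = 0 := by
      rcases div_eq_zero_iff.1 h1 with h | h
      · exact h
      · exact absurd h hKp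
    have h3 : p 0 = 0 := by exact_mod_cast h2
    have h4 : Odd (p 0) := hfodd _
    rw [h3] at h4
    exact absurd h4 (by decide)
  · intro q
    constructor
    · obtain ⟨j, hj, g, hg, hlt⟩ := hit (q - q0)
      refine ⟨j, Nat.cast_nonneg j, by exact_mod_cast hj.le, g, hg, ?_⟩
      rw [Metric.mem_ball, dist_eq_norm]
      have e : q + (j : ℝ) • v' + g - q0 = q - q0 + (j : ℝ) • v' + g := by abel
      rw [e]
      exact hlt
    · obtain ⟨j, hj, g, hg, hlt⟩ := hit (q0 - q)
      refine ⟨j, Nat.cast_nonneg j, by exact_mod_cast hj.le, -g, neg_mem hg, ?_⟩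
      rw [Metric.mem_ball, dist_eq_norm, ← norm_neg]
      have e : -(q - (j : ℝ) • v' + -g - q0) = q0 - q + (j : ℝ) • v' + g := by abel
      rw [e]
      exact hlt

end Pool.Agent.H2.TG
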