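import Pool.Agent.H2.TG.Theta
import Pool.Agent.H2.TG.Curv2

/-!
# The conclusion of the leaf analysis
-/

set_option autoImplicit false

open scoped ContDiff Topology RealInnerProductSpace
open Set

namespace Pool.Agent.H2.TG

open Pool.Agent.H57.NL

variable {n : ℕ} {v : E n} {C : Set (E n × ℝ)} {U U₂ : Set (E n)} {T : ℝ}

theorem theta_of_red (hR : Red v C U) (hv : ‖v‖ = 1) (hT : 0 < T) (h2 : IsOpen U₂)
    (hi2 : Inv U₂) (hcl : closure U₂ ⊆ U) (hr : Rays v U₂ T) : ∃ (Θ : E n × ℝ → ℝ) (M : ℝ),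
      Phase v Θ U₂ M T ∧ ∀ y ∈ C, (y, Θ y) ∈ PS v C := by
  obtain ⟨κ, hκ⟩ := exists_curv hR
  obtain ⟨Λ, hΛ⟩ := exists_leafFlow hκ
  exact exists_theta ⟨hR, hv, hT, h2, hi2, hcl, hr, hκ, hΛ⟩

end Pool.Agent.H2.TG
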