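import Pool.Agent.H2.TG.Transl

/-!
# The straightening maps exact Lagrangians to exact Lagrangians (module Lag)

PROOFS. Let `hF : Straight v Θ F F' A`.
* `straight_om`: `om (DF ζ) (DF η) = om ζ η`. Differentiate the identity `exact` at `z` in the direction `η` (`ζ`
  constant): `⟪D(F.2) η, D(F.1) ζ⟫ + ⟪F.2, D²(F.1)(η, ζ)⟫ = ⟪η.2, ζ.1⟫ + D(DA ∘ sig)(η) (ζ.1, ⟪ζ.2, v⟫)`; here the last
  term is `D²A (Dσ η, Dσ ζ)` (`sig v` is linear, `Dσ ζ = (ζ.1, ⟪ζ.2, v⟫)`), symmetric in `ζ, η`, as is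
  `D²(F.1)(η, ζ)` (`F`, `A` smooth: `ContDiffAt.isSymmSndFDerivAt`). Subtract the same with `ζ`, `η`
  exchanged: `⟪(DF η).2, (DF ζ).1⟫ - ⟪(DF ζ).2, (DF η).1⟫ = ⟪η.2, ζ.1⟫ - ⟪ζ.2, η.1⟫`.
  (A slick way: `h z = ⟪(F z).2, (DF z ζ).1⟫`, `k z = ⟪(F z).2, (DF z η).1⟫` are smooth functions of `z`.)
* `straight_symp`: `sympDiffeo_of` (module Transl) for `F`; and for `F'`: `F'` also commutes with the lattice and
  preserves `om` (apply the formula for `F` at `F' z` to `DF'(z) ζ`; `DF (F' z) (DF'(z) ζ) = ζ` by the chain rule).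
* `straight_lag`: `S' = F '' S`, `f' y = f (F' y) + A (sig v (F' y))`.
  `sub`: `IsSubmfd.image`. `closed`: `S' = F' ⁻¹' S` (preimage under a continuous map). `subTN`: `TN_univ`.
  `inv`: `F (tr g z) = tr g (F z)`. `bdd`: `S ∩ {‖z.1‖ ≤ R}` is compact (`ExactLag.compact_part`), so `(F z).2` is
  bounded on it; every `z ∈ S` is a lattice translate of a point of it (`lat_cocpt`), and `(F (tr g z)).2 = (F z).2`.
  `lag`: `Tan_image` and `straight_om`. `finv`: invariance of `f` on `S` and of `A`; `F' (tr g y) = tr g (F' y)`.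
  `prim`: at `y₀ = F z₀`, `y = F z ∈ S'`: `f' y - f' y₀ - ⟪y₀.2, y.1 - y₀.1⟫ =
  [f z - f z₀ - ⟪z₀.2, z.1 - z₀.1⟫] + [⟪z₀.2, z.1 - z₀.1⟫ + A (sig v z) - A (sig v z₀) - ⟪(F z₀).2, (F z).1 - (F z₀).1⟫]`;
  the first bracket is `o(z - z₀)` on `S` (`hL.prim`), the second is a differentiable function of `z` with value
  and derivative `0` at `z₀` (`exact`), so `o(z - z₀)`; and `z - z₀ = F' y - F' y₀ = O(y - y₀)`, `z → z₀` within
  `S` as `y → y₀` within `S'`.
-/

set_option autoImplicit false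

open scoped ContDiff Topology RealInnerProductSpace
open Set

namespace Pool.Agent.H2.TG

open Pool.Agent.H57.NL

variable {n : ℕ} {S : Set (E n × E n)} {f : E n × E n → ℝ} {v : E n} {Θ : E n × ℝ → ℝ}
  {F F' : E n × E n → E n × E n} {A : E n × ℝ → ℝ}

private noncomputable def lagSig (v : E n) : (E n × E n) →L[ℝ] (E n × ℝ) :=
  (ContinuousLinearMap.fst ℝ (E n) (E n)).prod
    ((innerSL ℝ v).comp (ContinuousLinearMap.snd ℝ (E n) (E n)))

private theorem lagSig_apply (v : E n) (z : E n × E n) : lagSig v z = (z.1, ⟪z.2, v⟫) := by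
  unfold lagSig
  simp only [ContinuousLinearMap.prod_apply, ContinuousLinearMap.coe_fst',
    ContinuousLinearMap.comp_apply, ContinuousLinearMap.coe_snd', innerSL_apply_apply]
  rw [real_inner_comm]

private theorem lagSig_eq (v : E n) : sig v = lagSig v := by
  funext z
  rw [lagSig_apply]
  rfl

private theorem lag_second {V W : Type*} [NormedAddCommGroup V] [NormedSpace ℝ V]
    [NormedAddCommGroup W] [NormedSpace ℝ W] {g : V → W} (hg : ContDiff ℝ ∞ g) (z ζ : V) :
    HasFDerivAt (fun z => fderiv ℝ g z ζ)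
      ((ContinuousLinearMap.apply ℝ W ζ).comp (fderiv ℝ (fderiv ℝ g) z)) z := by
  have h1 : ContDiff ℝ ∞ (fderiv ℝ g) := hg.fderiv_right (by simp)
  have h2 : HasFDerivAt (fderiv ℝ g) (fderiv ℝ (fderiv ℝ g) z) z :=
    ((h1.differentiable (by norm_num)) z).hasFDerivAt
  exact (ContinuousLinearMap.apply ℝ W ζ).hasFDerivAt.comp z h2

private theorem lag_sym {V W : Type*} [NormedAddCommGroup V] [NormedSpace ℝ V]
    [NormedAddCommGroup W] [NormedSpace ℝ W] {g : V → W} (hg : ContDiff ℝ ∞ g) (z a b : V) :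
    fderiv ℝ (fderiv ℝ g) z a b = fderiv ℝ (fderiv ℝ g) z b a := by
  have h6 : ContDiffAt ℝ 2 g z := (contDiff_infty.1 hg 2).contDiffAt
  exact (h6.isSymmSndFDerivAt (by simp)) a b

private theorem lag_F1 (hF : Straight v Θ F F' A) (z ζ : E n × E n) :
    fderiv ℝ (fun z => (F z).1) z ζ = (fderiv ℝ F z ζ).1 := by
  have h1 : HasFDerivAt F (fderiv ℝ F z) z :=
    ((hF.smooth.differentiable (by norm_num)) z).hasFDerivAt
  rw [h1.fst.fderiv]
  rfl

private theorem lag_F2 (hF : Straight v Θ F F' A) (z ζ : E n × E n) :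
    fderiv ℝ (fun z => (F z).2) z ζ = (fderiv ℝ F z ζ).2 := by
  have h1 : HasFDerivAt F (fderiv ℝ F z) z :=
    ((hF.smooth.differentiable (by norm_num)) z).hasFDerivAt
  rw [h1.snd.fderiv]
  rfl

private theorem lag_key (hF : Straight v Θ F F' A) (z ζ η : E n × E n) :
    ⟪(F z).2, fderiv ℝ (fderiv ℝ (fun z => (F z).1)) z η ζ⟫
      + ⟪(fderiv ℝ F z η).2, (fderiv ℝ F z ζ).1⟫
      = ⟪η.2, ζ.1⟫ + fderiv ℝ (fderiv ℝ A) (sig v z) (sig v η) (sig v ζ) := by
  have hs1 : ContDiff ℝ ∞ (fun z => (F z).1) := contDiff_fst.comp hF.smooth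
  have hs2 : ContDiff ℝ ∞ (fun z => (F z).2) := contDiff_snd.comp hF.smooth
  have h1 : HasFDerivAt (fun z => (F z).2) (fderiv ℝ (fun z => (F z).2) z) z :=
    ((hs2.differentiable (by norm_num)) z).hasFDerivAt
  have h2 := lag_second hs1 z ζ
  have h3 := h1.inner ℝ h2
  have h4 : HasFDerivAt (fun z : E n × E n => fderiv ℝ A (sig v z) (lagSig v ζ))
      (((ContinuousLinearMap.apply ℝ ℝ (lagSig v ζ)).comp
        (fderiv ℝ (fderiv ℝ A) (sig v z))).comp (lagSig v)) z := by
    have h5 := lag_second hF.smoothA (sig v z) (lagSig v ζ)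
    have h6 : HasFDerivAt (sig v) (lagSig v) z := by
      rw [lagSig_eq]
      exact (lagSig v).hasFDerivAt
    exact h5.comp z h6
  have h7 : HasFDerivAt (fun z : E n × E n => ⟪z.2, ζ.1⟫)
      ((innerSL ℝ ζ.1).comp (ContinuousLinearMap.snd ℝ (E n) (E n))) z := by
    have h8 : (fun z : E n × E n => ⟪z.2, ζ.1⟫) =
        ((innerSL ℝ ζ.1).comp (ContinuousLinearMap.snd ℝ (E n) (E n)) : E n × E n → ℝ) := by
      funext z
      simp only [ContinuousLinearMap.comp_apply, ContinuousLinearMap.coe_snd',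
        innerSL_apply_apply]
      rw [real_inner_comm]
    rw [h8]
    exact ContinuousLinearMap.hasFDerivAt _
  have h9 := h7.add h4
  have h10 : (fun z => ⟪(F z).2, fderiv ℝ (fun z => (F z).1) z ζ⟫) =
      (fun z : E n × E n => ⟪z.2, ζ.1⟫) +
        (fun z : E n × E n => fderiv ℝ A (sig v z) (lagSig v ζ)) := by
    funext z
    rw [lag_F1 hF, hF.exact z ζ, Pi.add_apply, lagSig_apply]
  rw [h10] at h3
  have h11 := congrArg (fun L : (E n × E n) →L[ℝ] ℝ => L η) (h3.unique h9)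
  simp only [ContinuousLinearMap.comp_apply, fderivInnerCLM_apply, ContinuousLinearMap.prod_apply,
    ContinuousLinearMap.apply_apply, add_apply, innerSL_apply_apply,
    ContinuousLinearMap.coe_snd'] at h11
  rw [lag_F1 hF, lag_F2 hF, real_inner_comm η.2 ζ.1] at h11
  rw [h11, lagSig_eq]

theorem straight_om (hF : Straight v Θ F F' A) (z ζ η : E n × E n) :
    om (fderiv ℝ F z ζ) (fderiv ℝ F z η) = om ζ η := by
  have h1 := lag_key hF z ζ η
  have h2 := lag_key hF z η ζ
  have hs1 : ContDiff ℝ ∞ (fun z => (F z).1) := contDiff_fst.comp hF.smooth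
  rw [lag_sym hs1 z ζ η, lag_sym hF.smoothA (sig v z) (sig v ζ) (sig v η)] at h2
  unfold om
  linarith

private theorem lag_chain (hF : Straight v Θ F F' A) (z u : E n × E n) :
    fderiv ℝ F (F' z) (fderiv ℝ F' z u) = u := by
  have h7 : HasFDerivAt F (fderiv ℝ F (F' z)) (F' z) :=
    ((hF.smooth.differentiable (by norm_num)) (F' z)).hasFDerivAt
  have h6 : HasFDerivAt F' (fderiv ℝ F' z) z :=
    ((hF.smooth'.differentiable (by norm_num)) z).hasFDerivAt
  have h8 := h7.comp z h6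
  have h9 : F ∘ F' = id := funext hF.right
  rw [h9] at h8
  have h10 := h8.unique (hasFDerivAt_id z)
  have h11 := congrArg (fun L : (E n × E n) →L[ℝ] (E n × E n) => L u) h10
  simpa using h11

private theorem lag_equiv' (hF : Straight v Θ F F' A) {g : E n} (hg : g ∈ lat n)
    (z : E n × E n) : F' (tr g z) = tr g (F' z) := by
  have h1 := hF.equiv g hg (F' z)
  rw [hF.right] at h1
  rw [← h1, hF.left]

theorem straight_symp (hF : Straight v Θ F F' A) : SympDiffeo univ (lat n) F' F := by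
  refine sympDiffeo_of hF.smooth' hF.smooth hF.right hF.left (fun g hg z => lag_equiv' hF hg z) ?_
  intro z u w
  rw [← straight_om hF (F' z) (fderiv ℝ F' z u) (fderiv ℝ F' z w), lag_chain hF, lag_chain hF]

theorem straight_lag (hF : Straight v Θ F F' A) (hL : ExactLag n univ (lat n) S f) :
    ∃ f', ExactLag n univ (lat n) (F '' S) f' := by
  have himg : F '' S = F' ⁻¹' S := by
    ext y
    constructor
    · rintro ⟨z, hz, rfl⟩
      rw [Set.mem_preimage, hF.left]
      exact hz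
    · intro hy
      exact ⟨F' y, hy, hF.right y⟩
  refine ⟨fun y => f (F' y) + A (sig v (F' y)), ?_⟩
  refine ⟨hL.ne.image _, IsSubmfd.image hL.sub hF.smooth hF.smooth' hF.left hF.right,
    ?_, ?_, ?_, ?_, ?_, ?_, ?_⟩
  · rw [himg]
    exact hL.closed.preimage hF.smooth'.continuous
  · rw [TN_univ]
    exact subset_univ _
  · rintro g hg z ⟨y, hy, rfl⟩
    exact ⟨tr g y, hL.inv g hg y hy, hF.equiv g hg y⟩
  · obtain ⟨Rb, hRb⟩ := hL.bdd
    obtain ⟨R, hR⟩ := lat_cocpt (n := n)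
    have hK : IsCompact (S ∩ {z | ‖z.1‖ ≤ R}) := by
      refine Metric.isCompact_of_isClosed_isBounded
        (hL.closed.inter (isClosed_le (by fun_prop) continuous_const)) ?_
      refine (Metric.isBounded_closedBall (x := (0 : E n × E n)) (r := max R Rb)).subset ?_
      rintro z ⟨hz1, hz2⟩
      rw [mem_closedBall_zero_iff, Prod.norm_def]
      exact max_le_max hz2 (hRb z hz1)
    obtain ⟨K, hKb⟩ := hK.exists_bound_of_continuousOn
      (f := fun z => (F z).2) (continuous_snd.comp hF.smooth.continuous).continuousOn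
    refine ⟨K, ?_⟩
    rintro y ⟨z, hz, rfl⟩
    obtain ⟨g, hg, hgR⟩ := hR z.1
    have h1 := hKb (tr g z) ⟨hL.inv g hg z hz, hgR⟩
    simp only [hF.equiv g hg z] at h1
    exact h1
  · rintro y ⟨z, hz, rfl⟩ u hu w hw
    obtain ⟨u', hu', rfl⟩ := (Tan_image hF.smooth hF.smooth' hF.left hF.right).1 hu
    obtain ⟨w', hw', rfl⟩ := (Tan_image hF.smooth hF.smooth' hF.left hF.right).1 hw
    rw [straight_om hF]
    exact hL.lag z hz u' hu' w' hw'
  · intro y₀ hy₀
    have hz₀ : F' y₀ ∈ S := by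
      rw [himg] at hy₀
      exact hy₀
    have hd' : HasFDerivAt F' (fderiv ℝ F' y₀) y₀ :=
      ((hF.smooth'.differentiable (by norm_num)) y₀).hasFDerivAt
    have hT : Filter.Tendsto F' (𝓝[F '' S] y₀) (𝓝[S] (F' y₀)) := by
      refine (hF.smooth'.continuous.continuousWithinAt).tendsto_nhdsWithin ?_
      intro y hy
      rw [himg] at hy
      exact hy
    have h1 := ((hL.prim _ hz₀).comp_tendsto hT).trans_isBigO
      ((hd'.isBigO_sub).mono nhdsWithin_le_nhds)
    -- the second bracket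
    have hsg : HasFDerivAt (sig v) (lagSig v) (F' y₀) := by
      rw [lagSig_eq]
      exact (lagSig v).hasFDerivAt
    have hA1 : HasFDerivAt A (fderiv ℝ A (sig v (F' y₀))) (sig v (F' y₀)) :=
      ((hF.smoothA.differentiable (by norm_num)) _).hasFDerivAt
    have h2 : HasFDerivAt (fun y => A (sig v (F' y)))
        (((fderiv ℝ A (sig v (F' y₀))).comp (lagSig v)).comp (fderiv ℝ F' y₀)) y₀ :=
      (hA1.comp (F' y₀) hsg).comp y₀ hd'
    have h3 : HasFDerivAt (fun y => innerSL ℝ (F' y₀).2 (F' y).1)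
        ((innerSL ℝ (F' y₀).2).comp ((ContinuousLinearMap.fst ℝ (E n) (E n)).comp
          (fderiv ℝ F' y₀))) y₀ :=
      (innerSL ℝ (F' y₀).2).hasFDerivAt.comp y₀ hd'.fst
    have h4 : HasFDerivAt (fun y : E n × E n => innerSL ℝ y₀.2 y.1)
        ((innerSL ℝ y₀.2).comp (ContinuousLinearMap.fst ℝ (E n) (E n))) y₀ :=
      (innerSL ℝ y₀.2).hasFDerivAt.comp y₀ hasFDerivAt_fst
    have h5 := (h2.add h3).sub h4
    have h6 : ((fderiv ℝ A (sig v (F' y₀))).comp (lagSig v)).comp (fderiv ℝ F' y₀) +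
        (innerSL ℝ (F' y₀).2).comp ((ContinuousLinearMap.fst ℝ (E n) (E n)).comp
          (fderiv ℝ F' y₀)) -
        (innerSL ℝ y₀.2).comp (ContinuousLinearMap.fst ℝ (E n) (E n)) = 0 := by
      refine ContinuousLinearMap.ext fun w => ?_
      have e1 := hF.exact (F' y₀) (fderiv ℝ F' y₀ w)
      rw [lag_chain hF, hF.right] at e1
      simp only [sub_apply, add_apply,
        ContinuousLinearMap.comp_apply, lagSig_apply, innerSL_apply_apply,
        ContinuousLinearMap.coe_fst', zero_apply]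
      linarith
    rw [h6] at h5
    have h7 := (hasFDerivAt_iff_isLittleO.1 h5).mono (nhdsWithin_le_nhds (s := F '' S))
    refine (h1.add h7).congr_left fun y => ?_
    simp only [Function.comp_apply, innerSL_apply_apply, zero_apply,
      Pi.add_apply, Pi.sub_apply, inner_sub_right]
    ring
  · rintro g hg y ⟨z, hz, rfl⟩
    have h1 : F' (tr g (F z)) = tr g z := by
      rw [lag_equiv' hF hg, hF.left]
    have h2 : sig v (tr g z) = ((sig v z).1 + g, (sig v z).2) := rfl
    simp only [h1, hF.left, hL.finv g hg z hz, h2, hF.invA g hg]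

end Pool.Agent.H2.TG
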