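import Pool.Agent.H2.TG.Curv1
import Pool.Agent.H2.TG.Flow

/-!
# The flow of the leaves (module LeafA)

`LF v κ x = ((cos x.2 • v, sin x.2), κ x)`.

PROOFS.
* `LF_contDiff`: direct. `exists_leafFlow`: `‖LF v κ x‖ ≤ max (max ‖v‖ 1) K`, `exists_isFlow` (Flow).
* `leaf_local`: let `x ∈ PS`, `W, u` a local equation at `x.1`, `ϑ` with `ϑ x.1 = x.2`
  (`exists_phase`), `y` the curve of `exists_curve`. For `|t| < ε`: `z t = (y t, ϑ (y t)) ∈ PS` (`mem_PS`,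
  `PhaseOf.tang`), and `z' = (y', Dϑ(y)(y')) = LF v κ (z t)` because
  `κ (z t) = Dϑ(y t)(cos (ϑ (y t)) • v, sin (ϑ (y t)))` by `hκ.curv` with `k = 0`. So `z` is an integral curve of
  `LF v κ` on `|t| ≤ ε / 2`; by `IsFlow.unique_on`, `Λ t x = z t ∈ PS` for `|t| ≤ ε / 2`.
* `leaf_mem`: `{s | Λ s x ∈ PS}` is closed (`PS_closed`, `s ↦ Λ s x` is continuous: it is differentiable)
  and open (`leaf_local` at `Λ s x` and `IsFlow.add`), contains `0`, so it is `ℝ` (`IsClopen.eq_univ`).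
* `leaf_phi`: `(Λ s x).2` has derivative `κ (Λ s x)`, bounded by `K`.
-/

set_option autoImplicit false

open scoped ContDiff Topology RealInnerProductSpace
open Set

namespace Pool.Agent.H2.TG

open Pool.Agent.H57.NL

variable {n : ℕ} {v : E n} {C : Set (E n × ℝ)} {U : Set (E n)} {κ : (E n × ℝ) × ℝ → ℝ}
  {Λ : ℝ → (E n × ℝ) × ℝ → (E n × ℝ) × ℝ}

theorem LF_contDiff (hκ : Curv v C κ) : ContDiff ℝ ∞ (LF v κ) := by
  unfold LF
  exact (((Real.contDiff_cos.comp contDiff_snd).smul contDiff_const).prodMk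
    (Real.contDiff_sin.comp contDiff_snd)).prodMk hκ.smooth

theorem exists_leafFlow (hκ : Curv v C κ) : ∃ Λ, IsFlow (LF v κ) Λ := by
  obtain ⟨K, hK⟩ := hκ.bdd
  refine exists_isFlow (LF_contDiff hκ) (K := max (max ‖v‖ 1) K) fun x => ?_
  unfold LF
  rw [Prod.norm_def, Prod.norm_def]
  refine max_le_max (max_le_max ?_ ?_) ?_
  · rw [norm_smul, Real.norm_eq_abs]
    exact mul_le_of_le_one_left (norm_nonneg _) (Real.abs_cos_le_one _)
  · rw [Real.norm_eq_abs]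
    exact Real.abs_sin_le_one _
  · rw [Real.norm_eq_abs]
    exact hK x

theorem leaf_local (hR : Red v C U) (hκ : Curv v C κ) (hΛ : IsFlow (LF v κ) Λ)
    {x : (E n × ℝ) × ℝ} (hx : x ∈ PS v C) : ∃ ε : ℝ, 0 < ε ∧ ∀ t, |t| ≤ ε → Λ t x ∈ PS v C := by
  obtain ⟨W, u, hxW, hC⟩ := hR.loc x.1 hx.1
  obtain ⟨W₁, ϑ, -, hx1, hC1, hϑ, hϑx⟩ := exists_phase hC hxW (hx.2 W u hxW hC)
  obtain ⟨ε, y, hε, hy0, hy⟩ := exists_curve hC1 hϑ hx.1 hx1
  have hPS : ∀ t, |t| < ε → (y t, ϑ (y t)) ∈ PS v C := by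
    intro t ht
    obtain ⟨h1, h2, -⟩ := hy t ht
    exact (mem_PS (x := (y t, ϑ (y t))) hC1 h1 h2).2 (hϑ.tang (y t) h2)
  have hder : ∀ t, |t| ≤ ε / 2 →
      HasDerivAt (fun t => ((y t, ϑ (y t)) : (E n × ℝ) × ℝ)) (LF v κ (y t, ϑ (y t))) t := by
    intro t ht
    have ht' : |t| < ε := by linarith
    obtain ⟨h1, h2, h3⟩ := hy t ht'
    have hd : DifferentiableAt ℝ ϑ (y t) :=
      (hϑ.smooth.contDiffAt (hC1.isOpen.mem_nhds h2)).differentiableAt (by simp)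
    have h4 : HasDerivAt (fun t => ϑ (y t))
        (fderiv ℝ ϑ (y t) (Real.cos (ϑ (y t)) • v, Real.sin (ϑ (y t)))) t :=
      hd.hasFDerivAt.comp_hasDerivAt t h3
    have h5 := hκ.curv (y t, ϑ (y t)) (hPS t ht') W₁ u ϑ h2 hC1 hϑ 0 (by simp)
    have h6 := h3.prodMk h4
    have h7 : LF v κ (y t, ϑ (y t)) = ((Real.cos (ϑ (y t)) • v, Real.sin (ϑ (y t))),
        fderiv ℝ ϑ (y t) (Real.cos (ϑ (y t)) • v, Real.sin (ϑ (y t)))) := by
      unfold LF
      rw [h5]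
    rw [h7]
    exact h6
  refine ⟨ε / 2, by linarith, fun t ht => ?_⟩
  have h8 := hΛ.unique_on (LF_contDiff hκ) hder t ht
  have h9 : ((y 0, ϑ (y 0)) : (E n × ℝ) × ℝ) = x := by
    rw [hy0, hϑx]
  simp only [h9] at h8
  rw [← h8]
  exact hPS t (by linarith)

theorem leaf_mem (hR : Red v C U) (hκ : Curv v C κ) (hΛ : IsFlow (LF v κ) Λ)
    {x : (E n × ℝ) × ℝ} (hx : x ∈ PS v C) (s : ℝ) : Λ s x ∈ PS v C := by
  have hcont : Continuous fun s => Λ s x :=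
    continuous_iff_continuousAt.2 fun t => (hΛ.deriv x t).continuousAt
  have hcl : IsClosed {s : ℝ | Λ s x ∈ PS v C} := (PS_closed hR).preimage hcont
  have hop : IsOpen {s : ℝ | Λ s x ∈ PS v C} := by
    rw [isOpen_iff_mem_nhds]
    intro s hs
    obtain ⟨ε, hε, h⟩ := leaf_local hR hκ hΛ (x := Λ s x) hs
    filter_upwards [Metric.ball_mem_nhds s hε] with s' hs'
    have h1 : |s' - s| ≤ ε := by
      rw [Metric.mem_ball, Real.dist_eq] at hs'
      exact hs'.le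
    have h2 := h (s' - s) h1
    rw [hΛ.add (LF_contDiff hκ)] at h2
    have h3 : s' - s + s = s' := by ring
    rw [h3] at h2
    exact h2
  have hne : {s : ℝ | Λ s x ∈ PS v C}.Nonempty := ⟨0, by
    show Λ 0 x ∈ PS v C
    rw [hΛ.zero]; exact hx⟩
  have huniv := IsClopen.eq_univ ⟨hcl, hop⟩ hne
  have : s ∈ {s : ℝ | Λ s x ∈ PS v C} := by rw [huniv]; trivial
  exact this

theorem leaf_phi (hκ : Curv v C κ) (hΛ : IsFlow (LF v κ) Λ) : ∃ K : ℝ, 0 < K ∧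
    ∀ x s, |(Λ s x).2 - x.2| ≤ K * |s| := by
  obtain ⟨K, hK⟩ := hκ.bdd
  refine ⟨max K 1, lt_of_lt_of_le one_pos (le_max_right _ _), fun x s => ?_⟩
  have h1 : ∀ t : ℝ, HasDerivAt (fun t => (Λ t x).2) (κ (Λ t x)) t := by
    intro t
    exact (hΛ.deriv x t).snd
  have h2 := Convex.norm_image_sub_le_of_norm_hasDerivWithin_le (s := (Set.univ : Set ℝ))
    (f := fun t => (Λ t x).2) (f' := fun t => κ (Λ t x)) (C := max K 1)
    (fun t _ => (h1 t).hasDerivWithinAt)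
    (fun t _ => by rw [Real.norm_eq_abs]; exact (hK _).trans (le_max_left _ _))
    convex_univ (Set.mem_univ (0 : ℝ)) (Set.mem_univ s)
  simp only [hΛ.zero, sub_zero, Real.norm_eq_abs] at h2
  exact h2

end Pool.Agent.H2.TG
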