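import Pool.Agent.H2.TG.LeafA

/-!
# Coordinates along the leaves and symmetries (module LeafB)

`tc v q q' = ⟪q' - q, v⟫`, `‖v‖ = 1`.

PROOFS.
* `leaf_q`: the derivative of `s ↦ (Λ s x).1.1` is `cos (…) • v` (first components of `hΛ.deriv`), so the
  derivative of `(Λ s x).1.1 - ⟪(Λ s x).1.1 - q, v⟫ • v` is `cos • v - cos ⟪v, v⟫ • v = 0`: constant.
* `leaf_tc`, `leaf_r`, `leaf_ph`: components of `hΛ.deriv` (`HasDerivAt.fst`, `.snd`, inner product with `v`).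
* `leaf_trans`: `LF v κ` is invariant under the translation by `((g, 0), 0)`; `IsFlow.trans`.
* `leaf_even`: for `x ∈ PS` the curve `s ↦ ((Λ s x).1, (Λ s x).2 + j π)` is an integral curve of `LF v κ`
  (`j` even: `cos`, `sin` do not change, and `κ (y.1, y.2 + j π) = κ y` for `y = Λ s x ∈ PS` by `hκ.curv` /
  `cval_pi`, `cval_unique`; `(-1)^j = 1`); uniqueness (`IsFlow.unique`).
* `leaf_odd`: the curve `s ↦ ((Λ (-s) x).1, (Λ (-s) x).2 + j π)`: the derivative is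
  `-(cos • v, sin, κ)` at `Λ (-s) x`, and `cos (φ + j π) = - cos φ`, `sin (φ + j π) = - sin φ`,
  `κ (y.1, y.2 + j π) = - κ y` for `j` odd.
-/

set_option autoImplicit false

open scoped ContDiff Topology RealInnerProductSpace
open Set

namespace Pool.Agent.H2.TG

open Pool.Agent.H57.NL

variable {n : ℕ} {v : E n} {C : Set (E n × ℝ)} {U : Set (E n)} {κ : (E n × ℝ) × ℝ → ℝ}
  {Λ : ℝ → (E n × ℝ) × ℝ → (E n × ℝ) × ℝ}

private theorem lb_d1 (hΛ : IsFlow (LF v κ) Λ) (x : (E n × ℝ) × ℝ) (s : ℝ) :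
    HasDerivAt (fun s => (Λ s x).1.1) (Real.cos (Λ s x).2 • v) s :=
  (hΛ.deriv x s).fst.fst

theorem leaf_tc (hv : ‖v‖ = 1) (hΛ : IsFlow (LF v κ) Λ) (q : E n) (x : (E n × ℝ) × ℝ) (s : ℝ) :
    HasDerivAt (fun s => tc v q (Λ s x).1.1) (Real.cos (Λ s x).2) s := by
  unfold tc
  have h := ((lb_d1 hΛ x s).sub_const q).inner ℝ (hasDerivAt_const s v)
  have e : ⟪(Λ s x).1.1 - q, (0 : E n)⟫ + ⟪Real.cos (Λ s x).2 • v, v⟫ = Real.cos (Λ s x).2 := by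
    rw [inner_zero_right, zero_add, real_inner_smul_left, real_inner_self_eq_norm_sq, hv]; ring
  rw [e] at h
  exact h

theorem leaf_q (hv : ‖v‖ = 1) (hΛ : IsFlow (LF v κ) Λ) (x : (E n × ℝ) × ℝ) (s : ℝ) :
    (Λ s x).1.1 = x.1.1 + tc v x.1.1 (Λ s x).1.1 • v := by
  have hd : ∀ s, HasDerivAt (fun s => (Λ s x).1.1 - tc v x.1.1 (Λ s x).1.1 • v) 0 s := by
    intro s
    have h := (lb_d1 hΛ x s).sub ((leaf_tc hv hΛ x.1.1 x s).smul_const v)
    rwa [sub_self] at h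
  have hc := is_const_of_deriv_eq_zero (f := fun s => (Λ s x).1.1 - tc v x.1.1 (Λ s x).1.1 • v)
    (fun s => (hd s).differentiableAt) (fun s => (hd s).deriv) s 0
  simp only [hΛ.zero] at hc
  have h0 : tc v x.1.1 x.1.1 = 0 := by unfold tc; rw [sub_self, inner_zero_left]
  rw [h0, zero_smul, sub_zero] at hc
  exact sub_eq_iff_eq_add.1 hc

theorem leaf_r (hΛ : IsFlow (LF v κ) Λ) (x : (E n × ℝ) × ℝ) (s : ℝ) :
    HasDerivAt (fun s => (Λ s x).1.2) (Real.sin (Λ s x).2) s :=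
  (hΛ.deriv x s).fst.snd

theorem leaf_ph (hΛ : IsFlow (LF v κ) Λ) (x : (E n × ℝ) × ℝ) (s : ℝ) :
    HasDerivAt (fun s => (Λ s x).2) (κ (Λ s x)) s :=
  (hΛ.deriv x s).snd

theorem leaf_trans (hκ : Curv v C κ) (hΛ : IsFlow (LF v κ) Λ) {g : E n} (hg : g ∈ lat n)
    (x : (E n × ℝ) × ℝ) (s : ℝ) :
    Λ s ((x.1.1 + g, x.1.2), x.2) = (((Λ s x).1.1 + g, (Λ s x).1.2), (Λ s x).2) := by
  have h := hΛ.trans (LF_contDiff hκ) (w := ((g, (0 : ℝ)), (0 : ℝ))) (fun y => by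
    have e : y + ((g, (0 : ℝ)), (0 : ℝ)) = ((y.1.1 + g, y.1.2), y.2) := by
      ext <;> simp
    rw [e]
    unfold LF
    rw [hκ.inv g hg]) s x
  have e : ∀ y : (E n × ℝ) × ℝ, y + ((g, (0 : ℝ)), (0 : ℝ)) = ((y.1.1 + g, y.1.2), y.2) := by
    intro y
    ext <;> simp
  rw [e, e] at h
  exact h

private theorem lb_shift (hR : Red v C U) (hκ : Curv v C κ) {y : (E n × ℝ) × ℝ}
    (hy : y ∈ PS v C) (j : ℤ) : κ (y.1, y.2 + j * Real.pi) = (-1) ^ j * κ y := by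
  have h1 : cval v C y (κ y) := hκ.curv y hy
  have h2 := cval_pi hR hy h1 j
  have h3 : (y.1, y.2 + j * Real.pi) ∈ PS v C := PS_pi hR hy j
  exact cval_unique hR h3 (hκ.curv _ h3) h2

private theorem lb_LF (hR : Red v C U) (hκ : Curv v C κ) {y : (E n × ℝ) × ℝ}
    (hy : y ∈ PS v C) (j : ℤ) : LF v κ (y.1, y.2 + j * Real.pi) = (-1 : ℝ) ^ j • LF v κ y := by
  unfold LF
  simp only [lb_shift hR hκ hy j, Real.cos_add_int_mul_pi, Real.sin_add_int_mul_pi,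
    Prod.smul_mk, smul_eq_mul, smul_smul]

theorem leaf_even (hR : Red v C U) (hκ : Curv v C κ) (hΛ : IsFlow (LF v κ) Λ)
    {x : (E n × ℝ) × ℝ} (hx : x ∈ PS v C) {j : ℤ} (hj : Even j) (s : ℝ) :
    Λ s (x.1, x.2 + j * Real.pi) = ((Λ s x).1, (Λ s x).2 + j * Real.pi) := by
  have h := hΛ.unique (LF_contDiff hκ) (γ := fun s => ((Λ s x).1, (Λ s x).2 + j * Real.pi))
    (fun t => by
      have h1 : HasDerivAt (fun s => ((Λ s x).1, (Λ s x).2 + j * Real.pi)) (LF v κ (Λ t x)) t :=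
        (hΛ.deriv x t).fst.prodMk ((hΛ.deriv x t).snd.add_const _)
      rw [lb_LF hR hκ (leaf_mem hR hκ hΛ hx t) j, hj.neg_one_zpow, one_smul]
      exact h1) s
  simp only [hΛ.zero] at h
  exact h.symm

theorem leaf_odd (hR : Red v C U) (hκ : Curv v C κ) (hΛ : IsFlow (LF v κ) Λ)
    {x : (E n × ℝ) × ℝ} (hx : x ∈ PS v C) {j : ℤ} (hj : Odd j) (s : ℝ) :
    Λ s (x.1, x.2 + j * Real.pi) = ((Λ (-s) x).1, (Λ (-s) x).2 + j * Real.pi) := by
  have h := hΛ.unique (LF_contDiff hκ)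
    (γ := fun s => ((Λ (-s) x).1, (Λ (-s) x).2 + j * Real.pi))
    (fun t => by
      have h0 : HasDerivAt (fun s => ((Λ s x).1, (Λ s x).2 + j * Real.pi))
          (LF v κ (Λ (-t) x)) (-t) :=
        (hΛ.deriv x (-t)).fst.prodMk ((hΛ.deriv x (-t)).snd.add_const _)
      have h1 := h0.scomp t (hasDerivAt_neg t)
      rw [lb_LF hR hκ (leaf_mem hR hκ hΛ hx (-t)) j, hj.neg_one_zpow]
      exact h1) s
  simp only [hΛ.zero, neg_zero] at h
  exact h.symm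

end Pool.Agent.H2.TG
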