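import Pool.Agent.H2.TG.RegP

/-!
# The reduced hypersurface (module RedOf)

PROOF of `red_of`, field by field (`C = sig v '' S`).
* `ne`: `hL.ne`. `closed`: `isClosed_image`. `loc`: `exists_locEq`.
* `inv`: `sig v (tr g z) = ((sig v z).1 + g, (sig v z).2)` and `hL.inv`.
* `bdd`: `|⟪z.2, v⟫| ≤ ‖z.2‖ ‖v‖`, `hL.bdd`.
* `overU`: for `q ∈ U`: `(q, r) ∈ C` iff there is `p` with `(q, p) ∈ S`, `⟪p, v⟫ = r`, iff `r = ⟪0, v⟫ = 0`.
* `conn`: for `A, B` as in the definition put `C' = sig v ⁻¹' A`, `D' = sig v ⁻¹' B` and apply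
  `hC : ConnMod S` (`sig v` is continuous; `C' ∩ D' ∩ S = ∅` because the image of a point of it would be
  in `C ∩ A ∩ B`; invariance by `sig v (tr g z) = ((sig v z).1 + g, (sig v z).2)`).
-/

set_option autoImplicit false

open scoped ContDiff Topology RealInnerProductSpace
open Set

namespace Pool.Agent.H2.TG

open Pool.Agent.H57.NL

variable {n : ℕ} {S : Set (E n × E n)} {f : E n × E n → ℝ} {v : E n}

theorem red_of (hL : ExactLag n univ (lat n) S f) (hE : Embeds v S) (hC : ConnMod S)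
    {U : Set (E n)} (hU : IsOpen U) (hI : Inv U) (h0 : ∀ q ∈ U, ∀ p, (q, p) ∈ S ↔ p = 0) :
    Red v (sig v '' S) U := by
  have hcont : Continuous (sig v : E n × E n → E n × ℝ) := by
    unfold sig; fun_prop
  constructor
  · exact hL.ne.image _
  · exact isClosed_image hL
  · rintro g hg _ ⟨z, hz, rfl⟩
    exact ⟨tr g z, hL.inv g hg z hz, rfl⟩
  · obtain ⟨R, hR⟩ := hL.bdd
    refine ⟨R * ‖v‖, ?_⟩
    rintro _ ⟨z, hz, rfl⟩
    exact (abs_real_inner_le_norm _ _).trans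
      (mul_le_mul_of_nonneg_right (hR z hz) (norm_nonneg _))
  · exact fun x hx => exists_locEq hL hE hx
  · exact hU
  · exact hI
  · intro q hq r
    constructor
    · rintro ⟨z, hz, he⟩
      have h1 : z.1 = q := congrArg Prod.fst he
      have h2 : ⟪z.2, v⟫ = r := congrArg Prod.snd he
      have h3 : (q, z.2) ∈ S := by rw [← h1]; exact hz
      rw [(h0 q hq z.2).1 h3, inner_zero_left] at h2
      exact h2.symm
    · rintro rfl
      exact ⟨(q, 0), (h0 q hq 0).2 rfl, by simp [sig]⟩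
  · intro A B hA hB hAB hdis hiA hiB hne
    have key := hC (sig v ⁻¹' A) (sig v ⁻¹' B) (hA.preimage hcont) (hB.preimage hcont)
      (fun z hz => hAB ⟨z, hz, rfl⟩) ?_ (fun g hg z => hiA g hg (sig v z))
      (fun g hg z => hiB g hg (sig v z)) ?_
    · rintro _ ⟨z, hz, rfl⟩
      exact key hz
    · rw [Set.eq_empty_iff_forall_notMem]
      rintro z ⟨⟨hz, h1⟩, h2⟩
      have : sig v z ∈ sig v '' S ∩ A ∩ B := ⟨⟨⟨z, hz, rfl⟩, h1⟩, h2⟩
      rw [hdis] at this
      exact this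
    · obtain ⟨_, ⟨z, hz, rfl⟩, h1⟩ := hne
      exact ⟨z, hz, h1⟩

end Pool.Agent.H2.TG
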