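import Pool.Agent.H2.TG.Transl
import Pool.Agent.H2.TG.RedOf
import Pool.Agent.H2.TG.Line

/-!
# No caustics after the straightening (module NoCaus)

PROOF. Let `F z ∈ F '' S`, `z ∈ S`, `b ≠ 0`, `(0, b) ∈ Tan (F '' S) (F z)`. By `Tan_image` there is
`ζ ∈ Tan S z` with `DF(z) ζ = (0, b)`. By `Straight.vert`: `(ζ.1, ⟪ζ.2, v⟫) = c • XF v Θ 1 (sig v z)`. Let
`x = sig v z ∈ C = sig v '' S`, `W, u` a local equation at `x` (`exists_locEq`). A curve `γ` in `S` with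
velocity `ζ` at `z` is mapped by `sig v` to a curve in `C` with velocity `(ζ.1, ⟪ζ.2, v⟫)`, so
`Du(x)(ζ.1, ⟪ζ.2, v⟫) = 0` (`u = 0` along the curve). So `c * dplane v u x (- sin (Θ x)) (cos (Θ x)) = 0`
(`XF v Θ 1 x = (- sin (1 * Θ x) • v, cos (1 * Θ x))`). By hypothesis `(x, Θ x) ∈ PS`, so
`dplane v u x (cos (Θ x)) (sin (Θ x)) = 0`. If also `dplane v u x (- sin) (cos) = 0`, then `dplane v u x 1 0 = 0` and
`dplane v u x 0 1 = 0` (`dplane_lin`, rotation), contradicting `LocEq.reg`. So `c = 0`: `ζ.1 = 0`,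
`⟪ζ.2, v⟫ = 0`; by `hE.imm`, `ζ.2 = 0` (`(0, ζ.2) = ζ ∈ Tan S z`), so `ζ = 0`, `b = 0`: contradiction.
-/

set_option autoImplicit false

open scoped ContDiff Topology RealInnerProductSpace
open Set

namespace Pool.Agent.H2.TG

open Pool.Agent.H57.NL

variable {n : ℕ} {S : Set (E n × E n)} {f : E n × E n → ℝ} {v : E n} {Θ : E n × ℝ → ℝ}
  {F F' : E n × E n → E n × E n} {A : E n × ℝ → ℝ}

theorem no_caustic (hL : ExactLag n univ (lat n) S f) (hE : Embeds v S)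
    (hΘ : ∀ y ∈ sig v '' S, (y, Θ y) ∈ PS v (sig v '' S)) (hF : Straight v Θ F F' A) :
    ∀ z ∈ F '' S, ¬ Caustic (F '' S) z := by
  rintro _ ⟨z, hz, rfl⟩ ⟨b, hb, ht⟩
  obtain ⟨ζ, hζ, hζb⟩ := (Tan_image hF.smooth hF.smooth' hF.left hF.right).1 ht
  obtain ⟨c, hc⟩ := hF.vert z ζ (by rw [← hζb])
  have hx : sig v z ∈ sig v '' S := mem_image_of_mem _ hz
  obtain ⟨W, u, hxW, hW⟩ := exists_locEq hL hE hx
  -- the derivative of `u` along the image of `ζ`
  have hD : fderiv ℝ u (sig v z) (ζ.1, ⟪ζ.2, v⟫) = 0 := by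
    obtain ⟨γ, hγ0, hγS, hγ⟩ := hζ
    let L : E n × E n →L[ℝ] E n × ℝ := (ContinuousLinearMap.fst ℝ (E n) (E n)).prod
      ((innerSL ℝ v).comp (ContinuousLinearMap.snd ℝ (E n) (E n)))
    have hL' : ∀ w : E n × E n, L w = (w.1, ⟪w.2, v⟫) := by
      intro w
      show (w.1, ⟪v, w.2⟫) = (w.1, ⟪w.2, v⟫)
      rw [real_inner_comm]
    have h1 : HasDerivAt (fun s => L (γ s)) (L ζ) 0 := L.hasFDerivAt.comp_hasDerivAt 0 hγ
    have hx0 : L (γ 0) = sig v z := by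
      rw [hγ0, hL']
      rfl
    have h2 : HasFDerivAt u (fderiv ℝ u (sig v z)) (L (γ 0)) := by
      rw [hx0]
      exact ((hW.smooth.contDiffAt (hW.isOpen.mem_nhds hxW)).differentiableAt
        (by simp)).hasFDerivAt
    have h3 : HasDerivAt (fun s => u (L (γ s))) (fderiv ℝ u (sig v z) (L ζ)) 0 :=
      h2.comp_hasDerivAt 0 h1
    have h4 : ∀ᶠ s in 𝓝 (0 : ℝ), L (γ s) ∈ W := by
      have h5 : ContinuousAt (fun s => L (γ s)) 0 := h1.continuousAt
      have h8 : L (γ 0) ∈ W := by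
        rw [hx0]
        exact hxW
      exact h5 (hW.isOpen.mem_nhds h8)
    have h6 : (fun s => u (L (γ s))) =ᶠ[𝓝 0] fun _ => (0 : ℝ) := by
      filter_upwards [h4, hγS] with s hs hs'
      refine (hW.eqn _ hs).1 ⟨γ s, hs', ?_⟩
      rw [hL']
      rfl
    have h7 := h3.unique ((hasDerivAt_const (0 : ℝ) (0 : ℝ)).congr_of_eventuallyEq h6)
    rwa [hL'] at h7
  have hP : dplane v u (sig v z) (Real.cos (Θ (sig v z))) (Real.sin (Θ (sig v z))) = 0 :=
    (hΘ _ hx).2 W u hxW hW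
  have hc0 : c = 0 := by
    by_contra hc0
    have h1 : dplane v u (sig v z) (-Real.sin (Θ (sig v z))) (Real.cos (Θ (sig v z))) = 0 := by
      rw [hc, map_smul, smul_eq_mul] at hD
      have h2 := (mul_eq_zero.1 hD).resolve_left hc0
      unfold XF at h2
      rw [one_mul] at h2
      exact h2
    rw [dplane_lin] at h1 hP
    have h3 := Real.sin_sq_add_cos_sq (Θ (sig v z))
    refine hW.reg _ hxW ⟨?_, ?_⟩
    · linear_combination Real.cos (Θ (sig v z)) * hP - Real.sin (Θ (sig v z)) * h1 -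
        dplane v u (sig v z) 1 0 * h3
    · linear_combination Real.sin (Θ (sig v z)) * hP + Real.cos (Θ (sig v z)) * h1 -
        dplane v u (sig v z) 0 1 * h3
  rw [hc0, zero_smul] at hc
  have h1 : ζ.1 = 0 := congrArg Prod.fst hc
  have h2 : ⟪ζ.2, v⟫ = 0 := congrArg Prod.snd hc
  have h3 : ζ.2 = 0 := hE.imm z hz ζ.2 (by rw [← h1]; exact hζ) h2
  have h4 : ζ = 0 := Prod.ext h1 h3
  rw [h4, map_zero] at hζb
  exact hb (congrArg Prod.snd hζb)

end Pool.Agent.H2.TG
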