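import Pool.Agent.H2.TG.Tor
import Pool.Agent.H57.NL.MaxPair
import Pool.Agent.H57.NL.Loc

/-!
# One transversal fibre gives a section over a ball (module Sect)

PROOF. `local_section` (in `H57/NL/Loc.lean`, with `N = univ`, `submfd_univ`, `TN_univ`) at
`z0 = (q0, p0)` gives `σ : E n → E n × E n`, smooth near `q0`, with `σ q ∈ S`, `(σ q).1 = q` for `q` near
`q0` and `σ z.1 = z` for the points `z ∈ S` near `z0`. Claim: for `q` near `q0` every `(q, p) ∈ S` is
near `z0`. Otherwise there are `(q_k, p_k) ∈ S`, `q_k → q0`, `(q_k, p_k)` outside a fixed neighbourhood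
of `z0`; `p_k` is bounded (`hL.bdd`), a subsequence converges to `(q0, p) ∈ S` (closed), so `p = p0`,
contradiction. Hence for `q` near `q0`: `(q, p) ∈ S ↔ p = (σ q).2`. Put `s q = (σ q).2`.
Smoothness: `∀ᶠ q, ContDiffAt ℝ ∞ σ q`, shrink the ball.

`exists_G`: let `g q = f (q, s q)` on the ball `B(q0, δ)`. By `hL.prim` at `(q, s q)` and
differentiability of `s`, `g` is differentiable with `Dg(q) w = ⟪s q, w⟫` (compose the little-o in
`IsPrimitive` with the differentiable curve/section: `HasFDerivWithinAt f (liou z) S z`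
(`ExactLag.exact`) and `HasFDerivAt.comp`), so `g` is smooth on the ball (its derivative is the smooth
map `q ↦ ⟪s q, ·⟫`). WLOG `δ < 1/4`. Take a smooth bump `χ = 1` on `B(q0, δ/2)`, support in
`closedBall q0 (3δ/4)`. `h = χ • g` (zero outside) is smooth on `E n` with support in the ball of radius
`3δ/4 < 1/2`. The translates of the ball by different elements of the lattice are disjoint (two
different lattice points have distance `≥ 1`). `G q = ∑ᶠ g ∈ lat, h (q + g)` is smooth (locally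
finite sum), invariant, equal to `h = g` on `B(q0, δ/2)`. (Alternatively use `exists_avg` for `P = Unit`
or `ℝ`: not the right normalisation; or: `G q = h (q + g)` if some translate is in the ball, `0`
otherwise: smooth because locally it is one of the two.)
-/

set_option autoImplicit false

open scoped ContDiff Topology RealInnerProductSpace
open Set

namespace Pool.Agent.H2.TG

open Pool.Agent.H57.NL

variable {n : ℕ} {S : Set (E n × E n)} {f : E n × E n → ℝ}

theorem exists_section (hL : ExactLag n univ (lat n) S f) {q0 p0 : E n}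
    (h0 : ∀ p, (q0, p) ∈ S ↔ p = p0) (hc : ¬ Caustic S (q0, p0)) :
    ∃ (δ : ℝ) (s : E n → E n), 0 < δ ∧ ContDiffOn ℝ ∞ s (Metric.ball q0 δ) ∧
      ∀ q ∈ Metric.ball q0 δ, ∀ p, (q, p) ∈ S ↔ p = s q := by
  have hz0 : (q0, p0) ∈ S := (h0 p0).2 rfl
  obtain ⟨σ, hσ0, hσd, hσS, hσz⟩ := local_section submfd_univ hL.sub hL.subTN hz0 hc
  obtain ⟨R, hR⟩ := hL.bdd
  have hclaim : ∀ᶠ q in 𝓝 q0, ∀ p ∈ Metric.closedBall (0 : E n) R,
      ((q, p) ∈ S → σ q = (q, p)) := by
    refine (isCompact_closedBall (0 : E n) R).eventually_forall_of_forall_eventually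
      (P := fun q p => (q, p) ∈ S → σ q = (q, p)) ?_
    intro p _
    by_cases hp : p = p0
    · subst hp
      exact hσz
    · have hnot : (q0, p) ∈ Sᶜ := fun hmem => hp ((h0 p).1 hmem)
      filter_upwards [hL.closed.isOpen_compl.mem_nhds hnot] with z hz hzS
      exact absurd hzS hz
  obtain ⟨δ, hδ, hball⟩ := Metric.eventually_nhds_iff_ball.1
    ((hσd.and hσS).and hclaim)
  refine ⟨δ, fun q => (σ q).2, hδ, ?_, ?_⟩
  · intro q hq
    exact ((hball q hq).1.1.snd).contDiffWithinAt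
  · intro q hq p
    obtain ⟨⟨_, h2⟩, h3⟩ := hball q hq
    obtain ⟨h4, h5⟩ := h2 (mem_univ q)
    constructor
    · intro hmem
      have hpR : p ∈ Metric.closedBall (0 : E n) R := by
        rw [mem_closedBall_zero_iff]
        exact hR (q, p) hmem
      have h6 := h3 p hpR hmem
      change p = (σ q).2
      rw [h6]
    · intro hp
      change p = (σ q).2 at hp
      have h6 : (q, p) = σ q := Prod.ext h5.symm hp
      rw [h6]
      exact h4

/-! ## Periodisation -/

private theorem sect_lat_norm {g : E n} (hg : g ∈ lat n) (h1 : ‖g‖ < 1) : g = 0 := by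
  ext i
  obtain ⟨k, hk⟩ := hg i
  have h2 : |g i| ≤ ‖g‖ := by
    have := PiLp.norm_apply_le g i
    rwa [Real.norm_eq_abs] at this
  have h3 : |(k : ℝ)| < 1 := by
    rw [← hk]
    exact lt_of_le_of_lt h2 h1
  have h4 : |k| < 1 := by exact_mod_cast h3
  have h5 : k = 0 := Int.abs_lt_one_iff.1 h4
  rw [hk, h5]
  simp

private theorem sect_lat_unique {q0 q g g' : E n} (hg : g ∈ lat n) (hg' : g' ∈ lat n)
    (h1 : q + g ∈ Metric.ball q0 (1 / 2)) (h2 : q + g' ∈ Metric.ball q0 (1 / 2)) : g = g' := by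
  have h3 : ‖g - g'‖ < 1 := by
    have e : g - g' = (q + g - q0) - (q + g' - q0) := by abel
    rw [e]
    rw [mem_ball_iff_norm] at h1 h2
    calc ‖(q + g - q0) - (q + g' - q0)‖ ≤ ‖q + g - q0‖ + ‖q + g' - q0‖ := norm_sub_le _ _
      _ < 1 / 2 + 1 / 2 := add_lt_add h1 h2
      _ = 1 := by norm_num
  have h4 := sect_lat_norm ((lat n).sub_mem hg hg') h3
  exact sub_eq_zero.1 h4

open Classical in
private noncomputable def sectPer (h : E n → ℝ) (q0 : E n) (q : E n) : ℝ :=
  if hq : ∃ g, g ∈ lat n ∧ q + g ∈ Metric.ball q0 (1 / 2) then h (q + hq.choose) else 0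

private theorem sectPer_in {h : E n → ℝ} {q0 q g : E n} (hg : g ∈ lat n)
    (h1 : q + g ∈ Metric.ball q0 (1 / 2)) : sectPer h q0 q = h (q + g) := by
  have hq : ∃ g, g ∈ lat n ∧ q + g ∈ Metric.ball q0 (1 / 2) := ⟨g, hg, h1⟩
  rw [sectPer, dif_pos hq]
  rw [sect_lat_unique hq.choose_spec.1 hg hq.choose_spec.2 h1]

private theorem sectPer_out {h : E n → ℝ} {q0 q : E n} {ρ : ℝ}
    (hh : ∀ x, x ∉ Metric.ball q0 ρ → h x = 0)
    (h1 : ∀ g ∈ lat n, q + g ∉ Metric.ball q0 ρ) : sectPer h q0 q = 0 := by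
  by_cases hq : ∃ g, g ∈ lat n ∧ q + g ∈ Metric.ball q0 (1 / 2)
  · rw [sectPer, dif_pos hq]
    exact hh _ (h1 _ hq.choose_spec.1)
  · rw [sectPer, dif_neg hq]

private theorem sectPer_inv (h : E n → ℝ) (q0 : E n) {g : E n} (hg : g ∈ lat n) (q : E n) :
    sectPer h q0 (q + g) = sectPer h q0 q := by
  by_cases hq : ∃ g', g' ∈ lat n ∧ q + g' ∈ Metric.ball q0 (1 / 2)
  · obtain ⟨g', hg', h1⟩ := hq
    have h2 : q + g + (g' - g) ∈ Metric.ball q0 (1 / 2) := by
      have e : q + g + (g' - g) = q + g' := by abel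
      rwa [e]
    rw [sectPer_in hg' h1, sectPer_in ((lat n).sub_mem hg' hg) h2]
    congr 1
    abel
  · have hq2 : ¬ ∃ g', g' ∈ lat n ∧ q + g + g' ∈ Metric.ball q0 (1 / 2) := by
      rintro ⟨g', hg', h1⟩
      apply hq
      refine ⟨g + g', (lat n).add_mem hg hg', ?_⟩
      rwa [← add_assoc]
    rw [sectPer, sectPer, dif_neg hq, dif_neg hq2]

private theorem sectPer_smooth {h : E n → ℝ} {q0 : E n} (hsm : ContDiff ℝ ∞ h)
    (hh : ∀ x, x ∉ Metric.ball q0 (1 / 4) → h x = 0) : ContDiff ℝ ∞ (sectPer h q0) := by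
  rw [contDiff_iff_contDiffAt]
  intro q1
  by_cases hq : ∃ g, g ∈ lat n ∧ q1 + g ∈ Metric.ball q0 (1 / 2)
  · obtain ⟨g, hg, h1⟩ := hq
    have hsm' : ContDiff ℝ ∞ (fun q : E n => h (q + g)) :=
      hsm.comp (contDiff_id.add contDiff_const)
    refine hsm'.contDiffAt.congr_of_eventuallyEq ?_
    have hcont : Continuous (fun q : E n => q + g) := by fun_prop
    have hev : ∀ᶠ q in 𝓝 q1, q + g ∈ Metric.ball q0 (1 / 2) :=
      hcont.continuousAt.eventually (Metric.isOpen_ball.mem_nhds h1)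
    filter_upwards [hev] with q hq'
    exact sectPer_in hg hq'
  · refine (contDiff_const (c := (0 : ℝ))).contDiffAt.congr_of_eventuallyEq ?_
    filter_upwards [Metric.ball_mem_nhds q1 (show (0 : ℝ) < 1 / 8 by norm_num)] with q hq'
    refine sectPer_out hh ?_
    intro g hg hmem
    apply hq
    refine ⟨g, hg, ?_⟩
    rw [mem_ball_iff_norm] at hq' hmem ⊢
    have e : q1 + g - q0 = (q + g - q0) - (q - q1) := by abel
    rw [e]
    calc ‖(q + g - q0) - (q - q1)‖ ≤ ‖q + g - q0‖ + ‖q - q1‖ := norm_sub_le _ _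
      _ < 1 / 4 + 1 / 8 := add_lt_add hmem hq'
      _ < 1 / 2 := by norm_num

/-- The local primitive. -/
private theorem sect_prim (hL : ExactLag n univ (lat n) S f) {q0 : E n} {δ : ℝ} {s : E n → E n}
    (hs : ContDiffOn ℝ ∞ s (Metric.ball q0 δ))
    (hS : ∀ q ∈ Metric.ball q0 δ, ∀ p, (q, p) ∈ S ↔ p = s q) :
    (∀ q ∈ Metric.ball q0 δ, HasFDerivAt (fun q => f (q, s q)) (innerSL ℝ (s q)) q) ∧
      ContDiffOn ℝ ∞ (fun q => f (q, s q)) (Metric.ball q0 δ) := by
  have hd : ∀ q ∈ Metric.ball q0 δ,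
      HasFDerivAt (fun q => f (q, s q)) (innerSL ℝ (s q)) q := by
    intro q hq
    have hqS : (q, s q) ∈ S := (hS q hq (s q)).2 rfl
    have h1 : HasFDerivWithinAt f (liou (q, s q)) S (q, s q) := hL.exact _ hqS
    have h2 : HasFDerivWithinAt s (fderivWithin ℝ s (Metric.ball q0 δ) q)
        (Metric.ball q0 δ) q :=
      ((hs q hq).differentiableWithinAt (by simp)).hasFDerivWithinAt
    have h3 := (hasFDerivWithinAt_id (𝕜 := ℝ) q (Metric.ball q0 δ)).prodMk h2
    have h4 := HasFDerivWithinAt.comp (g := f) (f := fun q => (q, s q)) q h1 h3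
      (fun x hx => (hS x hx (s x)).2 rfl)
    have h5 := h4.hasFDerivAt (Metric.isOpen_ball.mem_nhds hq)
    have e : (liou (q, s q)).comp ((ContinuousLinearMap.id ℝ (E n)).prod
        (fderivWithin ℝ s (Metric.ball q0 δ) q)) = innerSL ℝ (s q) := by
      ext w
      rfl
    rw [e] at h5
    exact h5
  refine ⟨hd, ?_⟩
  rw [contDiffOn_infty_iff_fderiv_of_isOpen Metric.isOpen_ball]
  refine ⟨fun q hq => (hd q hq).differentiableAt.differentiableWithinAt, ?_⟩
  have h6 : ContDiffOn ℝ ∞ (fun q => innerSL ℝ (s q)) (Metric.ball q0 δ) :=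
    (innerSL ℝ).contDiff.comp_contDiffOn hs
  exact h6.congr fun q hq => (hd q hq).fderiv

/-- A smooth periodic function whose differential is `S` over a small ball. -/
theorem exists_G (hL : ExactLag n univ (lat n) S f) {q0 p0 : E n}
    (h0 : ∀ p, (q0, p) ∈ S ↔ p = p0) (hc : ¬ Caustic S (q0, p0)) :
    ∃ (δ : ℝ) (G : E n → ℝ) (s : E n → E n), 0 < δ ∧ ContDiff ℝ ∞ G ∧ ContDiff ℝ ∞ s ∧
      (∀ g ∈ lat n, ∀ q, G (q + g) = G q) ∧ (∀ g ∈ lat n, ∀ q, s (q + g) = s q) ∧
      (∀ q w, fderiv ℝ G q w = ⟪s q, w⟫) ∧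
      ∀ q ∈ Metric.ball q0 δ, ∀ p, (q, p) ∈ S ↔ p = s q := by
  obtain ⟨δ1, s1, hδ1, hs1, hS1⟩ := exists_section hL h0 hc
  -- shrink the ball
  obtain ⟨δ, hδ, hδle, hδ4⟩ : ∃ δ : ℝ, 0 < δ ∧ δ ≤ δ1 ∧ δ ≤ 1 / 4 :=
    ⟨min δ1 (1 / 4), lt_min hδ1 (by norm_num), min_le_left _ _, min_le_right _ _⟩
  have hsub : Metric.ball q0 δ ⊆ Metric.ball q0 δ1 := Metric.ball_subset_ball hδle
  have hs : ContDiffOn ℝ ∞ s1 (Metric.ball q0 δ) := hs1.mono hsub
  have hS : ∀ q ∈ Metric.ball q0 δ, ∀ p, (q, p) ∈ S ↔ p = s1 q :=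
    fun q hq => hS1 q (hsub hq)
  obtain ⟨hgd, hgs⟩ := sect_prim hL hs hS
  set g : E n → ℝ := fun q => f (q, s1 q) with hg
  let χ : ContDiffBump q0 := ⟨δ / 2, 3 * δ / 4, by positivity, by linarith⟩
  have hχ1 : ∀ x ∈ Metric.closedBall q0 (δ / 2), χ x = 1 := fun x hx => χ.one_of_mem_closedBall hx
  have hχ0 : ∀ x, x ∉ Metric.ball q0 (3 * δ / 4) → χ x = 0 := by
    intro x hx
    apply χ.zero_of_le_dist
    rw [Metric.mem_ball, not_lt] at hx
    exact hx
  let h : E n → ℝ := fun q => χ q * g q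
  have hh0 : ∀ x, x ∉ Metric.ball q0 (1 / 4) → h x = 0 := by
    intro x hx
    have hx' : x ∉ Metric.ball q0 (3 * δ / 4) := fun hmem =>
      hx (Metric.ball_subset_ball (by linarith) hmem)
    change χ x * g x = 0
    rw [hχ0 x hx', zero_mul]
  have hhs : ContDiff ℝ ∞ h := by
    rw [contDiff_iff_contDiffAt]
    intro q
    by_cases hq : q ∈ Metric.ball q0 δ
    · exact χ.contDiff.contDiffAt.mul (hgs.contDiffAt (Metric.isOpen_ball.mem_nhds hq))
    · refine (contDiff_const (c := (0 : ℝ))).contDiffAt.congr_of_eventuallyEq ?_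
      have hqc : q ∈ (Metric.closedBall q0 (3 * δ / 4))ᶜ := by
        intro hmem
        apply hq
        rw [Metric.mem_closedBall] at hmem
        rw [Metric.mem_ball]
        linarith
      filter_upwards [Metric.isClosed_closedBall.isOpen_compl.mem_nhds hqc] with x hx
      have hx' : x ∉ Metric.ball q0 (3 * δ / 4) := fun hmem =>
        hx (Metric.ball_subset_closedBall hmem)
      change χ x * g x = 0
      rw [hχ0 x hx', zero_mul]
  have hGs : ContDiff ℝ ∞ (sectPer h q0) := sectPer_smooth hhs hh0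
  have hfd : ContDiff ℝ ∞ (fderiv ℝ (sectPer h q0)) := (contDiff_infty_iff_fderiv.1 hGs).2
  refine ⟨δ / 2, sectPer h q0,
    fun q => (InnerProductSpace.toDual ℝ (E n)).symm (fderiv ℝ (sectPer h q0) q),
    by positivity, hGs, ?_, fun g' hg' q => sectPer_inv h q0 hg' q, ?_, ?_, ?_⟩
  · exact (InnerProductSpace.toDual ℝ (E n)).symm.toContinuousLinearEquiv.contDiff.comp hfd
  · intro g' hg' q
    have e1 : (fun x => sectPer h q0 (x + g')) = sectPer h q0 :=
      funext fun x => sectPer_inv h q0 hg' x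
    have e2 : fderiv ℝ (sectPer h q0) (q + g') = fderiv ℝ (sectPer h q0) q := by
      rw [← fderiv_comp_add_right, e1]
    change (InnerProductSpace.toDual ℝ (E n)).symm (fderiv ℝ (sectPer h q0) (q + g')) = _
    rw [e2]
  · intro q w
    exact (InnerProductSpace.toDual_symm_apply).symm
  · intro q hq p
    have hq' : q ∈ Metric.ball q0 δ := Metric.ball_subset_ball (by linarith) hq
    have hev : sectPer h q0 =ᶠ[𝓝 q] g := by
      filter_upwards [Metric.isOpen_ball.mem_nhds hq] with x hx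
      have hx2 : x + 0 ∈ Metric.ball q0 (1 / 2) := by
        rw [add_zero]
        exact Metric.ball_subset_ball (by linarith) hx
      rw [sectPer_in (lat n).zero_mem hx2, add_zero]
      change χ x * g x = g x
      rw [hχ1 x (Metric.ball_subset_closedBall hx), one_mul]
    have e3 : fderiv ℝ (sectPer h q0) q = innerSL ℝ (s1 q) := by
      rw [hev.fderiv_eq]
      exact (hgd q hq').fderiv
    have e4 : (InnerProductSpace.toDual ℝ (E n)).symm (fderiv ℝ (sectPer h q0) q) = s1 q := by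
      rw [e3, LinearIsometryEquiv.symm_apply_eq]
      ext w
      simp
    change (q, p) ∈ S ↔
      p = (InnerProductSpace.toDual ℝ (E n)).symm (fderiv ℝ (sectPer h q0) q)
    rw [e4]
    exact hS q hq' p

end Pool.Agent.H2.TG
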