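import Pool.Agent.H2.TG.Comp
import Pool.Agent.H2.TG.EmbOpen
import Pool.Agent.H2.TG.Sect
import Pool.Agent.H2.TG.Kron
import Pool.Agent.H2.TG.Lag
import Pool.Agent.H2.TG.NoCaus
import Pool.Agent.H2.TG.LMain
import Pool.Agent.H2.TG.FMain
import Pool.Agent.H57.NL.Graph

/-!
# The main theorem
-/

set_option autoImplicit false

open scoped ContDiff Topology RealInnerProductSpace
open Set

namespace Pool.Agent.H2.TG

open Pool.Agent.H57.NL

variable {n : ℕ} {S : Set (E n × E n)} {f : E n × E n → ℝ} {v : E n}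

/-- The case where `S` is the zero section over an open set met by all the rays. -/
theorem main_zero (hL : ExactLag n univ (lat n) S f) (hE : Embeds v S) (hC : ConnMod S)
    (hv : ‖v‖ = 1) {T : ℝ} (hT : 0 < T) {U U₂ : Set (E n)} (hU : IsOpen U) (hI : Inv U)
    (h2 : IsOpen U₂) (hi2 : Inv U₂) (hcl : closure U₂ ⊆ U) (hr : Rays v U₂ T)
    (h0 : ∀ q ∈ U, ∀ p, (q, p) ∈ S ↔ p = 0) :
    ∃ ψ ψ', SympDiffeo univ (lat n) ψ ψ' ∧ ψ '' {z | z.2 = 0} = S := by
  have hR := red_of hL hE hC hU hI h0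
  obtain ⟨Θ, M, hP, hΘ⟩ := theta_of_red hR hv hT h2 hi2 hcl hr
  obtain ⟨F, F', A, hF⟩ := exists_straight hP
  have hno := no_caustic hL hE hΘ hF
  obtain ⟨f', hL'⟩ := straight_lag hF hL
  obtain ⟨hinj, hno'⟩ := injective_of_no_extremal closedMfd hL' (fun z hz hc => (hno z hz hc).elim)
  obtain ⟨u, s, ψ, ψ', hg⟩ := graph_of_injective closedMfd hL' hinj hno'
  refine ⟨F' ∘ ψ, ψ' ∘ F, sympDiffeo_comp hg.diffeo (straight_symp hF), ?_⟩
  have h1 : ψ '' {z | z.2 = 0} = F '' S := by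
    rw [← hg.image]
    congr 1
    ext z
    simp
  rw [image_comp, h1, ← image_comp]
  have h2 : F' ∘ F = id := funext hF.left
  rw [h2, image_id]

theorem inv_ball (q0 : E n) (δ : ℝ) : Inv {q : E n | ∃ g ∈ lat n, q + g ∈ Metric.ball q0 δ} := by
  rintro g hg q ⟨g', hg', hq⟩
  refine ⟨g' - g, (lat n).sub_mem hg' hg, ?_⟩
  have : q + g + (g' - g) = q + g' := by abel
  rwa [this]

theorem isOpen_ball (q0 : E n) (δ : ℝ) :
    IsOpen {q : E n | ∃ g ∈ lat n, q + g ∈ Metric.ball q0 δ} := by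
  have : {q : E n | ∃ g ∈ lat n, q + g ∈ Metric.ball q0 δ} =
      ⋃ g ∈ lat n, (fun q => q + g) ⁻¹' Metric.ball q0 δ := by
    ext q
    simp
  rw [this]
  exact isOpen_biUnion fun g _ => Metric.isOpen_ball.preimage (by fun_prop)

theorem closure_ball {q0 : E n} {δ : ℝ} (hδ : 0 < δ) :
    closure {q : E n | ∃ g ∈ lat n, q + g ∈ Metric.ball q0 (δ / 2)} ⊆
      {q : E n | ∃ g ∈ lat n, q + g ∈ Metric.ball q0 δ} := by
  intro q hq
  obtain ⟨y, ⟨g, hg, hy⟩, hyq⟩ := Metric.mem_closure_iff.1 hq (δ / 2) (by positivity)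
  refine ⟨g, hg, ?_⟩
  rw [Metric.mem_ball] at hy ⊢
  calc dist (q + g) q0 ≤ dist (q + g) (y + g) + dist (y + g) q0 := dist_triangle _ _ _
    _ < δ / 2 + δ / 2 := by
        apply add_lt_add _ hy
        rwa [dist_add_right]
    _ = δ := by ring

theorem main (hn : 0 < n) (hL : ExactLag n univ (lat n) S f) (hC : ConnMod S) (hE : Embeds v S)
    {q0 p0 : E n} (h0 : ∀ p, (q0, p) ∈ S ↔ p = p0) (hc : ¬ Caustic S (q0, p0)) :
    ∃ ψ ψ', SympDiffeo univ (lat n) ψ ψ' ∧ ψ '' {z | z.2 = 0} = S := by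
  obtain ⟨δ, G, s, hδ, hG, hs, hGi, hsi, hd, hsec⟩ := exists_G hL h0 hc
  obtain ⟨ε, hε, hopen⟩ := embeds_open hL hE
  obtain ⟨v', T, hv', hne, hT, hr⟩ := exists_direction hn v q0 hε (half_pos hδ)
  have hE' : Embeds v' S := hopen v' hv'
  have hnorm : 0 < ‖v'‖ := norm_pos_iff.2 hne
  have hE'' : Embeds (‖v'‖⁻¹ • v') S := hE'.smul (by positivity)
  have hw : ‖‖v'‖⁻¹ • v'‖ = 1 := by
    rw [norm_smul, norm_inv, norm_norm]
    field_simp
  have hr' : Rays (‖v'‖⁻¹ • v') {q | ∃ g ∈ lat n, q + g ∈ Metric.ball q0 (δ / 2)}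
      (T * ‖v'‖) := by
    intro q
    obtain ⟨⟨t, h1, h2, h3⟩, ⟨t', h1', h2', h3'⟩⟩ := hr q
    refine ⟨⟨t * ‖v'‖, by positivity, by gcongr, ?_⟩, ⟨t' * ‖v'‖, by positivity, by gcongr, ?_⟩⟩
    · have : (t * ‖v'‖) • (‖v'‖⁻¹ • v') = t • v' := by
        rw [smul_smul]
        congr 1
        field_simp
      rw [this]
      exact h3
    · have : (t' * ‖v'‖) • (‖v'‖⁻¹ • v') = t' • v' := by
        rw [smul_smul]
        congr 1
        field_simp
      rw [this]
      exact h3'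
  obtain ⟨f₁, hL₁⟩ := exactLag_shift hL hG hs hGi hsi hd
  have hE₁ := embeds_shift hE'' hs
  have hC₁ := conn_shift hC hs hsi
  have h0' : ∀ q ∈ {q : E n | ∃ g ∈ lat n, q + g ∈ Metric.ball q0 δ}, ∀ p,
      (q, p) ∈ shift (-s) '' S ↔ p = 0 := by
    rintro q ⟨g, hg, hq⟩ p
    have h1 : (q, p) ∈ shift (-s) '' S ↔ (q, p + s q) ∈ S := by
      constructor
      · rintro ⟨z, hz, hzq⟩
        have e1 : z.1 = q := congrArg Prod.fst hzq
        have e2 : z.2 - s z.1 = p := by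
          have := congrArg Prod.snd hzq
          simpa [shift, sub_eq_add_neg] using this
        have : z = (q, p + s q) := by
          apply Prod.ext e1
          rw [← e2, e1]
          simp
        rwa [← this]
      · intro h
        exact ⟨_, h, by simp [shift]⟩
    have h2 : (q, p + s q) ∈ S ↔ (q + g, p + s q) ∈ S := by
      constructor
      · exact fun h => hL.inv g hg _ h
      · intro h
        have := hL.inv (-g) ((lat n).neg_mem hg) _ h
        simpa [tr] using this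
    rw [h1, h2, hsec _ hq, hsi g hg]
    simp
  obtain ⟨ψ, ψ', hψ, him⟩ := main_zero hL₁ hE₁ hC₁ hw (mul_pos hT hnorm) (isOpen_ball q0 δ)
    (inv_ball q0 δ) (isOpen_ball q0 (δ / 2)) (inv_ball q0 (δ / 2)) (closure_ball hδ) hr' h0'
  refine ⟨shift s ∘ ψ, ψ' ∘ shift (-s), sympDiffeo_comp hψ (sympDiffeo_shift hG hs hsi hd), ?_⟩
  rw [image_comp, him, ← image_comp]
  have h2 : shift s ∘ shift (-s) = id := by
    funext z
    simp [shift]
  rw [h2, image_id]

end Pool.Agent.H2.TG
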