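import Pool.Agent.H2.TG.Bot
import Pool.Agent.H2.TG.Tor

/-!
# Orbits of good flows do not return near their starting point (module NoRet)

PROOFS. `Θ_lip`: `DΘ` is bounded: it vanishes for `|r| > M` (and `≥ M` by continuity of the derivative or just use
the compact set `|r| ≤ M + 1`), it is invariant under the lattice, and `{x | ‖x.1‖ ≤ R, |x.2| ≤ M + 1}` is
compact (`lat_cocpt`); so `Θ` is Lipschitz with some constant `L > 0` (convexity of the space).
`noret`: put `ε = 1 / (100 (L + 1))` (and `≤ 1/100`). So if `‖y - x‖ ≤ 20 ε` then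
`|s Θ y - s Θ x| ≤ 20 ε L ≤ 1/5` for `0 ≤ s ≤ 1`.
It is enough to treat `t ≥ 1` (for `t ≤ -1` exchange `x` and `Ψ t x`: `Ψ (-t) (Ψ t x) = x`). Suppose
`‖y - x‖ < ε`, `y = Ψ t x`, `t ≥ 1`. Let `φ = s Θ x`. In the plane of `x` use the coordinates
`a = tc v x.1 (·).1`, `r`; the field at `w` is `(- sin (s Θ w), cos (s Θ w))`. Let
`ℓ w = - sin φ * (a w) + cos φ * (w.2 - x.2)` (component along the field at `x`). Along the orbit of `y`,
`d/dσ ℓ (Ψ σ y) = sin φ sin (s Θ) + cos φ cos (s Θ) = cos (s Θ (Ψ σ y) - φ) ≥ 1/2` as long as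
`‖Ψ σ y - x‖ ≤ 20 ε`, in particular for `|σ| ≤ 10 ε` (`x_norm`). `|ℓ y| ≤ 2 ε`; so by the intermediate value
theorem there is `|σ| ≤ 4 ε` (`< 1/2`) with `ℓ (Ψ σ y) = 0`. Let `z = Ψ σ y = Ψ (t + σ) x`, `t + σ > 0`,
`‖z - x‖ ≤ 5 ε`, and `z = x + λ • (cos φ • v, sin φ)` with a real `λ` (from `ℓ z = 0` and `x_line`).
If `λ = 0`: `z = x`, the orbit is periodic with period `t + σ > 0`: `Ψ (k (t + σ)) x = x` for all natural `k`;
by `low` (with `R = x.2`), `x.2 ≤ -M` and `high` gives `M ≤ x.2`: contradiction (`0 < M`).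
If `λ ≠ 0`: let `B` be the bottom map (`exists_bot`), `b w = tc v x.1 (B w)`; `b z = b x` (`inv`). The function
`h μ = b (x + μ • λ • (cos φ • v, sin φ))`, `0 ≤ μ ≤ 1`, has `h 0 = h 1`, so by Rolle (`exists_deriv_eq_zero`)
`h' μ = 0` for some `μ`: `⟪DB(w) e, v⟫ = 0`, `e = (cos φ • v, sin φ)`, `‖w - x‖ ≤ 5 ε`. Since `B w - x.1` is a
multiple of `v` for all `w` in the plane (`line`), `DB(w) e` is a multiple of `v`, so `DB(w) e = 0`. By `ker`,
`e = c • XF v Θ s w`, i.e. `(cos φ, sin φ) = c (- sin ψ, cos ψ)`, `ψ = s Θ w`, `|ψ - φ| ≤ 1/5`: then (multiply by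
`(cos ψ, sin ψ)`) `cos (φ - ψ) = 0`, contradiction (`cos (1/5) > 0`).
-/

set_option autoImplicit false

open scoped ContDiff Topology RealInnerProductSpace
open Set

namespace Pool.Agent.H2.TG

open Pool.Agent.H57.NL

variable {n : ℕ} {v : E n} {Θ : E n × ℝ → ℝ} {U : Set (E n)} {M T : ℝ}

theorem theta_lip (hP : Phase v Θ U M T) : ∃ L : ℝ, 0 < L ∧ ∀ x y, |Θ x - Θ y| ≤ L * ‖x - y‖ := by
  obtain ⟨R, hR⟩ := lat_cocpt (n := n)
  have hd : Differentiable ℝ Θ := hP.smooth.differentiable (by simp)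
  have hc : Continuous (fderiv ℝ Θ) := hP.smooth.continuous_fderiv (by simp)
  have hK : IsCompact (Metric.closedBall (0 : E n) R ×ˢ Icc (-(M + 1)) (M + 1)) :=
    (isCompact_closedBall _ _).prod isCompact_Icc
  obtain ⟨L₀, hL₀⟩ := hK.exists_bound_of_continuousOn (f := fun x => fderiv ℝ Θ x) hc.continuousOn
  have hb : ∀ x, ‖fderiv ℝ Θ x‖ ≤ |L₀| + 1 := by
    intro x
    by_cases hx : |x.2| ≤ M + 1
    · obtain ⟨g, hg, hgR⟩ := hR x.1
      have h1 : (fun y : E n × ℝ => Θ (y + (g, 0))) = Θ := by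
        funext y
        have := hP.inv g hg y
        rw [← this]
        congr 1
        refine Prod.ext rfl ?_
        show y.2 + 0 = y.2
        ring
      have h2 : fderiv ℝ Θ (x + (g, 0)) = fderiv ℝ Θ x := by
        have h3 := fderiv_comp_add_right (𝕜 := ℝ) (f := Θ) (x := x) ((g, 0) : E n × ℝ)
        rw [h1] at h3
        exact h3.symm
      have h4 := hL₀ (x + (g, 0)) ⟨by
        rw [Metric.mem_closedBall, dist_zero_right]; exact hgR, by
        show -(M + 1) ≤ x.2 + 0 ∧ x.2 + 0 ≤ M + 1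
        rw [add_zero]
        exact abs_le.1 hx⟩
      rw [h2] at h4
      have := le_abs_self L₀
      linarith
    · push Not at hx
      have hev : Θ =ᶠ[𝓝 x] fun _ => (0 : ℝ) := by
        have ho : IsOpen {y : E n × ℝ | M < |y.2|} :=
          isOpen_lt continuous_const (continuous_abs.comp continuous_snd)
        filter_upwards [ho.mem_nhds (show M < |x.2| by linarith)] with y hy
        exact hP.supp y (le_of_lt hy)
      rw [hev.fderiv_eq]
      have := abs_nonneg L₀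
      simp
      positivity
  refine ⟨|L₀| + 1, by positivity, fun x y => ?_⟩
  have h := (convex_univ : Convex ℝ (univ : Set (E n × ℝ))).norm_image_sub_le_of_norm_fderiv_le
    (f := Θ) (fun z _ => hd z) (fun z _ => hb z) (mem_univ y) (mem_univ x)
  rw [Real.norm_eq_abs] at h
  exact h

private theorem NoRet_cos {a : ℝ} (ha : |a| ≤ 1 / 5) : (1 : ℝ) / 2 ≤ Real.cos a := by
  have h1 := Real.one_sub_sq_div_two_le_cos (x := a)
  have h2 : a ^ 2 ≤ 1 := by
    rw [← sq_abs]
    have := abs_nonneg a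
    nlinarith
  linarith

private theorem NoRet_iter {V : Type} [NormedAddCommGroup V] [NormedSpace ℝ V]
    [FiniteDimensional ℝ V] {X : V → V} {Ψ : ℝ → V → V} (hΨ : IsFlow X Ψ) (hX : ContDiff ℝ ∞ X)
    {t : ℝ} {x : V} (h : Ψ t x = x) (k : ℕ) : Ψ (k * t) x = x := by
  induction k with
  | zero => simp [hΨ.zero]
  | succ k ih =>
    have h1 : ((k + 1 : ℕ) : ℝ) * t = t + k * t := by push_cast; ring
    rw [h1, ← hΨ.add hX, ih, h]

private theorem NoRet_per (hP : Phase v Θ U M T) {s τ : ℝ} {Ψ : ℝ → E n × ℝ → E n × ℝ}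
    (hF : IsFlow (XF v Θ s) Ψ) (hτ : 0 < τ) (hG : GoodT M τ Ψ) {t : ℝ} (ht : 0 < t)
    {x : E n × ℝ} (h : Ψ t x = x) : False := by
  have hX := XF_contDiff hP s
  have hM := hP.hM
  obtain ⟨τ₁, _, h1⟩ := low hP hF hτ hG x.2
  obtain ⟨t₀, h2⟩ := high hP hF hτ hG x
  have hneg : Ψ (-t) x = x := by
    have h3 : Ψ (-t) (Ψ t x) = x := by
      rw [hF.add hX, neg_add_cancel, hF.zero]
    rw [h] at h3
    exact h3
  obtain ⟨k, hk⟩ := exists_nat_ge (max τ₁ t₀ / t)
  have hk' : max τ₁ t₀ ≤ k * t := (div_le_iff₀ ht).1 hk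
  have h4 := h1 x le_rfl (k * t) (le_trans (le_max_left _ _) hk')
  have h5 := h2 (k * t) (le_trans (le_max_right _ _) hk')
  rw [NoRet_iter hF hX h k] at h5
  have h6 : -(k * t) = k * (-t) := by ring
  rw [h6, NoRet_iter hF hX hneg k] at h4
  linarith

private theorem NoRet_core (hP : Phase v Θ U M T) {L ε s τ : ℝ} (hL : 0 < L)
    (hLip : ∀ x y, |Θ x - Θ y| ≤ L * ‖x - y‖) (hε0 : 0 < ε) (hε1 : ε ≤ 1 / 100)
    (hεL : L * ε ≤ 1 / 100) (hs0 : 0 ≤ s) (hs1 : s ≤ 1) {Ψ : ℝ → E n × ℝ → E n × ℝ}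
    (hF : IsFlow (XF v Θ s) Ψ) (hτ : 0 < τ) (hG : GoodT M τ Ψ) (x : E n × ℝ) (t : ℝ)
    (ht : 1 ≤ t) : ε ≤ ‖Ψ t x - x‖ := by
  have hX := XF_contDiff hP s
  have hM := hP.hM
  have hvv : ⟪v, v⟫ = (1 : ℝ) := by
    rw [real_inner_self_eq_norm_sq, hP.hv]; norm_num
  by_contra hlt
  push Not at hlt
  set y := Ψ t x with hy
  set φ := s * Θ x with hφ
  -- the phase is nearly constant near x
  have hph : ∀ w : E n × ℝ, ‖w - x‖ ≤ 20 * ε → |s * Θ w - φ| ≤ 1 / 5 := by
    intro w hw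
    have h1 := hLip w x
    rw [hφ, ← mul_sub, abs_mul, abs_of_nonneg hs0]
    have h2 : L * ‖w - x‖ ≤ L * (20 * ε) := mul_le_mul_of_nonneg_left hw hL.le
    have h3 : |Θ w - Θ x| ≤ 1 / 5 := by nlinarith
    have h4 := abs_nonneg (Θ w - Θ x)
    nlinarith
  -- the function ℓ along the orbit
  set f : ℝ → ℝ := fun σ => -Real.sin φ * tc v x.1 (Ψ σ y).1 + Real.cos φ * ((Ψ σ y).2 - x.2)
    with hf
  have hfd : ∀ σ, HasDerivAt f (Real.cos (s * Θ (Ψ σ y) - φ)) σ := by
    intro σ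
    have h1 := (x_tc hP hF x.1 y σ).const_mul (-Real.sin φ)
    have h2 := ((x_r hF y σ).sub_const x.2).const_mul (Real.cos φ)
    have h3 := h1.add h2
    have h4 : -Real.sin φ * -Real.sin (s * Θ (Ψ σ y)) + Real.cos φ * Real.cos (s * Θ (Ψ σ y))
        = Real.cos (s * Θ (Ψ σ y) - φ) := by
      rw [Real.cos_sub]; ring
    rw [← h4]
    exact h3
  have hnear : ∀ σ, |σ| ≤ 4 * ε → ‖Ψ σ y - x‖ ≤ 5 * ε := by
    intro σ hσ
    have h1 := x_norm hP hF y σ
    have h2 : Ψ σ y - x = (Ψ σ y - y) + (y - x) := by abel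
    rw [h2]
    refine (norm_add_le _ _).trans ?_
    linarith
  have hfd2 : ∀ σ, |σ| ≤ 4 * ε → (1 : ℝ) / 2 ≤ Real.cos (s * Θ (Ψ σ y) - φ) := by
    intro σ hσ
    exact NoRet_cos (hph _ ((hnear σ hσ).trans (by linarith)))
  have hf0 : |f 0| ≤ 2 * ε := by
    have h1 : |tc v x.1 y.1| ≤ ε := by
      unfold tc
      refine (abs_real_inner_le_norm _ _).trans ?_
      rw [hP.hv, mul_one]
      have : ‖y.1 - x.1‖ ≤ ‖y - x‖ := norm_fst_le (y - x)
      linarith
    have h2 : |y.2 - x.2| ≤ ε := by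
      have : ‖y.2 - x.2‖ ≤ ‖y - x‖ := norm_snd_le (y - x)
      rw [Real.norm_eq_abs] at this
      linarith
    have h3 : f 0 = -Real.sin φ * tc v x.1 y.1 + Real.cos φ * (y.2 - x.2) := by
      simp only [hf, hF.zero]
    rw [h3]
    refine (abs_add_le _ _).trans ?_
    rw [abs_mul, abs_mul, abs_neg]
    have h4 := Real.abs_sin_le_one φ
    have h5 := Real.abs_cos_le_one φ
    have h6 : |Real.sin φ| * |tc v x.1 y.1| ≤ 1 * ε :=
      mul_le_mul h4 h1 (abs_nonneg _) zero_le_one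
    have h7 : |Real.cos φ| * |y.2 - x.2| ≤ 1 * ε :=
      mul_le_mul h5 h2 (abs_nonneg _) zero_le_one
    linarith
  -- intermediate value
  have hmono : MonotoneOn (fun σ => f σ - σ / 2) (Icc (-(4 * ε)) (4 * ε)) := by
    have hder : ∀ σ, HasDerivAt (fun σ => f σ - σ / 2)
        (Real.cos (s * Θ (Ψ σ y) - φ) - 1 / 2) σ :=
      fun σ => (hfd σ).sub ((hasDerivAt_id σ).div_const 2)
    refine monotoneOn_of_deriv_nonneg (convex_Icc _ _)
      (fun σ _ => (hder σ).continuousAt.continuousWithinAt)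
      (fun σ _ => (hder σ).differentiableAt.differentiableWithinAt) ?_
    intro σ hσ
    rw [interior_Icc] at hσ
    rw [(hder σ).deriv]
    have := hfd2 σ (abs_le.2 ⟨hσ.1.le, hσ.2.le⟩)
    linarith
  have hup : 0 ≤ f (4 * ε) := by
    have h1 := hmono (show (0 : ℝ) ∈ Icc (-(4 * ε)) (4 * ε) from ⟨by linarith, by linarith⟩)
      (show (4 * ε) ∈ Icc (-(4 * ε)) (4 * ε) from ⟨by linarith, le_rfl⟩) (by linarith)
    simp only at h1
    have := (abs_le.1 hf0).1
    linarith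
  have hdn : f (-(4 * ε)) ≤ 0 := by
    have h1 := hmono (show -(4 * ε) ∈ Icc (-(4 * ε)) (4 * ε) from ⟨le_rfl, by linarith⟩)
      (show (0 : ℝ) ∈ Icc (-(4 * ε)) (4 * ε) from ⟨by linarith, by linarith⟩) (by linarith)
    simp only at h1
    have := (abs_le.1 hf0).2
    linarith
  have hfc : ContinuousOn f (Icc (-(4 * ε)) (4 * ε)) :=
    fun σ _ => (hfd σ).continuousAt.continuousWithinAt
  obtain ⟨σ, hσ, hσ0⟩ := intermediate_value_Icc (by linarith : -(4 * ε) ≤ 4 * ε) hfc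
    (show (0 : ℝ) ∈ Icc (f (-(4 * ε))) (f (4 * ε)) from ⟨hdn, hup⟩)
  have hσa : |σ| ≤ 4 * ε := abs_le.2 ⟨hσ.1, hσ.2⟩
  -- the point z
  have hz : Ψ σ y = Ψ (σ + t) x := by rw [hy, hF.add hX]
  set z := Ψ σ y with hzdef
  have hzx := hnear σ hσa
  have hzl : z.1 = x.1 + tc v x.1 z.1 • v := by
    have := x_line hP hF x (σ + t)
    rw [← hz] at this
    exact this
  set a := tc v x.1 z.1 with ha
  set b := z.2 - x.2 with hb
  have hab : -Real.sin φ * a + Real.cos φ * b = 0 := hσ0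
  have hsc := Real.sin_sq_add_cos_sq φ
  set lam := a * Real.cos φ + b * Real.sin φ with hlam
  have hla : lam * Real.cos φ = a := by
    have : b * Real.cos φ = a * Real.sin φ := by linarith
    calc lam * Real.cos φ = a * Real.cos φ ^ 2 + (b * Real.cos φ) * Real.sin φ := by
          rw [hlam]; ring
      _ = a * (Real.sin φ ^ 2 + Real.cos φ ^ 2) := by rw [this]; ring
      _ = a := by rw [hsc, mul_one]
  have hlb : lam * Real.sin φ = b := by
    have : b * Real.cos φ = a * Real.sin φ := by linarith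
    calc lam * Real.sin φ = (a * Real.sin φ) * Real.cos φ + b * Real.sin φ ^ 2 := by
          rw [hlam]; ring
      _ = b * (Real.sin φ ^ 2 + Real.cos φ ^ 2) := by rw [← this]; ring
      _ = b := by rw [hsc, mul_one]
  set d : E n × ℝ := (a • v, b) with hd
  have hzxd : z - x = d := by
    refine Prod.ext ?_ ?_
    · show z.1 - x.1 = a • v
      rw [hzl]; abel
    · rfl
  have htσ : 0 < σ + t := by
    have := hσ.1
    linarith
  by_cases hl0 : lam = 0
  · -- periodic orbit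
    have ha0 : a = 0 := by rw [← hla, hl0, zero_mul]
    have hb0 : b = 0 := by rw [← hlb, hl0, zero_mul]
    have hzx0 : z = x := by
      have : z - x = 0 := by
        rw [hzxd, hd, ha0, hb0, zero_smul]; rfl
      exact sub_eq_zero.1 this
    exact NoRet_per hP hF hτ hG htσ (by rw [← hz]; exact hzx0)
  · -- Rolle
    obtain ⟨B, hB⟩ := exists_bot hP hF hτ hG
    have hBz : B z = B x := by rw [hz, hB.inv]
    have hBd : Differentiable ℝ B := hB.smooth.differentiable (by simp)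
    set h : ℝ → ℝ := fun μ => ⟪B (x + μ • d) - x.1, v⟫ with hh
    have hcurve : ∀ μ : ℝ, HasDerivAt (fun μ : ℝ => x + μ • d) d μ := by
      intro μ
      have := ((hasDerivAt_id μ).smul_const d).const_add x
      simpa using this
    have hBc : ∀ μ : ℝ, HasDerivAt (fun μ : ℝ => B (x + μ • d) - x.1)
        (fderiv ℝ B (x + μ • d) d) μ := by
      intro μ
      exact ((hBd _).hasFDerivAt.comp_hasDerivAt μ (hcurve μ)).sub_const x.1
    have hhd : ∀ μ : ℝ, HasDerivAt h ⟪fderiv ℝ B (x + μ • d) d, v⟫ μ := by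
      intro μ
      have h1 := (hBc μ).inner (𝕜 := ℝ) (hasDerivAt_const μ v)
      simpa using h1
    have h01 : h 0 = h 1 := by
      simp only [hh]
      have h1 : x + (1 : ℝ) • d = z := by rw [one_smul, ← hzxd]; abel
      have h2 : x + (0 : ℝ) • d = x := by rw [zero_smul, add_zero]
      rw [h1, h2, hBz]
    obtain ⟨μ, hμ, hμ0⟩ := exists_hasDerivAt_eq_zero (zero_lt_one' ℝ)
      (fun μ _ => (hhd μ).continuousAt.continuousWithinAt) h01 (fun μ _ => hhd μ)
    set w := x + μ • d with hw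
    -- B w' - x.1 is a multiple of v in the plane
    have hBl : ∀ μ : ℝ, B (x + μ • d) - x.1 = h μ • v := by
      intro μ
      have h1 := hB.line (x + μ • d)
      have h2 : (x + μ • d).1 = x.1 + (μ * a) • v := by
        show x.1 + μ • (a • v) = _
        rw [smul_smul]
      set c := tc v (x + μ • d).1 (B (x + μ • d)) with hc
      have h3 : B (x + μ • d) - x.1 = (μ * a + c) • v := by
        rw [h1, h2, add_smul]; abel
      have h4 : h μ = μ * a + c := by
        simp only [hh]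
        rw [h3, real_inner_smul_left, hvv, mul_one]
      rw [h3, h4]
    have hBw : fderiv ℝ B w d = 0 := by
      have h1 : HasDerivAt (fun μ : ℝ => B (x + μ • d) - x.1)
          (⟪fderiv ℝ B (x + μ • d) d, v⟫ • v) μ := by
        have h2 := (hhd μ).smul_const v
        have h3 : (fun μ : ℝ => B (x + μ • d) - x.1) = fun μ => h μ • v := funext hBl
        rw [h3]
        exact h2
      have h4 := (hBc μ).unique h1
      rw [hw, h4, ← hw, hμ0, zero_smul]
    obtain ⟨c, hc⟩ := hB.ker w d hBw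
    set ψ := s * Θ w with hψ
    have h1 : a = -(c * Real.sin ψ) := by
      have h2 := congrArg Prod.fst hc
      have h3 : a • v = c • ((-Real.sin ψ) • v) := h2
      have h4 : ⟪a • v, v⟫ = ⟪c • ((-Real.sin ψ) • v), v⟫ := by rw [h3]
      rw [real_inner_smul_left, real_inner_smul_left, real_inner_smul_left, hvv] at h4
      linarith
    have h2 : b = c * Real.cos ψ := by
      have h2 := congrArg Prod.snd hc
      have h3 : b = c • Real.cos ψ := h2
      simpa using h3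
    have h3 : lam * Real.cos (φ - ψ) = 0 := by
      rw [Real.cos_sub]
      have h4 : lam * (Real.cos φ * Real.cos ψ + Real.sin φ * Real.sin ψ)
          = (lam * Real.cos φ) * Real.cos ψ + (lam * Real.sin φ) * Real.sin ψ := by ring
      rw [h4, hla, hlb, h1, h2]; ring
    have h4 : Real.cos (φ - ψ) = 0 := by
      rcases mul_eq_zero.1 h3 with h | h
      · exact absurd h hl0
      · exact h
    have h5 : ‖w - x‖ ≤ 20 * ε := by
      have h6 : w - x = μ • d := by rw [hw]; abel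
      rw [h6, norm_smul, Real.norm_eq_abs, abs_of_pos hμ.1, ← hzxd]
      have h7 := norm_nonneg (z - x)
      nlinarith [hμ.2, hμ.1]
    have h6 := NoRet_cos (hph w h5)
    rw [← hψ, ← neg_sub, Real.cos_neg, h4] at h6
    norm_num at h6

theorem noret (hP : Phase v Θ U M T) : ∃ ε : ℝ, 0 < ε ∧ ∀ s : ℝ, 0 ≤ s → s ≤ 1 →
    ∀ Ψ : ℝ → E n × ℝ → E n × ℝ, IsFlow (XF v Θ s) Ψ → (∃ τ, 0 < τ ∧ GoodT M τ Ψ) →
      ∀ x t, 1 ≤ |t| → ε ≤ ‖Ψ t x - x‖ := by
  obtain ⟨L, hL, hLip⟩ := theta_lip hP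
  have h100 : (0 : ℝ) < 100 * (L + 1) := by positivity
  refine ⟨1 / (100 * (L + 1)), by positivity, fun s hs0 hs1 Ψ hF ⟨τ, hτ, hG⟩ x t ht => ?_⟩
  have hε0 : 0 < 1 / (100 * (L + 1)) := by positivity
  have hε1 : 1 / (100 * (L + 1)) ≤ 1 / 100 :=
    one_div_le_one_div_of_le (by norm_num) (by linarith)
  have hεL : L * (1 / (100 * (L + 1))) ≤ 1 / 100 := by
    rw [mul_one_div, div_le_div_iff₀ h100 (by norm_num)]
    linarith
  rcases le_total 0 t with h | h
  · rw [abs_of_nonneg h] at ht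
    exact NoRet_core hP hL hLip hε0 hε1 hεL hs0 hs1 hF hτ hG x t ht
  · rw [abs_of_nonpos h] at ht
    have hX := XF_contDiff hP s
    have h1 := NoRet_core hP hL hLip hε0 hε1 hεL hs0 hs1 hF hτ hG (Ψ t x) (-t) ht
    have h2 : Ψ (-t) (Ψ t x) = x := by rw [hF.add hX, neg_add_cancel, hF.zero]
    rw [h2, norm_sub_rev] at h1
    exact h1

end Pool.Agent.H2.TG
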