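import Pool.Agent.H2.TG.Line
import Pool.Agent.H2.TG.Tor

/-!
# The phase set (module PSb)

PROOFS (all with `mem_PS` and a local equation from `hR.loc`).
* `PS_closed`: let `x_k ∈ PS`, `x_k → x`. `x.1 ∈ C` (closed). Take a local equation `W, u` at `x.1`;
  for large `k`, `x_k.1 ∈ W` and `dplane v u x_k.1 (cos x_k.2) (sin x_k.2) = 0`; the left side is a
  continuous function of the point on `W × ℝ` (`fderiv` is continuous on the open `W`), pass to the limit,
  `mem_PS`.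
* `PS_inv`: if `u` is a local equation at `x.1` on `W`, then `y ↦ u (y.1 - g, y.2)` is a local equation
  on the translated set (`locEq_trans`; `C` is invariant under `g` and `-g`), with the same `dplane` at
  the translated point; `mem_PS`.
* `PS_pi`: `cos (φ + k π) = (-1)^k cos φ`, same for `sin`; `dplane_lin`. (`Real.cos_add_int_mul_pi`.)
* `PS_unique`: `angle_unique` with `a = dplane 1 0`, `b = dplane 0 1`.
* `PS_exists`: `angle_exists`.
* `PS_overU`: `x.1.2 = 0` by `hR.overU`. With a local equation `u` at `x.1` on `W`: for small `t`,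
  `(x.1.1 + t • v, 0) ∈ C ∩ W` (`U` is open), so `u` vanishes there and `dplane v u x.1 1 0 = 0`. So phase
  `0` is admissible: `(x.1, 0) ∈ PS`; conclude by `PS_unique`.
* `near_overU`: `x ∈ PS`, `x.1.1 ∈ U` and `|x.2| < π` imply `x ∈ OO U`.
-/

set_option autoImplicit false

open scoped ContDiff Topology RealInnerProductSpace
open Set

namespace Pool.Agent.H2.TG

open Pool.Agent.H57.NL

variable {n : ℕ} {v : E n} {C : Set (E n × ℝ)} {U : Set (E n)}

private theorem PSb_trans {u : E n × ℝ → ℝ} (g : E n) (y : E n × ℝ) (a b : ℝ) :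
    dplane v (fun y => u (y.1 - g, y.2)) y a b = dplane v u (y.1 - g, y.2) a b := by
  have h1 : (fun y : E n × ℝ => u (y.1 - g, y.2)) = fun y => u (y - (g, (0 : ℝ))) := by
    funext y
    congr 1
    ext1
    · simp
    · simp
  have h2 : (y.1 - g, y.2) = y - (g, (0 : ℝ)) := by
    ext1
    · simp
    · simp
  unfold dplane
  rw [h1, h2, fderiv_comp_sub]

private theorem PSb_cont {W : Set (E n × ℝ)} {u : E n × ℝ → ℝ} (hC : LocEq v C W u)
    {x : (E n × ℝ) × ℝ} (hx : x.1 ∈ W) :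
    ContinuousAt (fun x : (E n × ℝ) × ℝ => dplane v u x.1 (Real.cos x.2) (Real.sin x.2)) x := by
  have h1 : ContinuousOn (fderiv ℝ u) W :=
    hC.smooth.continuousOn_fderiv_of_isOpen hC.isOpen (by simp)
  have h2 : ContinuousAt (fderiv ℝ u) x.1 := h1.continuousAt (hC.isOpen.mem_nhds hx)
  have h3 : ContinuousAt (fun x : (E n × ℝ) × ℝ => fderiv ℝ u x.1) x :=
    ContinuousAt.comp (f := fun x : (E n × ℝ) × ℝ => x.1) h2 continuousAt_fst
  unfold dplane
  refine h3.clm_apply ?_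
  fun_prop

private theorem PSb_angle {W : Set (E n × ℝ)} {u : E n × ℝ → ℝ} (hC : LocEq v C W u)
    {y : E n × ℝ} (hy : y ∈ C) (hyW : y ∈ W) (φ : ℝ) :
    (y, φ) ∈ PS v C ↔ dplane v u y 1 0 * Real.cos φ + dplane v u y 0 1 * Real.sin φ = 0 := by
  rw [mem_PS hC (x := (y, φ)) hy hyW, dplane_lin]
  simp only
  rw [mul_comm (Real.cos φ), mul_comm (Real.sin φ)]

theorem PS_closed (hR : Red v C U) : IsClosed (PS v C) := by
  rw [isClosed_iff_frequently]
  intro x hx
  have h1 : x.1 ∈ C := by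
    refine isClosed_iff_frequently.1 hR.closed x.1 ?_
    refine (continuous_fst.tendsto x).frequently (hx.mono fun y hy => ?_)
    exact hy.1
  obtain ⟨W, u, hxW, hC⟩ := hR.loc x.1 h1
  rw [mem_PS hC h1 hxW]
  by_contra hne
  have h2 := (PSb_cont hC hxW).eventually_ne hne
  have h3 : ∀ᶠ y : (E n × ℝ) × ℝ in 𝓝 x, y.1 ∈ W :=
    (continuous_fst.tendsto x).eventually (hC.isOpen.mem_nhds hxW)
  obtain ⟨y, hy, hy2, hy3⟩ := (hx.and_eventually (h2.and h3)).exists
  exact hy2 ((mem_PS hC hy.1 hy3).1 hy)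

/-- Translation of a local equation. -/
theorem locEq_trans (hR : Red v C U) {W : Set (E n × ℝ)} {u : E n × ℝ → ℝ} (hC : LocEq v C W u)
    {g : E n} (hg : g ∈ lat n) : LocEq v C {y | (y.1 - g, y.2) ∈ W} (fun y => u (y.1 - g, y.2)) where
  isOpen := hC.isOpen.preimage (by fun_prop)
  smooth := hC.smooth.comp (ContDiff.contDiffOn (by fun_prop)) fun y hy => hy
  eqn := by
    intro y hy
    rw [← hC.eqn _ hy]
    constructor
    · intro h
      have := hR.inv (-g) ((lat n).neg_mem hg) y h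
      rwa [← sub_eq_add_neg] at this
    · intro h
      have := hR.inv g hg _ h
      simpa using this
  reg := by
    intro y hy
    rw [PSb_trans, PSb_trans]
    exact hC.reg _ hy

theorem PS_inv (hR : Red v C U) {g : E n} (hg : g ∈ lat n) {x : (E n × ℝ) × ℝ}
    (hx : x ∈ PS v C) : ((x.1.1 + g, x.1.2), x.2) ∈ PS v C := by
  obtain ⟨W, u, hxW, hC⟩ := hR.loc x.1 hx.1
  have h1 := locEq_trans hR hC hg
  have h2 : (x.1.1 + g, x.1.2) ∈ {y : E n × ℝ | (y.1 - g, y.2) ∈ W} := by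
    change (x.1.1 + g - g, x.1.2) ∈ W
    rw [add_sub_cancel_right]
    exact hxW
  rw [mem_PS h1 (x := ((x.1.1 + g, x.1.2), x.2)) (hR.inv g hg _ hx.1) h2]
  simp only
  rw [PSb_trans]
  simp only [add_sub_cancel_right]
  exact (mem_PS hC hx.1 hxW).1 hx

theorem PS_pi (hR : Red v C U) {x : (E n × ℝ) × ℝ} (hx : x ∈ PS v C) (k : ℤ) :
    (x.1, x.2 + k * Real.pi) ∈ PS v C := by
  obtain ⟨W, u, hxW, hC⟩ := hR.loc x.1 hx.1
  have h1 := (PSb_angle hC hx.1 hxW x.2).1 hx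
  rw [PSb_angle hC hx.1 hxW, Real.cos_add_int_mul_pi, Real.sin_add_int_mul_pi]
  linear_combination (-1 : ℝ) ^ k * h1

theorem PS_unique (hR : Red v C U) {y : E n × ℝ} {φ ψ : ℝ} (h1 : (y, φ) ∈ PS v C)
    (h2 : (y, ψ) ∈ PS v C) : ∃ k : ℤ, φ = ψ + k * Real.pi := by
  obtain ⟨W, u, hyW, hC⟩ := hR.loc y h1.1
  exact angle_unique (hC.reg y hyW) ((PSb_angle hC h1.1 hyW φ).1 h1)
    ((PSb_angle hC h1.1 hyW ψ).1 h2)

theorem PS_exists (hR : Red v C U) {y : E n × ℝ} (hy : y ∈ C) : ∃ φ : ℝ, (y, φ) ∈ PS v C := by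
  obtain ⟨W, u, hyW, hC⟩ := hR.loc y hy
  obtain ⟨φ, hφ⟩ := angle_exists (dplane v u y 1 0) (dplane v u y 0 1)
  exact ⟨φ, (PSb_angle hC hy hyW φ).2 hφ⟩

theorem PS_zero (hR : Red v C U) {q : E n} (hq : q ∈ U) : ((q, (0 : ℝ)), (0 : ℝ)) ∈ PS v C := by
  have hqC : (q, (0 : ℝ)) ∈ C := (hR.overU q hq 0).2 rfl
  obtain ⟨W, u, hyW, hC⟩ := hR.loc _ hqC
  rw [mem_PS hC (x := ((q, (0 : ℝ)), (0 : ℝ))) hqC hyW]
  simp only [Real.cos_zero, Real.sin_zero]
  unfold dplane
  rw [one_smul]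
  have hd : DifferentiableAt ℝ u (q, (0 : ℝ)) :=
    (hC.smooth.contDiffAt (hC.isOpen.mem_nhds hyW)).differentiableAt (by simp)
  set c : ℝ → E n × ℝ := fun t => (q + t • v, 0) with hc
  have hc0 : c 0 = (q, 0) := by simp [hc]
  have hcd : HasDerivAt c (v, 0) 0 := by
    have e1 : HasDerivAt (fun t : ℝ => q + t • v) v 0 := by
      have := ((hasDerivAt_id (0 : ℝ)).smul_const v).const_add q
      simpa using this
    exact e1.prodMk (hasDerivAt_const _ _)
  have h1 : HasDerivAt (u ∘ c) (fderiv ℝ u (q, 0) (v, 0)) 0 := by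
    have e2 : HasFDerivAt u (fderiv ℝ u (q, 0)) (c 0) := by
      rw [hc0]; exact hd.hasFDerivAt
    exact e2.comp_hasDerivAt 0 hcd
  have hcc : Continuous c := by
    simp only [hc]; fun_prop
  have h2 : u ∘ c =ᶠ[𝓝 0] fun _ => 0 := by
    have e3 : ∀ᶠ t in 𝓝 (0 : ℝ), c t ∈ W := by
      refine (hcc.tendsto 0).eventually ?_
      rw [hc0]
      exact hC.isOpen.mem_nhds hyW
    have e4 : ∀ᶠ t in 𝓝 (0 : ℝ), q + t • v ∈ U := by
      have : Continuous fun t : ℝ => q + t • v := by fun_prop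
      refine (this.tendsto 0).eventually ?_
      rw [zero_smul, add_zero]
      exact hR.open_U.mem_nhds hq
    filter_upwards [e3, e4] with t ht1 ht2
    exact (hC.eqn _ ht1).1 ((hR.overU _ ht2 0).2 rfl)
  have h3 : HasDerivAt (u ∘ c) 0 0 := (hasDerivAt_const (0 : ℝ) (0 : ℝ)).congr_of_eventuallyEq h2
  exact h1.unique h3

theorem PS_overU (hR : Red v C U) {x : (E n × ℝ) × ℝ} (hx : x ∈ PS v C) (hU : x.1.1 ∈ U) :
    x.1.2 = 0 ∧ ∃ k : ℤ, x.2 = k * Real.pi := by
  have h0 : x.1.2 = 0 := (hR.overU x.1.1 hU x.1.2).1 hx.1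
  refine ⟨h0, ?_⟩
  have h1 : (x.1, (0 : ℝ)) ∈ PS v C := by
    have := PS_zero hR hU
    rw [← h0] at this
    rw [h0] at this
    have e : x.1 = (x.1.1, (0 : ℝ)) := by
      ext1
      · rfl
      · exact h0
    rw [e]
    exact this
  obtain ⟨k, hk⟩ := PS_unique hR (φ := x.2) (ψ := 0) hx h1
  exact ⟨k, by rw [hk]; ring⟩

theorem near_overU (hR : Red v C U) {x : (E n × ℝ) × ℝ} (hx : x ∈ PS v C) (hU : x.1.1 ∈ U)
    (h : |x.2| < Real.pi) : x ∈ OO U := by
  obtain ⟨h0, k, hk⟩ := PS_overU hR hx hU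
  refine ⟨hU, h0, ?_⟩
  rw [hk, abs_mul, abs_of_pos Real.pi_pos] at h
  have h1 : |(k : ℝ)| < 1 := by
    by_contra hcon
    push Not at hcon
    nlinarith [Real.pi_pos]
  have h2 : k = 0 := by
    have : |k| < 1 := by exact_mod_cast h1
    exact Int.abs_lt_one_iff.1 this
  rw [hk, h2]
  simp

end Pool.Agent.H2.TG
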