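import Mathlib

/-!
# A computation in the plane (module Plane2, Mathlib only)

`b, A, ρ, θ : ℝ × ℝ → ℝ` are functions of `(t, r)`; the derivatives satisfy
`r + A_t = ρ b_t`, `A_r = ρ b_r` everywhere (this is the hypothesis `hId`), and `b` is constant in the
direction `(- sin θ, cos θ)` at the given point.
PROOF. `b`, `A` are smooth, `ρ` is differentiable. Differentiate the two identities:
`1 + A_tr = ρ_r b_t + ρ b_tr` (derivative of the first in `r`), `A_rt = ρ_t b_r + ρ b_rt` (derivative of the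
second in `t`). By the symmetry of the second derivatives (`ContDiffAt.isSymmSndFDerivAt` with
`n = ∞`, or `second_derivative_symmetric`) subtract: `1 = ρ_r b_t - ρ_t b_r`. At the point `x₀`: with
`c = b_t cos θ + b_r sin θ` and `- b_t sin θ + b_r cos θ = 0`: `b_t = c cos θ`, `b_r = c sin θ`. So
`1 = c (ρ_r cos θ - ρ_t sin θ)`, which is the claim (`fderiv ρ x₀ (- sin θ, cos θ) = - sin θ ρ_t + cos θ ρ_r`).
-/

set_option autoImplicit false

open scoped ContDiff Topology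
open Set

namespace Pool.Agent.H2.TG

private theorem Plane2_dd {f : ℝ × ℝ → ℝ} (hf : ContDiff ℝ ∞ f) (e x : ℝ × ℝ) :
    HasFDerivAt (fun x => fderiv ℝ f x e) ((fderiv ℝ (fderiv ℝ f) x).flip e) x := by
  have h1 : HasFDerivAt (fderiv ℝ f) (fderiv ℝ (fderiv ℝ f) x) x :=
    ((hf.fderiv_right (m := 1) (by norm_cast)).differentiable one_ne_zero x).hasFDerivAt
  refine (h1.clm_apply (hasFDerivAt_const e x)).congr_fderiv ?_
  ext <;> simp

private theorem Plane2_two : minSmoothness ℝ 2 ≤ (∞ : WithTop ℕ∞) := by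
  rw [minSmoothness_of_isRCLikeNormedField]
  exact WithTop.coe_le_coe.2 (le_top : (2 : ℕ∞) ≤ ⊤)

theorem plane2 {b A ρ : ℝ × ℝ → ℝ} (hb : ContDiff ℝ ∞ b) (hA : ContDiff ℝ ∞ A)
    (hρ : ContDiff ℝ ∞ ρ)
    (hId : ∀ x : ℝ × ℝ, ∀ t s : ℝ, x.2 * t + fderiv ℝ A x (t, s) = ρ x * fderiv ℝ b x (t, s))
    {x₀ : ℝ × ℝ} {θ : ℝ} (h0 : fderiv ℝ b x₀ (-Real.sin θ, Real.cos θ) = 0) :
    fderiv ℝ b x₀ (Real.cos θ, Real.sin θ) * fderiv ℝ ρ x₀ (-Real.sin θ, Real.cos θ) = 1 := by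
  have hsA : IsSymmSndFDerivAt ℝ A x₀ :=
    (hA.contDiffAt (x := x₀)).isSymmSndFDerivAt Plane2_two
  have hsb : IsSymmSndFDerivAt ℝ b x₀ :=
    (hb.contDiffAt (x := x₀)).isSymmSndFDerivAt Plane2_two
  have hρd : HasFDerivAt ρ (fderiv ℝ ρ x₀) x₀ :=
    (hρ.differentiable (by simp) x₀).hasFDerivAt
  -- the two identities, differentiated
  have h1 : (fun x : ℝ × ℝ => x.2 + fderiv ℝ A x (1, 0)) =
      fun x => ρ x * fderiv ℝ b x (1, 0) := by
    funext x
    have := hId x 1 0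
    rwa [mul_one] at this
  have h2 : (fun x : ℝ × ℝ => fderiv ℝ A x (0, 1)) = fun x => ρ x * fderiv ℝ b x (0, 1) := by
    funext x
    have := hId x 0 1
    rwa [mul_zero, zero_add] at this
  have d1 : HasFDerivAt (fun x : ℝ × ℝ => x.2 + fderiv ℝ A x (1, 0))
      (ContinuousLinearMap.snd ℝ ℝ ℝ + (fderiv ℝ (fderiv ℝ A) x₀).flip (1, 0)) x₀ :=
    hasFDerivAt_snd.add (Plane2_dd hA (1, 0) x₀)
  have d1' := hρd.mul (Plane2_dd hb (1, 0) x₀)
  have d2 := Plane2_dd hA (0, 1) x₀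
  have d2' := hρd.mul (Plane2_dd hb (0, 1) x₀)
  rw [h1] at d1
  rw [h2] at d2
  have e1 := congrArg (fun L : ℝ × ℝ →L[ℝ] ℝ => L (0, 1)) (d1.unique d1')
  have e2 := congrArg (fun L : ℝ × ℝ →L[ℝ] ℝ => L (1, 0)) (d2.unique d2')
  simp only [add_apply, ContinuousLinearMap.coe_snd',
    ContinuousLinearMap.flip_apply, smul_apply, smul_eq_mul] at e1 e2
  have s1 := hsA (0, 1) (1, 0)
  have s2 := hsb (0, 1) (1, 0)
  rw [s1, s2] at e1
  -- the derivatives of b and ρ at the point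
  have hlin : ∀ (L : ℝ × ℝ →L[ℝ] ℝ) (p q : ℝ), L (p, q) = p * L (1, 0) + q * L (0, 1) := by
    intro L p q
    have h3 : ((p, q) : ℝ × ℝ) = p • ((1, 0) : ℝ × ℝ) + q • ((0, 1) : ℝ × ℝ) := by
      simp
    rw [h3, map_add, map_smul, map_smul, smul_eq_mul, smul_eq_mul]
  rw [hlin] at h0
  rw [hlin, hlin (fderiv ℝ ρ x₀)]
  set bt := fderiv ℝ b x₀ (1, 0) with hbt
  set br := fderiv ℝ b x₀ (0, 1) with hbr
  set ρt := fderiv ℝ ρ x₀ (1, 0) with hρt
  set ρr := fderiv ℝ ρ x₀ (0, 1) with hρr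
  have hcs := Real.sin_sq_add_cos_sq θ
  have k1 : 1 = bt * ρr - br * ρt := by linarith
  have k2 : bt = (Real.cos θ * bt + Real.sin θ * br) * Real.cos θ := by
    linear_combination (-bt) * hcs - Real.sin θ * h0
  have k3 : br = (Real.cos θ * bt + Real.sin θ * br) * Real.sin θ := by
    linear_combination (-br) * hcs + Real.cos θ * h0
  obtain ⟨c, hc⟩ : ∃ c, c = Real.cos θ * bt + Real.sin θ * br := ⟨_, rfl⟩
  rw [← hc] at k2 k3 ⊢
  rw [k2, k3] at k1
  linear_combination -k1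

end Pool.Agent.H2.TG
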