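import Pool.Agent.H2.TG.LeafB

/-!
# Leaves which start over `U` do not return (module Pos)

PROOF of `pos` (`x ∈ OO U`: `x = ((q, 0), 0)` with `q ∈ U`; it is in `PS`, `PS_zero`). Let
`a s = tc v q (Λ s x).1.1`; `a 0 = 0`, `a' 0 = cos 0 = 1`, so `a > 0` on some interval `(0, ε)`. If the claim
fails there is a first zero `s₁ > 0` of `a` (infimum of the closed set `{s ≥ ε/2 | a s ≤ 0}`): `a > 0` on
`(0, s₁)`, `a s₁ = 0`, so `a' s₁ ≤ 0`. Let `y = Λ s₁ x ∈ PS` (`leaf_mem`). By `leaf_q`, `y.1.1 = q + 0 • v = q ∈ U`, so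
`y.1.2 = 0` and `y.2 = j π` (`PS_overU`): `y = (x.1, x.2 + j π)`, and `a' s₁ = cos (j π) ≤ 0` forces `j` odd. Then
(`IsFlow.add`, `leaf_odd`) for all `t`: `Λ (t + s₁) x = Λ t y = ((Λ (-t) x).1, (Λ (-t) x).2 + j π)`; at
`t = -s₁/2`: `Λ (s₁/2) x = ((Λ (s₁/2) x).1, (Λ (s₁/2) x).2 + j π)`, so `j π = 0`, contradiction.
`neg`: the same with the last zero `s₁ < 0` (`a < 0` on `(s₁, 0)`, so again `a' s₁ ≤ 0`); or apply `pos` to
nothing else, just repeat the argument.
`no_return`: `s ≠ 0` implies `(Λ s x).1 ≠ x.1` (its `tc` is not zero).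
`inj_OO`: if `(Λ s x).1 = (Λ t x).1`, both in `PS`: `PS_unique` gives `j` with
`(Λ s x).2 = (Λ t x).2 + j π`. `j` even: `Λ (-t) (Λ s x) = Λ (s - t) x` and, by `leaf_even`,
`Λ (-t) ((Λ t x).1, (Λ t x).2 + j π) = (x.1, x.2 + j π)`, so `(Λ (s - t) x).1 = x.1`, so `s = t` by `no_return`.
`j` odd: for all `w`: `Λ (w + s) x = Λ w (Λ s x) = ((Λ (t - w) x).1, (Λ (t - w) x).2 + j π)` (`leaf_odd`); at
`w = (t - s)/2` the two points `Λ ((s + t)/2) x` agree up to the phase `j π ≠ 0`, contradiction.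
`inj_RR`: `x = Λ (-s₀) y` with `y = Λ s₀ x ∈ OO U`.
-/

set_option autoImplicit false

open scoped ContDiff Topology RealInnerProductSpace
open Set

namespace Pool.Agent.H2.TG

open Pool.Agent.H57.NL

variable {n : ℕ} {v : E n} {C : Set (E n × ℝ)} {U U₂ : Set (E n)} {T : ℝ}
  {κ : (E n × ℝ) × ℝ → ℝ} {Λ : ℝ → (E n × ℝ) × ℝ → (E n × ℝ) × ℝ}

private theorem pos_first_zero {a a' : ℝ → ℝ} (h : ∀ s, HasDerivAt a (a' s) s) (h0 : a 0 = 0)
    (h1 : 0 < a' 0) {s : ℝ} (hs : 0 < s) (has : a s ≤ 0) :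
    ∃ s₁, 0 < s₁ ∧ a s₁ = 0 ∧ a' s₁ ≤ 0 := by
  have hcont : Continuous a := continuous_iff_continuousAt.2 fun t => (h t).continuousAt
  -- positivity near `0`
  have hnear : ∃ ε : ℝ, 0 < ε ∧ ∀ t, 0 < t → t < ε → 0 < a t := by
    have hs0 := (hasDerivAt_iff_tendsto_slope.1 (h 0)).eventually (lt_mem_nhds h1)
    rw [eventually_nhdsWithin_iff, Metric.eventually_nhds_iff] at hs0
    obtain ⟨ε, hε, H⟩ := hs0
    refine ⟨ε, hε, fun t ht htε => ?_⟩
    have h2 := H (y := t) (by simpa [Real.dist_eq, abs_of_pos ht] using htε)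
      (by simpa using ht.ne')
    rw [slope_def_field, h0, sub_zero, sub_zero] at h2
    exact (div_pos_iff_of_pos_right ht).1 h2
  obtain ⟨ε, hε, H⟩ := hnear
  have hsε : ε ≤ s := by
    by_contra hlt
    exact absurd (H s hs (not_le.1 hlt)) (not_lt.2 has)
  let K : Set ℝ := {t | t ∈ Icc (ε / 2) s ∧ a t ≤ 0}
  have hK : IsCompact K := by
    have : K = Icc (ε / 2) s ∩ {t | a t ≤ 0} := rfl
    rw [this]
    exact isCompact_Icc.inter_right (isClosed_le hcont continuous_const)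
  have hne : K.Nonempty := ⟨s, ⟨by linarith, le_rfl⟩, has⟩
  obtain ⟨s₁, hs₁, hmin⟩ := hK.exists_isLeast hne
  have hs₁pos : 0 < s₁ := by linarith [hs₁.1.1]
  have hbefore : ∀ t, 0 < t → t < s₁ → 0 < a t := by
    intro t ht hts
    by_cases hte : t < ε / 2
    · exact H t ht (by linarith)
    · by_contra hle
      have : s₁ ≤ t := hmin ⟨⟨not_lt.1 hte, by linarith [hs₁.1.2]⟩, not_lt.1 hle⟩
      linarith
  have hzero : a s₁ = 0 := by
    refine le_antisymm hs₁.2 ?_
    by_contra hlt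
    have hev := (hcont.tendsto s₁).eventually (gt_mem_nhds (not_le.1 hlt))
    rw [Metric.eventually_nhds_iff] at hev
    obtain ⟨δ, hδ, D⟩ := hev
    have hm : 0 < min δ s₁ := lt_min hδ hs₁pos
    have h2 := D (y := s₁ - min δ s₁ / 2) (by
      rw [Real.dist_eq]
      have : s₁ - min δ s₁ / 2 - s₁ = -(min δ s₁ / 2) := by ring
      rw [this, abs_neg, abs_of_pos (by linarith)]
      linarith [min_le_left δ s₁])
    have h3 := hbefore (s₁ - min δ s₁ / 2) (by linarith [min_le_right δ s₁]) (by linarith)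
    linarith
  refine ⟨s₁, hs₁pos, hzero, ?_⟩
  by_contra hlt
  have hev := (hasDerivAt_iff_tendsto_slope.1 (h s₁)).eventually (lt_mem_nhds (not_le.1 hlt))
  rw [eventually_nhdsWithin_iff, Metric.eventually_nhds_iff] at hev
  obtain ⟨δ, hδ, D⟩ := hev
  have hm : 0 < min δ s₁ := lt_min hδ hs₁pos
  have h2 := D (y := s₁ - min δ s₁ / 2) (by
      rw [Real.dist_eq]
      have : s₁ - min δ s₁ / 2 - s₁ = -(min δ s₁ / 2) := by ring
      rw [this, abs_neg, abs_of_pos (by linarith)]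
      linarith [min_le_left δ s₁])
      (by
        intro hmem
        have : s₁ - min δ s₁ / 2 = s₁ := by simpa using hmem
        linarith)
  have h3 := hbefore (s₁ - min δ s₁ / 2) (by linarith [min_le_right δ s₁]) (by linarith)
  rw [slope_def_field, hzero, sub_zero] at h2
  have h4 : s₁ - min δ s₁ / 2 - s₁ < 0 := by linarith
  have h5 : a (s₁ - min δ s₁ / 2) / (s₁ - min δ s₁ / 2 - s₁) < 0 := div_neg_of_pos_of_neg h3 h4
  linarith

theorem OO_sub (hR : Red v C U) : OO U ⊆ PS v C := by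
  rintro ⟨⟨q, r⟩, φ⟩ ⟨hq, hr, hφ⟩
  simp only at hq hr hφ
  subst hr hφ
  exact PS_zero hR hq

private theorem pos_odd_ne {j : ℤ} (hj : Odd j) : (j : ℝ) * Real.pi ≠ 0 := by
  have h0 : j ≠ 0 := by
    rintro rfl
    exact absurd hj (by decide)
  exact mul_ne_zero (by exact_mod_cast h0) Real.pi_ne_zero

private theorem pos_cos_even {j : ℤ} (hj : Even j) : Real.cos (j * Real.pi) = 1 := by
  obtain ⟨k, rfl⟩ := hj
  have : ((k + k : ℤ) : ℝ) * Real.pi = k * (2 * Real.pi) := by push_cast; ring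
  rw [this]
  exact Real.cos_int_mul_two_pi k

private theorem pos_core (hL : Leaf v C U U₂ T κ Λ) {x : (E n × ℝ) × ℝ} (hx : x ∈ OO U) {c : ℝ}
    (hc : tc v x.1.1 (Λ c x).1.1 = 0) (hd : Real.cos (Λ c x).2 ≤ 0) : False := by
  have hX := LF_contDiff hL.curv
  have hxP := OO_sub hL.red hx
  have hyP := leaf_mem hL.red hL.curv hL.flow hxP c
  have hq : (Λ c x).1.1 = x.1.1 := by
    have := leaf_q hL.hv hL.flow x c
    rw [hc, zero_smul, add_zero] at this
    exact this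
  obtain ⟨hr, j, hj⟩ := PS_overU hL.red hyP (by rw [hq]; exact hx.1)
  have hodd : Odd j := by
    rcases Int.even_or_odd j with he | ho
    · rw [hj, pos_cos_even he] at hd
      linarith
    · exact ho
  have hy : Λ c x = (x.1, x.2 + j * Real.pi) := by
    refine Prod.ext (Prod.ext hq ?_) ?_
    · show (Λ c x).1.2 = x.1.2
      rw [hr, hx.2.1]
    · show (Λ c x).2 = x.2 + j * Real.pi
      rw [hj, hx.2.2, zero_add]
  have h1 := leaf_odd hL.red hL.curv hL.flow hxP hodd (-(c / 2))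
  rw [← hy, hL.flow.add hX, neg_neg] at h1
  have h2 : -(c / 2) + c = c / 2 := by ring
  rw [h2] at h1
  have h3 := congrArg Prod.snd h1
  simp only at h3
  exact pos_odd_ne hodd (by linarith)

private theorem pos_tc_self (q : E n) : tc v q q = 0 := by simp [tc]

theorem pos (hL : Leaf v C U U₂ T κ Λ) {x : (E n × ℝ) × ℝ} (hx : x ∈ OO U) {s : ℝ} (hs : 0 < s) :
    0 < tc v x.1.1 (Λ s x).1.1 := by
  by_contra hle
  obtain ⟨s₁, _, h1, h2⟩ := pos_first_zero (a := fun s => tc v x.1.1 (Λ s x).1.1)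
    (a' := fun s => Real.cos (Λ s x).2) (fun s => leaf_tc hL.hv hL.flow x.1.1 x s)
    (by simp only [hL.flow.zero]; exact pos_tc_self _)
    (by simp only [hL.flow.zero, hx.2.2]; simp) hs (not_lt.1 hle)
  exact pos_core hL hx h1 h2

theorem neg (hL : Leaf v C U U₂ T κ Λ) {x : (E n × ℝ) × ℝ} (hx : x ∈ OO U) {s : ℝ} (hs : s < 0) :
    tc v x.1.1 (Λ s x).1.1 < 0 := by
  by_contra hle
  obtain ⟨s₁, _, h1, h2⟩ := pos_first_zero (a := fun s => - tc v x.1.1 (Λ (-s) x).1.1)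
    (a' := fun s => Real.cos (Λ (-s) x).2) (fun s => by
      have h := ((leaf_tc hL.hv hL.flow x.1.1 x (-s)).comp s (hasDerivAt_neg s)).neg
      have h2 : -(Real.cos (Λ (-s) x).2 * -1) = Real.cos (Λ (-s) x).2 := by ring
      rw [h2] at h
      exact h)
    (by simp only [neg_zero, hL.flow.zero]; rw [pos_tc_self, neg_zero])
    (by simp only [neg_zero, hL.flow.zero, hx.2.2]; simp) (s := -s) (by linarith)
    (by simp only [neg_neg]; linarith [not_lt.1 hle])
  exact pos_core hL hx (by simpa using h1) h2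

private theorem pos_no_return (hL : Leaf v C U U₂ T κ Λ) {x : (E n × ℝ) × ℝ} (hx : x ∈ OO U)
    {s : ℝ} (h : (Λ s x).1 = x.1) : s = 0 := by
  rcases lt_trichotomy s 0 with h1 | h1 | h1
  · have := neg hL hx h1
    rw [h, pos_tc_self] at this
    exact absurd this (lt_irrefl 0)
  · exact h1
  · have := pos hL hx h1
    rw [h, pos_tc_self] at this
    exact absurd this (lt_irrefl 0)

theorem inj_OO (hL : Leaf v C U U₂ T κ Λ) {x : (E n × ℝ) × ℝ} (hx : x ∈ OO U) {s t : ℝ}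
    (h : (Λ s x).1 = (Λ t x).1) : s = t := by
  have hX := LF_contDiff hL.curv
  have hxP := OO_sub hL.red hx
  have hsP := leaf_mem hL.red hL.curv hL.flow hxP s
  have htP := leaf_mem hL.red hL.curv hL.flow hxP t
  obtain ⟨k, hk⟩ := PS_unique hL.red (y := (Λ t x).1) (φ := (Λ s x).2) (ψ := (Λ t x).2)
    (by rw [← h]; exact hsP) htP
  have hy : Λ s x = ((Λ t x).1, (Λ t x).2 + k * Real.pi) := Prod.ext h hk
  rcases Int.even_or_odd k with he | ho
  · have h1 := leaf_even hL.red hL.curv hL.flow htP he (-t)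
    rw [← hy, hL.flow.add hX, hL.flow.add hX] at h1
    have h2 : -t + t = 0 := by ring
    rw [h2, hL.flow.zero] at h1
    have h3 := pos_no_return hL hx (s := -t + s) (by rw [h1])
    linarith
  · have h1 := leaf_odd hL.red hL.curv hL.flow htP ho ((t - s) / 2)
    rw [← hy, hL.flow.add hX, hL.flow.add hX] at h1
    have h2 : (t - s) / 2 + s = -((t - s) / 2) + t := by ring
    rw [h2] at h1
    have h3 := congrArg Prod.snd h1
    simp only at h3
    exact absurd (by linarith : (k : ℝ) * Real.pi = 0) (pos_odd_ne ho)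

theorem inj_RR (hL : Leaf v C U U₂ T κ Λ) {x : (E n × ℝ) × ℝ} (hx : x ∈ RR v C U Λ) {s t : ℝ}
    (h : (Λ s x).1 = (Λ t x).1) : s = t := by
  have hX := LF_contDiff hL.curv
  obtain ⟨_, s₀, hs₀⟩ := hx
  have key : ∀ w : ℝ, Λ (w - s₀) (Λ s₀ x) = Λ w x := by
    intro w
    rw [hL.flow.add hX]
    congr 1
    ring
  have h1 := inj_OO hL hs₀ (s := s - s₀) (t := t - s₀) (by rw [key, key]; exact h)
  linarith

end Pool.Agent.H2.TG
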