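import Pool.Agent.H2.TG.LeafB

/-!
# Near points of `C` in the same plane are on the same leaf (module Sep)

PROOF of `sep_loc` (local statement at `x₀ ∈ C`). Take a local equation `W, u` at `x₀` and a phase
`ϑ` on `W` (`exists_phase`; shrink `W`), `φ₀ = ϑ x₀`; let `e = (cos φ₀ • v, sin φ₀)`,
`e' = (-sin φ₀ • v, cos φ₀)` (vectors of the plane). `Du(x₀) e = 0` (`PhaseOf.tang`), so `Du(x₀) e' ≠ 0` (`hC.reg`
and linearity); say `Du(x₀) e' > 0` (otherwise replace `u` by `-u`). Choose `ε > 0` with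
`B = ball x₀ (8 ε) ⊆ W`, `Du(y) e' > 0` on `B`, `|ϑ y - φ₀| ≤ π / 4` on `B` and `8 ε < 1`. Let `x ∈ PS`, `y ∈ C`,
`‖x.1 - x₀‖ < ε`, `‖y - x₀‖ < ε`, `y.1 = x.1.1 + t • v`. By `PS_pi`/`leaf_even`/`leaf_odd` we may assume that the phase of
`x` is `ϑ x.1` (if `x.2 = ϑ x.1 + j π`, the leaf of `x` and of `(x.1, ϑ x.1)` have the same base points, with time
reversed for `j` odd). While `Λ s x` stays over `B`, its phase is `ϑ ((Λ s x).1)` (both are phases of the
same point of `PS`, so they differ by a multiple of `π`, constant by continuity, zero at `s = 0`). So the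
coordinate `b s = ` (component of `(Λ s x).1 - x.1` along `e`) has derivative
`cos (phase - φ₀) ≥ cos (π/4) > 1/2`; here the component of `(w • v, r)` along `e` is `w cos φ₀ + r sin φ₀`. The leaf
moves with speed at most `2` (sup norm of `(cos • v, sin)` is at most `1`), so it stays in `B` for `|s| ≤ 6 ε`, and
`b` takes all the values in `[-3 ε, 3 ε]` there. The component of `y - x.1` along `e` has absolute value at
most `2 ‖y - x.1‖ < 4 ε`: choose the constants with more room (e.g. `B` of radius `20 ε`, `|s| ≤ 9 ε`,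
`20 ε < 1`, values in `[-4.5 ε, 4.5 ε]`). So there is `s`, `|s| < 1`, such that `(Λ s x).1` and `y` have the same component
along `e`: `y - (Λ s x).1 = c • e'` (both in the plane, `leaf_q`). Both points are in `C ∩ B`, so `u = 0` at both,
and `B` is convex; `g λ = u ((Λ s x).1 + λ c • e')` has derivative `c Du(…) e'`, of the sign of `c`; if
`c ≠ 0`, `g` is strictly monotone, contradiction with `g 0 = g 1 = 0`. So `y = (Λ s x).1`.
PROOF of `sep`: if false, there are `x_k ∈ PS`, `y_k ∈ C` in the same plane, `‖y_k - x_k.1‖ < 1/(k+1)`, without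
such `s`. Translate by the lattice (`leaf_trans`, `PS_inv`, `hR.inv`), so that `‖x_k.1.1‖ ≤ R`; `x_k.1.2` is
bounded; pass to a subsequence `x_k.1 → x₀ ∈ C`, `y_k → x₀`; contradiction with `sep_loc`.
-/

set_option autoImplicit false

open scoped ContDiff Topology RealInnerProductSpace
open Set

namespace Pool.Agent.H2.TG

open Pool.Agent.H57.NL

variable {n : ℕ} {v : E n} {C : Set (E n × ℝ)} {U : Set (E n)} {κ : (E n × ℝ) × ℝ → ℝ}
  {Λ : ℝ → (E n × ℝ) × ℝ → (E n × ℝ) × ℝ}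

private theorem sep_speed (hv : ‖v‖ = 1) (hΛ : IsFlow (LF v κ) Λ) (x : (E n × ℝ) × ℝ) (s : ℝ) :
    ‖(Λ s x).1 - x.1‖ ≤ |s| := by
  have hd : ∀ t, HasDerivAt (fun s => (Λ s x).1)
      ((Real.cos (Λ t x).2 • v, Real.sin (Λ t x).2) : E n × ℝ) t := fun t => (hΛ.deriv x t).fst
  have hb : ∀ t, ‖((Real.cos (Λ t x).2 • v, Real.sin (Λ t x).2) : E n × ℝ)‖ ≤ 1 := by
    intro t
    rw [Prod.norm_def]
    refine max_le ?_ ?_
    · show ‖Real.cos (Λ t x).2 • v‖ ≤ 1
      rw [norm_smul, hv, mul_one]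
      exact Real.abs_cos_le_one _
    · exact Real.abs_sin_le_one _
  have h := Convex.norm_image_sub_le_of_norm_hasDerivWithin_le (f := fun s => (Λ s x).1)
    (f' := fun t => ((Real.cos (Λ t x).2 • v, Real.sin (Λ t x).2) : E n × ℝ)) (C := 1)
    (s := univ) (x := 0) (y := s) (fun t _ => (hd t).hasDerivWithinAt) (fun t _ => hb t)
    convex_univ (mem_univ _) (mem_univ _)
  simpa [hΛ.zero] using h

private theorem sep_cos {a b : ℝ} {k : ℤ} (hab : |b| ≤ Real.pi / 4) (h : a = b + k * Real.pi) :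
    1 / 2 ≤ |Real.cos a| := by
  have h1 : |Real.cos a| = |Real.cos b| := by
    rw [h, Real.cos_add_int_mul_pi]
    rw [abs_mul]
    have : |((-1 : ℝ)) ^ k| = 1 := by
      rw [abs_zpow]; simp
    rw [this, one_mul]
  have h2 : Real.cos (Real.pi / 4) ≤ Real.cos b := by
    rw [← Real.cos_abs b]
    exact Real.cos_le_cos_of_nonneg_of_le_pi (abs_nonneg b) (by linarith [Real.pi_pos]) hab
  have h3 : (1 : ℝ) / 2 ≤ Real.cos (Real.pi / 4) := by
    rw [Real.cos_pi_div_four]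
    have : (1 : ℝ) ≤ Real.sqrt 2 := by
      rw [show (1 : ℝ) = Real.sqrt 1 by simp]
      exact Real.sqrt_le_sqrt (by norm_num)
    linarith
  rw [h1]
  exact le_trans (le_trans h3 h2) (le_abs_self _)

/-- The derivative of the local equation across the leaf. -/
private theorem sep_reg {W : Set (E n × ℝ)} {u : E n × ℝ → ℝ} (hC : LocEq v C W u)
    {x : E n × ℝ} (hx : x ∈ W) {φ : ℝ} (h : dplane v u x (Real.cos φ) (Real.sin φ) = 0) :
    dplane v u x (-Real.sin φ) (Real.cos φ) ≠ 0 := by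
  intro h'
  rw [dplane_lin] at h h'
  have hs := Real.sin_sq_add_cos_sq φ
  refine hC.reg x hx ⟨?_, ?_⟩
  · linear_combination Real.cos φ * h - Real.sin φ * h' - dplane v u x 1 0 * hs
  · linear_combination Real.sin φ * h + Real.cos φ * h' - dplane v u x 0 1 * hs

private theorem sep_cont {W : Set (E n × ℝ)} {u : E n × ℝ → ℝ} (hC : LocEq v C W u) (a b : ℝ) :
    ContinuousOn (fun y => dplane v u y a b) W := by
  have h1 : ContinuousOn (fderiv ℝ u) W :=
    hC.smooth.continuousOn_fderiv_of_isOpen hC.isOpen (by simp)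
  exact h1.clm_apply continuousOn_const

/-- Two points of `C` on a line across the leaf are equal. -/
private theorem sep_rolle {W : Set (E n × ℝ)} {u : E n × ℝ → ℝ} (hC : LocEq v C W u)
    {x₀ : E n × ℝ} {ρ φ₀ : ℝ} (hB : Metric.ball x₀ ρ ⊆ W)
    (hne : ∀ y ∈ Metric.ball x₀ ρ, dplane v u y (-Real.sin φ₀) (Real.cos φ₀) ≠ 0)
    {p : E n × ℝ} {c : ℝ} (hp : p ∈ C) (hpB : p ∈ Metric.ball x₀ ρ)
    (hy : p + c • ((-Real.sin φ₀) • v, Real.cos φ₀) ∈ C)
    (hyB : p + c • ((-Real.sin φ₀) • v, Real.cos φ₀) ∈ Metric.ball x₀ ρ) : c = 0 := by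
  by_contra hc
  set e' : E n × ℝ := ((-Real.sin φ₀) • v, Real.cos φ₀) with he'
  have hseg : ∀ l ∈ Icc (0 : ℝ) 1, p + l • (c • e') ∈ Metric.ball x₀ ρ := by
    intro l hl
    have := (convex_ball x₀ ρ).add_smul_sub_mem hpB hyB hl
    simpa [add_sub_cancel_left] using this
  have hd : ∀ l ∈ Icc (0 : ℝ) 1, HasDerivAt (fun l : ℝ => u (p + l • (c • e')))
      (c * dplane v u (p + l • (c • e')) (-Real.sin φ₀) (Real.cos φ₀)) l := by
    intro l hl
    have hW := hB (hseg l hl)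
    have h1 : DifferentiableAt ℝ u (p + l • (c • e')) :=
      (hC.smooth.contDiffAt (hC.isOpen.mem_nhds hW)).differentiableAt (by simp)
    have h2 : HasDerivAt (fun l : ℝ => p + l • (c • e')) (c • e') l := by
      have := ((hasDerivAt_id l).smul_const (c • e')).const_add p
      simpa using this
    have h3 := h1.hasFDerivAt.comp_hasDerivAt l h2
    have h4 : (fderiv ℝ u (p + l • (c • e'))) (c • e') =
        c * dplane v u (p + l • (c • e')) (-Real.sin φ₀) (Real.cos φ₀) := by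
      rw [map_smul, smul_eq_mul, he', dplane]
    rw [h4] at h3
    exact h3
  obtain ⟨l, hl, h0⟩ := exists_hasDerivAt_eq_zero (f := fun l : ℝ => u (p + l • (c • e')))
    (f' := fun l => c * dplane v u (p + l • (c • e')) (-Real.sin φ₀) (Real.cos φ₀))
    (a := 0) (b := 1) zero_lt_one (fun l hl => (hd l hl).continuousAt.continuousWithinAt)
    (by
      have h1 : u p = 0 := (hC.eqn p (hB hpB)).1 hp
      have h2 : u (p + c • e') = 0 := (hC.eqn _ (hB hyB)).1 hy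
      simp only [zero_smul, add_zero, one_smul, h1, h2])
    (fun l hl => hd l (Ioo_subset_Icc_self hl))
  exact hne _ (hseg l (Ioo_subset_Icc_self hl)) ((mul_eq_zero.1 h0).resolve_left hc)

theorem sep_loc (hR : Red v C U) (hv : ‖v‖ = 1) (hκ : Curv v C κ) (hΛ : IsFlow (LF v κ) Λ)
    {x₀ : E n × ℝ} (hx₀ : x₀ ∈ C) : ∃ ε : ℝ, 0 < ε ∧ ∀ x ∈ PS v C, ∀ y ∈ C,
      (∃ t : ℝ, y.1 = x.1.1 + t • v) → ‖x.1 - x₀‖ < ε → ‖y - x₀‖ < ε →
        ∃ s, |s| < 1 ∧ (Λ s x).1 = y := by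
  obtain ⟨W₀, u, hxW₀, hC₀⟩ := hR.loc x₀ hx₀
  obtain ⟨φ₀, hφ₀⟩ := PS_exists hR hx₀
  have hd0 := (mem_PS hC₀ (x := (x₀, φ₀)) hx₀ hxW₀).1 hφ₀
  obtain ⟨W, ϑ, -, hxW, hC, hϑ, hϑ0⟩ := exists_phase hC₀ hxW₀ hd0
  have hP0 := sep_reg hC hxW hd0
  -- choice of the radius
  have hev : ∀ᶠ y in 𝓝 x₀, y ∈ W ∧ dplane v u y (-Real.sin φ₀) (Real.cos φ₀) ≠ 0 ∧
      |ϑ y - φ₀| < Real.pi / 4 := by
    have h1 : ∀ᶠ y in 𝓝 x₀, y ∈ W := hC.isOpen.mem_nhds hxW
    have h2 : ∀ᶠ y in 𝓝 x₀, dplane v u y (-Real.sin φ₀) (Real.cos φ₀) ≠ 0 :=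
      ((sep_cont hC _ _).continuousAt (hC.isOpen.mem_nhds hxW)).eventually_ne hP0
    have h3 : ContinuousAt (fun y => |ϑ y - φ₀|) x₀ :=
      ((hϑ.smooth.continuousOn.continuousAt (hC.isOpen.mem_nhds hxW)).sub
        continuousAt_const).abs
    have h4 : ∀ᶠ y in 𝓝 x₀, |ϑ y - φ₀| < Real.pi / 4 :=
      h3.eventually_lt continuousAt_const (by simp [hϑ0]; positivity)
    filter_upwards [h1, h2, h4] with y a b c using ⟨a, b, c⟩
  rw [Metric.eventually_nhds_iff_ball] at hev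
  obtain ⟨ρ, hρ, hball⟩ := hev
  set ε : ℝ := min (ρ / 20) (1 / 20) with hε
  have hεpos : 0 < ε := lt_min (by linarith) (by norm_num)
  have hερ : 20 * ε ≤ ρ := by linarith [min_le_left (ρ / 20) (1 / 20 : ℝ)]
  have hε1 : 20 * ε ≤ 1 := by linarith [min_le_right (ρ / 20) (1 / 20 : ℝ)]
  refine ⟨ε, hεpos, ?_⟩
  rintro x hx y hy ⟨t, ht⟩ hxε hyε
  -- the leaf stays in the ball
  have hstay : ∀ s, |s| ≤ 9 * ε → (Λ s x).1 ∈ Metric.ball x₀ ρ := by
    intro s hs
    rw [mem_ball_iff_norm]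
    calc ‖(Λ s x).1 - x₀‖ = ‖((Λ s x).1 - x.1) + (x.1 - x₀)‖ := by congr 1; abel
      _ ≤ ‖(Λ s x).1 - x.1‖ + ‖x.1 - x₀‖ := norm_add_le _ _
      _ < ρ := by linarith [sep_speed hv hΛ x s]
  have hyB : y ∈ Metric.ball x₀ ρ := by
    rw [mem_ball_iff_norm]; linarith
  have hmem := fun s => leaf_mem hR hκ hΛ hx s
  set f : ℝ → ℝ := fun s => Real.cos ((Λ s x).2 - φ₀) with hf
  have hfabs : ∀ s, |s| ≤ 9 * ε → 1 / 2 ≤ |f s| := by
    intro s hs
    have hb := hball _ (hstay s hs)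
    have hin := hmem s
    have h1 : ((Λ s x).1, ϑ (Λ s x).1) ∈ PS v C :=
      (mem_PS hC (x := ((Λ s x).1, ϑ (Λ s x).1)) hin.1 hb.1).2 (hϑ.tang _ hb.1)
    obtain ⟨k, hk⟩ := PS_unique hR (y := (Λ s x).1) (φ := (Λ s x).2) hin h1
    exact sep_cos (b := ϑ (Λ s x).1 - φ₀) (k := k) hb.2.2.le (by rw [hk]; ring)
  have hph : Continuous fun s => (Λ s x).2 :=
    continuous_iff_continuousAt.2 fun s => (leaf_ph hΛ x s).continuousAt
  have hfc : Continuous f := Real.continuous_cos.comp (hph.sub continuous_const)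
  have hsign : ∀ s, |s| ≤ 9 * ε → (0 < f 0 → 1 / 2 ≤ f s) ∧ (f 0 < 0 → f s ≤ -(1 / 2)) := by
    intro s hs
    have hno : (0 : ℝ) ∉ uIcc (f 0) (f s) := by
      intro h0
      obtain ⟨r, hr, hr0⟩ := intermediate_value_uIcc (f := f) (a := 0) (b := s)
        hfc.continuousOn h0
      have hrs : |r| ≤ 9 * ε := by
        have := abs_sub_left_of_mem_uIcc hr
        simp only [sub_zero] at this
        exact this.trans hs
      have := hfabs r hrs
      rw [hr0, abs_zero] at this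
      linarith
    have habs := hfabs s hs
    constructor
    · intro h0
      rcases le_abs.1 habs with h1 | h1
      · exact h1
      · exact absurd (mem_uIcc.2 (Or.inr ⟨by linarith, h0.le⟩)) hno
    · intro h0
      rcases le_abs.1 habs with h1 | h1
      · exact absurd (mem_uIcc.2 (Or.inl ⟨h0.le, by linarith⟩)) hno
      · linarith
  -- the coordinate along the leaf
  set b : ℝ → ℝ := fun s => tc v x.1.1 (Λ s x).1.1 * Real.cos φ₀ +
    ((Λ s x).1.2 - x.1.2) * Real.sin φ₀ with hbdef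
  have hbd : ∀ s, HasDerivAt b (f s) s := by
    intro s
    have h1 := ((leaf_tc hv hΛ x.1.1 x s).mul_const (Real.cos φ₀)).add
      (((leaf_r hΛ x s).sub_const x.1.2).mul_const (Real.sin φ₀))
    have h2 : Real.cos (Λ s x).2 * Real.cos φ₀ + Real.sin (Λ s x).2 * Real.sin φ₀ = f s := by
      rw [hf]; simp only; rw [Real.cos_sub]
    rw [h2] at h1
    exact h1
  have hbc : Continuous b := continuous_iff_continuousAt.2 fun s => (hbd s).continuousAt
  have hb0 : b 0 = 0 := by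
    simp [hbdef, hΛ.zero, tc]
  have hε9 : (0 : ℝ) < 9 * ε := by linarith
  obtain ⟨ξ, hξ, hξe⟩ := exists_hasDerivAt_eq_slope b f hε9 hbc.continuousOn
    (fun s _ => hbd s)
  obtain ⟨η, hη, hηe⟩ := exists_hasDerivAt_eq_slope b f (neg_lt_zero.2 hε9) hbc.continuousOn
    (fun s _ => hbd s)
  have hb1 : b (9 * ε) = 9 * ε * f ξ := by
    rw [hξe, hb0]; field_simp; ring
  have hb2 : b (-(9 * ε)) = -(9 * ε) * f η := by
    rw [hηe, hb0]; field_simp; ring
  have hξ9 : |ξ| ≤ 9 * ε := abs_le.2 ⟨by linarith [hξ.1], hξ.2.le⟩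
  have hη9 : |η| ≤ 9 * ε := abs_le.2 ⟨hη.1.le, by linarith [hη.2]⟩
  -- the target value
  have hdiff : ‖y - x.1‖ < 2 * ε := by
    calc ‖y - x.1‖ = ‖(y - x₀) - (x.1 - x₀)‖ := by congr 1; abel
      _ ≤ ‖y - x₀‖ + ‖x.1 - x₀‖ := norm_sub_le _ _
      _ < 2 * ε := by linarith
  have ht1 : |t| < 2 * ε := by
    have h1 : ‖y.1 - x.1.1‖ ≤ ‖y - x.1‖ := norm_fst_le (y - x.1)
    rw [ht, add_sub_cancel_left, norm_smul, hv, mul_one, Real.norm_eq_abs] at h1
    linarith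
  have hr1 : |y.2 - x.1.2| < 2 * ε := by
    have h1 : ‖y.2 - x.1.2‖ ≤ ‖y - x.1‖ := norm_snd_le (y - x.1)
    rw [Real.norm_eq_abs] at h1
    linarith
  set β : ℝ := t * Real.cos φ₀ + (y.2 - x.1.2) * Real.sin φ₀ with hβ
  have hβ4 : |β| ≤ 4 * ε := by
    calc |β| ≤ |t * Real.cos φ₀| + |(y.2 - x.1.2) * Real.sin φ₀| := abs_add_le _ _
      _ = |t| * |Real.cos φ₀| + |y.2 - x.1.2| * |Real.sin φ₀| := by rw [abs_mul, abs_mul]
      _ ≤ |t| * 1 + |y.2 - x.1.2| * 1 := by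
          gcongr
          · exact Real.abs_cos_le_one _
          · exact Real.abs_sin_le_one _
      _ ≤ 4 * ε := by linarith
  have hβu : β ∈ uIcc (b (-(9 * ε))) (b (9 * ε)) := by
    have hz : |(0 : ℝ)| ≤ 9 * ε := by rw [abs_zero]; exact hε9.le
    rcases le_abs.1 (hfabs 0 hz) with h0 | h0
    · have h1 := (hsign ξ hξ9).1 (by linarith)
      have h2 := (hsign η hη9).1 (by linarith)
      refine mem_uIcc.2 (Or.inl ⟨?_, ?_⟩)
      · rw [hb2]; nlinarith [neg_abs_le β]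
      · rw [hb1]; nlinarith [le_abs_self β]
    · have h1 := (hsign ξ hξ9).2 (by linarith)
      have h2 := (hsign η hη9).2 (by linarith)
      refine mem_uIcc.2 (Or.inr ⟨?_, ?_⟩)
      · rw [hb1]; nlinarith [neg_abs_le β]
      · rw [hb2]; nlinarith [le_abs_self β]
  obtain ⟨s, hs, hbs⟩ := intermediate_value_uIcc (f := b) hbc.continuousOn hβu
  have hs9 : |s| ≤ 9 * ε := by
    rw [uIcc_of_le (by linarith)] at hs
    exact abs_le.2 hs
  refine ⟨s, by linarith, ?_⟩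
  -- the two points agree
  set p := (Λ s x).1 with hp
  set a := tc v x.1.1 p.1 with ha
  have hpq : p.1 = x.1.1 + a • v := leaf_q hv hΛ x s
  have hbs' : a * Real.cos φ₀ + (p.2 - x.1.2) * Real.sin φ₀ = β := hbs
  set c : ℝ := -(t - a) * Real.sin φ₀ + (y.2 - p.2) * Real.cos φ₀ with hc
  have hsc := Real.sin_sq_add_cos_sq φ₀
  have h1 : t - a = c * (-Real.sin φ₀) := by
    rw [hc]
    linear_combination (-(t - a)) * hsc + Real.cos φ₀ * (hβ.symm.trans hbs'.symm)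
  have h2 : y.2 - p.2 = c * Real.cos φ₀ := by
    rw [hc]
    linear_combination (-(y.2 - p.2)) * hsc + Real.sin φ₀ * (hβ.symm.trans hbs'.symm)
  have hyp : y = p + c • ((-Real.sin φ₀) • v, Real.cos φ₀) := by
    refine Prod.ext ?_ ?_
    · show y.1 = p.1 + c • ((-Real.sin φ₀) • v)
      rw [smul_smul, ← h1, ht, hpq, sub_smul]
      abel
    · show y.2 = p.2 + c • Real.cos φ₀
      rw [smul_eq_mul, ← h2]; ring
  have hc0 : c = 0 := sep_rolle hC (fun z hz => (hball z hz).1) (fun z hz => (hball z hz).2.1)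
    (p := p) (hmem s).1 (hstay s hs9) (by rw [← hyp]; exact hy) (by rw [← hyp]; exact hyB)
  rw [hyp, hc0, zero_smul, add_zero]

theorem sep (hR : Red v C U) (hv : ‖v‖ = 1) (hκ : Curv v C κ) (hΛ : IsFlow (LF v κ) Λ) :
    ∃ δ : ℝ, 0 < δ ∧ ∀ x ∈ PS v C, ∀ y ∈ C, (∃ t : ℝ, y.1 = x.1.1 + t • v) → ‖y - x.1‖ < δ →
      ∃ s, |s| < 1 ∧ (Λ s x).1 = y := by
  obtain ⟨M, hM⟩ := hR.bdd
  obtain ⟨R, hRR⟩ := lat_cocpt (n := n)
  choose! ε hε hloc using fun (x₀ : E n × ℝ) (hx₀ : x₀ ∈ C) => sep_loc hR hv hκ hΛ hx₀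
  set K : Set (E n × ℝ) := C ∩ (Metric.closedBall 0 R ×ˢ Icc (-M) M) with hK
  have hKc : IsCompact K :=
    IsCompact.inter_left ((isCompact_closedBall (0 : E n) R).prod isCompact_Icc) hR.closed
  obtain ⟨δ, hδ, H⟩ := lebesgue_number_lemma_of_metric (s := K)
    (c := fun x₀ : C => Metric.ball (x₀ : E n × ℝ) (ε x₀)) hKc (fun _ => Metric.isOpen_ball)
    (fun z hz => mem_iUnion.2 ⟨⟨z, hz.1⟩, Metric.mem_ball_self (hε z hz.1)⟩)
  refine ⟨δ, hδ, ?_⟩
  rintro x hx y hy ⟨t, ht⟩ hyx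
  obtain ⟨g, hg, hgR⟩ := hRR x.1.1
  have hx' := PS_inv hR hg hx
  have hy' := hR.inv g hg y hy
  have hKx : ((x.1.1 + g, x.1.2) : E n × ℝ) ∈ K := by
    refine ⟨hx'.1, ?_, ?_⟩
    · simpa using hgR
    · exact abs_le.1 (hM _ hx'.1)
  obtain ⟨⟨x₀, hx₀⟩, hsub⟩ := H _ hKx
  have h1 : ((x.1.1 + g, x.1.2) : E n × ℝ) ∈ Metric.ball x₀ (ε x₀) :=
    hsub (Metric.mem_ball_self hδ)
  have h2 : ((y.1 + g, y.2) : E n × ℝ) ∈ Metric.ball x₀ (ε x₀) := by
    refine hsub ?_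
    rw [mem_ball_iff_norm]
    have : ((y.1 + g, y.2) : E n × ℝ) - (x.1.1 + g, x.1.2) = y - x.1 := by
      refine Prod.ext ?_ ?_
      · show y.1 + g - (x.1.1 + g) = y.1 - x.1.1
        abel
      · rfl
    rw [this]
    exact hyx
  rw [mem_ball_iff_norm] at h1 h2
  obtain ⟨s, hs, hse⟩ := hloc x₀ hx₀ _ hx' _ hy' ⟨t, by
    show y.1 + g = x.1.1 + g + t • v
    rw [ht]; abel⟩ h1 h2
  refine ⟨s, hs, ?_⟩
  rw [leaf_trans hκ hΛ hg] at hse
  have e1 := congrArg Prod.fst hse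
  have e2 := congrArg Prod.snd hse
  exact Prod.ext (add_right_cancel e1) e2

end Pool.Agent.H2.TG
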