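import Pool.Agent.H2.TG.Zero
import Pool.Agent.H2.TG.Sep
import Pool.Agent.H2.TG.Pigeon

/-!
# The leaves in `RR` pass over `U₂` in bounded time (module Reach)

PROOF. Let `δ` be from `sep`, `M` from `hL.red.bdd`, `N` from `pigeon` with `A = T`, `B = M` and `δ` (or `δ / 2`),
`T1 = N`. Let `x ∈ RR`, suppose `(Λ s x).1.1 ∉ U₂` for all `|s| ≤ N`. By `hL.rays` at `q = x.1.1` there are
`0 ≤ t₁ ≤ T`, `0 ≤ t₂ ≤ T` with `q + t₁ • v ∈ U₂`, `q - t₂ • v ∈ U₂`. The coordinate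
`a s = tc v q (Λ s x).1.1` is continuous, `a 0 = 0`, `(Λ s x).1.1 = q + a s • v` (`leaf_q`), so `a s ≠ t₁`,
`a s ≠ - t₂` for `0 ≤ s ≤ N`; by the intermediate value theorem `-t₂ < a s < t₁` there (note
`0 ≠ t₁`: otherwise `s = 0` is over `U₂`; same for `t₂`), so `|a s| ≤ T`. Also `|(Λ s x).1.2| ≤ M`. Apply
`pigeon` to `p k = (a k, (Λ k x).1.2)`: `j < k ≤ N` with `‖(Λ k x).1 - (Λ j x).1‖ < δ` (sup norm,
`‖(a k - a j) • v‖ = |a k - a j|`). By `sep` at `Λ j x ∈ PS` and `y = (Λ k x).1 ∈ C`: there is `|s| < 1` with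
`(Λ s (Λ j x)).1 = (Λ k x).1`, i.e. `(Λ (s + j) x).1 = (Λ k x).1`; `inj_RR` gives `s + j = k`, `k - j ≥ 1 > s`:
contradiction. So some `|s| ≤ N` has `(Λ s x).1.1 ∈ U₂ ⊆ U` (`subset_closure`, `hL.cl₂`) and `RR_overU` gives
`Λ s x ∈ OO U`.
-/

set_option autoImplicit false

open scoped ContDiff Topology RealInnerProductSpace
open Set

namespace Pool.Agent.H2.TG

open Pool.Agent.H57.NL

variable {n : ℕ} {v : E n} {C : Set (E n × ℝ)} {U U₂ : Set (E n)} {T : ℝ}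
  {κ : (E n × ℝ) × ℝ → ℝ} {Λ : ℝ → (E n × ℝ) × ℝ → (E n × ℝ) × ℝ}

theorem reach (hL : Leaf v C U U₂ T κ Λ) : ∃ T1 : ℝ, 0 < T1 ∧ ∀ x ∈ RR v C U Λ,
    ∃ s, |s| ≤ T1 ∧ (Λ s x).1.1 ∈ U₂ ∧ Λ s x ∈ OO U := by
  obtain ⟨δ, hδ, hsep⟩ := sep hL.red hL.hv hL.curv hL.flow
  obtain ⟨M, hM⟩ := hL.red.bdd
  obtain ⟨N, hN, hpig⟩ := pigeon T M hδ
  refine ⟨(N : ℝ), by exact_mod_cast hN, fun x hx => ?_⟩
  by_contra hcon
  have hnot : ∀ s : ℝ, |s| ≤ N → (Λ s x).1.1 ∉ U₂ := fun s hs hU =>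
    hcon ⟨s, hs, hU, RR_overU hL hx (hL.cl₂ (subset_closure hU))⟩
  obtain ⟨⟨t1, h10, h1T, h1U⟩, t2, h20, h2T, h2U⟩ := hL.rays x.1.1
  have hq : ∀ s, (Λ s x).1.1 = x.1.1 + tc v x.1.1 (Λ s x).1.1 • v := leaf_q hL.hv hL.flow x
  have hcont : Continuous fun s => tc v x.1.1 (Λ s x).1.1 :=
    continuous_iff_continuousAt.2 fun s => (leaf_tc hL.hv hL.flow x.1.1 x s).continuousAt
  generalize ha : (fun s => tc v x.1.1 (Λ s x).1.1) = a at hcont
  have ha' : ∀ s, tc v x.1.1 (Λ s x).1.1 = a s := fun s => by rw [← ha]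
  have hq' : ∀ s, (Λ s x).1.1 = x.1.1 + a s • v := fun s => by rw [← ha' s]; exact hq s
  have ha0 : a 0 = 0 := by
    rw [← ha' 0, hL.flow.zero]; simp [tc]
  have hlt : ∀ s : ℝ, 0 ≤ s → s ≤ N → a s < t1 := by
    intro s hs hsN
    by_contra hge
    push Not at hge
    have h := intermediate_value_Icc hs hcont.continuousOn
    obtain ⟨s', hs', he⟩ := h ⟨by rw [ha0]; exact h10, hge⟩
    refine hnot s' (by rw [abs_of_nonneg hs'.1]; exact hs'.2.trans hsN) ?_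
    rw [hq' s', he]; exact h1U
  have hgt : ∀ s : ℝ, 0 ≤ s → s ≤ N → -t2 < a s := by
    intro s hs hsN
    by_contra hge
    push Not at hge
    have h := intermediate_value_Icc' hs hcont.continuousOn
    obtain ⟨s', hs', he⟩ := h ⟨hge, by rw [ha0]; linarith⟩
    refine hnot s' (by rw [abs_of_nonneg hs'.1]; exact hs'.2.trans hsN) ?_
    rw [hq' s', he, neg_smul, ← sub_eq_add_neg]; exact h2U
  have hmem : ∀ s, Λ s x ∈ PS v C := fun s => leaf_mem hL.red hL.curv hL.flow hx.1 s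
  obtain ⟨j, k, hjk, hkN, hd1, hd2⟩ := hpig (fun k => (a k, (Λ k x).1.2)) (by
    intro k hk
    have hk' : (k : ℝ) ≤ N := by exact_mod_cast hk
    refine ⟨abs_le.2 ⟨?_, ?_⟩, hM _ (hmem k).1⟩
    · have := hgt k (Nat.cast_nonneg k) hk'
      simp only
      linarith
    · have := hlt k (Nat.cast_nonneg k) hk'
      simp only
      linarith)
  have hdiff : (Λ k x).1.1 = (Λ j x).1.1 + (a k - a j) • v := by
    rw [hq' k, hq' j, sub_smul]; abel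
  have hnorm : ‖(Λ k x).1 - (Λ j x).1‖ < δ := by
    rw [Prod.norm_def]
    refine max_lt ?_ ?_
    · rw [Prod.fst_sub, hdiff, add_sub_cancel_left, norm_smul, hL.hv, mul_one, Real.norm_eq_abs]
      exact hd1
    · rw [Prod.snd_sub, Real.norm_eq_abs]
      exact hd2
  obtain ⟨s, hs, he⟩ := hsep _ (hmem j) _ (hmem k).1 ⟨a k - a j, hdiff⟩ hnorm
  rw [IsFlow.add hL.flow (LF_contDiff hL.curv)] at he
  have h := inj_RR hL hx he
  have h1 : (j : ℝ) + 1 ≤ k := by exact_mod_cast hjk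
  have h2 := (abs_lt.1 hs).2
  linarith

end Pool.Agent.H2.TG
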