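import Pool.Agent.H2.TG.Hyp

/-!
# The local equation is regular in the planes (module RegP)

PROOFS.
* `local_reg`: take `O, W, u` from `local_hyper`. CLAIM at `y = sig v z0`: not both
  `Du(y)(v, 0) = 0` and `Du(y)(0, 1) = 0` (`dplane v u y 1 0 = Du(y)(1 • v, 0)`). Otherwise the last
  clause gives `ξ, η ∈ Tan S z0` with `ξ.1 = v`, `⟪ξ.2, v⟫ = 0`, `η.1 = 0`, `⟪η.2, v⟫ = 1`; then
  `om ξ η = ⟪ξ.2, η.1⟫ - ⟪η.2, ξ.1⟫ = 0 - ⟪η.2, v⟫ = -1 ≠ 0`, contradiction with `hL.lag`.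
  `Du` is continuous on the open set `W`, so the set of `y ∈ W` where the claim holds is open; replace `W`
  by it (`u y = 0 ↔ …` is inherited).
* `exists_locEq`: let `x = sig v z0`, `z0 ∈ S`, take `O, W, u` from `local_reg`. For `y` near `x`,
  `y ∈ sig v '' S` implies `y ∈ sig v '' (S ∩ O)`: otherwise there are `z_k ∈ S \ O` with
  `sig v z_k → x`; `z_k.1` converges and `z_k.2` is bounded (`hL.bdd`), so a subsequence converges to
  `z ∈ S \ O` (closed set) with `sig v z = x = sig v z0`, so `z = z0` by `hE.inj`, contradiction.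
  Shrink `W` accordingly; then `y ∈ sig v '' S ↔ u y = 0` on `W`.
* `isClosed_image`: the same compactness argument (without `O`).
-/

set_option autoImplicit false

open scoped ContDiff Topology RealInnerProductSpace
open Set

namespace Pool.Agent.H2.TG

open Pool.Agent.H57.NL

variable {n : ℕ} {S : Set (E n × E n)} {f : E n × E n → ℝ} {v : E n}

private theorem regP_cont (v : E n) : Continuous (sig v) := by
  unfold sig
  fun_prop

/-- the image of a closed part of `S` over a ball is closed -/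
private theorem regP_closed (hL : ExactLag n univ (lat n) S f) {T : Set (E n × E n)}
    (hT : IsClosed T) (hTS : T ⊆ S) (ρ : ℝ) :
    IsClosed (sig v '' (T ∩ {z : E n × E n | ‖z.1‖ ≤ ρ})) := by
  obtain ⟨R, hR⟩ := hL.bdd
  have hc : IsClosed (T ∩ {z : E n × E n | ‖z.1‖ ≤ ρ}) :=
    hT.inter (isClosed_le continuous_fst.norm continuous_const)
  have hb : Bornology.IsBounded (T ∩ {z : E n × E n | ‖z.1‖ ≤ ρ}) := by
    refine Metric.isBounded_closedBall (x := (0 : E n × E n)) (r := max ρ R) |>.subset ?_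
    rintro z ⟨hz, hz1⟩
    rw [mem_closedBall_zero_iff, Prod.norm_def]
    exact max_le_max hz1 (hR z (hTS hz))
  exact ((Metric.isCompact_of_isClosed_isBounded hc hb).image (regP_cont v)).isClosed

theorem local_reg (hL : ExactLag n univ (lat n) S f) (hE : Embeds v S) {z0 : E n × E n}
    (hz : z0 ∈ S) : ∃ (O : Set (E n × E n)) (W : Set (E n × ℝ)) (u : E n × ℝ → ℝ),
      IsOpen O ∧ IsOpen W ∧ z0 ∈ O ∧ sig v z0 ∈ W ∧ ContDiffOn ℝ ∞ u W ∧
      (∀ y ∈ W, (u y = 0 ↔ y ∈ sig v '' (S ∩ O))) ∧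
      ∀ y ∈ W, ¬ (dplane v u y 1 0 = 0 ∧ dplane v u y 0 1 = 0) := by
  obtain ⟨O, W, u, hO, hW, hzO, hyW, hu, heq, -, hker⟩ := local_hyper hL hE hz
  have hcf : ContinuousOn (fderiv ℝ u) W := hu.continuousOn_fderiv_of_isOpen hW (by simp)
  have hc : ContinuousOn (fun y => (dplane v u y 1 0, dplane v u y 0 1)) W := by
    unfold dplane
    exact (hcf.clm_apply continuousOn_const).prodMk (hcf.clm_apply continuousOn_const)
  have hopen : IsOpen (W ∩ (fun y => (dplane v u y 1 0, dplane v u y 0 1)) ⁻¹' {(0 : ℝ × ℝ)}ᶜ) :=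
    hc.isOpen_inter_preimage hW isOpen_compl_singleton
  have h0 : ¬ (dplane v u (sig v z0) 1 0 = 0 ∧ dplane v u (sig v z0) 0 1 = 0) := by
    rintro ⟨h1, h2⟩
    obtain ⟨ξ, hξ, h3⟩ := hker _ h1
    obtain ⟨η, hη, h4⟩ := hker _ h2
    have h5 : v = ξ.1 := by
      have := congrArg Prod.fst h3
      simpa using this
    have h6 : (0 : E n) = η.1 := by
      have := congrArg Prod.fst h4
      simpa using this
    have h7 : (1 : ℝ) = ⟪η.2, v⟫ := congrArg Prod.snd h4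
    have h8 := hL.lag z0 hz ξ hξ η hη
    unfold om at h8
    rw [← h5, ← h6, inner_zero_right, ← h7] at h8
    norm_num at h8
  refine ⟨O, _, u, hO, hopen, hzO, ⟨hyW, ?_⟩, hu.mono inter_subset_left,
    fun y hy => heq y hy.1, ?_⟩
  · intro h1
    have h2 : (dplane v u (sig v z0) 1 0, dplane v u (sig v z0) 0 1) = (0 : ℝ × ℝ) := h1
    exact h0 ⟨congrArg Prod.fst h2, congrArg Prod.snd h2⟩
  · rintro y ⟨-, hy⟩ ⟨h1, h2⟩
    refine hy ?_
    change (dplane v u y 1 0, dplane v u y 0 1) = (0 : ℝ × ℝ)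
    rw [h1, h2]
    rfl

theorem exists_locEq (hL : ExactLag n univ (lat n) S f) (hE : Embeds v S) {x : E n × ℝ}
    (hx : x ∈ sig v '' S) : ∃ W u, x ∈ W ∧ LocEq v (sig v '' S) W u := by
  obtain ⟨z0, hz, rfl⟩ := hx
  obtain ⟨O, W, u, hO, hW, hzO, hyW, hu, heq, hreg⟩ := local_reg hL hE hz
  have hTc : IsClosed (S ∩ Oᶜ) := hL.closed.inter hO.isClosed_compl
  have hCT := regP_closed (v := v) hL hTc inter_subset_left (‖(sig v z0).1‖ + 1)
  set CT := sig v '' ((S ∩ Oᶜ) ∩ {z : E n × E n | ‖z.1‖ ≤ ‖(sig v z0).1‖ + 1}) with hCTd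
  have hxC : sig v z0 ∉ CT := by
    rintro ⟨z, ⟨⟨hzS, hzO'⟩, -⟩, hzz⟩
    have h1 : (sig v z).1 = (sig v z0).1 := by rw [hzz]
    have h2 : (sig v z).2 = (sig v z0).2 := by rw [hzz]
    have h3 : z = z0 := hE.inj z hzS z0 hz h1 h2
    exact hzO' (h3 ▸ hzO)
  have hNo : IsOpen {y : E n × ℝ | ‖y.1‖ < ‖(sig v z0).1‖ + 1} :=
    isOpen_lt continuous_fst.norm continuous_const
  refine ⟨W ∩ CTᶜ ∩ {y : E n × ℝ | ‖y.1‖ < ‖(sig v z0).1‖ + 1}, u, ⟨⟨hyW, hxC⟩, ?_⟩, ?_⟩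
  · change ‖(sig v z0).1‖ < ‖(sig v z0).1‖ + 1
    linarith
  · refine ⟨(hW.inter hCT.isOpen_compl).inter hNo, hu.mono fun y hy => hy.1.1, ?_,
      fun y hy => hreg y hy.1.1⟩
    rintro y ⟨⟨hy1, hy2⟩, hy3⟩
    rw [heq y hy1]
    constructor
    · rintro ⟨z, hzS, rfl⟩
      refine ⟨z, ⟨hzS, ?_⟩, rfl⟩
      by_contra hne
      have hy4 : ‖(sig v z).1‖ < ‖(sig v z0).1‖ + 1 := hy3
      exact hy2 ⟨z, ⟨⟨hzS, hne⟩, hy4.le⟩, rfl⟩
    · rintro ⟨z, ⟨hzS, -⟩, rfl⟩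
      exact ⟨z, hzS, rfl⟩

theorem isClosed_image (hL : ExactLag n univ (lat n) S f) : IsClosed (sig v '' S) := by
  rw [← isOpen_compl_iff, isOpen_iff_mem_nhds]
  intro x hx
  have hC := regP_closed (v := v) hL hL.closed le_rfl (‖x.1‖ + 1)
  have hNo : IsOpen {y : E n × ℝ | ‖y.1‖ < ‖x.1‖ + 1} :=
    isOpen_lt continuous_fst.norm continuous_const
  have h1 : x ∉ sig v '' (S ∩ {z : E n × E n | ‖z.1‖ ≤ ‖x.1‖ + 1}) := by
    rintro ⟨z, ⟨hz, -⟩, hzx⟩
    exact hx ⟨z, hz, hzx⟩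
  have h2 : x ∈ {y : E n × ℝ | ‖y.1‖ < ‖x.1‖ + 1} := by
    change ‖x.1‖ < ‖x.1‖ + 1
    linarith
  filter_upwards [hC.isOpen_compl.mem_nhds h1, hNo.mem_nhds h2] with y hy1 hy2
  rintro ⟨z, hz, rfl⟩
  have hy3 : ‖(sig v z).1‖ < ‖x.1‖ + 1 := hy2
  exact hy1 ⟨z, ⟨hz, hy3.le⟩, rfl⟩

end Pool.Agent.H2.TG
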