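import Pool.Agent.H2.TG.RhoDefs
import Pool.Agent.H57.NL.Loc

/-!
# The reduced straightening is a diffeomorphism (module Rhat)

PROOF. `R x = (B x, ρ x)`.
* Along an orbit `t ↦ ρ (Ψ t x)` has positive derivative `Dρ(X)(Ψ t x)`, so it is strictly increasing; it tends
  to `∞` as `t → ∞` (`top`) and to `-∞` as `t → -∞`: there is `t₁` with `Ψ t₁ x = (B x, -M)` (`orb`), and for
  `t ≤ t₁`, `Ψ t x = Ψ (t - t₁) (B x, -M) = (B x, -M + t - t₁)` (`x_down`), where `ρ = ` second coordinate (`bot`).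
* Surjective: given `(Q, P)` consider the orbit of `x = (Q, -M)`: `B = Q` on it (`bot`, `inv`), and `ρ` takes the
  value `P` by the intermediate value theorem.
* Injective: `R x = R y`; both orbits pass through `(B x, -M) = (B y, -M)` (`orb`), so `y = Ψ t x`, and strict
  monotonicity of `ρ` along the orbit gives `t = 0`.
* Let `R'` be the inverse function. Smooth: at `b = R x`, `DR(x)` is injective (`DB(x) w = 0` gives `w = k • X x`,
  and `Dρ(x) w = k Dρ(X) = 0` gives `k = 0`), the dimensions agree, `smooth_inverse` gives a local inverse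
  `Φ.symm`, smooth near `b`, with `R (Φ.symm b') = b'` near `b`; so `Φ.symm b' = R' b'` near `b` by injectivity.
-/

set_option autoImplicit false

open scoped ContDiff Topology RealInnerProductSpace
open Set

namespace Pool.Agent.H2.TG

open Pool.Agent.H57.NL

variable {n : ℕ} {v : E n} {Θ : E n × ℝ → ℝ} {U : Set (E n)} {M T : ℝ}
  {Ψ : ℝ → E n × ℝ → E n × ℝ} {B : E n × ℝ → E n} {A ρ : E n × ℝ → ℝ}

private theorem rhat_deriv (hF : IsFlow (XF v Θ 1) Ψ) (hR : Rho v Θ M Ψ B A ρ) (x : E n × ℝ)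
    (t : ℝ) : HasDerivAt (fun t => ρ (Ψ t x)) (fderiv ℝ ρ (Ψ t x) (XF v Θ 1 (Ψ t x))) t := by
  have h1 : HasFDerivAt ρ (fderiv ℝ ρ (Ψ t x)) (Ψ t x) :=
    (hR.smoothρ.differentiable (by simp) _).hasFDerivAt
  exact h1.comp_hasDerivAt t (hF.deriv x t)

private theorem rhat_mono (hF : IsFlow (XF v Θ 1) Ψ) (hR : Rho v Θ M Ψ B A ρ) (x : E n × ℝ) :
    StrictMono (fun t => ρ (Ψ t x)) := by
  apply strictMono_of_deriv_pos
  intro t
  rw [(rhat_deriv hF hR x t).deriv]
  exact hR.pos _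

private theorem rhat_surj (hP : Phase v Θ U M T) (hF : IsFlow (XF v Θ 1) Ψ)
    (hR : Rho v Θ M Ψ B A ρ) (Q : E n) : Function.Surjective (fun t => ρ (Ψ t (Q, -M))) := by
  have hc : Continuous (fun t => ρ (Ψ t (Q, -M))) :=
    continuous_iff_continuousAt.2 fun t => (rhat_deriv hF hR (Q, -M) t).continuousAt
  refine hc.surjective (hR.top _) ?_
  have h1 : Filter.Tendsto (fun t : ℝ => -M + t) Filter.atBot Filter.atBot :=
    Filter.tendsto_atBot_add_const_left _ _ Filter.tendsto_id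
  refine h1.congr' ?_
  filter_upwards [Filter.eventually_le_atBot (0 : ℝ)] with t ht
  have h2 : Ψ t (Q, -M) = (Q, -M + t) := x_down hP hF (x := (Q, -M)) (le_refl _) ht
  rw [h2]
  have h3 : ((Q, -M + t) : E n × ℝ).2 ≤ -M := by
    show -M + t ≤ -M
    linarith
  rw [hR.bot _ h3]

private theorem rhat_inj (hP : Phase v Θ U M T) (hF : IsFlow (XF v Θ 1) Ψ)
    (hR : Rho v Θ M Ψ B A ρ) {x y : E n × ℝ} (h1 : B x = B y) (h2 : ρ x = ρ y) : x = y := by
  have hX := XF_contDiff hP 1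
  obtain ⟨s, hs⟩ := hR.botmap.orb x
  obtain ⟨t, ht⟩ := hR.botmap.orb y
  have h3 : Ψ s x = Ψ t y := by rw [hs, ht, h1]
  have h4 : y = Ψ (-t + s) x := by
    rw [← hF.add hX, h3, hF.add hX, neg_add_cancel, hF.zero]
  have h5 : ρ (Ψ (-t + s) x) = ρ (Ψ 0 x) := by
    rw [← h4, hF.zero, h2]
  have h6 : -t + s = 0 := (rhat_mono hF hR x).injective h5
  rw [h4, h6, hF.zero]

theorem exists_rhat (hP : Phase v Θ U M T) (hF : IsFlow (XF v Θ 1) Ψ)
    (hR : Rho v Θ M Ψ B A ρ) : ∃ R' : E n × ℝ → E n × ℝ, ContDiff ℝ ∞ R' ∧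
      (∀ x, R' (B x, ρ x) = x) ∧ ∀ y, (B (R' y), ρ (R' y)) = y := by
  have hex : ∀ y : E n × ℝ, ∃ x : E n × ℝ, (B x, ρ x) = y := by
    intro y
    obtain ⟨t, ht⟩ := rhat_surj hP hF hR y.1 y.2
    refine ⟨Ψ t (y.1, -M), ?_⟩
    rw [hR.botmap.inv, hR.botmap.bot _ (le_refl _)]
    exact Prod.ext rfl ht
  choose R' hR' using hex
  have hleft : ∀ x, R' (B x, ρ x) = x := by
    intro x
    have h := hR' (B x, ρ x)
    exact rhat_inj hP hF hR (congrArg Prod.fst h) (congrArg Prod.snd h)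
  refine ⟨R', ?_, hleft, hR'⟩
  rw [contDiff_iff_contDiffAt]
  intro b
  let R : E n × ℝ → E n × ℝ := fun x => (B x, ρ x)
  have hRs : ContDiff ℝ ∞ R := hR.botmap.smooth.prodMk hR.smoothρ
  have hb : R (R' b) = b := hR' b
  have hinj : Function.Injective (fderiv ℝ R (R' b)) := by
    rw [injective_iff_map_eq_zero]
    intro w hw
    have h1 : HasFDerivAt B (fderiv ℝ B (R' b)) (R' b) :=
      (hR.botmap.smooth.differentiable (by simp) _).hasFDerivAt
    have h2 : HasFDerivAt ρ (fderiv ℝ ρ (R' b)) (R' b) :=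
      (hR.smoothρ.differentiable (by simp) _).hasFDerivAt
    have h3 : fderiv ℝ R (R' b) = (fderiv ℝ B (R' b)).prod (fderiv ℝ ρ (R' b)) :=
      (h1.prodMk h2).fderiv
    rw [h3] at hw
    have h4 : fderiv ℝ B (R' b) w = 0 := congrArg Prod.fst hw
    have h5 : fderiv ℝ ρ (R' b) w = 0 := congrArg Prod.snd hw
    obtain ⟨c, hc⟩ := hR.botmap.ker _ _ h4
    rw [hc, map_smul, smul_eq_mul, mul_eq_zero] at h5
    rcases h5 with h5 | h5
    · rw [hc, h5, zero_smul]
    · exact absurd h5 (hR.pos _).ne'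
  obtain ⟨Φ, hΦ, hsrc, hsm⟩ := smooth_inverse rfl
    (Filter.Eventually.of_forall fun a => hRs.contDiffAt) hinj
  rw [hb] at hsm
  have hbt : b ∈ Φ.target := by
    have := Φ.map_source hsrc
    rw [hΦ, hb] at this
    exact this
  refine hsm.self_of_nhds.congr_of_eventuallyEq ?_
  filter_upwards [Φ.open_target.mem_nhds hbt] with c hc
  have h1 : R (Φ.symm c) = c := by
    rw [← hΦ]
    exact Φ.right_inv hc
  rw [← hleft (Φ.symm c)]
  exact congrArg R' h1.symm

end Pool.Agent.H2.TG
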