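import Pool.Agent.H2.TG.RhoDefs
import Pool.Agent.H2.TG.Act
import Pool.Agent.H2.TG.Plane2

/-!
# The second coordinate of the reduced straightening (module Rho)

Let `B` be the bottom map, `A` the action (`exists_bot`, `exists_action`), `X = XF v Θ 1`,
`e x = (cos (Θ x) • v, sin (Θ x))`, `c x = ⟪DB(x)(e x), v⟫`.

PROOFS.
* `DB_plane`: `DB(x)(a • v, b) = ⟪DB(x)(a • v, b), v⟫ • v`: differentiate `line` along the plane (for `y` in the plane
  of `x`, `B y = x.1 + tc v x.1 (B y) • v`, because `y.1 - x.1` is a multiple of `v`, `‖v‖ = 1`).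
* `DB_X`: `DB(x) X(x) = 0`: differentiate `B (Ψ t x) = B x` at `t = 0`.
* `c_ne`: `c x ≠ 0`: otherwise `DB(x)(e x) = 0` (`DB_plane`), so `e x = k • X x` by `ker`, impossible (take the
  inner product of `(cos, sin) = k (- sin, cos)` with `(cos, sin)`: `1 = 0`).
* `c_pos`: `c` is continuous (`fderiv` of a smooth function) without zeros on the connected space `E n × ℝ`;
  at `x = (0, -M - 1)`: near this point `B y = y.1`, `Θ = 0`, so `c = ⟪v, v⟫ = 1 > 0`. So `c > 0` everywhere.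
* `c_bot`: for `x.2 ≤ -M`: `Θ x = 0`, `e x = (v, 0)`, `B (x.1 + t • v, x.2) = x.1 + t • v`, so `c x = 1`, and
  `DA(x)(v, 0) = 0` (`A = 0` along this line).
* put `ρ x = (x.2 * cos (Θ x) + DA(x)(e x)) / c x`: smooth (`ContDiff.fderiv_right`, `clm_apply`, division by a
  nonvanishing function), invariant. `id`: both sides are linear in `(a, b)`; check them on `(cos Θ, sin Θ)` (the
  definition of `ρ`) and on `(- sin Θ, cos Θ)`: left `- x.2 sin Θ + DA(X) = 0` by `exists_action`, right `0` by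
  `DB_X`; every `(a, b)` is a combination of the two.
  `pos`: apply `plane2` in the plane of `x`: with `b (t, r) = ⟪B (x.1 + t • v, r), v⟫`,
  `A' (t, r) = A (x.1 + t • v, r)`, `ρ' (t, r) = ρ (x.1 + t • v, r)`, at `(0, x.2)`: gives `c x * Dρ(x)(X x) = 1`.
  `bot`: `c_bot`: `ρ x = x.2 * 1 + 0`.
  `top`: let `t₀` be such that `M ≤ (Ψ t x).2` for `t ≥ t₀` (`high`). For `t ≥ t₀` put `y = Ψ t₀ x`, `Ψ t x =
  (y.1, y.2 + (t - t₀))` (`x_up`). The derivative of `ρ (Ψ t x)` is `Dρ(X) = 1 / c (Ψ t x)`, and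
  `c (y.1, r)` is constant for `r ≥ M`: there `Θ = 0`, `c (y.1, r) = ⟪DB(y.1, r)(v, 0), v⟫` and
  `B (q, r) = B (q, M)` for all `q` and `r ≥ M` (`x_up` and `inv`), so the derivative in the direction `(v, 0)` does
  not depend on `r ≥ M`. So `ρ (Ψ t x) = ρ (Ψ t₀ x) + (t - t₀) / c₀ → ∞`.
-/

set_option autoImplicit false

open scoped ContDiff Topology RealInnerProductSpace
open Set

namespace Pool.Agent.H2.TG

open Pool.Agent.H57.NL

variable {n : ℕ} {v : E n} {Θ : E n × ℝ → ℝ} {U : Set (E n)} {M T : ℝ}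
  {τ : ℝ} {Ψ : ℝ → E n × ℝ → E n × ℝ} {B : E n × ℝ → E n}

private theorem Rho_tc {B : E n × ℝ → E n} (hv : ‖v‖ = 1) (hB : BotMap v (XF v Θ 1) M Ψ B)
    (y : E n × ℝ) : B y - ⟪B y, v⟫ • v = y.1 - ⟪y.1, v⟫ • v := by
  have h := hB.line y
  have hvv : ⟪v, v⟫ = 1 := by rw [real_inner_self_eq_norm_sq, hv]; norm_num
  have h2 : B y = y.1 + ⟪B y - y.1, v⟫ • v := h
  rw [inner_sub_left] at h2
  have h3 : B y - y.1 = (⟪B y, v⟫ - ⟪y.1, v⟫) • v := by
    rw [sub_eq_iff_eq_add', ← h2]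
  rw [sub_smul] at h3
  rw [sub_eq_sub_iff_add_eq_add]
  have h4 : B y = y.1 + (⟪B y, v⟫ • v - ⟪y.1, v⟫ • v) := by
    rw [← h3]; abel
  calc B y + ⟪y.1, v⟫ • v = (y.1 + (⟪B y, v⟫ • v - ⟪y.1, v⟫ • v)) + ⟪y.1, v⟫ • v := by rw [← h4]
    _ = y.1 + ⟪B y, v⟫ • v := by abel

theorem DB_plane (hv : ‖v‖ = 1) (hB : BotMap v (XF v Θ 1) M Ψ B) (x : E n × ℝ) (a b : ℝ) :
    fderiv ℝ B x (a • v, b) = ⟪fderiv ℝ B x (a • v, b), v⟫ • v := by
  have hvv : ⟪v, v⟫ = 1 := by rw [real_inner_self_eq_norm_sq, hv]; norm_num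
  let P : E n →L[ℝ] E n := ContinuousLinearMap.id ℝ (E n) - (innerSL ℝ v).smulRight v
  have hP : ∀ z, P z = z - ⟪z, v⟫ • v := by
    intro z
    simp [P, real_inner_comm]
  have hBd : HasFDerivAt B (fderiv ℝ B x) x :=
    ((hB.smooth.differentiable (by simp)) x).hasFDerivAt
  have h1 : HasFDerivAt (fun y => P (B y)) (P.comp (fderiv ℝ B x)) x := P.hasFDerivAt.comp x hBd
  have h2 : HasFDerivAt (fun y : E n × ℝ => P y.1) (P.comp (ContinuousLinearMap.fst ℝ (E n) ℝ)) x :=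
    P.hasFDerivAt.comp x hasFDerivAt_fst
  have h3 : (fun y => P (B y)) = fun y : E n × ℝ => P y.1 := by
    funext y
    rw [hP, hP]
    exact Rho_tc hv hB y
  rw [h3] at h1
  have h4 := h1.unique h2
  have h5 := congrArg (fun (L : E n × ℝ →L[ℝ] E n) => L (a • v, b)) h4
  simp only [ContinuousLinearMap.comp_apply, ContinuousLinearMap.coe_fst'] at h5
  rw [hP, hP, inner_smul_left, hvv] at h5
  simp only [conj_trivial, mul_one, sub_self] at h5
  exact sub_eq_zero.1 h5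

theorem DB_X (hF : IsFlow (XF v Θ 1) Ψ) (hB : BotMap v (XF v Θ 1) M Ψ B) (x : E n × ℝ) :
    fderiv ℝ B x (XF v Θ 1 x) = 0 := by
  have hBd : HasFDerivAt B (fderiv ℝ B x) (Ψ 0 x) := by
    rw [hF.zero]
    exact ((hB.smooth.differentiable (by simp)) x).hasFDerivAt
  have h1 := hBd.comp_hasDerivAt (0 : ℝ) (hF.deriv x 0)
  have h2 : (B ∘ fun t => Ψ t x) = fun _ => B x := by
    funext t
    exact hB.inv t x
  rw [h2, hF.zero] at h1
  exact h1.unique (hasDerivAt_const _ _)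

private theorem Rho_ev (hB : BotMap v (XF v Θ 1) M Ψ B) {x : E n × ℝ} (hx : x.2 < -M) :
    fderiv ℝ B x = ContinuousLinearMap.fst ℝ (E n) ℝ := by
  have hev : B =ᶠ[𝓝 x] fun y => y.1 := by
    have ho : IsOpen {y : E n × ℝ | y.2 < -M} := isOpen_lt continuous_snd continuous_const
    filter_upwards [ho.mem_nhds hx] with y hy
    exact hB.bot y (le_of_lt hy)
  rw [hev.fderiv_eq]
  exact hasFDerivAt_fst.fderiv

private theorem Rho_e (hP : Phase v Θ U M T) :
    ContDiff ℝ ∞ fun x : E n × ℝ => ((Real.cos (Θ x) • v, Real.sin (Θ x)) : E n × ℝ) :=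
  ((Real.contDiff_cos.comp hP.smooth).smul contDiff_const).prodMk (Real.contDiff_sin.comp hP.smooth)

private theorem Rho_c (hP : Phase v Θ U M T) (hB : BotMap v (XF v Θ 1) M Ψ B) :
    ContDiff ℝ ∞ fun x : E n × ℝ =>
      ⟪fderiv ℝ B x (Real.cos (Θ x) • v, Real.sin (Θ x)), v⟫ :=
  ((hB.smooth.fderiv_right (m := ∞) (by simp)).clm_apply (Rho_e hP)).inner ℝ contDiff_const

theorem c_pos (hP : Phase v Θ U M T) (hB : BotMap v (XF v Θ 1) M Ψ B) (x : E n × ℝ) :
    0 < ⟪fderiv ℝ B x (Real.cos (Θ x) • v, Real.sin (Θ x)), v⟫ := by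
  have hv := hP.hv
  have hvv : ⟪v, v⟫ = 1 := by rw [real_inner_self_eq_norm_sq, hv]; norm_num
  have hne : ∀ z : E n × ℝ, ⟪fderiv ℝ B z (Real.cos (Θ z) • v, Real.sin (Θ z)), v⟫ ≠ 0 := by
    intro z hz
    have h1 := DB_plane hv hB z (Real.cos (Θ z)) (Real.sin (Θ z))
    rw [hz, zero_smul] at h1
    obtain ⟨k, hk⟩ := hB.ker z _ h1
    have h2 := congrArg (fun p : E n × ℝ => ⟪p.1, v⟫) hk
    have h3 := congrArg Prod.snd hk
    simp only [XF, Prod.smul_mk, one_mul, inner_smul_left, conj_trivial, hvv, mul_one,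
      smul_eq_mul] at h2 h3
    have h4 := Real.sin_sq_add_cos_sq (Θ z)
    have h5 : Real.sin (Θ z) ^ 2 + Real.cos (Θ z) ^ 2 = 0 := by
      calc Real.sin (Θ z) ^ 2 + Real.cos (Θ z) ^ 2
          = Real.sin (Θ z) * Real.sin (Θ z) + Real.cos (Θ z) * Real.cos (Θ z) := by ring
        _ = Real.sin (Θ z) * (k * Real.cos (Θ z)) + Real.cos (Θ z) * (k * -Real.sin (Θ z)) := by
            rw [← h2, ← h3]
        _ = 0 := by ring
    linarith
  have h0 : 0 < ⟪fderiv ℝ B ((0 : E n), -M - 1) (Real.cos (Θ ((0 : E n), -M - 1)) • v,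
      Real.sin (Θ ((0 : E n), -M - 1))), v⟫ := by
    have h1 : Θ ((0 : E n), -M - 1) = 0 := hP.supp _ (by
      show M ≤ |-M - 1|
      rw [le_abs]; right; linarith)
    rw [h1, Rho_ev hB (show -M - 1 < -M by linarith)]
    simp [hv]
  by_contra hneg
  push Not at hneg
  obtain ⟨z, hz⟩ := mem_range_of_exists_le_of_exists_ge (Rho_c hP hB).continuous
    ⟨x, hneg⟩ ⟨_, h0.le⟩
  exact hne z hz

private theorem Rho_dec {θ : ℝ} (a b : ℝ) :
    ((a • v, b) : E n × ℝ) = (a * Real.cos θ + b * Real.sin θ) • (Real.cos θ • v, Real.sin θ)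
      + (-a * Real.sin θ + b * Real.cos θ) • ((-Real.sin θ) • v, Real.cos θ) := by
  have h4 := Real.sin_sq_add_cos_sq θ
  refine Prod.ext ?_ ?_
  · simp only [Prod.smul_mk, Prod.mk_add_mk, smul_smul, ← add_smul]
    congr 1
    linear_combination (-a) * h4
  · simp only [Prod.smul_mk, Prod.mk_add_mk, smul_eq_mul]
    linear_combination (-b) * h4

private theorem Rho_iota (x : E n × ℝ) (p : ℝ × ℝ) :
    HasFDerivAt (fun p : ℝ × ℝ => ((x.1 + p.1 • v, p.2) : E n × ℝ))
      (((ContinuousLinearMap.fst ℝ ℝ ℝ).smulRight v).prod (ContinuousLinearMap.snd ℝ ℝ ℝ)) p := by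
  have h1 : HasFDerivAt (fun p : ℝ × ℝ => x.1 + p.1 • v)
      ((ContinuousLinearMap.fst ℝ ℝ ℝ).smulRight v) p :=
    (((ContinuousLinearMap.fst ℝ ℝ ℝ).smulRight v).hasFDerivAt).const_add x.1
  exact h1.prodMk hasFDerivAt_snd

private theorem Rho_iota_smooth (x : E n × ℝ) :
    ContDiff ℝ ∞ (fun p : ℝ × ℝ => ((x.1 + p.1 • v, p.2) : E n × ℝ)) :=
  (contDiff_const.add (contDiff_fst.smul contDiff_const)).prodMk contDiff_snd

private theorem Rho_comp {f : E n × ℝ → ℝ} (hf : ContDiff ℝ ∞ f) (x : E n × ℝ) (p : ℝ × ℝ)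
    (t s : ℝ) : fderiv ℝ (fun p : ℝ × ℝ => f (x.1 + p.1 • v, p.2)) p (t, s)
      = fderiv ℝ f (x.1 + p.1 • v, p.2) (t • v, s) := by
  have h1 : HasFDerivAt f (fderiv ℝ f (x.1 + p.1 • v, p.2)) (x.1 + p.1 • v, p.2) :=
    ((hf.differentiable (by simp)) _).hasFDerivAt
  have h2 := h1.comp p (Rho_iota (v := v) x p)
  have h3 := h2.fderiv
  have h4 : (f ∘ fun p : ℝ × ℝ => ((x.1 + p.1 • v, p.2) : E n × ℝ))
      = fun p : ℝ × ℝ => f (x.1 + p.1 • v, p.2) := rfl
  rw [h4] at h3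
  rw [h3]
  rfl

/-- Two functions of `(q, r)` which agree along the line `(x.1 + t v, r)`, `(x.1 + t v, r')` have the
same derivative in the direction `(v, 0)`. -/
private theorem Rho_line {W : Type*} [NormedAddCommGroup W] [NormedSpace ℝ W] {f g : E n × ℝ → W}
    (hf : ContDiff ℝ ∞ f) (hg : ContDiff ℝ ∞ g) (q : E n) (r r' : ℝ)
    (h : ∀ t : ℝ, f (q + t • v, r) = g (q + t • v, r')) :
    fderiv ℝ f (q, r) (v, 0) = fderiv ℝ g (q, r') (v, 0) := by
  have key : ∀ (f : E n × ℝ → W), ContDiff ℝ ∞ f → ∀ r : ℝ,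
      HasDerivAt (fun t : ℝ => f (q + t • v, r)) (fderiv ℝ f (q, r) (v, 0)) 0 := by
    intro f hf r
    have h1 : HasFDerivAt f (fderiv ℝ f (q, r)) (q + (0 : ℝ) • v, r) := by
      rw [zero_smul, add_zero]
      exact ((hf.differentiable (by simp)) _).hasFDerivAt
    have h2 : HasDerivAt (fun t : ℝ => ((q + t • v, r) : E n × ℝ)) (v, 0) 0 := by
      have h3 : HasDerivAt (fun t : ℝ => q + t • v) v 0 := by
        have := ((hasDerivAt_id (0 : ℝ)).smul_const v).const_add q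
        simpa using this
      exact h3.prodMk (hasDerivAt_const _ _)
    exact h1.comp_hasDerivAt (0 : ℝ) h2
  have h1 := key f hf r
  have h2 := key g hg r'
  have h3 : (fun t : ℝ => f (q + t • v, r)) = fun t : ℝ => g (q + t • v, r') := funext h
  rw [h3] at h1
  exact h1.unique h2

private theorem Rho_inv {W : Type*} [NormedAddCommGroup W] [NormedSpace ℝ W] {f : E n × ℝ → W}
    {g : E n} {w : W} (h : ∀ x : E n × ℝ, f (x.1 + g, x.2) = f x + w) (x : E n × ℝ) :
    fderiv ℝ f (x.1 + g, x.2) = fderiv ℝ f x := by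
  have h1 : fderiv ℝ (fun y => f (y + (g, (0 : ℝ)))) x = fderiv ℝ f (x + (g, (0 : ℝ))) :=
    fderiv_comp_add_right _
  have h2 : (fun y : E n × ℝ => f (y + (g, (0 : ℝ)))) = fun y => f y + w := by
    funext y
    rw [← h y]
    congr 1
    exact Prod.ext rfl (add_zero _)
  have h3 : x + (g, (0 : ℝ)) = (x.1 + g, x.2) := Prod.ext rfl (add_zero _)
  rw [h2, fderiv_add_const, h3] at h1
  exact h1.symm

theorem exists_rho (hP : Phase v Θ U M T) (hF : IsFlow (XF v Θ 1) Ψ) (hτ : 0 < τ)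
    (hG : GoodT M τ Ψ) : ∃ B A ρ, Rho v Θ M Ψ B A ρ := by
  have hv := hP.hv
  have hvv : ⟪v, v⟫ = 1 := by rw [real_inner_self_eq_norm_sq, hv]; norm_num
  obtain ⟨B, hB⟩ := exists_bot hP hF hτ hG
  obtain ⟨A, hAs, hAb, hAi, hAX⟩ := exists_action hP hF hτ hG
  set c : E n × ℝ → ℝ := fun x => ⟪fderiv ℝ B x (Real.cos (Θ x) • v, Real.sin (Θ x)), v⟫ with hc
  have hcs : ContDiff ℝ ∞ c := Rho_c hP hB
  have hc0 : ∀ x, 0 < c x := c_pos hP hB
  set ρ : E n × ℝ → ℝ := fun x =>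
    (x.2 * Real.cos (Θ x) + fderiv ℝ A x (Real.cos (Θ x) • v, Real.sin (Θ x))) / c x with hρ
  have hρs : ContDiff ℝ ∞ ρ := by
    refine ContDiff.div ?_ hcs (fun x => (hc0 x).ne')
    exact (contDiff_snd.mul (Real.contDiff_cos.comp hP.smooth)).add
      ((hAs.fderiv_right (m := ∞) (by simp)).clm_apply (Rho_e hP))
  have hXF : ∀ x, XF v Θ 1 x = ((-Real.sin (Θ x)) • v, Real.cos (Θ x)) := by
    intro x; simp [XF]
  have hid : ∀ x (a b : ℝ), x.2 * a + fderiv ℝ A x (a • v, b)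
      = ρ x * ⟪fderiv ℝ B x (a • v, b), v⟫ := by
    intro x a b
    have h1 : ρ x * c x = x.2 * Real.cos (Θ x)
        + fderiv ℝ A x (Real.cos (Θ x) • v, Real.sin (Θ x)) :=
      div_mul_cancel₀ _ (hc0 x).ne'
    have h2 := DB_X hF hB x
    have h3 := hAX x
    rw [hXF] at h2 h3
    rw [Rho_dec (v := v) (θ := Θ x) a b, map_add, map_smul, map_smul, map_add, map_smul, map_smul,
      h2, smul_zero, add_zero, h3, inner_smul_left, smul_eq_mul, smul_eq_mul]
    simp only [conj_trivial]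
    have h4 : ⟪fderiv ℝ B x (Real.cos (Θ x) • v, Real.sin (Θ x)), v⟫ = c x := rfl
    rw [h4]
    have h5 := Real.sin_sq_add_cos_sq (Θ x)
    linear_combination (-(a * Real.cos (Θ x) + b * Real.sin (Θ x))) * h1 - x.2 * a * h5
  have hone : ∀ x, c x * fderiv ℝ ρ x (XF v Θ 1 x) = 1 := by
    intro x
    have hb : ContDiff ℝ ∞ fun y => ⟪B y, v⟫ := hB.smooth.inner ℝ contDiff_const
    have hbd : ∀ y w, fderiv ℝ (fun y => ⟪B y, v⟫) y w = ⟪fderiv ℝ B y w, v⟫ := by
      intro y w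
      have h1 : HasFDerivAt B (fderiv ℝ B y) y :=
        ((hB.smooth.differentiable (by simp)) y).hasFDerivAt
      have h2 : HasFDerivAt (fun y => ⟪v, B y⟫) ((innerSL ℝ v).comp (fderiv ℝ B y)) y :=
        (innerSL ℝ v).hasFDerivAt.comp y h1
      have h3 : (fun y => ⟪v, B y⟫) = fun y => ⟪B y, v⟫ := by
        funext y; exact real_inner_comm _ _
      rw [h3] at h2
      rw [h2.fderiv]
      simp [real_inner_comm]
    have h0 : ((x.1 + ((0 : ℝ), x.2).1 • v, ((0 : ℝ), x.2).2) : E n × ℝ) = x := by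
      simp
    have hpl := plane2 (b := fun p : ℝ × ℝ => ⟪B (x.1 + p.1 • v, p.2), v⟫)
      (A := fun p : ℝ × ℝ => A (x.1 + p.1 • v, p.2))
      (ρ := fun p : ℝ × ℝ => ρ (x.1 + p.1 • v, p.2))
      (hb.comp (Rho_iota_smooth (v := v) x)) (hAs.comp (Rho_iota_smooth (v := v) x))
      (hρs.comp (Rho_iota_smooth (v := v) x))
      (fun p t s => by
        rw [Rho_comp (v := v) hAs, Rho_comp (v := v) hb, hbd]
        exact hid (x.1 + p.1 • v, p.2) t s)
      (x₀ := (0, x.2)) (θ := Θ x)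
      (by
        rw [Rho_comp (v := v) hb, hbd, h0, ← hXF, DB_X hF hB, inner_zero_left])
    rw [Rho_comp (v := v) hb, hbd, Rho_comp (v := v) hρs, h0, ← hXF] at hpl
    exact hpl
  have hposr : ∀ x, 0 < fderiv ℝ ρ x (XF v Θ 1 x) := by
    intro x
    have h1 := hone x
    by_contra h
    push Not at h
    have := mul_nonpos_of_nonneg_of_nonpos (hc0 x).le h
    linarith
  refine ⟨B, A, ρ, hB, hAs, hρs, hAi, ?_, hid, hposr, ?_, ?_⟩
  · -- invariance
    intro g hg x
    have h1 := Rho_inv (f := B) (g := g) (w := g) (fun y => hB.equiv g hg y) x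
    have h2 := Rho_inv (f := A) (g := g) (w := 0) (fun y => by rw [add_zero]; exact hAi g hg y) x
    have h3 := hP.inv g hg x
    simp only [hρ, hc, h1, h2, h3]
  · -- bottom
    intro x hx
    have h1 : Θ x = 0 := hP.supp _ (by rw [le_abs]; right; linarith)
    have h2 : fderiv ℝ B x (v, 0) = v := by
      have h3 := Rho_line (v := v) (f := B) (g := fun y => y.1) hB.smooth contDiff_fst x.1 x.2 x.2
        (fun t => hB.bot _ hx)
      have h4 : fderiv ℝ (fun y : E n × ℝ => y.1) (x.1, x.2)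
          = ContinuousLinearMap.fst ℝ (E n) ℝ := hasFDerivAt_fst.fderiv
      rw [h4] at h3
      exact h3
    have h5 : fderiv ℝ A x (v, 0) = 0 := by
      have h3 := Rho_line (v := v) (f := A) (g := fun _ => (0 : ℝ)) hAs contDiff_const x.1 x.2 x.2
        (fun t => hAb _ hx)
      have h4 : HasFDerivAt (fun _ : E n × ℝ => (0 : ℝ)) (0 : E n × ℝ →L[ℝ] ℝ) (x.1, x.2) :=
        hasFDerivAt_const _ _
      rw [h4.fderiv] at h3
      exact h3
    simp only [hρ, hc, h1, Real.cos_zero, Real.sin_zero, one_smul, mul_one, h2, h5, hvv, add_zero,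
      div_one]
  · -- top
    intro x
    obtain ⟨t₀, ht₀⟩ := high hP hF hτ hG x
    have hX := XF_contDiff hP 1
    set y := Ψ t₀ x with hy
    have hyM : M ≤ y.2 := ht₀ t₀ le_rfl
    have hup : ∀ t, t₀ ≤ t → Ψ t x = (y.1, y.2 + (t - t₀)) := by
      intro t ht
      have h1 := x_up hP hF hyM (t := t - t₀) (by linarith)
      rw [hy, hF.add hX, sub_add_cancel] at h1
      exact h1
    have hcc : ∀ r, M ≤ r → c (y.1, r) = c (y.1, M) := by
      intro r hr
      have hM := hP.hM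
      have h1 : Θ (y.1, r) = 0 := hP.supp _ (by
        show M ≤ |r|
        exact le_trans hr (le_abs_self r))
      have h2 : Θ (y.1, M) = 0 := hP.supp _ (by
        show M ≤ |M|
        exact le_abs_self M)
      have h3 := Rho_line (v := v) (f := B) (g := B) hB.smooth hB.smooth y.1 r M (fun t => by
        have h4 := x_up hP hF (x := (y.1 + t • v, M)) (le_refl M) (t := r - M) (by linarith)
        have h5 : (((y.1 + t • v, M) : E n × ℝ).1, ((y.1 + t • v, M) : E n × ℝ).2 + (r - M))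
            = (y.1 + t • v, r) := by
          refine Prod.ext rfl ?_
          show M + (r - M) = r
          ring
        rw [h5] at h4
        rw [← h4, hB.inv])
      simp only [hc, h1, h2, Real.cos_zero, Real.sin_zero, one_smul, h3]
    set c₀ := c (y.1, M) with hc₀
    have hc₀0 : 0 < c₀ := hc0 _
    have hder : ∀ t, t₀ ≤ t → HasDerivAt (fun t => ρ (Ψ t x)) (1 / c₀) t := by
      intro t ht
      have h1 : HasFDerivAt ρ (fderiv ℝ ρ (Ψ t x)) (Ψ t x) :=
        ((hρs.differentiable (by simp)) _).hasFDerivAt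
      have h2 := h1.comp_hasDerivAt t (hF.deriv x t)
      have h3 := hone (Ψ t x)
      have h4 : c (Ψ t x) = c₀ := by
        rw [hup t ht]
        exact hcc _ (by linarith)
      rw [h4] at h3
      have h5 : fderiv ℝ ρ (Ψ t x) (XF v Θ 1 (Ψ t x)) = 1 / c₀ := by
        rw [eq_div_iff hc₀0.ne']
        linarith
      rw [h5] at h2
      exact h2
    have hval : ∀ t, t₀ ≤ t → ρ (Ψ t x) = ρ (Ψ t₀ x) + (t - t₀) * (1 / c₀) := by
      intro t ht
      have hg : ∀ s ∈ Set.Icc t₀ t, HasDerivAt (fun s => ρ (Ψ s x) - (s - t₀) * (1 / c₀)) 0 s := by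
        intro s hs
        have h1 := (hder s hs.1).sub (((hasDerivAt_id s).sub_const t₀).mul_const (1 / c₀))
        rw [one_mul, sub_self] at h1
        exact h1
      have h2 := constant_of_has_deriv_right_zero
        (f := fun s => ρ (Ψ s x) - (s - t₀) * (1 / c₀)) (a := t₀) (b := t)
        (fun s hs => (hg s hs).continuousAt.continuousWithinAt)
        (fun s hs => (hg s (Ico_subset_Icc_self hs)).hasDerivWithinAt) t ⟨ht, le_rfl⟩
      simp only [sub_self, zero_mul, sub_zero] at h2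
      linarith
    have htend : Filter.Tendsto (fun t => ρ (Ψ t₀ x) + (t - t₀) * (1 / c₀)) Filter.atTop
        Filter.atTop := by
      refine Filter.tendsto_atTop_add_const_left _ _ ?_
      refine Filter.Tendsto.atTop_mul_const (by positivity) ?_
      exact Filter.tendsto_atTop_add_const_right _ _ Filter.tendsto_id
    refine htend.congr' ?_
    filter_upwards [Filter.eventually_ge_atTop t₀] with t ht
    exact (hval t ht).symm

end Pool.Agent.H2.TG
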