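import Pool.Agent.H2.TG.BotDefs

/-!
# The second coordinate: definitions
-/

set_option autoImplicit false

open scoped ContDiff Topology RealInnerProductSpace
open Set

namespace Pool.Agent.H2.TG

open Pool.Agent.H57.NL

variable {n : ℕ}

/-- Bottom map `B`, action `A` and the second coordinate `ρ` of the reduced straightening. -/
structure Rho (v : E n) (Θ : E n × ℝ → ℝ) (M : ℝ) (Ψ : ℝ → E n × ℝ → E n × ℝ)
    (B : E n × ℝ → E n) (A ρ : E n × ℝ → ℝ) : Prop where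
  botmap : BotMap v (XF v Θ 1) M Ψ B
  smoothA : ContDiff ℝ ∞ A
  smoothρ : ContDiff ℝ ∞ ρ
  invA : ∀ g ∈ lat n, ∀ x : E n × ℝ, A (x.1 + g, x.2) = A x
  invρ : ∀ g ∈ lat n, ∀ x : E n × ℝ, ρ (x.1 + g, x.2) = ρ x
  id : ∀ x (a b : ℝ), x.2 * a + fderiv ℝ A x (a • v, b) = ρ x * ⟪fderiv ℝ B x (a • v, b), v⟫
  pos : ∀ x, 0 < fderiv ℝ ρ x (XF v Θ 1 x)
  bot : ∀ x : E n × ℝ, x.2 ≤ -M → ρ x = x.2
  top : ∀ x, Filter.Tendsto (fun t => ρ (Ψ t x)) Filter.atTop Filter.atTop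

end Pool.Agent.H2.TG
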