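import Mathlib

/-!
# The secant map (module Secant, Mathlib only)

`γ = (α, ρ)` is a curve with velocity `(cos φ, sin φ)`, injective on `[0, c]`, which stays to the right of
its starting point and to the left of its end point. Then the total rotation `φ c` is at most `π / 2`.

PROOF. Let `e s = exp (i φ s) ∈ ℂ`, `Q (s, t) = ∫_0^1 e (s + τ (t - s)) dτ` for `0 ≤ s ≤ t ≤ c`: continuous in
`(s, t) ∈ ℝ²` (`intervalIntegral.continuous_parametric_intervalIntegral_of_continuous'` or so),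
`(t - s) Q (s, t) = γ t - γ s` (as a complex number `α + i ρ`; substitution and the fundamental theorem of
calculus), `Q (s, s) = e s`. On the triangle `D = {0 ≤ s ≤ t ≤ c}`: `Q ≠ 0` (for `s < t` by injectivity, on
the diagonal because `|e s| = 1`). Let `R : ℝ × ℝ → D` be a continuous retraction, e.g.
`R (s, t) = (min (max s 0) t', t')`, `t' = min (max t 0) c`. The map `Q ∘ R : ℝ × ℝ → ℂ \ {0}` is continuous, `ℝ × ℝ`
is simply connected and locally path connected, so `z ↦ Q z / ‖Q z‖ ∈ Circle` has a continuous lift through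
the covering `Circle.exp` (`Circle.isCoveringMap_exp`, file Analysis/SpecialFunctions/Complex/Circle.lean, and
`IsCoveringMap.existsUnique_continuousMap_lifts`, file Topology/Homotopy/Lifting.lean), i.e. a continuous
`ω : ℝ × ℝ → ℝ` with `Q (R z) = |Q (R z)| exp (i ω z)` and `ω (0, 0) = 0`.
(1) `ω (s, s) - φ s ∈ 2 π ℤ`, continuous in `s ∈ [0, c]`, zero at `s = 0`: so `ω (c, c) = φ c`.
(2) for `0 < t ≤ c`: `Re Q (0, t) = (α t - α 0) / t > 0`, and `Q (0, 0) = 1`; so `cos (ω (0, t)) > 0` for all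
`t ∈ [0, c]`, `ω (0, 0) = 0`, by connectedness `|ω (0, t)| < π / 2` for all these `t`, in particular at `(0, c)`.
(3) for `0 ≤ s < c`: `Re Q (s, c) = (α c - α s) / (c - s) > 0`, so `cos (ω (s, c)) > 0` and
`|ω (0, c)| < π/2`, so `|ω (s, c)| < π / 2` for `0 ≤ s < c`; let `s → c`: `|ω (c, c)| ≤ π / 2`. With (1): done.
-/

set_option autoImplicit false

open scoped Topology
open Set Real

namespace Pool.Agent.H2.TG

/-- Continuous choice of the argument on the plane. -/
theorem exists_arg {Q : ℝ × ℝ → ℂ} (hQ : Continuous Q) (h0 : ∀ z, Q z ≠ 0) {ω₀ : ℝ} {z₀ : ℝ × ℝ}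
    (hω : Q z₀ = ‖Q z₀‖ * Complex.exp (ω₀ * Complex.I)) : ∃ ω : ℝ × ℝ → ℝ, Continuous ω ∧
      ω z₀ = ω₀ ∧ ∀ z, Q z = ‖Q z‖ * Complex.exp (ω z * Complex.I) := by
  have he : Complex.exp ((Real.log ‖Q z₀‖ : ℂ) + ω₀ * Complex.I) = (⟨Q, hQ⟩ : C(ℝ × ℝ, ℂ)) z₀ := by
    rw [Complex.exp_add, ← Complex.ofReal_exp, Real.exp_log (norm_pos_iff.2 (h0 z₀))]
    exact hω.symm
  obtain ⟨F, ⟨hF0, hF⟩, -⟩ := Complex.isCoveringMapOn_exp.existsUnique_continuousMap_lifts
    (⟨Q, hQ⟩ : C(ℝ × ℝ, ℂ)) he (fun z => h0 z)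
  have hF' : ∀ z, Complex.exp (F z) = Q z := fun z => congrFun hF z
  refine ⟨fun z => (F z).im, Complex.continuous_im.comp F.continuous, ?_, fun z => ?_⟩
  · show (F z₀).im = ω₀
    rw [hF0]
    simp
  · rw [← hF' z, Complex.norm_exp, Complex.ofReal_exp, ← Complex.exp_add, Complex.re_add_im]

/-- A continuous angle with positive cosine stays in the right half plane. -/
private theorem abs_lt_of_cos_pos {h : ℝ → ℝ} (hh : Continuous h) {a b : ℝ} (hab : a ≤ b)
    (ha : |h a| < π / 2) (hc : ∀ s, a ≤ s → s ≤ b → 0 < cos (h s)) : |h b| < π / 2 := by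
  by_contra hcon
  push Not at hcon
  obtain ⟨s, hs, hs'⟩ := intermediate_value_Icc hab (f := fun s => |h s|) (hh.abs.continuousOn)
    ⟨ha.le, hcon⟩
  have h1 := hc s hs.1 hs.2
  have h2 : |h s| = π / 2 := hs'
  rw [← Real.cos_abs, h2, Real.cos_pi_div_two] at h1
  exact lt_irrefl _ h1

private theorem pos_right {a b : ℝ} (h : 0 < a * b) (ha : 0 ≤ a) : 0 < b := by
  by_contra hb
  push Not at hb
  have h1 := mul_nonpos_of_nonneg_of_nonpos ha hb
  linarith

private theorem cos_pos_of_re {q : ℂ} {ω : ℝ} (h : q = ‖q‖ * Complex.exp (ω * Complex.I))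
    (hq : 0 < q.re) : 0 < cos ω := by
  have h1 : q.re = ‖q‖ * cos ω := by
    conv_lhs => rw [h]
    rw [Complex.re_ofReal_mul, Complex.exp_ofReal_mul_I_re]
  rw [h1] at hq
  exact pos_right hq (norm_nonneg _)

theorem secant {α ρ φ : ℝ → ℝ} {c : ℝ} (hc : 0 < c) (hφ : Continuous φ)
    (hα : ∀ s, HasDerivAt α (cos (φ s)) s) (hρ : ∀ s, HasDerivAt ρ (sin (φ s)) s) (h0 : φ 0 = 0)
    (h1 : ∀ s, 0 < s → s ≤ c → α 0 < α s) (h2 : ∀ s, 0 ≤ s → s < c → α s < α c)
    (hinj : ∀ s t, 0 ≤ s → s < t → t ≤ c → (α s, ρ s) ≠ (α t, ρ t)) : |φ c| ≤ π / 2 := by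
  let e : ℝ → ℂ := fun s => Complex.exp (φ s * Complex.I)
  let γ : ℝ → ℂ := fun s => (α s : ℂ) + ρ s * Complex.I
  have hec : Continuous e := by fun_prop
  have hγ : ∀ s, HasDerivAt γ (e s) s := by
    intro s
    have h3 := (hα s).ofReal_comp.add ((hρ s).ofReal_comp.mul_const Complex.I)
    refine h3.congr_deriv ?_
    show _ = Complex.exp (φ s * Complex.I)
    rw [Complex.exp_mul_I, Complex.ofReal_cos, Complex.ofReal_sin]
  let Q : ℝ × ℝ → ℂ := fun z => ∫ τ in (0 : ℝ)..1, e (z.1 + τ * (z.2 - z.1))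
  have hQc : Continuous Q := by
    refine intervalIntegral.continuous_parametric_intervalIntegral_of_continuous'
      (f := fun (z : ℝ × ℝ) τ => e (z.1 + τ * (z.2 - z.1))) ?_ 0 1
    show Continuous fun w : (ℝ × ℝ) × ℝ => e (w.1.1 + w.2 * (w.1.2 - w.1.1))
    fun_prop
  have hQd : ∀ s, Q (s, s) = e s := by
    intro s
    show (∫ τ in (0 : ℝ)..1, e (s + τ * (s - s))) = e s
    simp
  have hQm : ∀ s t : ℝ, ((t - s : ℝ) : ℂ) * Q (s, t) = γ t - γ s := by
    intro s t
    have h3 : ∀ τ : ℝ, HasDerivAt (fun τ : ℝ => γ (s + τ * (t - s)))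
        (((t - s : ℝ) : ℂ) * e (s + τ * (t - s))) τ := by
      intro τ
      have h4 : HasDerivAt (fun τ : ℝ => s + τ * (t - s)) (t - s) τ := by
        simpa using ((hasDerivAt_id τ).mul_const (t - s)).const_add s
      have h5 := (hγ (s + τ * (t - s))).scomp τ h4
      refine h5.congr_deriv ?_
      rw [Complex.real_smul]
    have h6 := intervalIntegral.integral_eq_sub_of_hasDerivAt (a := (0 : ℝ)) (b := 1)
      (fun τ _ => h3 τ) (Continuous.intervalIntegrable (by fun_prop) _ _)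
    rw [intervalIntegral.integral_const_mul] at h6
    show ((t - s : ℝ) : ℂ) * (∫ τ in (0 : ℝ)..1, e (s + τ * (t - s))) = _
    rw [h6]
    congr 2 <;> ring
  -- real parts
  have hre : ∀ s t : ℝ, (t - s) * (Q (s, t)).re = α t - α s := by
    intro s t
    have h3 := congrArg Complex.re (hQm s t)
    rw [Complex.re_ofReal_mul] at h3
    rw [h3]
    simp [γ]
  -- nonvanishing on the triangle
  have hQ0 : ∀ s t : ℝ, 0 ≤ s → s ≤ t → t ≤ c → Q (s, t) ≠ 0 := by
    intro s t hs hst htc hQ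
    rcases hst.eq_or_lt with rfl | hlt
    · rw [hQd] at hQ
      exact Complex.exp_ne_zero _ hQ
    · have h3 := hQm s t
      rw [hQ, mul_zero] at h3
      have h4 : γ s = γ t := (sub_eq_zero.1 h3.symm).symm
      have h5 := congrArg Complex.re h4
      have h6 := congrArg Complex.im h4
      simp only [γ, Complex.add_re, Complex.add_im, Complex.ofReal_re, Complex.ofReal_im,
        Complex.mul_re, Complex.mul_im, Complex.I_re, Complex.I_im, mul_zero, mul_one,
        sub_zero, add_zero, zero_add] at h5 h6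
      exact hinj s t hs hlt htc (Prod.ext h5 h6)
  let R : ℝ × ℝ → ℝ × ℝ := fun z => (min (max z.1 0) (min (max z.2 0) c), min (max z.2 0) c)
  have hRc : Continuous R := by fun_prop
  have hR : ∀ s t : ℝ, 0 ≤ s → s ≤ t → t ≤ c → R (s, t) = (s, t) := by
    intro s t hs hst htc
    have e1 : min (max t 0) c = t := by
      rw [max_eq_left (hs.trans hst), min_eq_left htc]
    show (min (max s 0) (min (max t 0) c), min (max t 0) c) = (s, t)
    rw [e1, max_eq_left hs, min_eq_left hst]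
  have hQR0 : ∀ z, Q (R z) ≠ 0 := by
    intro z
    have e2 : 0 ≤ min (max z.2 0) c := le_min (le_max_right _ _) hc.le
    exact hQ0 _ _ (le_min (le_max_right _ _) e2) (min_le_right _ _) (min_le_right _ _)
  have hQ00 : Q (0, 0) = 1 := by
    rw [hQd]
    show Complex.exp (φ 0 * Complex.I) = 1
    rw [h0]
    simp
  obtain ⟨ω, hωc, hω0, hω⟩ := exists_arg (Q := fun z => Q (R z)) (hQc.comp hRc) hQR0
    (ω₀ := 0) (z₀ := (0, 0)) (by
      show Q (R (0, 0)) = ‖Q (R (0, 0))‖ * Complex.exp (((0 : ℝ) : ℂ) * Complex.I)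
      rw [hR 0 0 le_rfl le_rfl hc.le, hQ00]
      simp)
  have hω' : ∀ s t : ℝ, 0 ≤ s → s ≤ t → t ≤ c →
      Q (s, t) = ‖Q (s, t)‖ * Complex.exp (ω (s, t) * Complex.I) := by
    intro s t hs hst htc
    have h3 : Q (R (s, t)) = ‖Q (R (s, t))‖ * Complex.exp (ω (s, t) * Complex.I) := hω (s, t)
    rwa [hR s t hs hst htc] at h3
  have hpi : 0 < π / 2 := by positivity
  -- (1) the diagonal
  have hd : ∀ s, 0 ≤ s → s ≤ c → cos (ω (s, s) - φ s) = 1 := by
    intro s hs hsc
    have h3 := hω' s s hs le_rfl hsc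
    rw [hQd] at h3
    have h4 : ‖e s‖ = 1 := Complex.norm_exp_ofReal_mul_I _
    rw [h4, Complex.ofReal_one, one_mul] at h3
    have h5 : Complex.exp (((ω (s, s) - φ s : ℝ) : ℂ) * Complex.I) = 1 := by
      rw [Complex.ofReal_sub, sub_mul, Complex.exp_sub, ← h3]
      exact div_self (Complex.exp_ne_zero _)
    have h6 := congrArg Complex.re h5
    rwa [Complex.exp_ofReal_mul_I_re, Complex.one_re] at h6
  have hdc : ω (c, c) = φ c := by
    have h3 := abs_lt_of_cos_pos (h := fun s => ω (s, s) - φ s) (by fun_prop) hc.le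
      (by
        show |ω (0, 0) - φ 0| < π / 2
        rw [hω0, h0]
        simpa using hpi)
      (fun s hs hsc => by
        show 0 < cos (ω (s, s) - φ s)
        rw [hd s hs hsc]
        exact one_pos)
    have h4 := abs_lt.1 h3
    have h5 := (Real.cos_eq_one_iff_of_lt_of_lt (by linarith [h4.1]) (by linarith [h4.2])).1
      (hd c hc.le le_rfl)
    linarith
  -- (2) the first side
  have hs1 : |ω (0, c)| < π / 2 := by
    refine abs_lt_of_cos_pos (h := fun t => ω (0, t)) (by fun_prop) hc.le ?_ ?_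
    · show |ω (0, 0)| < π / 2
      rw [hω0]
      simpa using hpi
    · intro t ht htc
      refine cos_pos_of_re (hω' 0 t le_rfl ht htc) ?_
      rcases ht.eq_or_lt with rfl | hlt
      · rw [hQ00]
        exact one_pos
      · have h3 := hre 0 t
        have h4 := h1 t hlt htc
        rw [sub_zero] at h3
        have h5 : 0 < t * (Q (0, t)).re := by
          rw [h3]
          linarith
        exact pos_right h5 hlt.le
  -- (3) the second side
  have hs2 : ∀ s, 0 ≤ s → s < c → |ω (s, c)| < π / 2 := by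
    intro s hs hsc
    refine abs_lt_of_cos_pos (h := fun t => ω (t, c)) (by fun_prop) hs hs1 ?_
    intro t ht hts
    refine cos_pos_of_re (hω' t c ht (hts.trans hsc.le) le_rfl) ?_
    have h3 := hre t c
    have h4 := h2 t ht (hts.trans_lt hsc)
    have h5 : 0 < (c - t) * (Q (t, c)).re := by
      rw [h3]
      linarith
    exact pos_right h5 (by linarith)
  have hcl : IsClosed {s : ℝ | |ω (s, c)| ≤ π / 2} :=
    isClosed_le (by fun_prop) continuous_const
  have hsub : Icc 0 c ⊆ {s : ℝ | |ω (s, c)| ≤ π / 2} := by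
    rw [← closure_Ico hc.ne]
    exact closure_minimal (fun s hs => (hs2 s hs.1 hs.2).le) hcl
  rw [← hdc]
  exact hsub ⟨hc.le, le_rfl⟩

end Pool.Agent.H2.TG
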