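import Pool.Agent.H2.TG.Rho
import Pool.Agent.H2.TG.Rhat

/-!
# The symplectic straightening (module Str)

PROOF of `straight_of`. For `w : E n` let `π w = w - ⟪w, v⟫ • v`. There is a smooth `G : E n × ℝ → E n` (the
gradient) with `⟪G x, w⟫ = DA(x)(w, 0) - ρ x * ⟪DB(x)(w, 0) - w, v⟫` for all `w` (e.g.
`G x = ∑ i, (DA(x)(e i, 0) - …) • e i`, or `(InnerProductSpace.toDual ..).symm`; smooth in `x`); it is
invariant under the lattice. Note `DB(x)(w, s) = w + ⟪DB(x)(w, s) - w, v⟫ • v` for all `(w, s)` (differentiate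
`B x = x.1 + ⟪B x - x.1, v⟫ • v`); write `Db(w, s) = ⟪DB(x)(w, s) - w, v⟫`, linear in `(w, s)`.
Define, with `x = sig v z`:
`F z = (B x, π z.2 + ρ x • v + π (G x))`, and with `y = R' (Q, ⟪P, v⟫)` (`exists_rhat`):
`F' (Q, P) = (y.1, π P + y.2 • v - π (G y))`.
* `left`: `x = sig v z`, `P = (F z).2`: `⟪P, v⟫ = ρ x`, `⟪π w, v⟫ = 0`; so `y = R' (B x, ρ x) = x`,
  `π P = π z.2 + π (G x)` (`π π = π`), so `(F' (F z)).2 = π z.2 + x.2 • v = z.2` (`x.2 = ⟪z.2, v⟫`).
* `right`: `sig v (F' (Q, P)) = (y.1, y.2) = y`, `B y = Q`, `ρ y = ⟪P, v⟫`, and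
  `π (π P + y.2 • v - π (G y)) + ρ y • v + π (G y) = π P + ⟪P, v⟫ • v = P`.
* `equiv`, `invA`: invariance of `A`, `ρ`, `G`, equivariance of `B`.
* `exact`: let `a = ζ.1`, `s = ⟪ζ.2, v⟫`; the derivative of the first component of `F` is `DB(x)(a, s) =
  a + Db(a, s) • v` (chain rule: `fderiv (sig v) z ζ = (a, s)`, `sig v` is a continuous linear map). So
  `⟪P, DB(a, s)⟫ = ⟪P, a⟫ + Db(a, s) ρ = ⟪z.2, π a⟫ + DA(π a, 0) - ρ Db(π a, 0) + ρ ⟪a, v⟫ + ρ Db(a, s)`, where
  `⟪π w, a⟫ = ⟪w, π a⟫`. With `a = π a + α • v`: `ρ Db(a, s) - ρ Db(π a, 0) = ρ Db(α • v, s)` and by `Rho.id`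
  (with `DB(α • v, s) = α • v + Db(α • v, s) • v`): `ρ (α + Db(α • v, s)) = x.2 α + DA(α • v, s)`. Total:
  `⟪z.2, π a⟫ + x.2 α + DA(a, s) = ⟪z.2, a⟫ + DA(a, s)`.
* `vert`: `DB(x)(a, s) = 0`, `BotMap.ker`.
`exists_straight`: `good_one`, `exists_rho`, `straight_of`.
-/

set_option autoImplicit false

open scoped ContDiff Topology RealInnerProductSpace
open Set

namespace Pool.Agent.H2.TG

open Pool.Agent.H57.NL

variable {n : ℕ} {v : E n} {Θ : E n × ℝ → ℝ} {U : Set (E n)} {M T : ℝ}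
  {Ψ : ℝ → E n × ℝ → E n × ℝ} {B : E n × ℝ → E n} {A ρ : E n × ℝ → ℝ}

/-- Orthogonal projection to the complement of `v`. -/
private noncomputable def spr (v w : E n) : E n := w - ⟪w, v⟫ • v

private theorem spr_inner (hv : ‖v‖ = 1) (w : E n) : ⟪spr v w, v⟫ = 0 := by
  have h1 : ⟪v, v⟫ = (1 : ℝ) := by rw [real_inner_self_eq_norm_sq, hv]; norm_num
  rw [spr, inner_sub_left, real_inner_smul_left, h1]; ring

private theorem spr_inner' (hv : ‖v‖ = 1) (w : E n) : ⟪v, spr v w⟫ = 0 := by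
  rw [real_inner_comm]; exact spr_inner hv w

private theorem spr_spr (hv : ‖v‖ = 1) (w : E n) : spr v (spr v w) = spr v w := by
  conv_lhs => rw [spr]
  rw [spr_inner hv]; simp

private theorem spr_add (w w' : E n) : spr v (w + w') = spr v w + spr v w' := by
  simp only [spr, inner_add_left, add_smul]; abel

private theorem spr_sub (w w' : E n) : spr v (w - w') = spr v w - spr v w' := by
  simp only [spr, inner_sub_left, sub_smul]; abel

private theorem spr_smul (hv : ‖v‖ = 1) (c : ℝ) : spr v (c • v) = 0 := by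
  have h1 : ⟪v, v⟫ = (1 : ℝ) := by rw [real_inner_self_eq_norm_sq, hv]; norm_num
  rw [spr, real_inner_smul_left, h1]; simp

private theorem spr_dec (w : E n) : w = spr v w + ⟪w, v⟫ • v := by simp [spr]

private theorem inner_spr (w a : E n) : ⟪w, spr v a⟫ = ⟪w, a⟫ - ⟪w, v⟫ * ⟪a, v⟫ := by
  rw [spr, inner_sub_right, real_inner_smul_right]; ring

private theorem inner_spr_spr (hv : ‖v‖ = 1) (w a : E n) : ⟪spr v w, spr v a⟫ = ⟪w, spr v a⟫ := by
  conv_lhs => rw [spr, inner_sub_left, real_inner_smul_left, spr_inner' hv]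
  ring

/-- The vector representing a linear form. -/
private noncomputable def srep (L : E n →L[ℝ] ℝ) : E n :=
  ∑ i, L (EuclideanSpace.single i 1) • EuclideanSpace.single i (1 : ℝ)

private theorem inner_srep (L : E n →L[ℝ] ℝ) (w : E n) : ⟪srep L, w⟫ = L w := by
  have hw : w = ∑ i, w i • EuclideanSpace.single i (1 : ℝ) := by
    ext j
    simp [Finset.sum_apply, Pi.single_apply]
  conv_rhs => rw [hw]
  rw [srep, sum_inner, map_sum]
  refine Finset.sum_congr rfl fun i _ => ?_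
  rw [real_inner_smul_left, map_smul, smul_eq_mul, EuclideanSpace.inner_single_left]
  simp [mul_comm]

/-- The linear form of the gradient. -/
private noncomputable def sform (v : E n) (B : E n × ℝ → E n) (A ρ : E n × ℝ → ℝ) (x : E n × ℝ) :
    E n →L[ℝ] ℝ :=
  (fderiv ℝ A x).comp (ContinuousLinearMap.inl ℝ (E n) ℝ) -
    ρ x • ((innerSL ℝ v).comp ((fderiv ℝ B x).comp (ContinuousLinearMap.inl ℝ (E n) ℝ)) -
      innerSL ℝ v)

private theorem sform_apply (x : E n × ℝ) (w : E n) :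
    sform v B A ρ x w = fderiv ℝ A x (w, 0) - ρ x * (⟪fderiv ℝ B x (w, 0), v⟫ - ⟪w, v⟫) := by
  simp [sform, real_inner_comm]

/-- The gradient. -/
private noncomputable def sG (v : E n) (B : E n × ℝ → E n) (A ρ : E n × ℝ → ℝ) (x : E n × ℝ) :
    E n := srep (sform v B A ρ x)

private theorem sG_inner (x : E n × ℝ) (w : E n) :
    ⟪sG v B A ρ x, w⟫ = fderiv ℝ A x (w, 0) - ρ x * (⟪fderiv ℝ B x (w, 0), v⟫ - ⟪w, v⟫) := by
  rw [sG, inner_srep, sform_apply]

private theorem sG_smooth (hB : ContDiff ℝ ∞ B) (hA : ContDiff ℝ ∞ A) (hρ : ContDiff ℝ ∞ ρ) :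
    ContDiff ℝ ∞ (sG v B A ρ) := by
  have h1 : ContDiff ℝ ∞ (fderiv ℝ A) := hA.fderiv_right (by simp)
  have h2 : ContDiff ℝ ∞ (fderiv ℝ B) := hB.fderiv_right (by simp)
  have h3 : ContDiff ℝ ∞ (sform v B A ρ) :=
    (h1.clm_comp contDiff_const).sub
      (hρ.smul ((contDiff_const.clm_comp (h2.clm_comp contDiff_const)).sub contDiff_const))
  unfold sG srep
  exact ContDiff.sum fun i _ => (h3.clm_apply contDiff_const).smul contDiff_const

private theorem fderiv_inv {V : Type*} [NormedAddCommGroup V] [NormedSpace ℝ V] {f : E n × ℝ → V}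
    {c : V} {g : E n} (h : ∀ x : E n × ℝ, f (x.1 + g, x.2) = f x + c) (x : E n × ℝ) :
    fderiv ℝ f (x.1 + g, x.2) = fderiv ℝ f x := by
  have h1 : (fun y : E n × ℝ => f (y + (g, 0))) = fun y => f y + c := by
    funext y
    rw [← h y]
    congr 1
    ext <;> simp
  have h2 : fderiv ℝ (fun y : E n × ℝ => f (y + (g, 0))) x = fderiv ℝ f (x + (g, 0)) :=
    fderiv_comp_add_right _
  have h3 : x + (g, 0) = (x.1 + g, x.2) := by ext <;> simp
  rw [h1, fderiv_add_const, h3] at h2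
  exact h2.symm

private theorem sG_inv (hR : Rho v Θ M Ψ B A ρ) {g : E n} (hg : g ∈ lat n) (x : E n × ℝ) :
    sG v B A ρ (x.1 + g, x.2) = sG v B A ρ x := by
  have h1 : fderiv ℝ A (x.1 + g, x.2) = fderiv ℝ A x :=
    fderiv_inv (c := 0) (fun y => by rw [hR.invA g hg y, add_zero]) x
  have h2 : fderiv ℝ B (x.1 + g, x.2) = fderiv ℝ B x :=
    fderiv_inv (c := g) (fun y => hR.botmap.equiv g hg y) x
  rw [sG, sG, sform, sform, h1, h2, hR.invρ g hg x]

private theorem DB_line (hR : Rho v Θ M Ψ B A ρ) (x ζ : E n × ℝ) :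
    fderiv ℝ B x ζ = spr v ζ.1 + ⟪fderiv ℝ B x ζ, v⟫ • v := by
  have hd : HasFDerivAt B (fderiv ℝ B x) x :=
    (hR.botmap.smooth.differentiable (by simp) x).hasFDerivAt
  have h1 : HasFDerivAt (fun y : E n × ℝ => y.1) (ContinuousLinearMap.fst ℝ (E n) ℝ) x :=
    hasFDerivAt_fst
  have h2 := (hd.sub h1)
  have h3 := h1.add (((innerSL ℝ v).hasFDerivAt.comp x h2).smul_const v)
  have h4 : (fun y : E n × ℝ => y.1 + (((innerSL ℝ v) ∘ fun y => B y - y.1) y) • v) = B := by
    funext y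
    have := hR.botmap.line y
    conv_rhs => rw [this]
    simp only [Function.comp, tc, innerSL_apply_apply, real_inner_comm]
  have h5 : HasFDerivAt B (ContinuousLinearMap.fst ℝ (E n) ℝ +
      ((innerSL ℝ v).comp (fderiv ℝ B x - ContinuousLinearMap.fst ℝ (E n) ℝ)).smulRight v) x := by
    refine h3.congr_of_eventuallyEq (Filter.Eventually.of_forall fun y => ?_)
    exact (congrFun h4 y).symm
  have h6 := congrArg (fun L => L ζ) (hd.unique h5)
  simp only [_root_.add_apply, ContinuousLinearMap.smulRight_apply,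
    ContinuousLinearMap.comp_apply, _root_.sub_apply, innerSL_apply_apply,
    ContinuousLinearMap.coe_fst'] at h6
  rw [inner_sub_right, real_inner_comm _ v, real_inner_comm _ v] at h6
  conv_lhs => rw [h6]
  rw [spr, sub_smul]
  abel

/-- The map `sig v` is linear. -/
private noncomputable def sigL (v : E n) : E n × E n →L[ℝ] E n × ℝ :=
  (ContinuousLinearMap.fst ℝ (E n) (E n)).prod
    ((innerSL ℝ v).comp (ContinuousLinearMap.snd ℝ (E n) (E n)))

private theorem sigL_apply (z : E n × E n) : sigL v z = sig v z := by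
  simp [sigL, sig, real_inner_comm]

private theorem sigL_eq : (sigL v : E n × E n → E n × ℝ) = sig v := by
  funext z; exact sigL_apply z

/-- The straightening. -/
private noncomputable def sF (v : E n) (B : E n × ℝ → E n) (A ρ : E n × ℝ → ℝ)
    (z : E n × E n) : E n × E n :=
  (B (sig v z), spr v z.2 + ρ (sig v z) • v + spr v (sG v B A ρ (sig v z)))

/-- The inverse. -/
private noncomputable def sF' (v : E n) (B : E n × ℝ → E n) (A ρ : E n × ℝ → ℝ)
    (R' : E n × ℝ → E n × ℝ) (z : E n × E n) : E n × E n :=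
  ((R' (sig v z)).1, spr v z.2 + (R' (sig v z)).2 • v - spr v (sG v B A ρ (R' (sig v z))))

private theorem sig_smooth : ContDiff ℝ ∞ (sig v) := by
  rw [← sigL_eq]; exact (sigL v).contDiff

private theorem spr_smooth : ContDiff ℝ ∞ (spr v) := by
  unfold spr
  exact contDiff_id.sub ((contDiff_id.inner ℝ contDiff_const).smul contDiff_const)

private theorem sF_exact (hv : ‖v‖ = 1) (hR : Rho v Θ M Ψ B A ρ) (z : E n × E n) (a : E n)
    (s : ℝ) : ⟪(sF v B A ρ z).2, fderiv ℝ B (sig v z) (a, s)⟫ =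
      ⟪z.2, a⟫ + fderiv ℝ A (sig v z) (a, s) := by
  set x := sig v z with hx
  have h1 : ⟪v, v⟫ = (1 : ℝ) := by rw [real_inner_self_eq_norm_sq, hv]; norm_num
  have hx2 : x.2 = ⟪z.2, v⟫ := rfl
  have e1 : ⟪(sF v B A ρ z).2, fderiv ℝ B x (a, s)⟫ =
      ⟪z.2, spr v a⟫ + ⟪sG v B A ρ x, spr v a⟫ + ρ x * ⟪fderiv ℝ B x (a, s), v⟫ := by
    rw [DB_line hR x (a, s)]
    simp only [sF, ← hx]
    simp only [inner_add_left, inner_add_right, real_inner_smul_left, real_inner_smul_right,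
      spr_inner hv, spr_inner' hv, inner_spr_spr hv, h1]
    ring
  have e2 := sG_inner (v := v) (B := B) (A := A) (ρ := ρ) x (spr v a)
  rw [spr_inner hv] at e2
  have e3 : ((a, s) : E n × ℝ) = (spr v a, 0) + (⟪a, v⟫ • v, s) := by
    refine Prod.ext ?_ ?_
    · exact spr_dec a
    · simp
  have e4 : ⟪fderiv ℝ B x (a, s), v⟫ =
      ⟪fderiv ℝ B x (spr v a, 0), v⟫ + ⟪fderiv ℝ B x (⟪a, v⟫ • v, s), v⟫ := by
    conv_lhs => rw [e3, map_add, inner_add_left]
  have e5 := hR.id x ⟪a, v⟫ s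
  have e6 : fderiv ℝ A x (a, s) =
      fderiv ℝ A x (spr v a, 0) + fderiv ℝ A x (⟪a, v⟫ • v, s) := by
    conv_lhs => rw [e3, map_add]
  rw [hx2] at e5
  rw [e1, e2, e4, e6, inner_spr]
  linarith

theorem straight_of (hP : Phase v Θ U M T) (hF : IsFlow (XF v Θ 1) Ψ)
    (hR : Rho v Θ M Ψ B A ρ) : ∃ F F', Straight v Θ F F' A := by
  obtain ⟨R', hR's, hR1, hR2⟩ := exists_rhat hP hF hR
  have hv := hP.hv
  have hB := hR.botmap.smooth
  have h1 : ⟪v, v⟫ = (1 : ℝ) := by rw [real_inner_self_eq_norm_sq, hv]; norm_num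
  have hGs : ContDiff ℝ ∞ (sG v B A ρ) := sG_smooth hB hR.smoothA hR.smoothρ
  have hBeq : ∀ z, (sF v B A ρ z).1 = B (sig v z) := fun z => rfl
  have hsF : ContDiff ℝ ∞ (sF v B A ρ) := by
    unfold sF
    exact (hB.comp sig_smooth).prodMk
      (((spr_smooth.comp contDiff_snd).add ((hR.smoothρ.comp sig_smooth).smul contDiff_const)).add
        (spr_smooth.comp (hGs.comp sig_smooth)))
  have hR's1 : ContDiff ℝ ∞ fun z => R' (sig v z) := hR's.comp sig_smooth
  have hsF' : ContDiff ℝ ∞ (sF' v B A ρ R') := by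
    unfold sF'
    exact (contDiff_fst.comp hR's1).prodMk
      (((spr_smooth.comp contDiff_snd).add ((contDiff_snd.comp hR's1).smul contDiff_const)).sub
        (spr_smooth.comp (hGs.comp hR's1)))
  have hfd : ∀ z ζ : E n × E n, (fderiv ℝ (sF v B A ρ) z ζ).1 =
      fderiv ℝ B (sig v z) (ζ.1, ⟪ζ.2, v⟫) := by
    intro z ζ
    have hd : HasFDerivAt (sF v B A ρ) (fderiv ℝ (sF v B A ρ) z) z :=
      (hsF.differentiable (by simp) z).hasFDerivAt
    have h2 : HasFDerivAt (fun z => (sF v B A ρ z).1)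
        ((ContinuousLinearMap.fst ℝ (E n) (E n)).comp (fderiv ℝ (sF v B A ρ) z)) z := hd.fst
    have h3 : HasFDerivAt (fun z => B (sigL v z)) ((fderiv ℝ B (sigL v z)).comp (sigL v)) z :=
      HasFDerivAt.comp z (hB.differentiable (by simp) _).hasFDerivAt (sigL v).hasFDerivAt
    have h4 : (fun z => B (sigL v z)) = fun z => (sF v B A ρ z).1 := by
      funext y; rw [sigL_apply]; rfl
    rw [h4] at h3
    have h5 := congrArg (fun L => L ζ) (h2.unique h3)
    simp only [ContinuousLinearMap.comp_apply, ContinuousLinearMap.coe_fst'] at h5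
    rw [h5, sigL_apply, sigL_apply]
    rfl
  have hsigF : ∀ z, sig v (sF v B A ρ z) = (B (sig v z), ρ (sig v z)) := by
    intro z
    simp only [sig, sF, inner_add_left, spr_inner hv, real_inner_smul_left, h1]
    simp
  have hsigF' : ∀ z, sig v (sF' v B A ρ R' z) = R' (sig v z) := by
    intro z
    simp only [sig, sF', inner_add_left, inner_sub_left, spr_inner hv, real_inner_smul_left, h1]
    simp
  refine ⟨sF v B A ρ, sF' v B A ρ R', hsF, hsF', hR.smoothA, ?_, ?_, ?_, hR.invA, ?_, ?_⟩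
  · intro z
    have e : R' (sig v (sF v B A ρ z)) = sig v z := by rw [hsigF, hR1]
    refine Prod.ext ?_ ?_
    · simp only [sF', e]; rfl
    · simp only [sF', e]
      simp only [sF, spr_add, spr_spr hv, spr_smul hv]
      conv_rhs => rw [spr_dec (v := v) z.2]
      simp only [sig]
      abel
  · intro z
    have e : sig v (sF' v B A ρ R' z) = R' (sig v z) := hsigF' z
    have e2 := hR2 (sig v z)
    refine Prod.ext ?_ ?_
    · simp only [sF, e]
      exact congrArg Prod.fst e2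
    · simp only [sF, e]
      rw [show ρ (R' (sig v z)) = (sig v z).2 from congrArg Prod.snd e2]
      simp only [sF', spr_add, spr_sub, spr_spr hv, spr_smul hv]
      conv_rhs => rw [spr_dec (v := v) z.2]
      simp only [sig]
      abel
  · intro g hg z
    have e : sig v (tr g z) = ((sig v z).1 + g, (sig v z).2) := rfl
    refine Prod.ext ?_ ?_
    · simp only [sF, e, hR.botmap.equiv g hg]; rfl
    · simp only [sF, e, hR.invρ g hg, sG_inv hR hg]; rfl
  · intro z ζ
    rw [hfd, sF_exact hv hR]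
  · intro z ζ h
    rw [hfd] at h
    exact hR.botmap.ker _ _ h

end Pool.Agent.H2.TG
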