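import Pool.Agent.H2.TG.Zero

/-!
# The phase in `RR` is unique (module Uniq)

PROOF. Let `(y, φ), (y, ψ) ∈ RR`, `Λ a (y, φ) ∈ OO U`, `Λ b (y, ψ) ∈ OO U`; `ψ = φ + j π` (`PS_unique`).
`j` even: `Λ b (y, ψ) = ((Λ b (y, φ)).1, (Λ b (y, φ)).2 + j π)` (`leaf_even`). Its base point is in `U`, so by `RR_overU`
at `(y, φ)`: `Λ b (y, φ) ∈ OO U`, its phase is `0`; but also `(Λ b (y, φ)).2 + j π = 0`; so `j = 0`.
`j` odd: `Λ b (y, ψ) = ((Λ (-b) (y, φ)).1, (Λ (-b) (y, φ)).2 + j π)` (`leaf_odd`), so `Λ (-b) (y, φ)` is over `U`, in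
`OO U` by `RR_overU`, phase `0`, so `j π = 0`: contradiction.
`RR_zero`: for `q ∈ U`, `((q, 0), 0) ∈ RR` with `s = 0`.
-/

set_option autoImplicit false

open scoped ContDiff Topology RealInnerProductSpace
open Set

namespace Pool.Agent.H2.TG

open Pool.Agent.H57.NL

variable {n : ℕ} {v : E n} {C : Set (E n × ℝ)} {U U₂ : Set (E n)} {T : ℝ}
  {κ : (E n × ℝ) × ℝ → ℝ} {Λ : ℝ → (E n × ℝ) × ℝ → (E n × ℝ) × ℝ}

theorem RR_unique (hL : Leaf v C U U₂ T κ Λ) {y : E n × ℝ} {φ ψ : ℝ}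
    (h1 : (y, φ) ∈ RR v C U Λ) (h2 : (y, ψ) ∈ RR v C U Λ) : φ = ψ := by
  obtain ⟨h2P, b, hb⟩ := h2
  obtain ⟨j, hj⟩ := PS_unique hL.red h2P h1.1
  subst hj
  rcases Int.even_or_odd j with he | ho
  · rw [leaf_even hL.red hL.curv hL.flow h1.1 he b] at hb
    have h3 : Λ b (y, φ) ∈ OO U := RR_overU hL h1 hb.1
    have h4 : (Λ b (y, φ)).2 + j * Real.pi = 0 := hb.2.2
    rw [h3.2.2, zero_add] at h4
    rw [h4, add_zero]
  · rw [leaf_odd hL.red hL.curv hL.flow h1.1 ho b] at hb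
    have h3 : Λ (-b) (y, φ) ∈ OO U := RR_overU hL h1 hb.1
    have h4 : (Λ (-b) (y, φ)).2 + j * Real.pi = 0 := hb.2.2
    rw [h3.2.2, zero_add] at h4
    rw [h4, add_zero]

theorem RR_zero (hL : Leaf v C U U₂ T κ Λ) {q : E n} (hq : q ∈ U) :
    ((q, (0 : ℝ)), (0 : ℝ)) ∈ RR v C U Λ := by
  refine ⟨PS_zero hL.red hq, 0, ?_⟩
  rw [hL.flow.zero]
  exact ⟨hq, rfl, rfl⟩

end Pool.Agent.H2.TG
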