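import Pool.Agent.H2.TG.Cover
import Pool.Agent.H2.TG.Uniq
import Pool.Agent.H2.TG.Glue
import Pool.Agent.H2.TG.Avg

/-!
# The global phase function (module Theta)

PROOF. (a) `exists_glue` on `V = E n × ℝ` with `t y = {φ | y ∈ C → (y, φ) ∈ RR}` (for `y ∈ C` it is a single
point by `cover`, `RR_unique`, so convex; for `y ∉ C` it is everything). Local sections: at `y ∉ C` the open
complement of `C` and `0`; at `y ∈ C`: `(y, φ) ∈ RR`, a local equation and a phase `ϑ` on `W` with `ϑ y = φ`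
(`exists_phase`), `open_RR` gives an open `W' ∋ y`, `W' ⊆ W`, with `(y', ϑ y') ∈ RR` for `y' ∈ W' ∩ C`.
This gives a smooth `Θ₀` with `(y, Θ₀ y) ∈ RR` for all `y ∈ C`.
(b) average (`exists_avg` with `P = ℝ`): for `y ∈ C`, `Θ₀ (y.1 + g, y.2) = Θ₀ y` by `RR_trans` and `RR_unique`, so the
average `Θ₁` is invariant and equal to `Θ₀` on `C`.
(c) cut off: `χ : E n → ℝ` smooth, invariant, `χ = 0` on `U₂`, `χ = 1` outside `U`: `exists_cut` with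
`s = closure U₂`, `t = Uᶜ` (disjoint by `hL.cl₂`) gives `χ₀`; average `F (q, p) = χ₀ q` (`P = ℝ`), put
`χ q = F' (q, 0)` (`U₂` and `Uᶜ` are invariant under the lattice, so all the values at the translates are
`0` resp. `1`). `η : ℝ → ℝ` smooth, `η = 1` on `[-M₀, M₀]`, `η = 0` outside `[-M₀ - 1, M₀ + 1]` (`exists_cut` or
`ContDiffBump`), `M₀ ≥ 0` a bound of `|y.2|` on `C`. `Θ y = χ y.1 * η y.2 * Θ₁ y`, `M = M₀ + 1`.
For `y ∈ C`: `η y.2 = 1`; if `y.1 ∉ U`, `χ = 1` and `Θ y = Θ₁ y`; if `y.1 ∈ U` then `y.2 = 0` and the phase in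
`RR` is `0` (`RR_zero`, `RR_unique`), so `Θ₁ y = 0 = Θ y`. So `(y, Θ y) ∈ RR ⊆ PS`.
`Phase`: `supp`: `η = 0` for `|r| ≥ M` (choose `η` zero there); `overU` (for `U₂`): `χ = 0`; `rays`, `hT`, `hv` from
`hL`.
-/

set_option autoImplicit false

open scoped ContDiff Topology RealInnerProductSpace
open Set

namespace Pool.Agent.H2.TG

open Pool.Agent.H57.NL

variable {n : ℕ} {v : E n} {C : Set (E n × ℝ)} {U U₂ : Set (E n)} {T : ℝ}
  {κ : (E n × ℝ) × ℝ → ℝ} {Λ : ℝ → (E n × ℝ) × ℝ → (E n × ℝ) × ℝ}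

private theorem Theta_zero (hL : Leaf v C U U₂ T κ Λ) : ∃ Θ₀ : E n × ℝ → ℝ, ContDiff ℝ ∞ Θ₀ ∧
    ∀ y ∈ C, (y, Θ₀ y) ∈ RR v C U Λ := by
  refine exists_glue (V := E n × ℝ) (fun y => {φ : ℝ | y ∈ C → (y, φ) ∈ RR v C U Λ})
    (fun y => ?_) (fun y => ?_)
  · by_cases hy : y ∈ C
    · have h1 : {φ : ℝ | y ∈ C → (y, φ) ∈ RR v C U Λ}.Subsingleton :=
        fun φ hφ ψ hψ => RR_unique hL (hφ hy) (hψ hy)
      exact h1.convex
    · have h1 : {φ : ℝ | y ∈ C → (y, φ) ∈ RR v C U Λ} = univ :=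
        Set.eq_univ_of_forall fun φ h => absurd h hy
      rw [h1]
      exact convex_univ
  · by_cases hy : y ∈ C
    · obtain ⟨φ, hφ⟩ := cover hL hy
      obtain ⟨W, u, hyW, hC⟩ := hL.red.loc y hy
      obtain ⟨W₁, ϑ, -, hyW₁, hC₁, hϑ, hϑy⟩ := exists_phase hC hyW (φ := φ)
        (hφ.1.2 W u hyW hC)
      have h2 := open_RR hL hC₁ hϑ hyW₁ (by rw [hϑy]; exact hφ)
      obtain ⟨W₂, hW₂, hW₂o, hyW₂⟩ := eventually_nhds_iff.1 h2
      exact ⟨W₂ ∩ W₁, hW₂o.inter hC₁.isOpen, ⟨hyW₂, hyW₁⟩, ϑ, hϑ.smooth.mono inter_subset_right,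
        fun y' hy' => hW₂ y' hy'.1⟩
    · exact ⟨Cᶜ, hL.red.closed.isOpen_compl, hy, fun _ => 0, contDiffOn_const,
        fun y' hy' h => absurd h hy'⟩

theorem exists_theta (hL : Leaf v C U U₂ T κ Λ) : ∃ (Θ : E n × ℝ → ℝ) (M : ℝ),
    Phase v Θ U₂ M T ∧ ∀ y ∈ C, (y, Θ y) ∈ PS v C := by
  obtain ⟨Θ₀, hΘ₀, hΘ₀C⟩ := Theta_zero hL
  obtain ⟨Θ₁, hΘ₁, hΘ₁inv, hΘ₁v, -⟩ := exists_avg Θ₀ hΘ₀
  have hΘC : ∀ y ∈ C, Θ₁ y = Θ₀ y := by
    intro y hy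
    refine hΘ₁v y.1 y.2 (Θ₀ y) fun g hg => ?_
    have h1 : (y.1 + g, y.2) ∈ C := hL.red.inv g hg y hy
    exact RR_unique hL (hΘ₀C _ h1) (RR_trans hL hg (hΘ₀C y hy))
  -- the cutoff in the base
  have hdis : Disjoint (closure U₂) Uᶜ := by
    rw [Set.disjoint_compl_right_iff_subset]
    exact hL.cl₂
  obtain ⟨χ₀, hχ₀, hχ0, hχ1, -⟩ := exists_cut (V := E n) isClosed_closure
    hL.red.open_U.isClosed_compl hdis
  obtain ⟨χ₁, hχ₁, hχ₁inv, hχ₁v, -⟩ := exists_avg (P := ℝ) (fun y : E n × ℝ => χ₀ y.1)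
    (hχ₀.comp contDiff_fst)
  have hχU₂ : ∀ q ∈ U₂, χ₁ (q, 0) = 0 := by
    intro q hq
    exact hχ₁v q 0 0 fun g hg => hχ0 _ (subset_closure (hL.inv₂ g hg q hq))
  have hχU : ∀ q, q ∉ U → χ₁ (q, 0) = 1 := by
    intro q hq
    refine hχ₁v q 0 1 fun g hg => hχ1 _ fun h => hq ?_
    have h1 := hL.red.inv_U (-g) ((lat n).neg_mem hg) (q + g) h
    rwa [add_neg_cancel_right] at h1
  -- the cutoff in the fibre
  obtain ⟨M₁, hM₁⟩ := hL.red.bdd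
  set M₀ : ℝ := max M₁ 0 with hM₀
  have hM₀0 : 0 ≤ M₀ := le_max_right _ _
  obtain ⟨η, hη, hη0, hη1, -⟩ := exists_cut (V := ℝ) (s := {r : ℝ | M₀ + 1 ≤ |r|})
    (t := {r : ℝ | |r| ≤ M₀}) (isClosed_le continuous_const continuous_abs)
    (isClosed_le continuous_abs continuous_const) (by
      rw [Set.disjoint_left]
      intro r h1 h2
      have h1' : M₀ + 1 ≤ |r| := h1
      have h2' : |r| ≤ M₀ := h2
      linarith)
  refine ⟨fun y => χ₁ (y.1, 0) * (η y.2 * Θ₁ y), M₀ + 1, ?_, ?_⟩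
  · refine ⟨?_, ?_, ?_, hL.open₂, ?_, hL.rays, by linarith, hL.hT, hL.hv⟩
    · have h1 : ContDiff ℝ ∞ fun y : E n × ℝ => χ₁ (y.1, (0 : ℝ)) :=
        hχ₁.comp (contDiff_fst.prodMk contDiff_const)
      exact h1.mul ((hη.comp contDiff_snd).mul hΘ₁)
    · intro g hg x
      change χ₁ (x.1 + g, 0) * (η x.2 * Θ₁ (x.1 + g, x.2)) = χ₁ (x.1, 0) * (η x.2 * Θ₁ x)
      rw [hχ₁inv g hg, hΘ₁inv g hg]
    · intro x hx
      rw [hη0 x.2 hx, zero_mul, mul_zero]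
    · intro q hq r
      change χ₁ (q, 0) * (η r * Θ₁ (q, r)) = 0
      rw [hχU₂ q hq, zero_mul]
  · intro y hy
    change (y, χ₁ (y.1, 0) * (η y.2 * Θ₁ y)) ∈ PS v C
    by_cases hU : y.1 ∈ U
    · have h2 : y.2 = 0 := (hL.red.overU y.1 hU y.2).1 hy
      have h3 : (y, (0 : ℝ)) ∈ RR v C U Λ := by
        have h4 := RR_zero hL hU
        have h5 : ((y.1, (0 : ℝ)) : E n × ℝ) = y := Prod.ext rfl h2.symm
        rwa [h5] at h4
      have h6 : Θ₀ y = 0 := RR_unique hL (hΘ₀C y hy) h3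
      rw [hΘC y hy, h6, mul_zero, mul_zero]
      exact h3.1
    · have h2 : |y.2| ≤ M₀ := (hM₁ y hy).trans (le_max_left _ _)
      rw [hχU y.1 hU, hη1 y.2 h2, one_mul, one_mul, hΘC y hy]
      exact (hΘ₀C y hy).1

end Pool.Agent.H2.TG
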