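import Pool.Agent.H2.TG.Tor

/-!
# Translation by a differential (module Transl)

`G` is a smooth periodic function, `s` its gradient, `shift s (q, p) = (q, p + s q)`.

PROOFS. `shift s` is a diffeomorphism of `E n × E n` with inverse `shift (-s)`; it commutes with the
lattice translations; its derivative is `(w₁, w₂) ↦ (w₁, w₂ + Ds(q) w₁)`.
* `symm`: `Ds(q)` is symmetric: `⟪Ds(q) w, w'⟫` is the second derivative of `G`
  (`ContDiffAt.isSymmSndFDerivAt`, `second_derivative_symmetric`).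
* `sympDiffeo_shift`: `SympDiffeo univ (lat n) (shift s) (shift (-s))`: `PresOm`: for `v ∈ Tan` (all vectors)
  `v' = Dψ v`; `Push` is the chain rule (`HasFDerivAt.comp_hasDerivAt`);
  `om (Dψ v) (Dψ w) = ⟪v.2 + Ds v.1, w.1⟫ - ⟪w.2 + Ds w.1, v.1⟫ = om v w` by symmetry.
* `exactLag_shift`: the image `S' = shift (-s) '' S` with `f' = f - G ∘ fst` is again `ExactLag`:
  `sub`: compose the charts with the diffeomorphism (`e ∘ shift s`, see `IsSubmfd.image` below);
  `lag`: `Tan S' (ψ z) = Dψ (Tan S z)` and `Dψ` preserves `om`; `prim`: at `z' = (q, p - s q)`: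
  `f' y' - f' z' - ⟪z'.2, y'.1 - z'.1⟫ = [f y - f z - ⟪z.2, y.1 - z.1⟫] - [G y.1 - G z.1 - ⟪s q, y.1 - z.1⟫]`,
  both brackets are little-o of `y - z`, and `y - z = O(y' - z')`.
* `embeds_shift`, `conn_shift`: direct from the definitions (for `Embeds.imm`: `Dψ (0, b) = (0, b)`).
`IsSubmfd.image`: if `F : V → V` is a homeomorphism smooth in both directions (`F' ∘ F = id`,
`F ∘ F' = id`), then `F '' S` is a submanifold: chart `e' = F'.toOpenPartialHomeomorph ≫ e`.
`Tan_image`: `w ∈ Tan (F '' S) (F z) ↔ ∃ v ∈ Tan S z, w = DF(z) v`.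
-/

set_option autoImplicit false

open scoped ContDiff Topology RealInnerProductSpace
open Set

namespace Pool.Agent.H2.TG

open Pool.Agent.H57.NL

variable {n : ℕ} {S : Set (E n × E n)} {f : E n × E n → ℝ} {v : E n}

/-- The translation by the section `s`. -/
def shift (s : E n → E n) (z : E n × E n) : E n × E n := (z.1, z.2 + s z.1)

theorem IsSubmfd.image {V : Type*} [NormedAddCommGroup V] [NormedSpace ℝ V] {m : ℕ} {S : Set V}
    (hS : IsSubmfd m S) {F F' : V → V} (hF : ContDiff ℝ ∞ F) (hF' : ContDiff ℝ ∞ F')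
    (h1 : ∀ x, F' (F x) = x) (h2 : ∀ x, F (F' x) = x) : IsSubmfd m (F '' S) := by
  rintro x ⟨y, hy, rfl⟩
  obtain ⟨e, A, h3, h4, h5, h6, h7⟩ := hS y hy
  let Φ : V ≃ₜ V :=
    { toFun := F'
      invFun := F
      left_inv := h2
      right_inv := h1
      continuous_toFun := hF'.continuous
      continuous_invFun := hF.continuous }
  have hs : (Φ.transOpenPartialHomeomorph e).source = F' ⁻¹' e.source := rfl
  have ht : (Φ.transOpenPartialHomeomorph e).target = e.target := rfl
  refine ⟨Φ.transOpenPartialHomeomorph e, A, ?_, ?_, ?_, h6, ?_⟩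
  · rw [hs, Set.mem_preimage, h1]
    exact h3
  · rw [hs]
    exact h4.comp hF'.contDiffOn (Set.mapsTo_preimage F' e.source)
  · rw [ht]
    exact hF.comp_contDiffOn h5
  · intro w hw
    rw [hs, Set.mem_preimage] at hw
    have h8 := h7 (F' w) hw
    have h9 : w ∈ F '' S ↔ F' w ∈ S := by
      constructor
      · rintro ⟨a, ha, rfl⟩
        rwa [h1]
      · intro h
        exact ⟨F' w, h, h2 w⟩
    rw [h9]
    exact h8

theorem Tan_image {V : Type*} [NormedAddCommGroup V] [NormedSpace ℝ V] {S : Set V}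
    {F F' : V → V} (hF : ContDiff ℝ ∞ F) (hF' : ContDiff ℝ ∞ F')
    (h1 : ∀ x, F' (F x) = x) (h2 : ∀ x, F (F' x) = x) {z w : V} :
    w ∈ Tan (F '' S) (F z) ↔ ∃ u ∈ Tan S z, w = fderiv ℝ F z u := by
  have hF1 := hF.differentiable (by norm_num)
  have hF1' := hF'.differentiable (by norm_num)
  constructor
  · rintro ⟨γ, h3, h4, h5⟩
    refine ⟨fderiv ℝ F' (F z) w, ⟨fun s => F' (γ s), ?_, ?_, ?_⟩, ?_⟩
    · show F' (γ 0) = z
      rw [h3, h1]
    · filter_upwards [h4] with s hs
      obtain ⟨a, ha, hb⟩ := hs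
      show F' (γ s) ∈ S
      rw [← hb, h1]
      exact ha
    · have h6 : HasFDerivAt F' (fderiv ℝ F' (F z)) (γ 0) := by
        rw [h3]
        exact (hF1' (F z)).hasFDerivAt
      exact h6.comp_hasDerivAt 0 h5
    · have h7 : HasFDerivAt F (fderiv ℝ F z) (F' (F z)) := by
        rw [h1]
        exact (hF1 z).hasFDerivAt
      have h8 := h7.comp (F z) (hF1' (F z)).hasFDerivAt
      have h9 : F ∘ F' = id := funext h2
      rw [h9] at h8
      have h10 := h8.unique (hasFDerivAt_id (F z))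
      have h11 := congrArg (fun L : V →L[ℝ] V => L w) h10
      simpa using h11.symm
  · rintro ⟨u, ⟨γ, h3, h4, h5⟩, rfl⟩
    refine ⟨fun s => F (γ s), ?_, ?_, ?_⟩
    · show F (γ 0) = F z
      rw [h3]
    · filter_upwards [h4] with s hs
      exact ⟨γ s, hs, rfl⟩
    · have h6 : HasFDerivAt F (fderiv ℝ F z) (γ 0) := by
        rw [h3]
        exact (hF1 z).hasFDerivAt
      exact h6.comp_hasDerivAt 0 h5

/-- A diffeomorphism of `E n × E n` which commutes with the lattice and preserves `om` induces a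
symplectic diffeomorphism of the cotangent bundle of the torus. -/
theorem sympDiffeo_of {F F' : E n × E n → E n × E n} (hF : ContDiff ℝ ∞ F) (hF' : ContDiff ℝ ∞ F')
    (h1 : ∀ x, F' (F x) = x) (h2 : ∀ x, F (F' x) = x)
    (he : ∀ g ∈ lat n, ∀ z, F (tr g z) = tr g (F z))
    (hs : ∀ z u w, om (fderiv ℝ F z u) (fderiv ℝ F z w) = om u w) :
    SympDiffeo univ (lat n) F F' := by
  have hF1 := hF.differentiable (by norm_num)
  refine ⟨?_, ?_, fun z _ => h1 z, fun z _ => h2 z, ?_, ?_, fun g hg z _ => he g hg z, ?_⟩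
  · intro z _
    rw [TN_univ]
    exact mem_univ _
  · intro z _
    rw [TN_univ]
    exact mem_univ _
  · intro x _
    exact ⟨F, univ, isOpen_univ, mem_univ _, hF.contDiffOn, fun y _ => rfl⟩
  · intro x _
    exact ⟨F', univ, isOpen_univ, mem_univ _, hF'.contDiffOn, fun y _ => rfl⟩
  · intro z _ u _ w _
    have hp : ∀ u, Push (TN univ) F z u (fderiv ℝ F z u) := by
      intro u γ h3 _ h5
      have h6 : HasFDerivAt F (fderiv ℝ F z) (γ 0) := by
        rw [h3]
        exact (hF1 z).hasFDerivAt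
      exact h6.comp_hasDerivAt 0 h5
    exact ⟨_, _, hp u, hp w, hs z u w⟩

variable {G : E n → ℝ} {s : E n → E n}

private theorem transl_smooth (hs : ContDiff ℝ ∞ s) : ContDiff ℝ ∞ (shift s) := by
  unfold shift
  exact contDiff_fst.prodMk (contDiff_snd.add (hs.comp contDiff_fst))

private theorem transl_inv (s : E n → E n) (z : E n × E n) : shift (-s) (shift s z) = z := by
  unfold shift
  ext1
  · rfl
  · simp

private theorem transl_inv' (s : E n → E n) (z : E n × E n) : shift s (shift (-s) z) = z := by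
  unfold shift
  ext1
  · rfl
  · simp

private theorem transl_deriv (hs : ContDiff ℝ ∞ s) (z : E n × E n) :
    HasFDerivAt (shift s) ((ContinuousLinearMap.fst ℝ (E n) (E n)).prod
      (ContinuousLinearMap.snd ℝ (E n) (E n) +
        (fderiv ℝ s z.1).comp (ContinuousLinearMap.fst ℝ (E n) (E n)))) z := by
  have h1 : HasFDerivAt s (fderiv ℝ s z.1) z.1 :=
    ((hs.differentiable (by norm_num)) z.1).hasFDerivAt
  have h2 : HasFDerivAt (fun z : E n × E n => s z.1)
      ((fderiv ℝ s z.1).comp (ContinuousLinearMap.fst ℝ (E n) (E n))) z :=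
    h1.comp z hasFDerivAt_fst
  exact hasFDerivAt_fst.prodMk (hasFDerivAt_snd.add h2)

private theorem transl_fderiv (hs : ContDiff ℝ ∞ s) (z u : E n × E n) :
    fderiv ℝ (shift s) z u = (u.1, u.2 + fderiv ℝ s z.1 u.1) := by
  rw [(transl_deriv hs z).fderiv]
  simp

private theorem transl_symm (hG : ContDiff ℝ ∞ G) (hs : ContDiff ℝ ∞ s)
    (hd : ∀ q w, fderiv ℝ G q w = ⟪s q, w⟫) (q a b : E n) :
    ⟪fderiv ℝ s q a, b⟫ = ⟪fderiv ℝ s q b, a⟫ := by
  have h1 : fderiv ℝ G = fun q => innerSL ℝ (s q) := by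
    funext q
    ext w
    rw [hd q w]
    simp [innerSL_apply_apply]
  have h2 : ∀ c d : E n, fderiv ℝ (fderiv ℝ G) q c d = ⟪fderiv ℝ s q c, d⟫ := by
    intro c d
    rw [h1]
    have h3 : HasFDerivAt s (fderiv ℝ s q) q := ((hs.differentiable (by norm_num)) q).hasFDerivAt
    have h4 : HasFDerivAt (fun q => innerSL ℝ (s q)) ((innerSL ℝ).comp (fderiv ℝ s q)) q :=
      (innerSL ℝ : E n →L[ℝ] (E n →L[ℝ] ℝ)).hasFDerivAt.comp q h3
    rw [h4.fderiv]
    simp [innerSL_apply_apply]
  have h5 : IsSymmSndFDerivAt ℝ G q := by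
    have h6 : ContDiffAt ℝ 2 G q := (contDiff_infty.1 hG 2).contDiffAt
    exact h6.isSymmSndFDerivAt (by simp)
  rw [← h2 a b, ← h2 b a]
  exact h5 a b

private theorem transl_om (hG : ContDiff ℝ ∞ G) (hs : ContDiff ℝ ∞ s)
    (hd : ∀ q w, fderiv ℝ G q w = ⟪s q, w⟫) (z u w : E n × E n) :
    om (fderiv ℝ (shift s) z u) (fderiv ℝ (shift s) z w) = om u w := by
  rw [transl_fderiv hs, transl_fderiv hs]
  unfold om
  simp only [inner_add_left]
  rw [transl_symm hG hs hd z.1 u.1 w.1]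
  ring

private theorem transl_neg {G : E n → ℝ} {s : E n → E n}
    (hd : ∀ q w, fderiv ℝ G q w = ⟪s q, w⟫) (q w : E n) :
    fderiv ℝ (-G) q w = ⟪(-s) q, w⟫ := by
  rw [fderiv_neg]
  simp [hd]

private theorem transl_bdd (hs : ContDiff ℝ ∞ s) (hsi : ∀ g ∈ lat n, ∀ q, s (q + g) = s q) :
    ∃ K : ℝ, ∀ q, ‖s q‖ ≤ K := by
  obtain ⟨R, hR⟩ := lat_cocpt (n := n)
  obtain ⟨K, hK⟩ := (isCompact_closedBall (0 : E n) R).exists_bound_of_continuousOn
    hs.continuous.continuousOn
  refine ⟨K, fun q => ?_⟩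
  obtain ⟨g, hg, hgR⟩ := hR q
  rw [← hsi g hg q]
  exact hK _ (by simpa using hgR)

private theorem transl_tr (hsi : ∀ g ∈ lat n, ∀ q, s (q + g) = s q) {g : E n} (hg : g ∈ lat n)
    (z : E n × E n) : shift s (tr g z) = tr g (shift s z) := by
  unfold shift tr
  simp only [hsi g hg]

private theorem transl_nsi (hsi : ∀ g ∈ lat n, ∀ q, s (q + g) = s q) :
    ∀ g ∈ lat n, ∀ q, (-s) (q + g) = (-s) q := by
  intro g hg q
  simp [hsi g hg q]

private theorem transl_image (s : E n → E n) (S : Set (E n × E n)) :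
    shift (-s) '' S = shift s ⁻¹' S := by
  ext z
  constructor
  · rintro ⟨y, hy, rfl⟩
    rw [Set.mem_preimage, transl_inv']
    exact hy
  · intro hz
    exact ⟨shift s z, hz, transl_inv s z⟩

theorem sympDiffeo_shift (hG : ContDiff ℝ ∞ G) (hs : ContDiff ℝ ∞ s)
    (hsi : ∀ g ∈ lat n, ∀ q, s (q + g) = s q) (hd : ∀ q w, fderiv ℝ G q w = ⟪s q, w⟫) :
    SympDiffeo univ (lat n) (shift s) (shift (-s)) := by
  refine sympDiffeo_of (transl_smooth hs) (transl_smooth hs.neg) (transl_inv s) (transl_inv' s)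
    (fun g hg z => transl_tr hsi hg z) (transl_om hG hs hd)

theorem exactLag_shift (hL : ExactLag n univ (lat n) S f) (hG : ContDiff ℝ ∞ G)
    (hs : ContDiff ℝ ∞ s) (hGi : ∀ g ∈ lat n, ∀ q, G (q + g) = G q)
    (hsi : ∀ g ∈ lat n, ∀ q, s (q + g) = s q) (hd : ∀ q w, fderiv ℝ G q w = ⟪s q, w⟫) :
    ∃ f', ExactLag n univ (lat n) (shift (-s) '' S) f' := by
  have hns : ContDiff ℝ ∞ (-s) := hs.neg
  have hnG : ContDiff ℝ ∞ (-G) := hG.neg
  refine ⟨fun y => f (shift s y) - G y.1, ?_⟩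
  refine ⟨hL.ne.image _, IsSubmfd.image hL.sub (transl_smooth hns) (transl_smooth hs) (transl_inv' s)
    (transl_inv s), ?_, ?_, ?_, ?_, ?_, ?_, ?_⟩
  · rw [transl_image]
    exact hL.closed.preimage (transl_smooth hs).continuous
  · rw [TN_univ]
    exact subset_univ _
  · rintro g hg z ⟨y, hy, rfl⟩
    exact ⟨tr g y, hL.inv g hg y hy, transl_tr (transl_nsi hsi) hg y⟩
  · obtain ⟨R, hR⟩ := hL.bdd
    obtain ⟨K, hK⟩ := transl_bdd hs hsi
    refine ⟨R + K, ?_⟩
    rintro z ⟨y, hy, rfl⟩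
    have h1 : (shift (-s) y).2 = y.2 - s y.1 := by
      unfold shift
      simp [sub_eq_add_neg]
    rw [h1]
    exact (norm_sub_le _ _).trans (add_le_add (hR y hy) (hK _))
  · rintro z ⟨y, hy, rfl⟩ u hu w hw
    obtain ⟨u', hu', rfl⟩ := (Tan_image (transl_smooth hns) (transl_smooth hs) (transl_inv' s)
      (transl_inv s)).1 hu
    obtain ⟨w', hw', rfl⟩ := (Tan_image (transl_smooth hns) (transl_smooth hs) (transl_inv' s)
      (transl_inv s)).1 hw
    rw [transl_om hnG hns (transl_neg hd)]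
    exact hL.lag y hy u' hu' w' hw'
  · intro z' hz'
    have hz : shift s z' ∈ S := by
      rw [transl_image] at hz'
      exact hz'
    have hsh := transl_deriv hs z'
    -- the first bracket
    have hT : Filter.Tendsto (shift s) (𝓝[shift (-s) '' S] z') (𝓝[S] (shift s z')) := by
      refine ((transl_smooth hs).continuous.continuousWithinAt).tendsto_nhdsWithin ?_
      intro y hy
      rw [transl_image] at hy
      exact hy
    have h1 := ((hL.prim _ hz).comp_tendsto hT).trans_isBigO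
      ((hsh.isBigO_sub).mono nhdsWithin_le_nhds)
    -- the second bracket
    have hG1 : HasFDerivAt G (innerSL ℝ (s z'.1)) z'.1 := by
      have h2 := ((hG.differentiable (by norm_num)) z'.1).hasFDerivAt
      have h3 : fderiv ℝ G z'.1 = innerSL ℝ (s z'.1) := by
        ext w
        rw [hd]
        simp [innerSL_apply_apply]
      rwa [h3] at h2
    have hG2 : HasFDerivAt (fun y : E n × E n => G y.1)
        ((innerSL ℝ (s z'.1)).comp (ContinuousLinearMap.fst ℝ (E n) (E n))) z' :=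
      hG1.comp z' hasFDerivAt_fst
    have h4 := (hasFDerivAt_iff_isLittleO.1 hG2).mono
      (nhdsWithin_le_nhds (s := shift (-s) '' S))
    refine (h1.sub h4).congr_left fun y => ?_
    have h5 : (shift s z').2 = z'.2 + s z'.1 := rfl
    have h6 : (shift s y).1 = y.1 := rfl
    have h7 : (shift s z').1 = z'.1 := rfl
    simp only [Function.comp_apply, h5, h6, h7, inner_add_left, ContinuousLinearMap.comp_apply,
      ContinuousLinearMap.coe_fst', innerSL_apply_apply, Prod.fst_sub]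
    ring
  · rintro g hg z ⟨y, hy, rfl⟩
    have h1 : shift s (tr g (shift (-s) y)) = tr g y := by
      rw [transl_tr hsi hg, transl_inv']
    have h2 : (tr g (shift (-s) y)).1 = y.1 + g := rfl
    have h3 : (shift (-s) y).1 = y.1 := rfl
    simp only [h1, h2, h3, transl_inv', hL.finv g hg y hy, hGi g hg]

theorem embeds_shift (h : Embeds v S) (hs : ContDiff ℝ ∞ s) : Embeds v (shift (-s) '' S) := by
  have hns : ContDiff ℝ ∞ (-s) := hs.neg
  constructor
  · rintro z ⟨a, ha, rfl⟩ z' ⟨b, hb, rfl⟩ h1 h2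
    have h3 : a.1 = b.1 := h1
    have h4 : ⟪a.2, v⟫ = ⟪b.2, v⟫ := by
      have h5 : ⟪a.2 + -(s a.1), v⟫ = ⟪b.2 + -(s b.1), v⟫ := h2
      rw [inner_add_left, inner_add_left, h3] at h5
      linarith
    rw [h.inj a ha b hb h3 h4]
  · rintro z ⟨a, ha, rfl⟩ b hb hbv
    obtain ⟨u, hu, hub⟩ := (Tan_image (transl_smooth hns) (transl_smooth hs) (transl_inv' s)
      (transl_inv s)).1 hb
    rw [transl_fderiv hns] at hub
    have h1 : u.1 = 0 := by
      have := congrArg Prod.fst hub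
      exact this.symm
    have h2 : u.2 = b := by
      have := congrArg Prod.snd hub
      rw [h1] at this
      simpa using this.symm
    have h3 : u = (0, b) := Prod.ext h1 h2
    rw [h3] at hu
    exact h.imm a ha b hu hbv

theorem conn_shift (h : ConnMod S) (hs : ContDiff ℝ ∞ s)
    (hsi : ∀ g ∈ lat n, ∀ q, s (q + g) = s q) : ConnMod (shift (-s) '' S) := by
  intro C D hC hD h1 h2 h3 h4 h5
  have hcont : Continuous (shift (-s)) := (transl_smooth hs.neg).continuous
  have key := h (shift (-s) ⁻¹' C) (shift (-s) ⁻¹' D) (hC.preimage hcont) (hD.preimage hcont)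
    ?_ ?_ ?_ ?_ ?_
  · rintro z ⟨y, hy, rfl⟩
    exact key hy
  · intro z hz
    exact h1 ⟨z, hz, rfl⟩
  · ext z
    constructor
    · rintro ⟨⟨hz, hz1⟩, hz2⟩
      have : shift (-s) z ∈ shift (-s) '' S ∩ C ∩ D := ⟨⟨⟨z, hz, rfl⟩, hz1⟩, hz2⟩
      rw [h2] at this
      exact this
    · intro hz
      exact hz.elim
  · intro g hg z
    show shift (-s) z ∈ C ↔ shift (-s) (tr g z) ∈ C
    rw [transl_tr (transl_nsi hsi) hg]
    exact h3 g hg _
  · intro g hg z
    show shift (-s) z ∈ D ↔ shift (-s) (tr g z) ∈ D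
    rw [transl_tr (transl_nsi hsi) hg]
    exact h4 g hg _
  · obtain ⟨z, ⟨y, hy, rfl⟩, hz2⟩ := h5
    exact ⟨y, hy, hz2⟩

end Pool.Agent.H2.TG
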