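import Pool.Agent.H2.TG.Flow

/-!
# The flows of the fields `XF v Θ s`, jointly in `s` (module XFlow)

`XF v Θ s x = ((- sin (s * Θ x)) • v, cos (s * Θ x))`, sup norm at most `1` (`‖v‖ = 1`).

PROOFS.
* `XF_contDiff`: direct.
* `exists_XFlow`: the field `Y (s, x) = (0, XF v Θ s x)` on `V = ℝ × (E n × ℝ)` is smooth and bounded by `1`; let
  `Ψ̂` be its flow (`exists_isFlow`); the first component is constant, so
  `Ψ s t x = (Ψ̂ t (s, x)).2` is the flow of `XF v Θ s`; joint continuity from `Ψ̂` smooth.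
* `x_line`: as in `leaf_q`: the derivative of `(Ψ t x).1` is a multiple of `v`.
* `x_tc`, `x_r`: components of `hF.deriv`.
* `x_rlip`: `|cos| ≤ 1`, mean value inequality; `x_norm`: `‖Ψ t x - x‖ ≤ |t|` (sup norm of the field `≤ 1`).
* `x_trans`: `Θ` is invariant; `IsFlow.trans` with `w = (g, 0)`.
* `x_over`: over `U` the curve `t ↦ (x.1, x.2 + t)` is an integral curve (`Θ = 0` there), uniqueness.
* `x_down`: let `x.2 ≤ -M`, `t ≤ 0`. The curve `t ↦ (x.1, x.2 + t)` is an integral curve for `t ≤ 0` only; to use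
  `IsFlow.unique_on` (two sided) at the point `y = (x.1, x.2 + t/2)` with `ε = |t|/2`: on `[-|t|/2, |t|/2]` the
  curve `s ↦ (x.1, y.2 + s)` stays in `{r ≤ -M}` where `Θ = 0`; so `Ψ (t/2) y = (x.1, x.2 + t)` and
  `Ψ (-t/2) y = x`; conclude with `IsFlow.add`: `Ψ t x = Ψ t (Ψ (-t/2) y) = Ψ (t/2) y`. `x_up`: the same.
* `x_up'`: once above `M` always above.
-/

set_option autoImplicit false

open scoped ContDiff Topology RealInnerProductSpace
open Set

namespace Pool.Agent.H2.TG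

open Pool.Agent.H57.NL

variable {n : ℕ} {v : E n} {Θ : E n × ℝ → ℝ} {U : Set (E n)} {M T : ℝ}

private theorem xflow_fst {A B : Type} [NormedAddCommGroup A] [NormedSpace ℝ A]
    [NormedAddCommGroup B] [NormedSpace ℝ B] {f : ℝ → A × B} {f' : A × B} {t : ℝ}
    (h : HasDerivAt f f' t) : HasDerivAt (fun t => (f t).1) f'.1 t :=
  (ContinuousLinearMap.fst ℝ A B).hasFDerivAt.comp_hasDerivAt t h

private theorem xflow_snd {A B : Type} [NormedAddCommGroup A] [NormedSpace ℝ A]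
    [NormedAddCommGroup B] [NormedSpace ℝ B] {f : ℝ → A × B} {f' : A × B} {t : ℝ}
    (h : HasDerivAt f f' t) : HasDerivAt (fun t => (f t).2) f'.2 t :=
  (ContinuousLinearMap.snd ℝ A B).hasFDerivAt.comp_hasDerivAt t h

private theorem xflow_const {A : Type} [NormedAddCommGroup A] [NormedSpace ℝ A] {f : ℝ → A}
    (h : ∀ t, HasDerivAt f 0 t) (s t : ℝ) : f s = f t :=
  is_const_of_deriv_eq_zero (fun t => (h t).differentiableAt) (fun t => (h t).deriv) s t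

private theorem xflow_lip {A : Type} [NormedAddCommGroup A] [NormedSpace ℝ A] {f f' : ℝ → A}
    (h : ∀ t, HasDerivAt f (f' t) t) (hb : ∀ t, ‖f' t‖ ≤ 1) (t : ℝ) : ‖f t - f 0‖ ≤ |t| := by
  have := Convex.norm_image_sub_le_of_norm_hasDerivWithin_le (s := Set.univ) (C := 1)
    (fun x _ => (h x).hasDerivWithinAt) (fun x _ => hb x) convex_univ (Set.mem_univ 0)
    (Set.mem_univ t)
  simpa using this

private theorem xflow_bd (hv : ‖v‖ = 1) (Θ : E n × ℝ → ℝ) (s : ℝ) (x : E n × ℝ) :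
    ‖XF v Θ s x‖ ≤ 1 := by
  rw [Prod.norm_def]
  apply max_le
  · show ‖(-Real.sin (s * Θ x)) • v‖ ≤ 1
    rw [norm_smul, hv, mul_one, Real.norm_eq_abs, abs_neg]
    exact Real.abs_sin_le_one _
  · show ‖Real.cos (s * Θ x)‖ ≤ 1
    rw [Real.norm_eq_abs]
    exact Real.abs_cos_le_one _

theorem XF_contDiff (hP : Phase v Θ U M T) (s : ℝ) : ContDiff ℝ ∞ (XF v Θ s) := by
  have h := hP.smooth
  have h1 : ContDiff ℝ ∞ fun x => s * Θ x := contDiff_const.mul h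
  exact ((h1.sin.neg).smul contDiff_const).prodMk h1.cos

theorem exists_XFlow (hP : Phase v Θ U M T) : ∃ Ψ : ℝ → ℝ → E n × ℝ → E n × ℝ,
    (∀ s, IsFlow (XF v Θ s) (Ψ s)) ∧
      Continuous fun y : ℝ × ℝ × (E n × ℝ) => Ψ y.1 y.2.1 y.2.2 := by
  let Y : ℝ × (E n × ℝ) → ℝ × (E n × ℝ) := fun y => (0, XF v Θ y.1 y.2)
  have hY : ContDiff ℝ ∞ Y := by
    have h1 : ContDiff ℝ ∞ fun y : ℝ × (E n × ℝ) => y.1 * Θ y.2 :=
      contDiff_fst.mul (hP.smooth.comp contDiff_snd)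
    exact contDiff_const.prodMk (((h1.sin.neg).smul contDiff_const).prodMk h1.cos)
  have hb : ∀ y, ‖Y y‖ ≤ 1 := by
    intro y
    rw [Prod.norm_def]
    apply max_le
    · show ‖(0 : ℝ)‖ ≤ 1
      simp
    · exact xflow_bd hP.hv Θ y.1 y.2
  obtain ⟨Φ, hΦ⟩ := exists_isFlow hY hb
  have hfst : ∀ t y, (Φ t y).1 = y.1 := by
    intro t y
    have h1 : ∀ t, HasDerivAt (fun t => (Φ t y).1) 0 t := fun t => xflow_fst (hΦ.deriv y t)
    have h2 := xflow_const h1 t 0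
    simp only [hΦ.zero] at h2
    exact h2
  refine ⟨fun s t x => (Φ t (s, x)).2, fun s => ⟨fun x => ?_, fun x t => ?_, ?_⟩, ?_⟩
  · show (Φ 0 (s, x)).2 = x
    rw [hΦ.zero]
  · have h1 := xflow_snd (hΦ.deriv (s, x) t)
    have h2 : (Y (Φ t (s, x))).2 = XF v Θ s (Φ t (s, x)).2 := by
      show XF v Θ (Φ t (s, x)).1 (Φ t (s, x)).2 = _
      rw [hfst]
    rw [h2] at h1
    exact h1
  · have h1 : ContDiff ℝ ∞ fun y : ℝ × (E n × ℝ) => (y.1, ((s : ℝ), y.2)) :=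
      contDiff_fst.prodMk (contDiff_const.prodMk contDiff_snd)
    exact contDiff_snd.comp (hΦ.smooth.comp h1)
  · have h1 : Continuous fun y : ℝ × ℝ × (E n × ℝ) => (y.2.1, (y.1, y.2.2)) := by fun_prop
    exact continuous_snd.comp (hΦ.smooth.continuous.comp h1)

variable {s : ℝ} {Ψ : ℝ → E n × ℝ → E n × ℝ}

theorem x_line (hP : Phase v Θ U M T) (hF : IsFlow (XF v Θ s) Ψ) (x : E n × ℝ) (t : ℝ) :
    (Ψ t x).1 = x.1 + tc v x.1 (Ψ t x).1 • v := by
  have h1 : ∀ t, HasDerivAt (fun t => (Ψ t x).1 - x.1 - ⟪(Ψ t x).1 - x.1, v⟫ • v) 0 t := by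
    intro t
    have h2 : HasDerivAt (fun t => (Ψ t x).1) ((-Real.sin (s * Θ (Ψ t x))) • v) t :=
      xflow_fst (hF.deriv x t)
    have h3 := h2.sub_const x.1
    have h4 : HasDerivAt (fun t => ⟪(Ψ t x).1 - x.1, v⟫) (-Real.sin (s * Θ (Ψ t x))) t := by
      have := h3.inner ℝ (hasDerivAt_const t v)
      simpa [real_inner_smul_left, hP.hv] using this
    have h5 : HasDerivAt (fun t => (Ψ t x).1 - x.1 - ⟪(Ψ t x).1 - x.1, v⟫ • v)
        ((-Real.sin (s * Θ (Ψ t x))) • v - (-Real.sin (s * Θ (Ψ t x))) • v) t :=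
      h3.sub (h4.smul_const v)
    rw [sub_self] at h5
    exact h5
  have h2 := xflow_const h1 t 0
  simp only [hF.zero, sub_self, inner_zero_left, zero_smul] at h2
  unfold tc
  have h3 := sub_eq_zero.1 h2
  rw [← h3]
  abel

theorem x_tc (hP : Phase v Θ U M T) (hF : IsFlow (XF v Θ s) Ψ) (q : E n) (x : E n × ℝ) (t : ℝ) :
    HasDerivAt (fun t => tc v q (Ψ t x).1) (-Real.sin (s * Θ (Ψ t x))) t := by
  have h2 : HasDerivAt (fun t => (Ψ t x).1) ((-Real.sin (s * Θ (Ψ t x))) • v) t :=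
    xflow_fst (hF.deriv x t)
  have h3 := h2.sub_const q
  have := h3.inner ℝ (hasDerivAt_const t v)
  unfold tc
  simpa [real_inner_smul_left, hP.hv] using this

theorem x_r (hF : IsFlow (XF v Θ s) Ψ) (x : E n × ℝ) (t : ℝ) :
    HasDerivAt (fun t => (Ψ t x).2) (Real.cos (s * Θ (Ψ t x))) t :=
  xflow_snd (hF.deriv x t)

theorem x_rlip (hF : IsFlow (XF v Θ s) Ψ) (x : E n × ℝ) (t : ℝ) : |(Ψ t x).2 - x.2| ≤ |t| := by
  have h := xflow_lip (fun t => x_r hF x t) (fun t => by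
    rw [Real.norm_eq_abs]; exact Real.abs_cos_le_one _) t
  simpa [hF.zero] using h

theorem x_norm (hP : Phase v Θ U M T) (hF : IsFlow (XF v Θ s) Ψ) (x : E n × ℝ) (t : ℝ) :
    ‖Ψ t x - x‖ ≤ |t| := by
  have h := xflow_lip (fun t => hF.deriv x t) (fun t => xflow_bd hP.hv Θ s _) t
  simpa [hF.zero] using h

theorem x_trans (hP : Phase v Θ U M T) (hF : IsFlow (XF v Θ s) Ψ) {g : E n} (hg : g ∈ lat n)
    (x : E n × ℝ) (t : ℝ) : Ψ t (x.1 + g, x.2) = ((Ψ t x).1 + g, (Ψ t x).2) := by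
  have h1 : ∀ y : E n × ℝ, y + ((g, 0) : E n × ℝ) = (y.1 + g, y.2) := by
    intro y
    ext1
    · rfl
    · show y.2 + 0 = y.2
      rw [add_zero]
  have h2 := hF.trans (XF_contDiff hP s) (w := ((g, 0) : E n × ℝ)) (fun y => by
    rw [h1]
    unfold XF
    rw [hP.inv g hg y]) t x
  rw [h1, h1] at h2
  exact h2

private theorem xflow_vert {x : E n × ℝ} {t : ℝ} (h : Θ (x.1, x.2 + t) = 0) :
    HasDerivAt (fun t => (x.1, x.2 + t)) (XF v Θ s (x.1, x.2 + t)) t := by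
  have h1 : XF v Θ s (x.1, x.2 + t) = (0, 1) := by
    unfold XF
    rw [h]
    simp
  rw [h1]
  exact (hasDerivAt_const t x.1).prodMk ((hasDerivAt_id t).const_add x.2)

theorem x_over (hP : Phase v Θ U M T) (hF : IsFlow (XF v Θ s) Ψ) {x : E n × ℝ} (hx : x.1 ∈ U)
    (t : ℝ) : Ψ t x = (x.1, x.2 + t) := by
  have h := hF.unique (XF_contDiff hP s) (γ := fun t => (x.1, x.2 + t))
    (fun t => xflow_vert (hP.overU _ hx _)) t
  simp only [add_zero] at h
  exact h.symm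

private theorem xflow_half (hP : Phase v Θ U M T) (hF : IsFlow (XF v Θ s) Ψ) {x : E n × ℝ}
    {t : ℝ} (h : ∀ τ, |τ| ≤ |t| / 2 → Θ (x.1, x.2 + t / 2 + τ) = 0) : Ψ t x = (x.1, x.2 + t) := by
  have h1 : ∀ τ, |τ| ≤ |t| / 2 → Ψ τ (x.1, x.2 + t / 2) = (x.1, x.2 + t / 2 + τ) := by
    intro τ hτ
    have h2 := hF.unique_on (XF_contDiff hP s) (γ := fun τ => (x.1, x.2 + t / 2 + τ))
      (fun τ hτ => xflow_vert (x := (x.1, x.2 + t / 2)) (h τ hτ)) τ hτ
    simp only [add_zero] at h2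
    exact h2.symm
  have h3 := h1 (t / 2) (by rw [abs_div, abs_two])
  have h4 := h1 (-(t / 2)) (by rw [abs_neg, abs_div, abs_two])
  have h5 : x.2 + t / 2 + -(t / 2) = x.2 := by ring
  rw [h5] at h4
  have h6 := hF.add (XF_contDiff hP s) t (-(t / 2)) (x.1, x.2 + t / 2)
  rw [h4] at h6
  have h7 : t + -(t / 2) = t / 2 := by ring
  rw [h7, h3] at h6
  have h8 : x.2 + t / 2 + t / 2 = x.2 + t := by ring
  rw [h8] at h6
  exact h6

theorem x_down (hP : Phase v Θ U M T) (hF : IsFlow (XF v Θ s) Ψ) {x : E n × ℝ} (hx : x.2 ≤ -M)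
    {t : ℝ} (ht : t ≤ 0) : Ψ t x = (x.1, x.2 + t) := by
  refine xflow_half hP hF fun τ hτ => hP.supp _ ?_
  rw [abs_of_nonpos ht] at hτ
  have h1 := (abs_le.1 hτ).2
  show M ≤ |x.2 + t / 2 + τ|
  rw [le_abs]
  right
  linarith

theorem x_up (hP : Phase v Θ U M T) (hF : IsFlow (XF v Θ s) Ψ) {x : E n × ℝ} (hx : M ≤ x.2)
    {t : ℝ} (ht : 0 ≤ t) : Ψ t x = (x.1, x.2 + t) := by
  refine xflow_half hP hF fun τ hτ => hP.supp _ ?_
  rw [abs_of_nonneg ht] at hτ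
  have h1 := (abs_le.1 hτ).1
  show M ≤ |x.2 + t / 2 + τ|
  rw [le_abs]
  left
  linarith

/-- The orbits are confined by the gates over `U`. PROOF: let `q + t₁ • v ∈ U`, `q - t₂ • v ∈ U`,
`0 ≤ t₁, t₂ ≤ T` (`hP.rays`, `q = x.1`). If the coordinate `a t = tc v q (Ψ t x).1` is equal to `t₁` or to `-t₂`
at some time, the point is over `U` (`x_line`) and by `x_over` (and `IsFlow.add`) the first component is
constant in time, so `a` is constantly `a 0 = 0`. Otherwise `a` never takes the values `t₁`, `-t₂`,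
`a 0 = 0` (so `t₁, t₂ ≠ 0`), and by the intermediate value theorem `-t₂ < a < t₁`. -/
theorem x_conf (hP : Phase v Θ U M T) (hF : IsFlow (XF v Θ s) Ψ) (x : E n × ℝ) (t : ℝ) :
    |tc v x.1 (Ψ t x).1| ≤ T := by
  obtain ⟨⟨t₁, h1, h1T, h1U⟩, t₂, h2, h2T, h2U⟩ := hP.rays x.1
  have ha0 : tc v x.1 (Ψ 0 x).1 = 0 := by
    rw [hF.zero]
    unfold tc
    simp
  have hcont : Continuous fun t => tc v x.1 (Ψ t x).1 :=
    continuous_iff_continuousAt.2 fun t => (x_tc hP hF x.1 x t).continuousAt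
  have key : ∀ t0, x.1 + tc v x.1 (Ψ t0 x).1 • v ∈ U → tc v x.1 (Ψ t x).1 = 0 := by
    intro t0 ht0
    rw [← x_line hP hF x t0] at ht0
    have h3 : ∀ τ, (Ψ τ x).1 = (Ψ t0 x).1 := by
      intro τ
      have h4 := x_over hP hF ht0 (τ - t0)
      rw [hF.add (XF_contDiff hP s)] at h4
      have h5 : τ - t0 + t0 = τ := by ring
      rw [h5] at h4
      rw [h4]
    rw [h3 t, ← h3 0]
    exact ha0
  by_cases hc1 : ∃ t0, tc v x.1 (Ψ t0 x).1 = t₁
  · obtain ⟨t0, ht0⟩ := hc1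
    rw [key t0 (by rw [ht0]; exact h1U), abs_zero]
    exact hP.hT.le
  by_cases hc2 : ∃ t0, tc v x.1 (Ψ t0 x).1 = -t₂
  · obtain ⟨t0, ht0⟩ := hc2
    rw [key t0 (by rw [ht0, neg_smul, ← sub_eq_add_neg]; exact h2U), abs_zero]
    exact hP.hT.le
  by_contra hcon
  rw [not_le, lt_abs] at hcon
  rcases hcon with h | h
  · exact hc1 (mem_range_of_exists_le_of_exists_ge hcont ⟨0, by rw [ha0]; exact h1⟩
      ⟨t, by linarith⟩)
  · exact hc2 (mem_range_of_exists_le_of_exists_ge hcont ⟨t, by linarith⟩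
      ⟨0, by rw [ha0]; linarith⟩)

end Pool.Agent.H2.TG
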