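import Pool.Agent.H2.TG.Pos
import Pool.Agent.H2.TG.Secant

/-!
# A leaf from `OO U` which passes over `U` again is in `OO U` there (module Zero)

PROOF of `zero_pos` (`0 < c`, `x ∈ OO U`, `y = Λ c x`, `y.1.1 ∈ U`). `y ∈ PS`, so `y.1.2 = 0`, `y.2 = j π`
(`PS_overU`). Let `a s = tc v x.1.1 (Λ s x).1.1` (so `a c > 0` by `pos`).
Case `j` odd. `y⁻ = (y.1, y.2 - j π) = (y.1, 0) ∈ OO U`; `y = (y⁻.1, y⁻.2 + j π)`, and by `leaf_odd` (with
`-j` or `j`) `(Λ c y⁻).1 = (Λ (-c) y).1 = x.1`. By `pos` at `y⁻`: `0 < tc v y.1.1 x.1.1 = - tc v x.1.1 y.1.1 = -a c < 0`,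
contradiction (`tc` is antisymmetric).
Case `j` even. `y⁻ = (y.1, 0) ∈ OO U`, and by `leaf_even`, `(Λ (-s) y⁻).1 = (Λ (-s) y).1 = (Λ (c - s) x).1` for all `s`;
by `neg` at `y⁻`: for `0 < s ≤ c`, `tc v y.1.1 (Λ (c - s) x).1.1 < 0`, i.e. `a (c - s) < a c` (by `leaf_q` all points
are on the line, `tc v y.1.1 q' = tc v x.1.1 q' - a c`: just linearity of the inner product).
Apply `secant` to `α = a`, `ρ s = (Λ s x).1.2`, `φ s = (Λ s x).2` on `[0, c]`: `h1` is `pos` (`a 0 = 0`), `h2` is the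
previous inequality, `hinj` is `inj_OO` together with `leaf_q` (equal `a` and equal `r` give equal
`(Λ s x).1`). So `|j π| ≤ π / 2`, `j = 0`, `y ∈ OO U`.
`zero_neg` (`c < 0`): `y = Λ c x`, again `y.1.2 = 0`, `y.2 = j π`, `y⁻ = (y.1, 0) ∈ OO U`. `j` even:
`Λ (-c) y⁻ = (x.1, x.2 - j π)` (`leaf_even`), `-c > 0` and it is over `U`, so by `zero_pos` its phase is
`0`: `x.2 - j π = -j π = 0`, `j = 0`. `j` odd: `(Λ c y⁻).1 = (Λ (-c) y).1 = x.1` (`leaf_odd`), so by `neg` at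
`y⁻`: `tc v y.1.1 x.1.1 < 0`; by `neg` at `x`: `tc v x.1.1 y.1.1 < 0`: contradiction (antisymmetry).
`zero_overU`: `c = 0` trivial; cases.
`RR_overU`: `x ∈ RR`, `x.1.1 ∈ U` implies `x ∈ OO U`: `x = Λ (-s) (Λ s x)` with `Λ s x ∈ OO U`.
`order`: if `x ∈ OO U` and `y = Λ c x`, then sign of `tc v x.1.1 y.1.1` is the sign of `c` (`pos`, `neg`).
-/

set_option autoImplicit false

open scoped ContDiff Topology RealInnerProductSpace
open Set

namespace Pool.Agent.H2.TG

open Pool.Agent.H57.NL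

variable {n : ℕ} {v : E n} {C : Set (E n × ℝ)} {U U₂ : Set (E n)} {T : ℝ}
  {κ : (E n × ℝ) × ℝ → ℝ} {Λ : ℝ → (E n × ℝ) × ℝ → (E n × ℝ) × ℝ}

private theorem tc_anti (v a b : E n) : tc v a b = -tc v b a := by
  unfold tc
  rw [← inner_neg_left, neg_sub]

private theorem tc_sub (v a b q : E n) : tc v b q = tc v a q - tc v a b := by
  unfold tc
  rw [← inner_sub_left, sub_sub_sub_cancel_right]

private theorem tc_self (v a : E n) : tc v a a = 0 := by
  unfold tc
  rw [sub_self, inner_zero_left]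

private theorem flow_back (hL : Leaf v C U U₂ T κ Λ) (c : ℝ) (x : (E n × ℝ) × ℝ) :
    Λ (-c) (Λ c x) = x := by
  rw [hL.flow.add (LF_contDiff hL.curv), neg_add_cancel, hL.flow.zero]

theorem zero_pos (hL : Leaf v C U U₂ T κ Λ) {x : (E n × ℝ) × ℝ} (hx : x ∈ OO U) {c : ℝ}
    (hc : 0 < c) (hU : (Λ c x).1.1 ∈ U) : Λ c x ∈ OO U := by
  have hxP := OO_sub hL.red hx
  have hyP := leaf_mem hL.red hL.curv hL.flow hxP c
  obtain ⟨hr, j, hj⟩ := PS_overU hL.red hyP hU
  have hback := flow_back hL c x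
  have hypos := pos hL hx hc
  have hadd : ∀ s, Λ (-s) (Λ c x) = Λ (c - s) x := by
    intro s
    rw [hL.flow.add (LF_contDiff hL.curv)]
    congr 1
    ring
  generalize hyd : Λ c x = y at hU hyP hr hj hback hypos hadd ⊢
  have hy0 : ((y.1, (0 : ℝ)) : (E n × ℝ) × ℝ) ∈ OO U := ⟨hU, hr, rfl⟩
  have hy0P := OO_sub hL.red hy0
  have hyeq : ((y.1, (0 : ℝ) + j * Real.pi) : (E n × ℝ) × ℝ) = y := by
    rw [zero_add, ← hj]
  rcases Int.even_or_odd j with he | ho
  · have hev : ∀ s, (Λ (-s) (y.1, (0 : ℝ))).1 = (Λ (c - s) x).1 := by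
      intro s
      have h1 := leaf_even hL.red hL.curv hL.flow hy0P he (-s)
      have h2 := congrArg Prod.fst h1
      simp only at h2
      rw [hyeq, hadd] at h2
      exact h2.symm
    have hsec := secant (α := fun s => tc v x.1.1 (Λ s x).1.1) (ρ := fun s => (Λ s x).1.2)
      (φ := fun s => (Λ s x).2) (c := c) hc
      (continuous_iff_continuousAt.2 fun s => (leaf_ph hL.flow x s).continuousAt)
      (fun s => leaf_tc hL.hv hL.flow x.1.1 x s) (fun s => leaf_r hL.flow x s)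
      (by
        show (Λ 0 x).2 = 0
        rw [hL.flow.zero]
        exact hx.2.2)
      (by
        intro s hs _
        show tc v x.1.1 (Λ 0 x).1.1 < tc v x.1.1 (Λ s x).1.1
        rw [hL.flow.zero, tc_self]
        exact pos hL hx hs)
      (by
        intro s _ hsc
        show tc v x.1.1 (Λ s x).1.1 < tc v x.1.1 (Λ c x).1.1
        have h1 := neg hL hy0 (s := -(c - s)) (by linarith)
        rw [hev, sub_sub_cancel] at h1
        simp only at h1
        rw [tc_sub v x.1.1 y.1.1] at h1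
        rw [hyd]
        linarith)
      (by
        intro s t _ hst _ he2
        obtain ⟨h1, h2⟩ := Prod.mk.inj he2
        have h3 : (Λ s x).1.1 = (Λ t x).1.1 := by
          rw [leaf_q hL.hv hL.flow x s, leaf_q hL.hv hL.flow x t, h1]
        exact hst.ne (inj_OO hL hx (Prod.ext h3 h2)))
    have hsec' : |(Λ c x).2| ≤ Real.pi / 2 := hsec
    rw [hyd, hj, abs_mul, abs_of_pos Real.pi_pos] at hsec'
    have hj0 : j = 0 := by
      by_contra hne
      have h1 : (1 : ℝ) ≤ |(j : ℝ)| := by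
        rw [← Int.cast_abs]
        exact_mod_cast Int.one_le_abs hne
      have h2 : Real.pi ≤ |(j : ℝ)| * Real.pi := le_mul_of_one_le_left Real.pi_pos.le h1
      linarith [Real.pi_pos]
    rw [hj0, Int.cast_zero, zero_mul] at hj
    exact ⟨hU, hr, hj⟩
  · exfalso
    have h1 := leaf_odd hL.red hL.curv hL.flow hy0P ho (-c)
    have h2 := congrArg Prod.fst h1
    simp only at h2
    rw [hyeq, hback, neg_neg] at h2
    have h3 := pos hL hy0 hc
    rw [← h2] at h3
    simp only at h3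
    rw [tc_anti] at h3
    linarith

theorem zero_neg (hL : Leaf v C U U₂ T κ Λ) {x : (E n × ℝ) × ℝ} (hx : x ∈ OO U) {c : ℝ}
    (hc : c < 0) (hU : (Λ c x).1.1 ∈ U) : Λ c x ∈ OO U := by
  have hxP := OO_sub hL.red hx
  have hyP := leaf_mem hL.red hL.curv hL.flow hxP c
  obtain ⟨hr, j, hj⟩ := PS_overU hL.red hyP hU
  have hback := flow_back hL c x
  have hyneg := neg hL hx hc
  generalize Λ c x = y at hU hyP hr hj hback hyneg ⊢
  have hy0 : ((y.1, (0 : ℝ)) : (E n × ℝ) × ℝ) ∈ OO U := ⟨hU, hr, rfl⟩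
  have hy0P := OO_sub hL.red hy0
  have hyeq : ((y.1, (0 : ℝ) + j * Real.pi) : (E n × ℝ) × ℝ) = y := by
    rw [zero_add, ← hj]
  rcases Int.even_or_odd j with he | ho
  · have h1 := leaf_even hL.red hL.curv hL.flow hy0P he (-c)
    have h2 := congrArg Prod.fst h1
    have h2' := congrArg Prod.snd h1
    simp only at h2 h2'
    rw [hyeq, hback] at h2 h2'
    have h3 : Λ (-c) (y.1, (0 : ℝ)) ∈ OO U := by
      refine zero_pos hL hy0 (by linarith) ?_
      rw [← h2]
      exact hx.1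
    have h4 : (Λ (-c) (y.1, (0 : ℝ))).2 = 0 := h3.2.2
    rw [h4, hx.2.2, zero_add] at h2'
    exact ⟨hU, hr, hj.trans h2'.symm⟩
  · exfalso
    have h1 := leaf_odd hL.red hL.curv hL.flow hy0P ho (-c)
    have h2 := congrArg Prod.fst h1
    simp only at h2
    rw [hyeq, hback, neg_neg] at h2
    have h3 := neg hL hy0 hc
    rw [← h2] at h3
    simp only at h3
    rw [tc_anti] at h3
    linarith

theorem zero_overU (hL : Leaf v C U U₂ T κ Λ) {x : (E n × ℝ) × ℝ} (hx : x ∈ OO U) {c : ℝ}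
    (hU : (Λ c x).1.1 ∈ U) : Λ c x ∈ OO U := by
  rcases lt_trichotomy c 0 with hc | hc | hc
  · exact zero_neg hL hx hc hU
  · rw [hc, hL.flow.zero]
    exact hx
  · exact zero_pos hL hx hc hU

theorem RR_overU (hL : Leaf v C U U₂ T κ Λ) {x : (E n × ℝ) × ℝ} (hx : x ∈ RR v C U Λ) {c : ℝ}
    (hU : (Λ c x).1.1 ∈ U) : Λ c x ∈ OO U := by
  obtain ⟨-, s, hs⟩ := hx
  have h1 : Λ c x = Λ (c - s) (Λ s x) := by
    rw [hL.flow.add (LF_contDiff hL.curv), sub_add_cancel]
  rw [h1] at hU ⊢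
  exact zero_overU hL hs hU

end Pool.Agent.H2.TG
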